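import Pool.Agent.Helper43.TA.Defs
import Pool.Agent.Helper96.SA.Rank

/-!
# Project TA (MP_0f6f3f_an): Lie subalgebras of `lie G`, definitions

`LSub G s`: `s` is a Lie subalgebra of `lie G`, closed under transposition. `IsSim s`: `s` is simple. `NoCen s`: no nonzero symmetric matrix in `s` commutes with `s`.
`FlatIn s V`: `V ≤ s` is a vector space of commuting symmetric matrices.
-/

set_option autoImplicit false

open Matrix

namespace Pool.Agent.Helper43.TA

open Pool.Agent.Helper96.SA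

variable {M : ℕ}

/-- `s` is a Lie subalgebra of `lie G`, closed under transposition. -/
structure LSub (G : Subgroup (GL (Fin M) ℝ)) (s : Submodule ℝ (Mat M)) : Prop where
  mem : ∀ X ∈ s, X ∈ lie G
  brk : ∀ X ∈ s, ∀ Y ∈ s, X * Y - Y * X ∈ s
  tr : ∀ X ∈ s, Xᵀ ∈ s

/-- `s` is not commutative and has no ideals except `0` and itself. -/
structure IsSim (s : Submodule ℝ (Mat M)) : Prop where
  ne : ∃ X ∈ s, ∃ Y ∈ s, X * Y ≠ Y * X
  ideal : ∀ I : Submodule ℝ (Mat M), I ≤ s → (∀ X ∈ I, ∀ Y ∈ s, Y * X - X * Y ∈ I) → I = ⊥ ∨ I = s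

/-- No nonzero symmetric matrix in `s` commutes with `s`. -/
def NoCen (s : Submodule ℝ (Mat M)) : Prop := ∀ X ∈ s, Xᵀ = X → (∀ Y ∈ s, X * Y = Y * X) → X = 0

/-- `V ≤ s` is a vector space of commuting symmetric matrices. -/
structure FlatIn (s V : Submodule ℝ (Mat M)) : Prop where
  le : V ≤ s
  symm : ∀ X ∈ V, Xᵀ = X
  comm : ∀ X ∈ V, ∀ Y ∈ V, X * Y = Y * X

end Pool.Agent.Helper43.TA
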