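import Pool.Agent.Helper43.TA.SMaut

/-!
# Block TYA-STWO: `TwoF` from a simple Lie algebra, discrete nonamenable groups

`twoF_of_sim`. PROOF. `V'` from `exists_maxFlatIn hV`, `r ≤ finrank V ≤ finrank V'`; `H i`, `X i` from `exists_roots'` for `V'` (with `noCen_of_sim`), and as in the proof of `rankGE_flat` (`Helper96/SA/GE.lean`, with `sl2_of_root'` for `sl2_of_root`) `a i = ex (H i)`, `u i = ex (s_i X i)`, `w i = ex (s_i (X i)ᵀ)` as elements of `↥G`, for `i < r`
(`Fin.castLE`); they commute with `F` by `ex_commute` and `hF`. `mt`: `mautner_lie` with `H = H 0` (`H 0 ≠ 0`: `[H 0, X 0] = X 0 ≠ 0`), `Y = H j`.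
`exists_discrete`. PROOF. `V := span {H}` is flat, `V'` from `exists_maxFlatIn`, `finrank V' ≥ 1`; `H 0`, `X 0` from `exists_roots'`; `F := closure {u, w}` with `u = ex (s_0 X 0)`, `w = ex (s_0 (X 0)ᵀ)` as above. Every `f ∈ F` commutes with all `Y` which commute with `X 0` and `(X 0)ᵀ` (`Subgroup.closure_induction`; the matrix `exp X` commutes with `Y` if `X` does: `Commute.exp_left` or `ex_commute` for...; for the
matrices themselves use `NormedSpace.exp` and `Commute`: `(Commute.exp_left)` in the Banach algebra of matrices, or the power series).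
-/

set_option autoImplicit false

open Matrix Topology Filter

namespace Pool.Agent.Helper43.TA

open Pool.Agent.Helper96.SA Pool.Agent.Helper96.FR

variable {M : ℕ} {G : Subgroup (GL (Fin M) ℝ)} {s : Submodule ℝ (Mat M)}

private theorem ex_comm32 {X Y : Mat M} (h : X * Y = Y * X) : ex X * ex Y = ex Y * ex X := by
  rw [← ex_add h, ← ex_add h.symm, add_comm]

/-- the spectral theorem -/
private theorem spec32 {H : Mat M} (hs : Hᵀ = H) : ∃ (O : Mat M) (d : Fin M → ℝ), Oᵀ * O = 1 ∧ O * Oᵀ = 1 ∧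
    H = O * diagonal d * Oᵀ := by
  have hH : H.IsHermitian := by
    unfold Matrix.IsHermitian
    rw [Matrix.conjTranspose_eq_transpose_of_trivial, hs]
  refine ⟨hH.eigenvectorUnitary, hH.eigenvalues, ?_, ?_, ?_⟩
  · have h := Unitary.coe_star_mul_self hH.eigenvectorUnitary
    rwa [Matrix.star_eq_conjTranspose, Matrix.conjTranspose_eq_transpose_of_trivial] at h
  · have h := Unitary.coe_mul_star_self hH.eigenvectorUnitary
    rwa [Unitary.coe_star, Matrix.star_eq_conjTranspose, Matrix.conjTranspose_eq_transpose_of_trivial] at h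
  · have h := hH.spectral_theorem
    rw [Unitary.conjStarAlgAut_apply, Matrix.star_eq_conjTranspose,
      Matrix.conjTranspose_eq_transpose_of_trivial] at h
    exact h

private theorem smul_spec32 (O : Mat M) (d : Fin M → ℝ) (t : ℝ) :
    t • (O * diagonal d * Oᵀ) = O * diagonal (fun i => t * d i) * Oᵀ := by
  have e : diagonal (fun i => t * d i) = t • diagonal d := by
    rw [← Matrix.diagonal_smul]
    rfl
  rw [e, Matrix.mul_smul, Matrix.smul_mul]

/-- conjugation by the exponential -/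
private theorem conj32 {H X : Mat M} (hs : Hᵀ = H) (h : H * X - X * H = X) (t : ℝ) :
    NormedSpace.exp (-(t • H)) * X * NormedSpace.exp (t • H) = Real.exp (-t) • X := by
  obtain ⟨O, d, h1, h2, rfl⟩ := spec32 hs
  have e1 : -(t • (O * diagonal d * Oᵀ)) = O * diagonal (fun i => -t * d i) * Oᵀ := by
    rw [← neg_smul, smul_spec32]
  rw [e1, smul_spec32, exp_diag O h1 h2, exp_diag O h1 h2]
  -- in the basis of eigenvectors
  have key : diagonal (fun i => Real.exp (-t * d i)) * (Oᵀ * X * O) * diagonal (fun i => Real.exp (t * d i)) =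
      Real.exp (-t) • (Oᵀ * X * O) := by
    have h3 : diagonal d * (Oᵀ * X * O) - (Oᵀ * X * O) * diagonal d = Oᵀ * X * O := by
      have h4 : Oᵀ * (O * diagonal d * Oᵀ * X - X * (O * diagonal d * Oᵀ)) * O = Oᵀ * X * O := by rw [h]
      refine Eq.trans ?_ h4
      rw [Matrix.mul_sub, Matrix.sub_mul]
      congr 1
      · calc diagonal d * (Oᵀ * X * O) = 1 * diagonal d * Oᵀ * X * O := by
              rw [Matrix.one_mul]; simp only [Matrix.mul_assoc]
          _ = Oᵀ * O * diagonal d * Oᵀ * X * O := by rw [h1]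
          _ = _ := by simp only [Matrix.mul_assoc]
      · calc Oᵀ * X * O * diagonal d = Oᵀ * X * O * diagonal d * 1 := by rw [Matrix.mul_one]
          _ = Oᵀ * X * O * diagonal d * (Oᵀ * O) := by rw [h1]
          _ = _ := by simp only [Matrix.mul_assoc]
    ext i j
    have h5 := congrFun (congrFun h3 i) j
    rw [Matrix.sub_apply, Matrix.diagonal_mul, Matrix.mul_diagonal] at h5
    rw [Matrix.mul_diagonal, Matrix.diagonal_mul, Matrix.smul_apply, smul_eq_mul]
    set y := (Oᵀ * X * O) i j with hy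
    by_cases hy0 : y = 0
    · rw [hy0]
      ring
    · have h6 : d i - d j = 1 := by
        have : (d i - d j) * y = 1 * y := by linarith
        exact mul_right_cancel₀ hy0 this
      have h7 : Real.exp (-t * d i) * y * Real.exp (t * d j) = Real.exp (-t * d i + t * d j) * y := by
        rw [Real.exp_add]
        ring
      rw [h7]
      congr 2
      have : d i = d j + 1 := by linarith
      rw [this]
      ring
  calc O * diagonal (fun i => Real.exp (-t * d i)) * Oᵀ * X * (O * diagonal (fun i => Real.exp (t * d i)) * Oᵀ) =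
      O * (diagonal (fun i => Real.exp (-t * d i)) * (Oᵀ * X * O) * diagonal (fun i => Real.exp (t * d i))) * Oᵀ := by
        simp only [Matrix.mul_assoc]
    _ = O * (Real.exp (-t) • (Oᵀ * X * O)) * Oᵀ := by rw [key]
    _ = Real.exp (-t) • (O * Oᵀ * X * (O * Oᵀ)) := by
        rw [Matrix.mul_smul, Matrix.smul_mul]
        simp only [Matrix.mul_assoc]
    _ = Real.exp (-t) • X := by rw [h2, Matrix.one_mul, Matrix.mul_one]

private theorem conjT32 {H X : Mat M} (hs : Hᵀ = H) (h : H * X - X * H = X) (t : ℝ) :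
    NormedSpace.exp (t • H) * Xᵀ * NormedSpace.exp (-(t • H)) = Real.exp (-t) • Xᵀ := by
  have h1 := congrArg Matrix.transpose (conj32 hs h t)
  rw [Matrix.transpose_mul, Matrix.transpose_mul, Matrix.transpose_smul, ← Matrix.exp_transpose,
    ← Matrix.exp_transpose, Matrix.transpose_neg, Matrix.transpose_smul, hs, ← Matrix.mul_assoc] at h1
  exact h1

/-- conjugation in the group -/
private theorem gconj32 {H X : Mat M} (hs : Hᵀ = H) (h : H * X - X * H = X) (s : ℝ) (m : ℕ) :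
    (ex H ^ m)⁻¹ * ex (s • X) * ex H ^ m = ex ((s * Real.exp (-(m : ℝ))) • X) := by
  have h1 := ex_conj ((ex H ^ m)⁻¹) (s • X)
  rw [inv_inv] at h1
  rw [← h1]
  congr 1
  have e1 : ((ex H ^ m : GL (Fin M) ℝ) : Mat M) = NormedSpace.exp ((m : ℝ) • H) := by
    rw [← ex_nsmul, ex_coe]
  have e2 : (((ex H ^ m)⁻¹ : GL (Fin M) ℝ) : Mat M) = NormedSpace.exp (-((m : ℝ) • H)) := by
    rw [← ex_nsmul, ← ex_neg, ex_coe]
  rw [e1, e2, Matrix.mul_smul, Matrix.smul_mul, conj32 hs h, smul_smul]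

private theorem gconjT32 {H X : Mat M} (hs : Hᵀ = H) (h : H * X - X * H = X) (s : ℝ) (m : ℕ) :
    ex H ^ m * ex (s • Xᵀ) * (ex H ^ m)⁻¹ = ex ((s * Real.exp (-(m : ℝ))) • Xᵀ) := by
  have h1 := ex_conj (ex H ^ m) (s • Xᵀ)
  rw [← h1]
  congr 1
  have e1 : ((ex H ^ m : GL (Fin M) ℝ) : Mat M) = NormedSpace.exp ((m : ℝ) • H) := by
    rw [← ex_nsmul, ex_coe]
  have e2 : (((ex H ^ m)⁻¹ : GL (Fin M) ℝ) : Mat M) = NormedSpace.exp (-((m : ℝ) • H)) := by
    rw [← ex_nsmul, ← ex_neg, ex_coe]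
  rw [e1, e2, Matrix.mul_smul, Matrix.smul_mul, conjT32 hs h, smul_smul]

private theorem tend32 (X : Mat M) (s : ℝ) :
    Tendsto (fun m : ℕ => ex ((s * Real.exp (-(m : ℝ))) • X)) atTop (𝓝 1) := by
  have h1 : Tendsto (fun m : ℕ => (s * Real.exp (-(m : ℝ))) • X) atTop (𝓝 ((s * 0) • X)) := by
    refine Tendsto.smul_const (Tendsto.const_mul s ?_) X
    exact (Real.tendsto_exp_neg_atTop_nhds_zero).comp tendsto_natCast_atTop_atTop
  rw [mul_zero, zero_smul] at h1
  have h2 := (continuous_ex.tendsto (0 : Mat M)).comp h1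
  rwa [ex_zero] at h2

private theorem map32 (x y : G) : (Subgroup.closure {x, y}).map G.subtype =
    Subgroup.closure {(x : GL (Fin M) ℝ), (y : GL (Fin M) ℝ)} := by
  rw [MonoidHom.map_closure, Set.image_pair]
  rfl

private theorem disc32 (x y : G) (h : DiscreteTopology (Subgroup.closure {(x : GL (Fin M) ℝ), (y : GL (Fin M) ℝ)})) :
    DiscreteTopology (Subgroup.closure {x, y}) := by
  rw [← map32] at h
  let f : Subgroup.closure {x, y} → (Subgroup.closure {x, y}).map G.subtype :=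
    fun z => ⟨((z : G) : GL (Fin M) ℝ), ⟨z, z.2, rfl⟩⟩
  have hf : Continuous f := by
    refine Continuous.subtype_mk ?_ _
    exact continuous_subtype_val.comp continuous_subtype_val
  refine DiscreteTopology.of_continuous_injective hf fun z z' hzz => ?_
  have h2 : (f z : GL (Fin M) ℝ) = f z' := by rw [hzz]
  exact Subtype.ext (Subtype.ext h2)

private theorem nonam32 (x y : G) (h : Pool.Agent.Helper90.RK.NonAm (Subgroup.closure {(x : GL (Fin M) ℝ), (y : GL (Fin M) ℝ)})) :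
    Pool.Agent.Helper90.RK.NonAm (Subgroup.closure {x, y}) := by
  rw [Pool.Agent.Helper66.RK.nonAm_iff] at h ⊢
  intro hA
  apply h
  rw [← map32]
  exact hA.congr ((Subgroup.closure {x, y}).equivMapOfInjective G.subtype G.subtype_injective)

theorem twoF_of_sim (hG : IsClosed (G : Set (GL (Fin M) ℝ))) (hs : LSub G s) (hsim : IsSim s)
    {F : Subgroup G} (hF : ∀ f ∈ F, ∀ Y ∈ s, ((f : GL (Fin M) ℝ) : Mat M) * Y = Y * ((f : GL (Fin M) ℝ) : Mat M))
    {V : Submodule ℝ (Mat M)} (hV : FlatIn s V) {r : ℕ} (hr : r ≤ Module.finrank ℝ V) : TwoF r F := by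
  obtain ⟨V', hVV, hV', hmax⟩ := exists_maxFlatIn hV
  have hr' : r ≤ Module.finrank ℝ V' := hr.trans (Submodule.finrank_mono hVV)
  obtain ⟨H, X, hH, hX, hX0, hbr, hroot⟩ := exists_roots' hs (noCen_of_sim hsim) hV'
  have h1 : ∀ i, H i * X i - X i * H i = X i := fun i => by rw [hbr, if_pos rfl]
  have hsy : ∀ i, (H i)ᵀ = H i := fun i => hV'.symm _ (hH i)
  have hHs : ∀ i, H i ∈ s := fun i => hV'.le (hH i)
  have hH0 : ∀ i, H i ≠ 0 := by
    intro i h0
    apply hX0 i
    have h2 := h1 i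
    rw [h0, zero_mul, mul_zero, sub_zero] at h2
    exact h2.symm
  have hd : ∀ i, ∃ c : ℝ, 0 < c ∧ DiscreteTopology (Subgroup.closure {ex (c • X i), ex (c • (X i)ᵀ)}) ∧
      Pool.Agent.Helper90.RK.NonAm (Subgroup.closure {ex (c • X i), ex (c • (X i)ᵀ)}) := by
    intro i
    obtain ⟨_, c, hc, h2⟩ := sl2_of_root' hs hV' hmax (hH i) (hX i) (hX0 i) (hroot i) (h1 i)
    exact discrete_nonAm (X i) (hX0 i) c hc h2
  choose c hc0 hdis hna using hd
  let ι : Fin r → Fin (Module.finrank ℝ V') := Fin.castLE hr'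
  have hι : ∀ i j : Fin r, i ≠ j → ι i ≠ ι j := fun i j hij h => hij (Fin.castLE_injective hr' h)
  let a : Fin r → G := fun i => ⟨ex (H (ι i)), by
    have h := mem_lie.1 (hs.mem _ (hHs (ι i))) 1
    rwa [one_smul] at h⟩
  let u : Fin r → G := fun i => ⟨ex (c (ι i) • X (ι i)), mem_lie.1 (hs.mem _ (hX (ι i))) (c (ι i))⟩
  let w : Fin r → G := fun i => ⟨ex (c (ι i) • (X (ι i))ᵀ), mem_lie.1 (hs.mem _ (hs.tr _ (hX (ι i)))) (c (ι i))⟩
  have hcomm : ∀ i j, i ≠ j → H j * X i = X i * H j := by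
    intro i j hij
    have h := hbr j i
    rw [if_neg (Ne.symm hij)] at h
    exact sub_eq_zero.1 h
  have hcommT : ∀ i j, i ≠ j → H j * (X i)ᵀ = (X i)ᵀ * H j := by
    intro i j hij
    have h := congrArg Matrix.transpose (hcomm i j hij)
    rw [Matrix.transpose_mul, Matrix.transpose_mul, hsy] at h
    exact h.symm
  refine ⟨a, u, w, ?_, ?_, ?_, ?_, ?_⟩
  · intro i f hf
    refine ⟨Subtype.ext (ex_commute (hF f hf _ (hHs (ι i)))), Subtype.ext (ex_commute (hF f hf _ (s.smul_mem _ (hX (ι i))))),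
      Subtype.ext (ex_commute (hF f hf _ (s.smul_mem _ (hs.tr _ (hX (ι i))))))⟩
  · intro i j
    exact Subtype.ext (ex_comm32 (hV'.comm _ (hH (ι i)) _ (hH (ι j))))
  · intro i j hij
    refine ⟨Subtype.ext (ex_comm32 ?_), Subtype.ext (ex_comm32 ?_)⟩
    · rw [Matrix.mul_smul, Matrix.smul_mul, hcomm (ι j) (ι i) (hι j i (Ne.symm hij))]
    · rw [Matrix.mul_smul, Matrix.smul_mul, hcommT (ι j) (ι i) (hι j i (Ne.symm hij))]
  · intro i
    refine ⟨?_, ?_, disc32 (u i) (w i) (hdis (ι i)), nonam32 (u i) (w i) (hna (ι i))⟩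
    · rw [tendsto_subtype_rng]
      refine (tend32 (X (ι i)) (c (ι i))).congr fun m => ?_
      exact (gconj32 (hsy (ι i)) (h1 (ι i)) (c (ι i)) m).symm
    · rw [tendsto_subtype_rng]
      refine (tend32 (X (ι i))ᵀ (c (ι i))).congr fun m => ?_
      exact (gconjT32 (hsy (ι i)) (h1 (ι i)) (c (ι i)) m).symm
  · intro i j _
    exact mautner_lie hG hs hsim hF (hHs (ι i)) (hsy (ι i)) (hH0 (ι i)) (a := a i) (b := a j) rfl (hHs (ι j)) rfl

private theorem flat32 {H : Mat M} (hH : H ∈ s) (hH1 : Hᵀ = H) : FlatIn s (Submodule.span ℝ {H}) := by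
  refine ⟨?_, ?_, ?_⟩
  · rw [Submodule.span_singleton_le_iff_mem]
    exact hH
  · intro X hX
    obtain ⟨c, rfl⟩ := Submodule.mem_span_singleton.1 hX
    rw [Matrix.transpose_smul, hH1]
  · intro X hX Y hY
    obtain ⟨c, rfl⟩ := Submodule.mem_span_singleton.1 hX
    obtain ⟨d, rfl⟩ := Submodule.mem_span_singleton.1 hY
    rw [smul_mul_smul_comm, smul_mul_smul_comm, mul_comm c d]

theorem exists_discrete (hG : IsClosed (G : Set (GL (Fin M) ℝ))) (hs : LSub G s) (hsemi : NoCen s)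
    {H : Mat M} (hH : H ∈ s) (hH1 : Hᵀ = H) (hH0 : H ≠ 0) :
    ∃ F : Subgroup G, DiscreteTopology F ∧ Pool.Agent.Helper90.RK.NonAm F ∧
      ∀ f ∈ F, ∀ Y : Mat M, (∀ X ∈ s, X * Y = Y * X) → ((f : GL (Fin M) ℝ) : Mat M) * Y = Y * ((f : GL (Fin M) ℝ) : Mat M) := by
  obtain ⟨V', hVV, hV', hmax⟩ := exists_maxFlatIn (flat32 hH hH1)
  have hfin : 0 < Module.finrank ℝ V' := by
    rw [Module.finrank_pos_iff]
    refine ⟨⟨⟨H, hVV (Submodule.mem_span_singleton_self H)⟩, 0, fun h => hH0 ?_⟩⟩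
    exact congrArg Subtype.val h
  obtain ⟨H', X, hH', hX, hX0, hbr, hroot⟩ := exists_roots' hs hsemi hV'
  obtain ⟨i, _⟩ : ∃ i : Fin (Module.finrank ℝ V'), (i : ℕ) = 0 := ⟨⟨0, hfin⟩, rfl⟩
  have h1 : H' i * X i - X i * H' i = X i := by rw [hbr, if_pos rfl]
  obtain ⟨_, c, hc, h2⟩ := sl2_of_root' hs hV' hmax (hH' i) (hX i) (hX0 i) (hroot i) h1
  obtain ⟨t, ht0, hdis, hna⟩ := discrete_nonAm (X i) (hX0 i) c hc h2
  let u : G := ⟨ex (t • X i), mem_lie.1 (hs.mem _ (hX i)) t⟩
  let w : G := ⟨ex (t • (X i)ᵀ), mem_lie.1 (hs.mem _ (hs.tr _ (hX i))) t⟩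
  refine ⟨Subgroup.closure {u, w}, disc32 u w hdis, nonam32 u w hna, ?_⟩
  intro f hf Y hY
  have hu : ∀ Z ∈ s, NormedSpace.exp Z * Y = Y * NormedSpace.exp Z := fun Z hZ =>
    (Commute.exp_left (hY Z hZ))
  refine Subgroup.closure_induction (p := fun (f : G) _ => ((f : GL (Fin M) ℝ) : Mat M) * Y = Y * ((f : GL (Fin M) ℝ) : Mat M))
    ?_ ?_ ?_ ?_ hf
  · intro x hx
    rcases hx with rfl | hx
    · exact hu _ (s.smul_mem t (hX i))
    · rw [Set.mem_singleton_iff] at hx
      rw [hx]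
      exact hu _ (s.smul_mem t (hs.tr _ (hX i)))
  · rw [Subgroup.coe_one, Units.val_one, one_mul, mul_one]
  · intro x y _ _ hx hy
    rw [Subgroup.coe_mul, Units.val_mul, mul_assoc, hy, ← mul_assoc, hx, mul_assoc]
  · intro x _ hx
    rw [Subgroup.coe_inv]
    have h3 : Commute ((x : GL (Fin M) ℝ) : Mat M) Y := hx
    exact (h3.units_inv_left).eq

end Pool.Agent.Helper43.TA
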