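import Pool.Agent.Helper96.SA.Final

/-!
# Block TYA-SREP: discrete subgroups of `SL(n, 𝕜)` and `PSL(n, 𝕜)` have representations of type A

PROOF of `rep_SL`. `ι g := (g : Matrix (Fin n) (Fin n) 𝕜).map ofReal-ish`: for `𝕜 = ℝ` or `ℂ` use an isometric ring homomorphism `φ : 𝕜 →+* ℂ`: `algebraMap ℝ ℂ` and `RingHom.id ℂ`; so prove it for a field `𝕜` as in `rankGE_SL` with `φ : 𝕜 →+* ℂ`, `‖φ x‖ = ‖x‖` and then take `𝕜 = ℝ, ℂ`. `proper`: a bounded closed set of `SL(n, 𝕜)` is compact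
(closed in the matrices, `det = 1`), a discrete subgroup of a Hausdorff group is closed, so its intersection with a compact set is finite (compact and discrete).
`rep_PSL`. `ι g :=` the matrix of a representative of `g` (`Quotient.out`); `ι (g h)` and `ι g ι h` differ by an element of the centre, a scalar matrix `c` with `c ^ n = 1` (`Matrix.SpecialLinearGroup.mem_center_iff`), so `‖c‖ = 1`. `proper`: the set of the classes of the bounded elements is compact (image of a compact set), so it contains finitely many elements of the discrete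
subgroup `Γ`. (`n = 0`: the groups are trivial: a subsingleton.) `instT2PSL` (`Helper96/SA/Final.lean`) for `ℝ`, the same proof for `ℂ`.
-/

set_option autoImplicit false

open Matrix

namespace Pool.Agent.Helper43.TA

open Pool.Agent.Helper66.RKS

section Aux6

variable {𝕜 : Type} [RCLike 𝕜] {n : ℕ}

private theorem fin6 {G : Type} [Group G] [TopologicalSpace G] [IsTopologicalGroup G] [T2Space G] (Γ : Subgroup G)
    (h : DiscreteTopology Γ) {K : Set G} (hK : IsCompact K) : {g : Γ | (g : G) ∈ K}.Finite := by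
  have hcl : IsClosed (Γ : Set G) := Subgroup.isClosed_of_discrete
  have hemb : Topology.IsClosedEmbedding (Subtype.val : Γ → G) := hcl.isClosedEmbedding_subtypeVal
  have h1 : IsCompact ((Subtype.val : Γ → G) ⁻¹' K) := hemb.isCompact_preimage hK
  exact isCompact_iff_finite.1 h1

private theorem cpt6 (R : ℝ) : IsCompact {A : SpecialLinearGroup (Fin n) 𝕜 | ∀ i j, ‖A.1 i j‖ ≤ R} := by
  refine Pool.Agent.Helper96.FR.isCompact_SL ?_ (M := R) fun A hA x y => hA x y
  have hc : ∀ i j, Continuous fun A : SpecialLinearGroup (Fin n) 𝕜 => ‖A.1 i j‖ := by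
    intro i j
    have h2 : Continuous fun A : SpecialLinearGroup (Fin n) 𝕜 => (A.1 : Matrix (Fin n) (Fin n) 𝕜) :=
      continuous_subtype_val
    exact (h2.matrix_elem i j).norm
  have e : {A : SpecialLinearGroup (Fin n) 𝕜 | ∀ i j, ‖A.1 i j‖ ≤ R} =
      ⋂ i, ⋂ j, {A : SpecialLinearGroup (Fin n) 𝕜 | ‖A.1 i j‖ ≤ R} := by
    ext A
    simp only [Set.mem_ofPred_eq, Set.mem_iInter]
  rw [e]
  exact isClosed_iInter fun i => isClosed_iInter fun j => isClosed_le (hc i j) continuous_const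

private theorem repSL6 (φ : 𝕜 →+* ℂ) (hφ : ∀ x, ‖φ x‖ = ‖x‖) (Γ : Subgroup (SpecialLinearGroup (Fin n) 𝕜))
    (h : DiscreteTopology Γ) : Nonempty (PRep Γ n) := by
  refine ⟨⟨fun g => (g.1.1).map φ, fun g => ?_, fun g h => ⟨1, norm_one, ?_⟩, fun R => ?_⟩⟩
  · have h1 : ((g.1.1).map φ).det = φ (g.1.1).det := by
      rw [← RingHom.mapMatrix_apply, ← RingHom.map_det]
    rw [h1, g.1.2, map_one, norm_one]
  · rw [one_smul]
    show ((g.1.1 * h.1.1).map φ) = _
    rw [Matrix.map_mul]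
  · refine (fin6 Γ h (cpt6 (𝕜 := 𝕜) (n := n) R)).subset fun g hg i j => ?_
    have h1 := hg i j
    rw [Matrix.map_apply, hφ] at h1
    exact h1

private theorem repPSL6 (φ : 𝕜 →+* ℂ) (hφ : ∀ x, ‖φ x‖ = ‖x‖) (Γ : Subgroup (ProjectiveSpecialLinearGroup (Fin n) 𝕜))
    (h : DiscreteTopology Γ) : Nonempty (PRep Γ n) := by
  rcases n with _ | r
  · have hs : Subsingleton (ProjectiveSpecialLinearGroup (Fin 0) 𝕜) := by
      refine ⟨fun a b => ?_⟩
      obtain ⟨x, rfl⟩ := QuotientGroup.mk_surjective a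
      obtain ⟨y, rfl⟩ := QuotientGroup.mk_surjective b
      rw [Subsingleton.elim x y]
    refine ⟨⟨fun g => 1, fun g => ?_, fun g h => ⟨1, norm_one, ?_⟩, fun R => ?_⟩⟩
    · rw [det_one, norm_one]
    · rw [one_smul, mul_one]
    · exact Set.toFinite _
  · have hT2 : T2Space (ProjectiveSpecialLinearGroup (Fin (r + 1)) 𝕜) := by
      have : IsClosed (Subgroup.center (SpecialLinearGroup (Fin (r + 1)) 𝕜) : Set (SpecialLinearGroup (Fin (r + 1)) 𝕜)) :=
        Pool.Agent.Helper96.FR.isCompact_center.isClosed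
      have h3 : T3Space (SpecialLinearGroup (Fin (r + 1)) 𝕜 ⧸ Subgroup.center (SpecialLinearGroup (Fin (r + 1)) 𝕜)) :=
        @QuotientGroup.instT3Space _ _ _ _ _ _ this
      exact (inferInstance : T2Space (SpecialLinearGroup (Fin (r + 1)) 𝕜 ⧸ Subgroup.center (SpecialLinearGroup (Fin (r + 1)) 𝕜)))
    have hout : ∀ x : ProjectiveSpecialLinearGroup (Fin (r + 1)) 𝕜,
        ((Quotient.out x : SpecialLinearGroup (Fin (r + 1)) 𝕜) : ProjectiveSpecialLinearGroup (Fin (r + 1)) 𝕜) = x :=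
      fun x => QuotientGroup.out_eq' x
    refine ⟨⟨fun g => ((Quotient.out g.1 : SpecialLinearGroup (Fin (r + 1)) 𝕜).1).map φ, fun g => ?_, fun g h => ?_,
      fun R => ?_⟩⟩
    · have h1 : (((Quotient.out g.1 : SpecialLinearGroup (Fin (r + 1)) 𝕜).1).map φ).det =
          φ (Quotient.out g.1 : SpecialLinearGroup (Fin (r + 1)) 𝕜).1.det := by
        rw [← RingHom.mapMatrix_apply, ← RingHom.map_det]
      rw [h1, (Quotient.out g.1 : SpecialLinearGroup (Fin (r + 1)) 𝕜).2, map_one, norm_one]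
    · obtain ⟨a, ha⟩ : ∃ a, a = (Quotient.out g.1 : SpecialLinearGroup (Fin (r + 1)) 𝕜) := ⟨_, rfl⟩
      obtain ⟨b, hb⟩ : ∃ b, b = (Quotient.out h.1 : SpecialLinearGroup (Fin (r + 1)) 𝕜) := ⟨_, rfl⟩
      obtain ⟨c, hc⟩ : ∃ c, c = (Quotient.out (g * h).1 : SpecialLinearGroup (Fin (r + 1)) 𝕜) := ⟨_, rfl⟩
      rw [← ha, ← hb, ← hc]
      have h1 : (((a * b : SpecialLinearGroup (Fin (r + 1)) 𝕜) : ProjectiveSpecialLinearGroup (Fin (r + 1)) 𝕜)) =
          (c : ProjectiveSpecialLinearGroup (Fin (r + 1)) 𝕜) := by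
        rw [QuotientGroup.mk_mul, ha, hb, hc, hout, hout, hout]
        rfl
      have h2 : (a * b)⁻¹ * c ∈ Subgroup.center (SpecialLinearGroup (Fin (r + 1)) 𝕜) := QuotientGroup.eq.1 h1
      obtain ⟨z, hz, hzA⟩ := Matrix.SpecialLinearGroup.mem_center_iff.1 h2
      have hz1 : ‖z‖ = 1 := by
        have h3 := congrArg norm hz
        rw [norm_pow, norm_one, Fintype.card_fin] at h3
        exact (pow_eq_one_iff_of_nonneg (norm_nonneg z) (Nat.succ_ne_zero r)).1 h3
      refine ⟨φ z, by rw [hφ, hz1], ?_⟩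
      have h4 : c = (a * b) * ((a * b)⁻¹ * c) := by group
      have h5 : c.1 = (a.1 * b.1) * scalar (Fin (r + 1)) z := by
        rw [hzA]
        exact congrArg Subtype.val h4
      have h6 : c.1 = z • (a.1 * b.1) := by
        rw [h5, scalar_apply, ← smul_one_eq_diagonal, mul_smul_comm, mul_one]
      rw [h6]
      ext i j
      rw [Matrix.map_apply, Matrix.smul_apply, smul_eq_mul, map_mul, Matrix.smul_apply, smul_eq_mul, ← Matrix.map_mul,
        Matrix.map_apply]
    · have hK := (cpt6 (𝕜 := 𝕜) (n := r + 1) R).image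
        (QuotientGroup.continuous_mk (N := Subgroup.center (SpecialLinearGroup (Fin (r + 1)) 𝕜)))
      refine (fin6 Γ h hK).subset fun g hg => ?_
      refine ⟨Quotient.out g.1, fun i j => ?_, hout g.1⟩
      have h1 := hg i j
      rw [Matrix.map_apply, hφ] at h1
      exact h1

end Aux6

theorem rep_SLR {n : ℕ} (Γ : Subgroup (SpecialLinearGroup (Fin n) ℝ)) (h : DiscreteTopology Γ) : Nonempty (PRep Γ n) := repSL6 (algebraMap ℝ ℂ) (fun x => by simp) Γ h

theorem rep_SLC {n : ℕ} (Γ : Subgroup (SpecialLinearGroup (Fin n) ℂ)) (h : DiscreteTopology Γ) : Nonempty (PRep Γ n) := repSL6 (RingHom.id ℂ) (fun x => by simp) Γ h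

theorem rep_PSLR {n : ℕ} (Γ : Subgroup (ProjectiveSpecialLinearGroup (Fin n) ℝ)) (h : DiscreteTopology Γ) :
    Nonempty (PRep Γ n) :=
  repPSL6 (algebraMap ℝ ℂ) (fun x => by simp) Γ h

theorem rep_PSLC {n : ℕ} (Γ : Subgroup (ProjectiveSpecialLinearGroup (Fin n) ℂ)) (h : DiscreteTopology Γ) :
    Nonempty (PRep Γ n) :=
  repPSL6 (RingHom.id ℂ) (fun x => by simp) Γ h

end Pool.Agent.Helper43.TA
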