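import Pool.Agent.Helper96.RK.Ty2

/-!
# Project TA (MP_0f6f3f_an): scales of gaps, definitions

`TJ S j m`: the elements with at least `j` scales of gaps, separated by `m`: there is a strictly decreasing chain `c` of `j` sets with `γ ∈ TC S c m`.
`KB J β`: the gaps inside the block with number `β` of the type `J`. `TwoL S R`: two gaps are larger than `R`. `GapL S q R`: the gap after `q` is larger than `R`.
-/

set_option autoImplicit false

open Filter Topology

namespace Pool.Agent.Helper43.TA

open Pool.Agent.Helper84.NI Pool.Agent.Helper90.RK Pool.Agent.Helper96.RK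

variable {G : Type} [Group G] {N : ℕ} {P : PH G N} (S : Sv P)

/-- The elements with at least `j` scales of gaps, separated by `m`. -/
def TJ (j m : ℕ) : Set G := {γ | ∃ c : List (Finset (Fin N)), c.length = j ∧ IsCh c ∧ γ ∈ TC S c m}

open Classical in
/-- The gaps inside the block with number `β` of the type `J`. -/
noncomputable def KB (J : Finset (Fin N)) (β : ℕ) : Finset (Fin N) := J.filter fun i => bJ J i = β

theorem mem_KB {J : Finset (Fin N)} {β : ℕ} {i : Fin N} : i ∈ KB J β ↔ i ∈ J ∧ bJ J i = β := by
  unfold KB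
  rw [Finset.mem_filter]

theorem KB_subset (J : Finset (Fin N)) (β : ℕ) : KB J β ⊆ J := fun _ hi => (mem_KB.1 hi).1

theorem WC_KB (J : Finset (Fin N)) (β n : ℕ) : WC S J n ⊆ WC S (KB J β) n := fun _ hγ i hi => hγ i (KB_subset J β hi)

/-- Two gaps are larger than `R` (logarithmic scale). -/
def TwoL (R : ℕ) : Set G := {γ | ∃ i j : Fin N, i ≠ j ∧ (R : ℝ) < lg S γ i ∧ (R : ℝ) < lg S γ j}

/-- The gap after `q` is larger than `R` (logarithmic scale). -/
def GapL (q : Fin N) (R : ℕ) : Set G := {γ | (R : ℝ) < lg S γ q}

end Pool.Agent.Helper43.TA
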