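import Pool.Agent.Helper55.FR.Main
import Pool.Agent.Helper43.TA.Geo

/-!
# Project TA (MP_0f6f3f_an): root systems of type A and lattices of groups with two commuting factors, definitions

`E : Emb Λ G` an embedding of `L(Λ)` in `L(G)`, `a` a cocycle `G1 × X → Λ`, `zx μ a E g ∈ L²(X; ℓ²(G))`, `vec μ a E g` the class of the sequence `zx (g n)` (project FR).
`ms s g`: the mass of `vec g` on `s ⊆ G`. `mR R s g`: the mass on `s` of the component of `vec g` over the stratum `R`. `av f K`: the mean of `f 0, ..., f (K - 1)`. `ltr h g`: the sequence `h * g n`.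
`TJ S j m`: the elements with at least `j` scales of gaps, separated by `m`. `AllT j g`: all the mass of `vec g` is in the sets `TJ S j m`.
`KB J β`: the gaps inside the block `β` of the type `J`; `blkReg S J c β`: the filters of the stratum of the chain `J :: c` with the regions where the gaps in `KB J β` are bounded.
`Mt F a`: the closure of the group generated by the elements which commute with `F` and are contracted by conjugation with powers of `a` or `a⁻¹`.
`TwoF G1 r F`: `r` commuting elements `a i` in the centraliser of `F`, with nonamenable discrete groups `⟨u i, w i⟩` (contracted by `a i`) which commute with `F` and the other `a j`, and all `a j` are in `Mt F (a 0)`.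
-/

set_option autoImplicit false
set_option linter.unusedSectionVars false

open MeasureTheory Filter Topology

namespace Pool.Agent.Helper43.TA

open Pool.Agent.Helper84.NI Pool.Agent.Helper84.GVN Pool.Agent.Helper90.RK
open Pool.Agent.Helper84.GN hiding toReg
open Pool.Agent.Helper96.RK Pool.Agent.Helper66.FR Pool.Agent.Helper84.FR Pool.Agent.Helper96.FR Pool.Agent.Helper55.FR

section Mass

variable {G1 X G Λ : Type} [Group G1] [MeasurableSpace X] (μ : Measure X) [MulAction G1 X]
  [MeasurableConstSMul G1 X] [SMulInvariantMeasure G1 X μ] [IsProbabilityMeasure μ]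
  [Group G] [Group Λ] [Countable Λ] (a : Cocy G1 X Λ) (E : Emb Λ G)

/-- The mass of `vec g` on `s`. -/
noncomputable def ms (s : Set G) (g : ℕ → G1) : ℝ := ‖UE.map μ (ind ℂ s) (vec μ a E g)‖ ^ 2

/-- The mass on `s` of the component of `vec g` over the stratum `R`. -/
noncomputable def mR (R : Reg G) (s : Set G) (g : ℕ → G1) : ℝ :=
  ‖UE.map μ (ind ℂ s) ((XPpr R (vec μ a E g) : XUa μ R) : UE μ (L2 G))‖ ^ 2

end Mass

/-- The mean of `f 0, ..., f (K - 1)`. -/
noncomputable def av (f : ℕ → ℝ) (K : ℕ) : ℝ := (∑ k ∈ Finset.range K, f k) / K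

/-- Left translate of a sequence. -/
def ltr {G1 : Type} [Group G1] (h : G1) (g : ℕ → G1) : ℕ → G1 := fun n => h * g n

section Geo

variable {G : Type} [Group G] {N : ℕ} {P : PH G N} (S : Sv P)

/-- The filters of the stratum of the chain `J :: c`, with the regions where the gaps inside the block `β` of `J` are bounded. -/
noncomputable def blkReg (J : Finset (Fin N)) (c : List (Finset (Fin N))) (β : ℕ) : Reg G where
  W := WC S (KB J β)
  F := (toReg (chStr S J c)).F
  monoF := (toReg (chStr S J c)).monoF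
  le n := ((toReg (chStr S J c)).le n).trans (principal_mono.2 (WC_KB S J β n))
  shift := (toReg (chStr S J c)).shift

end Geo

/-- All the mass of `vec g` is in the sets `TJ S j m`. -/
def AllT {G1 X G Λ : Type} [Group G1] [MeasurableSpace X] (μ : Measure X) [MulAction G1 X]
    [MeasurableConstSMul G1 X] [SMulInvariantMeasure G1 X μ] [IsProbabilityMeasure μ]
    [Group G] [Group Λ] [Countable Λ] (a : Cocy G1 X Λ) (E : Emb Λ G) {N : ℕ} {P : PH G N} (S : Sv P)
    (j : ℕ) (g : ℕ → G1) : Prop := ∀ m, ms μ a E (TJ S j m)ᶜ g = 0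

section Grp

variable {G1 : Type} [Group G1] [TopologicalSpace G1]

/-- The elements which commute with `F` and are contracted by conjugation with the powers of `a` or `a⁻¹`. -/
def Ctr (F : Set G1) (a : G1) : Set G1 :=
  {u | (∀ f ∈ F, f * u = u * f) ∧ (Tendsto (fun m : ℕ => (a ^ m)⁻¹ * u * a ^ m) atTop (𝓝 1) ∨
    Tendsto (fun m : ℕ => a ^ m * u * (a ^ m)⁻¹) atTop (𝓝 1))}

/-- The closure of the group generated by the contracted elements. -/
def Mt (F : Set G1) (a : G1) : Set G1 := closure (Subgroup.closure (Ctr F a) : Set G1)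

/-- `r` commuting elements in the centraliser of `F` with contracted nonamenable groups and the Mautner property. -/
def TwoF (r : ℕ) (F : Subgroup G1) : Prop :=
  ∃ a u w : Fin r → G1, (∀ i, ∀ f ∈ F, f * a i = a i * f ∧ f * u i = u i * f ∧ f * w i = w i * f) ∧
    (∀ i j, a i * a j = a j * a i) ∧ (∀ i j, i ≠ j → a i * u j = u j * a i ∧ a i * w j = w j * a i) ∧
    (∀ i, Tendsto (fun m : ℕ => (a i ^ m)⁻¹ * u i * a i ^ m) atTop (𝓝 1) ∧
      Tendsto (fun m : ℕ => a i ^ m * w i * (a i ^ m)⁻¹) atTop (𝓝 1) ∧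
      DiscreteTopology (Subgroup.closure {u i, w i}) ∧ NonAm (Subgroup.closure {u i, w i})) ∧
    ∀ i j : Fin r, (i : ℕ) = 0 → a j ∈ Mt (F : Set G1) (a i)

end Grp

/-- The data for the main argument: the cocycle properties and `r` elements as in `TwoF`. -/
structure Dat {G1 X Λ : Type} [Group G1] [TopologicalSpace G1] [MeasurableSpace X] (μ : Measure X) [MulAction G1 X] [Group Λ]
    (a : Cocy G1 X Λ) (F : Subgroup G1) (r : ℕ) where
  h3 : Tendsto (fun g : G1 => μ {x | a.a g x ≠ 1}) (𝓝 1) (𝓝 0)
  hF2 : ∀ l : Λ, Tendsto (fun g : G1 => μ {x | a.a g x = l}) (cocompact G1) (𝓝 0)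
  hp : ∀ F' : Subgroup G1, DiscreteTopology F' → Countable F' ∧ ∃ p : X → Λ → F',
    (∀ (l : Λ) (s : Set F'), MeasurableSet {x | p x l ∈ s}) ∧
      ∀ (f : F') (x : X) (l : Λ), p ((f : G1) • x) (a.a f x * l) = f * p x l
  /-- the commuting elements -/
  e : Fin r → G1
  /-- contracted elements -/
  u : Fin r → G1
  /-- expanded elements -/
  w : Fin r → G1
  cF : ∀ i, ∀ f ∈ F, f * e i = e i * f ∧ f * u i = u i * f ∧ f * w i = w i * f
  cc : ∀ i j, e i * e j = e j * e i
  cu : ∀ i j, i ≠ j → e i * u j = u j * e i ∧ e i * w j = w j * e i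
  con : ∀ i, Tendsto (fun m : ℕ => (e i ^ m)⁻¹ * u i * e i ^ m) atTop (𝓝 1) ∧
    Tendsto (fun m : ℕ => e i ^ m * w i * (e i ^ m)⁻¹) atTop (𝓝 1) ∧
    DiscreteTopology (Subgroup.closure {u i, w i}) ∧ NonAm (Subgroup.closure {u i, w i})
  mt : ∀ i j : Fin r, (i : ℕ) = 0 → e j ∈ Mt (F : Set G1) (e i)

end Pool.Agent.Helper43.TA
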