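import Pool.Agent.Helper43.TA.Defs

/-!
# Block TYA-MS: masses

Here `C s := UE.map μ (ind ℂ s)` are commuting self-adjoint projections of `UE μ (L2 G)` (`xind_ind`: `C s (C t ξ) = C (s ∩ t) ξ`, `xinner_ind`, `xnorm_ind_le`, all in `Helper84/FR/XA, XB, XD`), `‖vec μ a E g‖ = 1` (`norm_vec`).
PROOFS. `ms_nonneg`, `ms_univ` (`ind ℂ univ = id`, `UE.map_id`), `ms_mono`: `C s ξ = C s (C t ξ)` for `s ⊆ t`. `ms_compl`: `ξ = C s ξ + C sᶜ ξ` and orthogonality (`⟪C s ξ, C sᶜ ξ⟫ = ⟪ξ, C (s ∩ sᶜ) ξ⟫ = 0`), general form `sq_compl` for all vectors. `ms_union`: `s ∪ t = s ⊔ (t \ s)`: `sq_disj` (as `sq_compl` inside `s ∪ t`) and monotonicity.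
`ms_biUnion`: induction over the finite set.
`ms_tendsto`: `vec_eq`, `UE.map_mk`, `UE.tendsto_norm` (as at the end of `esc` in `Helper84/FR/EV.lean`) and `.pow 2`.
`mR_le_ms`: `C s` preserves `XUa μ R` (`XUa_inv` or the lemmas of `XS`: `XUa_inv (T := UE.map μ (ind ℂ s))` as indicator functions commute) and is self-adjoint, so it commutes with the projection on `XUa μ R` (`proj_comm` in `XR`): `C s (XPpr R ξ) = XPpr R (C s ξ)`, `norm_XPpr_le`.
`mR_compl`: `sq_compl` for `XPpr R (vec g)`. `mR_nonneg`, `mR_mono` similar. `mR_carried`: `XUa_ind`.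
-/

set_option autoImplicit false
set_option linter.unusedSectionVars false

open MeasureTheory Filter Topology

namespace Pool.Agent.Helper43.TA

open Pool.Agent.Helper84.NI Pool.Agent.Helper84.GVN Pool.Agent.Helper90.RK
open Pool.Agent.Helper84.GN hiding toReg
open Pool.Agent.Helper96.RK Pool.Agent.Helper66.FR Pool.Agent.Helper84.FR Pool.Agent.Helper96.FR Pool.Agent.Helper55.FR

variable {G1 X G Λ : Type} [Group G1] [MeasurableSpace X] {μ : Measure X} [MulAction G1 X]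
  [MeasurableConstSMul G1 X] [SMulInvariantMeasure G1 X μ] [IsProbabilityMeasure μ]
  [Group G] [Group Λ] [Countable Λ] {a : Cocy G1 X Λ} {E : Emb Λ G}

private lemma ind_add65 {s t : Set G} (h : Disjoint s t) : ind ℂ (s ∪ t) = ind ℂ s + ind ℂ t := by
  classical
  ext1 x
  apply lv_ext
  intro i
  rw [_root_.add_apply, lp.coeFn_add, Pi.add_apply, ind_apply, ind_apply, ind_apply]
  by_cases h4 : i ∈ s
  · have h5 : i ∉ t := Set.disjoint_left.1 h h4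
    simp [h4, h5]
  · by_cases h5 : i ∈ t <;> simp [h4, h5]

private lemma ind_univ65 (ξ : UE μ (L2 G)) : UE.map μ (ind ℂ (Set.univ : Set G)) ξ = ξ := by
  classical
  refine Eq.trans (congrArg (fun T => UE.map μ T ξ) ?_) (UE.map_id ξ)
  ext1 x
  apply lv_ext
  intro i
  rw [ind_apply]
  simp

private lemma sq_re65 (s : Set G) (ξ : UE μ (L2 G)) :
    ‖UE.map μ (ind ℂ s) ξ‖ ^ 2 = (inner ℂ ξ (UE.map μ (ind ℂ s) ξ) : ℂ).re := by
  have h1 := norm_sq_eq_re_inner (𝕜 := ℂ) (UE.map μ (ind ℂ s) ξ)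
  rw [xinner_ind, xind_ind, Set.inter_self] at h1
  exact h1

private lemma sq_add65 {s t : Set G} (h : Disjoint s t) (ξ : UE μ (L2 G)) :
    ‖UE.map μ (ind ℂ (s ∪ t)) ξ‖ ^ 2 = ‖UE.map μ (ind ℂ s) ξ‖ ^ 2 + ‖UE.map μ (ind ℂ t) ξ‖ ^ 2 := by
  rw [sq_re65, sq_re65, sq_re65, ind_add65 h, UE.map_add, inner_add_right, Complex.add_re]

theorem sq_compl (s : Set G) (ξ : UE μ (L2 G)) :
    ‖UE.map μ (ind ℂ s) ξ‖ ^ 2 + ‖UE.map μ (ind ℂ sᶜ) ξ‖ ^ 2 = ‖ξ‖ ^ 2 := by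
  rw [← sq_add65 disjoint_compl_right, Set.union_compl_self, ind_univ65]

theorem sq_mono {s t : Set G} (h : s ⊆ t) (ξ : UE μ (L2 G)) : ‖UE.map μ (ind ℂ s) ξ‖ ≤ ‖UE.map μ (ind ℂ t) ξ‖ := by
  have h1 : UE.map μ (ind ℂ s) ξ = UE.map μ (ind ℂ s) (UE.map μ (ind ℂ t) ξ) := by
    rw [xind_ind, Set.inter_eq_self_of_subset_left h]
  rw [h1]
  exact xnorm_ind_le _ _

private lemma sq_union65 (s t : Set G) (ξ : UE μ (L2 G)) :
    ‖UE.map μ (ind ℂ (s ∪ t)) ξ‖ ^ 2 ≤ ‖UE.map μ (ind ℂ s) ξ‖ ^ 2 + ‖UE.map μ (ind ℂ t) ξ‖ ^ 2 := by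
  rw [← Set.union_sdiff_self, sq_add65 Set.disjoint_sdiff_right]
  have := pow_le_pow_left₀ (norm_nonneg _) (sq_mono (Set.sdiff_subset : t \ s ⊆ t) ξ) 2
  linarith

private lemma sq_empty65 (ξ : UE μ (L2 G)) : ‖UE.map μ (ind ℂ (∅ : Set G)) ξ‖ ^ 2 = 0 := by
  have h := sq_compl (Set.univ : Set G) ξ
  rw [Set.compl_univ, ind_univ65] at h
  linarith

theorem ms_nonneg (s : Set G) (g : ℕ → G1) : 0 ≤ ms μ a E s g := sq_nonneg _

theorem ms_le_one (s : Set G) (g : ℕ → G1) : ms μ a E s g ≤ 1 := by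
  unfold ms
  have h1 := xnorm_ind_le s (vec μ a E g)
  rw [norm_vec] at h1
  have h2 := pow_le_pow_left₀ (norm_nonneg _) h1 2
  rw [one_pow] at h2
  exact h2

theorem ms_mono {s t : Set G} (h : s ⊆ t) (g : ℕ → G1) : ms μ a E s g ≤ ms μ a E t g :=
  pow_le_pow_left₀ (norm_nonneg _) (sq_mono h _) 2

theorem ms_compl (s : Set G) (g : ℕ → G1) : ms μ a E s g + ms μ a E sᶜ g = 1 := by
  unfold ms
  rw [sq_compl, norm_vec, one_pow]

theorem ms_union (s t : Set G) (g : ℕ → G1) : ms μ a E (s ∪ t) g ≤ ms μ a E s g + ms μ a E t g :=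
  sq_union65 s t _

theorem ms_biUnion {I : Type} (T : Finset I) (s : I → Set G) (g : ℕ → G1) :
    ms μ a E (⋃ i ∈ T, s i) g ≤ ∑ i ∈ T, ms μ a E (s i) g := by
  classical
  induction T using Finset.induction_on with
  | empty =>
    rw [Finset.sum_empty]
    have h1 : (⋃ i ∈ (∅ : Finset I), s i) = ∅ := by simp
    rw [h1]
    exact (sq_empty65 _).le
  | insert i T hi ih =>
    rw [Finset.sum_insert hi, Finset.set_biUnion_insert]
    exact (ms_union _ _ g).trans (add_le_add_right ih _)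

theorem ms_tendsto (s : Set G) (g : ℕ → G1) :
    Tendsto (fun n => ‖cl μ (ind ℂ s) (zx μ a E (g n))‖ ^ 2) (hyperfilter ℕ : Filter ℕ) (𝓝 (ms μ a E s g)) := by
  unfold ms
  obtain ⟨x, hx⟩ : ∃ x : BSeq (XL μ (L2 G)), x = ⟨fun n => zx μ a E (g n), 1, fun n => (norm_zx (g n)).le⟩ :=
    ⟨_, rfl⟩
  have hEB : EB 1 x := by
    rw [hx]
    exact ⟨zero_le_one, fun n => zx_bound (g n)⟩
  have e1 : vec μ a E g = UE.mk x hEB := by
    subst hx
    exact vec_eq g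
  rw [e1, UE.map_mk]
  have h1 := (UE.tendsto_norm _ (EB.map hEB (ind ℂ s))).pow 2
  have h2 : (fun n => ‖cl μ (ind ℂ s) (zx μ a E (g n))‖ ^ 2) =
      fun n => ‖((BSeq.map (cl μ (ind ℂ s)) x : BSeq (XL μ (L2 G))) : ℕ → XL μ (L2 G)) n‖ ^ 2 := by
    subst hx
    rfl
  rw [h2]
  exact h1

private lemma ind_XPpr65 (R : Reg G) (s : Set G) (ξ : UE μ (L2 G)) :
    UE.map μ (ind ℂ s) ((XPpr R ξ : XUa μ R) : UE μ (L2 G)) =
      ((XPpr R (UE.map μ (ind ℂ s) ξ) : XUa μ R) : UE μ (L2 G)) := by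
  change UE.map μ (ind ℂ s) ((XUa μ R).starProjection ξ) =
    (XUa μ R).starProjection (UE.map μ (ind ℂ s) ξ)
  exact (proj_comm (T := UE.map μ (ind ℂ s)) (T' := UE.map μ (ind ℂ s)) (fun x y => xinner_ind s x y)
    (fun x hx => ind_mem_XUa R s hx) (fun x hx => ind_mem_XUa R s hx) ξ).symm

theorem mR_nonneg (R : Reg G) (s : Set G) (g : ℕ → G1) : 0 ≤ mR μ a E R s g := sq_nonneg _

theorem mR_le_ms (R : Reg G) (s : Set G) (g : ℕ → G1) : mR μ a E R s g ≤ ms μ a E s g := by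
  unfold mR ms
  apply pow_le_pow_left₀ (norm_nonneg _)
  rw [ind_XPpr65]
  have h1 := (XPpr (μ := μ) R).le_of_opNorm_le (norm_XPpr (μ := μ) R)
    (UE.map μ (ind ℂ s) (vec μ a E g))
  rw [one_mul] at h1
  exact h1

theorem mR_mono (R : Reg G) {s t : Set G} (h : s ⊆ t) (g : ℕ → G1) : mR μ a E R s g ≤ mR μ a E R t g :=
  pow_le_pow_left₀ (norm_nonneg _) (sq_mono h _) 2

theorem mR_compl (R : Reg G) (s : Set G) (g : ℕ → G1) :
    mR μ a E R s g + mR μ a E R sᶜ g = mR μ a E R Set.univ g := by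
  unfold mR
  rw [sq_compl, ind_univ65]

theorem mR_union (R : Reg G) (s t : Set G) (g : ℕ → G1) :
    mR μ a E R (s ∪ t) g ≤ mR μ a E R s g + mR μ a E R t g :=
  sq_union65 s t _

theorem mR_carried (R : Reg G) {s : Set G} (hs : ∀ n, s ∈ R.F n) (t : Set G) (g : ℕ → G1) :
    mR μ a E R (s ∩ t) g = mR μ a E R t g := by
  unfold mR
  rw [Set.inter_comm, ← xind_ind, XUa_ind R hs (XPpr R (vec μ a E g)).2]

end Pool.Agent.Helper43.TA
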