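import Pool.Agent.Helper84.FR.HX

/-!
# Block TYA-CORE: the vector of `hullX`

PROOF: this is the first half of the proof of `hullX` (`Helper84/FR/HX.lean`): `η0 := T ζ = (VB A).starProjection (TL ζ)`; the three claims are `bddX_opL a E h1 (bddX_opR a E h1 hTB v) v`, `hin`, `hcontv` there. Copy the proof (and the private lemmas `hx_S_inv`, `hx_zhom`, `hx_const`, `hx_near`, with new names) up to `hcontv`.
-/

set_option autoImplicit false

open Filter Topology MeasureTheory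

namespace Pool.Agent.Helper43.TA

open Pool.Agent.Helper84.NI Pool.Agent.Helper84.GVN Pool.Agent.Helper84.FR

variable {C X Λ G : Type} [Group C] [TopologicalSpace C] [IsTopologicalGroup C] [MulAction C X]
  [MeasurableSpace X] [MeasurableConstSMul C X] [Group Λ] [Countable Λ] [Group G]
variable {H K : Type} [NormedAddCommGroup H] [InnerProductSpace ℂ H] [CompleteSpace H]
  [NormedAddCommGroup K] [InnerProductSpace ℂ K] [CompleteSpace K]

omit [TopologicalSpace C] [IsTopologicalGroup C] [MeasurableConstSMul C X] [Countable Λ] in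
private theorem hx_S_inv_h54 (M : XM C X K) (h : C) (ξ : K) : M.S h (M.S h⁻¹ ξ) = ξ := by
  have e : M.S h (M.S h⁻¹ ξ) = (M.S h * M.S h⁻¹) ξ := rfl
  rw [e, ← map_mul, mul_inv_cancel, map_one]
  rfl

omit [TopologicalSpace C] [IsTopologicalGroup C] [MeasurableConstSMul C X] in
private theorem hx_zhom_h54 {M : XM C X K} {A B : G →* (K ≃ₗᵢ[ℂ] K)} (h1 : MRep M A B) :
    M.Hom M (VB A).starProjection where
  S h ξ := (map_starProjection (T := ((M.S h).toContinuousLinearEquiv : K →L[ℂ] K)) (A := A) (A' := A)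
    (fun g x => ((h1.hA g).S h x).symm) ξ).symm
  x D hD ξ := (map_starProjection (T := M.px.p D) (A := A) (A' := A)
    (fun g x => ((h1.hA g).x D hD x).symm) ξ).symm
  y D hD ξ := (map_starProjection (T := M.py.p D) (A := A) (A' := A)
    (fun g x => ((h1.hA g).y D hD x).symm) ξ).symm

omit [TopologicalSpace C] [IsTopologicalGroup C] in
/-- `opL` on the set where the cocycle is trivial. -/
private theorem hx_const_h54 (a : Cocy C X Λ) {M : XM C X K} {U : CRep Λ K} (hU : UHom M U) (h : C) (ξ : K) :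
    opL M a U h (M.px.p {x | a.a h x = 1} ξ) = M.S h (M.px.p {x | a.a h x = 1} (U.U 1 ξ)) := by
  have hm : MeasurableSet {x | a.a h x = 1} := a.meas h 1
  have e : opL M a U h (M.px.p {x | a.a h x = 1} ξ) =
      M.S h (tw M.px U (a.a h) (M.px.p {x | a.a h x = 1} ξ)) := rfl
  rw [e, ← tw_p M.px U hU.px (a.meas h) hm, tw_const M.px U hU.px (a.meas h) hm (l := 1) (fun x hx => hx)]

omit [TopologicalSpace C] [IsTopologicalGroup C] in
/-- The orbit map is close to the identity. -/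
private theorem hx_near_h54 (a : Cocy C X Λ) (E : Emb Λ G) {M0 : XM C X H} {A0 B0 : G →* (H ≃ₗᵢ[ℂ] H)}
    (h0 : MRep M0 A0 B0) {M : XM C X K} {A B : G →* (K ≃ₗᵢ[ℂ] K)} (h1 : MRep M A B)
    {T : H →L[ℂ] K} (hT : M0.Hom M T) (hTn : ∀ x, ‖T x‖ ≤ ‖x‖)
    {ν : Measure X} [IsFiniteMeasure ν] [SMulInvariantMeasure C X ν] {ζ : H} (hA : ζ ∈ VB A0)
    (hTA : T ζ ∈ VB A)
    (hR : ∀ v : C, opR M a (CRep.ext B E.conj) v (T ζ) = T (opL M0 a (CRep.ext A0 E) v⁻¹ ζ))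
    (hν : ∀ D : Set X, MeasurableSet D → ‖M0.px.p D ζ‖ ^ 2 ≤ (ν D).toReal) (h : C) :
    ‖sgm M a (CRep.ext A E) (CRep.ext B E.conj) h (T ζ) - T ζ‖ ≤
      2 * Real.sqrt (ν {x | a.a h x ≠ 1}).toReal := by
  have hU : UHom M (CRep.ext A E) := uhom_ext E h1.hA
  have hU' : UHom M (CRep.ext B E.conj) := uhom_ext E.conj h1.hB
  have hU0 : UHom M0 (CRep.ext A0 E) := uhom_ext E h0.hA
  set D' : Set X := {x | a.a h x = 1} with hD'
  have hD'm : MeasurableSet D' := a.meas h 1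
  set D : Set X := (fun x => h⁻¹ • x) ⁻¹' D' with hD
  have hDm : MeasurableSet D := (measurable_const_smul h⁻¹) hD'm
  have hDD : (fun x => (h⁻¹)⁻¹ • x) ⁻¹' D = D' := by
    ext x
    simp only [hD, hD', Set.mem_preimage, Set.mem_ofPred_eq, inv_inv, inv_smul_smul]
  have hDinv : D = {x | a.a h⁻¹ x = 1} := by
    ext x
    simp only [hD, hD', Set.mem_preimage, Set.mem_ofPred_eq]
    rw [← a.a_inv h x, inv_eq_one]
  have hDc : (fun x => h⁻¹ • x) ⁻¹' D'ᶜ = Dᶜ := rfl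
  have e0 : ext A0 E 1 ζ = ζ := ext_one_apply E hA
  have e1 : ext A E 1 (T ζ) = T ζ := ext_one_apply E hTA
  -- the left operator at the source
  have k1 : M0.px.p D' (opL M0 a (CRep.ext A0 E) h⁻¹ ζ) = M0.S h⁻¹ (M0.px.p D ζ) := by
    have h2 := opL_px M0 a hU0 h⁻¹ hDm ζ
    rw [hDD] at h2
    rw [← h2, hDinv, hx_const_h54 a hU0 h⁻¹ ζ]
    have e : (CRep.ext A0 E).U 1 ζ = ζ := e0
    rw [e]
  have k2 : M.px.p D' (opR M a (CRep.ext B E.conj) h (T ζ)) = M.S h⁻¹ (M.px.p D (T ζ)) := by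
    rw [hR, ← hT.x D' hD'm, k1, hT.S, hT.x D hDm]
  have k3 : M.px.p D (sgm M a (CRep.ext A E) (CRep.ext B E.conj) h (T ζ)) = M.px.p D (T ζ) := by
    have h2 := opL_px M a hU h hD'm (opR M a (CRep.ext B E.conj) h (T ζ))
    have e : sgm M a (CRep.ext A E) (CRep.ext B E.conj) h (T ζ) =
        opL M a (CRep.ext A E) h (opR M a (CRep.ext B E.conj) h (T ζ)) := rfl
    rw [e, ← h2, k2]
    have h3 := M.Sx h⁻¹ D hDm (T ζ)
    rw [hDD] at h3
    rw [h3, hx_const_h54 a hU h]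
    have e2 : (CRep.ext A E).U 1 (M.S h⁻¹ (T ζ)) = M.S h⁻¹ (T ζ) := by
      have h4 := (hU 1).S h⁻¹ (T ζ)
      rw [h4]
      have e3 : (CRep.ext A E).U 1 (T ζ) = T ζ := e1
      rw [e3]
    rw [e2, ← h3, hx_S_inv_h54]
  have k4 : M.px.p Dᶜ (sgm M a (CRep.ext A E) (CRep.ext B E.conj) h (T ζ)) =
      opL M a (CRep.ext A E) h (opR M a (CRep.ext B E.conj) h (M.px.p D'ᶜ (T ζ))) := by
    rw [opR_px M a hU' h hD'm.compl, opL_px M a hU h hD'm.compl, hDc]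
    rfl
  have hs : ∀ S : Set X, MeasurableSet S → ‖M.px.p S (T ζ)‖ ≤ Real.sqrt (ν S).toReal := by
    intro S hS
    rw [← hT.x S hS]
    exact (hTn _).trans (Real.le_sqrt_of_sq_le (hν S hS))
  have hνD : ν Dᶜ = ν D'ᶜ := by
    rw [← hDc]
    exact measure_preimage_smul ν h⁻¹ D'ᶜ
  have n1 : ‖M.px.p Dᶜ (sgm M a (CRep.ext A E) (CRep.ext B E.conj) h (T ζ))‖ ≤
      Real.sqrt (ν D'ᶜ).toReal := by
    rw [k4]
    exact (norm_opL_le M a hU h _).trans ((norm_opR_le M a hU' h _).trans (hs _ hD'm.compl))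
  have n2 : ‖M.px.p Dᶜ (T ζ)‖ ≤ Real.sqrt (ν D'ᶜ).toReal := by
    rw [← hνD]
    exact hs _ hDm.compl
  have hset : {x | a.a h x ≠ 1} = D'ᶜ := rfl
  rw [hset]
  have k5 := M.px.p_compl hDm (sgm M a (CRep.ext A E) (CRep.ext B E.conj) h (T ζ) - T ζ)
  rw [map_sub, map_sub, k3, sub_self, zero_add] at k5
  rw [← k5]
  refine (norm_sub_le _ _).trans ?_
  linarith

theorem coreX (a : Cocy C X Λ) (E : Emb Λ G) {M0 : XM C X H} {A0 B0 : G →* (H ≃ₗᵢ[ℂ] H)}
    (h0 : MRep M0 A0 B0) {M : XM C X K} {A B : G →* (K ≃ₗᵢ[ℂ] K)} (h1 : MRep M A B)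
    (TL TR : H →ₗᵢ[ℂ] K) (hR : ∀ g x, TR (A0 g x) = A g (TR x)) (hL : ∀ g x, TL (B0 g x) = B g (TL x))
    (hRM : M0.Hom M TR.toContinuousLinearMap) (hLM : M0.Hom M TL.toContinuousLinearMap)
    {ν : Measure X} [IsFiniteMeasure ν] [SMulInvariantMeasure C X ν]
    {ζ : H} (hA : ζ ∈ VB A0) (hB : BddX M0 ν B0 ζ)
    (hcen : ∀ v : C, opL M0 a (CRep.ext A0 E) v⁻¹ ζ = opR M0 a (CRep.ext B0 E.conj) v ζ)
    (hν : ∀ D : Set X, MeasurableSet D → ‖M0.px.p D ζ‖ ^ 2 ≤ (ν D).toReal)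
    (h3 : Tendsto (fun h : C => ν {x | a.a h x ≠ 1}) (𝓝 1) (𝓝 0)) :
    ∃ η0 : K, (∀ v : C, BddX M ν B (sgm M a (CRep.ext A E) (CRep.ext B E.conj) v η0)) ∧
      (∀ v : C, inner ℂ (sgm M a (CRep.ext A E) (CRep.ext B E.conj) v η0) (TR ζ) =
        inner ℂ (TL (opL M0 a (CRep.ext A0 E) v⁻¹ ζ)) (TR (opL M0 a (CRep.ext A0 E) v⁻¹ ζ))) ∧
      ∀ v : C, Tendsto (fun h : C => sgm M a (CRep.ext A E) (CRep.ext B E.conj) h
          (sgm M a (CRep.ext A E) (CRep.ext B E.conj) v η0)) (𝓝 1)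
        (𝓝 (sgm M a (CRep.ext A E) (CRep.ext B E.conj) v η0)) := by
  let U : CRep Λ K := CRep.ext A E
  let U' : CRep Λ K := CRep.ext B E.conj
  have hU : UHom M U := uhom_ext E h1.hA
  have hU' : UHom M U' := uhom_ext E.conj h1.hB
  have hc : UCom U U' := ucom_ext h1.comm2 E E.conj
  have hU0 : UHom M0 (CRep.ext A0 E) := uhom_ext E h0.hA
  have hU0' : UHom M0 (CRep.ext B0 E.conj) := uhom_ext E.conj h0.hB
  let z : K →L[ℂ] K := (VB A).starProjection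
  let L : C → (K →L[ℂ] K) := opL M a U
  let R : C → (K →L[ℂ] K) := opR M a U'
  let L0 : C → (H →L[ℂ] H) := opL M0 a (CRep.ext A0 E)
  let σ : C → (K →L[ℂ] K) := sgm M a U U'
  have hσ : ∀ v x, σ v x = L v (R v x) := fun v x => rfl
  have hz : M.Hom M z := hx_zhom_h54 h1
  have hzB : ∀ g x, z (B g x) = B g (z x) := fun g x =>
    (map_starProjection (T := ((B g).toContinuousLinearEquiv : K →L[ℂ] K)) (A := A) (A' := A)
      (fun h x => (h1.comm2 h g x).symm) x).symm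
  have hzR : ∀ v x, z (R v x) = R v (z x) := fun v x =>
    opR_nat M a hU' hU' hz (fun l ξ => map_ext (T := z) hzB E.conj l ξ) v x
  have hTRL : ∀ v x, TR (L0 v x) = L v (TR x) := fun v x =>
    opL_nat M0 a hU0 hU hRM (fun l ξ => map_ext (T := TR.toContinuousLinearMap) hR E l ξ) v x
  have hTLR : ∀ v, R v (TL ζ) = TL (L0 v⁻¹ ζ) := by
    intro v
    have h2 := opR_nat M0 a hU0' hU' hLM
      (fun l ξ => map_ext (T := TL.toContinuousLinearMap) hL E.conj l ξ) v ζ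
    rw [← hcen v] at h2
    exact h2.symm
  let T : H →L[ℂ] K := z.comp TL.toContinuousLinearMap
  have hTx : ∀ x, T x = z (TL x) := fun x => rfl
  have hzn : ∀ x, ‖z x‖ ≤ ‖x‖ := fun x => Submodule.norm_starProjection_apply_le _ x
  have hTn : ∀ x, ‖T x‖ ≤ ‖x‖ := fun x => (hzn _).trans (TL.norm_map x).le
  have hT : M0.Hom M T := by
    refine ⟨fun h ξ => ?_, fun D hD ξ => ?_, fun D hD ξ => ?_⟩
    · have e : TL (M0.S h ξ) = M.S h (TL ξ) := hLM.S h ξ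
      rw [hTx, hTx, e]
      exact hz.S h _
    · have e : TL (M0.px.p D ξ) = M.px.p D (TL ξ) := hLM.x D hD ξ
      rw [hTx, hTx, e]
      exact hz.x D hD _
    · have e : TL (M0.py.p D ξ) = M.py.p D (TL ξ) := hLM.y D hD ξ
      rw [hTx, hTx, e]
      exact hz.y D hD _
  have hRT : ∀ v : C, R v (T ζ) = T (L0 v⁻¹ ζ) := by
    intro v
    rw [hTx, hTx, ← hTLR]
    exact (hzR v _).symm
  have hTA : T ζ ∈ VB A := (VB A).starProjection_apply_mem _
  -- the vector `η0 = T ζ` is bounded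
  have hTB : BddX M ν B (T ζ) := by
    intro D hD
    rw [← hT.y D hD]
    have hTc : ∀ g x, T (B0 g x) = B g (T x) := by
      intro g x
      rw [hTx, hTx, hL, hzB]
    refine (Bdd.map hTc (hB D hD)).mono ?_
    refine mul_le_of_le_one_left (Real.sqrt_nonneg _) ?_
    exact T.opNorm_le_bound zero_le_one fun x => by rw [one_mul]; exact hTn x
  have hσn : ∀ v x, ‖σ v x‖ ≤ ‖x‖ := fun v x => norm_sgm_le M a hU hU' v x
  have hσm : ∀ g h x, σ (g * h) x = σ g (σ h x) := fun g h x => sgm_mul M a hU hU' hc g h x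
  -- the scalar products
  have hin : ∀ v, inner ℂ (σ v (T ζ)) (TR ζ) = inner ℂ (TL (L0 v⁻¹ ζ)) (TR (L0 v⁻¹ ζ)) := by
    intro v
    have h2 : inner ℂ (σ v (T ζ)) (TR ζ) = inner ℂ (R v (T ζ)) (L v⁻¹ (TR ζ)) :=
      opL_adj M a hU v (R v (T ζ)) (TR ζ)
    have h3 : L0 v⁻¹ ζ ∈ VB A0 := by
      have e1 : L0 (1 * v⁻¹) ζ = L0 1 (L0 v⁻¹ ζ) := opL_mul M0 a hU0 1 v⁻¹ ζ
      have e2 : L0 1 (L0 v⁻¹ ζ) = ext A0 E 1 (L0 v⁻¹ ζ) := opL_one M0 a hU0 (L0 v⁻¹ ζ)
      rw [one_mul] at e1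
      rw [e1, e2]
      exact ext_mem A0 E 1 _
    have h4 : z (TR (L0 v⁻¹ ζ)) = TR (L0 v⁻¹ ζ) := by
      apply Submodule.starProjection_eq_self_iff.2
      exact map_VB (T := TR.toContinuousLinearMap) hR h3
    have h5 : inner ℂ (z (TL (L0 v⁻¹ ζ))) (TR (L0 v⁻¹ ζ)) = inner ℂ (TL (L0 v⁻¹ ζ)) (z (TR (L0 v⁻¹ ζ))) :=
      Submodule.inner_starProjection_left_eq_right _ _ _
    rw [h2, hRT, hTx, ← hTRL, h5, h4]
  -- continuity at the orbit
  have hcont0 : Tendsto (fun h : C => σ h (T ζ)) (𝓝 1) (𝓝 (T ζ)) := by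
    rw [tendsto_iff_norm_sub_tendsto_zero]
    have h2 : ∀ h : C, ‖σ h (T ζ) - T ζ‖ ≤ 2 * Real.sqrt (ν {x | a.a h x ≠ 1}).toReal :=
      fun h => hx_near_h54 a E h0 h1 hT hTn hA hTA hRT hν h
    have h4 : Tendsto (fun h : C => 2 * Real.sqrt (ν {x | a.a h x ≠ 1}).toReal) (𝓝 1) (𝓝 0) := by
      have h5 := (ENNReal.tendsto_toReal ENNReal.zero_ne_top).comp h3
      rw [ENNReal.toReal_zero] at h5
      have h6 := ((Real.continuous_sqrt.tendsto 0).comp h5).const_mul 2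
      rw [Real.sqrt_zero, mul_zero] at h6
      exact h6
    exact squeeze_zero (fun h => norm_nonneg _) h2 h4
  have hcontv : ∀ v : C, Tendsto (fun h : C => σ h (σ v (T ζ))) (𝓝 1) (𝓝 (σ v (T ζ))) := by
    intro v
    have h2 : Tendsto (fun h : C => v⁻¹ * h * v) (𝓝 1) (𝓝 1) := by
      have h5 : Continuous fun h : C => v⁻¹ * h * v := by fun_prop
      have h6 := h5.tendsto 1
      rw [mul_one, inv_mul_cancel] at h6
      exact h6
    have h4 := ((σ v).continuous.tendsto (T ζ)).comp (hcont0.comp h2)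
    refine h4.congr fun h => ?_
    show σ v (σ (v⁻¹ * h * v) (T ζ)) = σ h (σ v (T ζ))
    rw [← hσm, ← hσm]
    congr 2
    group
  exact ⟨T ζ, fun v => bddX_opL a E h1 (bddX_opR a E h1 hTB v) v, hin, hcontv⟩

end Pool.Agent.Helper43.TA
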