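import Pool.Agent.Helper84.FR.HX
import Pool.Agent.Helper43.TA.Core

/-!
# Block TYA-MEAN: the mean ergodic theorem for the conjugation operators

`mean_erg`. PROOF. `T := σ.U a0⁻¹` is a contraction. `T ^ (k + 1) η0 = σ.U (a0 ^ (k + 1))⁻¹ η0` for `k ≥ 0` (`σ.mul`), for `k = 0` the terms `η0` and `σ.U 1 η0` differ by a fixed vector, which is `O(1/n)` in the mean. Mathlib: `ContinuousLinearMap.tendsto_birkhoffAverage_orthogonalProjection` (`‖T‖ ≤ 1`): the Birkhoff averages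
converge to the projection `η` on `{T η = η}`. `T η = η` gives `σ.U 1 η = σ.U 1 (T η) = T η = η` and `σ.U a0 η = σ.U a0 (σ.U a0⁻¹ η) = σ.U 1 η = η`. (Scalars: `birkhoffAverage ℂ`, `(n : ℂ)⁻¹ • ∑`.)
`meanX`. PROOF. `η0` from `coreX`, `η` the limit of `ηK := (K : ℝ)⁻¹ • ∑ k < K, σ (a0 ^ k)⁻¹ η0` (`mean_erg` with the `CRep` `σ` given by `sgm`, constructed as in `escapeX` in `Helper84/FR/ET.lean`). The set of `ξ` with `BddX M ν B ξ` and `σ h ξ → ξ` (`h → 1`) is convex and closed (copy `hSconv`, `hScl`, `hx_closed`, `hx_tclosed` from the proof of `hullX`) and contains the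
`σ v η0`, hence `ηK` (`K ≥ 1`) and `η`. With `v = a0 ^ k * h`: `⟪TL (L0 v ζ), TR (L0 v ζ)⟫ = ⟪σ v⁻¹ η0, TR ζ⟫ = ⟪σ h⁻¹ (σ (a0 ^ k)⁻¹ η0), TR ζ⟫`; the mean over `k` is `⟪σ h⁻¹ ηK, TR ζ⟫` and `|⟪σ h⁻¹ (ηK - η), TR ζ⟫| ≤ ‖ηK - η‖ ‖ζ‖`, uniformly in `h`.
-/

set_option autoImplicit false

open Filter Topology MeasureTheory

namespace Pool.Agent.Helper43.TA

open Pool.Agent.Helper84.NI Pool.Agent.Helper84.GVN Pool.Agent.Helper84.FR

theorem mean_erg {C K : Type} [Group C] [NormedAddCommGroup K] [InnerProductSpace ℂ K] [CompleteSpace K]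
    (σ : CRep C K) (a0 : C) (η0 : K) : ∃ η : K, σ.U a0 η = η ∧
      Tendsto (fun n : ℕ => (n : ℝ)⁻¹ • ∑ k ∈ Finset.range n, σ.U (a0 ^ k)⁻¹ η0) atTop (𝓝 η) := by
  let T : K →L[ℂ] K := σ.U a0⁻¹
  have hT : ‖T‖ ≤ 1 := T.opNorm_le_bound zero_le_one fun x => by
    rw [one_mul]
    exact σ.norm_le _ _
  have hit : ∀ k : ℕ, T^[k] (σ.U 1 η0) = σ.U (a0 ^ k)⁻¹ η0 := by
    intro k
    induction k with
    | zero => simp
    | succ k ih =>
      rw [Function.iterate_succ_apply', ih]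
      change σ.U a0⁻¹ (σ.U (a0 ^ k)⁻¹ η0) = _
      rw [← σ.mul, pow_succ, mul_inv_rev]
  have hlim := T.tendsto_birkhoffAverage_orthogonalProjection hT (σ.U 1 η0)
  set η : K := ((T.eqLocus (1 : K →L[ℂ] K)).orthogonalProjectionOnto (σ.U 1 η0) : K) with hη
  have hmem : T η = η :=
    ((T.eqLocus (1 : K →L[ℂ] K)).orthogonalProjectionOnto (σ.U 1 η0)).2
  refine ⟨η, ?_, ?_⟩
  · have h1 : σ.U 1 η = η := by
      have h2 : σ.U 1 (σ.U a0⁻¹ η) = σ.U a0⁻¹ η := by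
        rw [← σ.mul, one_mul]
      have h3 : σ.U a0⁻¹ η = η := hmem
      rw [h3] at h2
      exact h2
    have h2 : σ.U a0 (σ.U a0⁻¹ η) = σ.U 1 η := by
      rw [← σ.mul, mul_inv_cancel]
    have h3 : σ.U a0⁻¹ η = η := hmem
    rw [h3, h1] at h2
    exact h2
  · refine hlim.congr fun n => ?_
    have e : ∀ v : K, (n : ℝ)⁻¹ • v = (((n : ℝ)⁻¹ : ℝ) : ℂ) • v := fun v => rfl
    rw [e, Complex.ofReal_inv, Complex.ofReal_natCast]
    change (n : ℂ)⁻¹ • birkhoffSum T _root_.id n (σ.U 1 η0) = _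
    rw [birkhoffSum]
    congr 1
    exact Finset.sum_congr rfl fun k _ => hit k

/-- The set of vectors bounded with a given constant is closed. -/
private theorem closed52 {G K : Type} [Group G] [NormedAddCommGroup K] [InnerProductSpace ℂ K]
    (B' : G →* (K ≃ₗᵢ[ℂ] K)) {c : ℝ} (hc : 0 ≤ c) : IsClosed {ξ : K | Bdd B' c ξ} := by
  have h : {ξ : K | Bdd B' c ξ} = ⋂ (s : Finset G) (a : G → ℂ),
      {ξ : K | ‖∑ g ∈ s, a g • B' g ξ‖ ^ 2 ≤ c ^ 2 * ∑ g ∈ s, ‖a g‖ ^ 2} := by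
    ext ξ
    simp only [Set.mem_ofPred_eq, Set.mem_iInter, Bdd]
    exact ⟨fun h => h.2, fun h => ⟨hc, h⟩⟩
  rw [h]
  refine isClosed_iInter fun s => isClosed_iInter fun a => ?_
  refine isClosed_le (Continuous.pow (Continuous.norm ?_) 2) continuous_const
  exact continuous_finsetSum s fun g _ => ((B' g).continuous).const_smul _

/-- The vectors on which a family of contractions is continuous form a closed set. -/
private theorem tclosed52 {α K : Type} [NormedAddCommGroup K] [NormedSpace ℂ K] (l : Filter α)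
    (σ : α → (K →L[ℂ] K)) (hσ : ∀ i x, ‖σ i x‖ ≤ ‖x‖) :
    IsClosed {ξ : K | Tendsto (fun i => σ i ξ) l (𝓝 ξ)} := by
  refine isClosed_of_closure_subset fun ξ hξ => ?_
  rw [Set.mem_ofPred_eq, Metric.tendsto_nhds]
  intro ε hε
  obtain ⟨ξ', hξ', hd⟩ := Metric.mem_closure_iff.1 hξ (ε / 3) (by positivity)
  have h1 : Tendsto (fun i => σ i ξ') l (𝓝 ξ') := hξ'
  rw [Metric.tendsto_nhds] at h1
  filter_upwards [h1 (ε / 3) (by positivity)] with i hi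
  rw [dist_eq_norm] at hd hi ⊢
  have e : σ i ξ - ξ = σ i (ξ - ξ') + (σ i ξ' - ξ') - (ξ - ξ') := by
    rw [map_sub]
    abel
  rw [e]
  have h2 := norm_sub_le (σ i (ξ - ξ') + (σ i ξ' - ξ')) (ξ - ξ')
  have h3 := norm_add_le (σ i (ξ - ξ')) (σ i ξ' - ξ')
  have h4 := hσ i (ξ - ξ')
  linarith

variable {C X Λ G : Type} [Group C] [TopologicalSpace C] [IsTopologicalGroup C] [MulAction C X]
  [MeasurableSpace X] [MeasurableConstSMul C X] [Group Λ] [Countable Λ] [Group G]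
variable {H K : Type} [NormedAddCommGroup H] [InnerProductSpace ℂ H] [CompleteSpace H]
  [NormedAddCommGroup K] [InnerProductSpace ℂ K] [CompleteSpace K]

theorem meanX (a : Cocy C X Λ) (E : Emb Λ G) {M0 : XM C X H} {A0 B0 : G →* (H ≃ₗᵢ[ℂ] H)}
    (h0 : MRep M0 A0 B0) {M : XM C X K} {A B : G →* (K ≃ₗᵢ[ℂ] K)} (h1 : MRep M A B)
    (TL TR : H →ₗᵢ[ℂ] K) (hR : ∀ g x, TR (A0 g x) = A g (TR x)) (hL : ∀ g x, TL (B0 g x) = B g (TL x))
    (hRM : M0.Hom M TR.toContinuousLinearMap) (hLM : M0.Hom M TL.toContinuousLinearMap)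
    {ν : Measure X} [IsFiniteMeasure ν] [SMulInvariantMeasure C X ν]
    {ζ : H} (hA : ζ ∈ VB A0) (hB : BddX M0 ν B0 ζ)
    (hcen : ∀ v : C, opL M0 a (CRep.ext A0 E) v⁻¹ ζ = opR M0 a (CRep.ext B0 E.conj) v ζ)
    (hν : ∀ D : Set X, MeasurableSet D → ‖M0.px.p D ζ‖ ^ 2 ≤ (ν D).toReal)
    (h3 : Tendsto (fun h : C => ν {x | a.a h x ≠ 1}) (𝓝 1) (𝓝 0)) (a0 : C) :
    ∃ η : K, BddX M ν B η ∧
      Tendsto (fun h : C => sgm M a (CRep.ext A E) (CRep.ext B E.conj) h η) (𝓝 1) (𝓝 η) ∧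
      sgm M a (CRep.ext A E) (CRep.ext B E.conj) a0 η = η ∧
      ∀ ε : ℝ, 0 < ε → ∃ K0 : ℕ, ∀ K : ℕ, K0 ≤ K → ∀ h : C,
        |(∑ k ∈ Finset.range K, (inner ℂ (TL (opL M0 a (CRep.ext A0 E) (a0 ^ k * h) ζ))
            (TR (opL M0 a (CRep.ext A0 E) (a0 ^ k * h) ζ)) : ℂ).re) / K -
          (inner ℂ (sgm M a (CRep.ext A E) (CRep.ext B E.conj) h⁻¹ η) (TR ζ) : ℂ).re| ≤ ε := by
  obtain ⟨η0, hb0, hin, hct⟩ := coreX a E h0 h1 TL TR hR hL hRM hLM hA hB hcen hν h3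
  have hU : UHom M (CRep.ext A E) := uhom_ext E h1.hA
  have hU' : UHom M (CRep.ext B E.conj) := uhom_ext E.conj h1.hB
  have hUU : UCom (CRep.ext A E) (CRep.ext B E.conj) := ucom_ext h1.comm2 E E.conj
  let σ : CRep C K :=
    { U := sgm M a (CRep.ext A E) (CRep.ext B E.conj)
      mul := sgm_mul M a hU hU' hUU
      norm_le := norm_sgm_le M a hU hU'
      adj := sgm_adj M a hU hU' hUU }
  obtain ⟨η, hfix, hlim⟩ := mean_erg σ a0 η0
  let S : Set K := {ξ | BddX M ν B ξ ∧ Tendsto (fun h : C => σ.U h ξ) (𝓝 1) (𝓝 ξ)}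
  have hScl : IsClosed S := by
    have e1 : IsClosed {ξ : K | BddX M ν B ξ} := by
      have e : {ξ : K | BddX M ν B ξ} = ⋂ (D : Set X) (_ : MeasurableSet D),
          (M.py.p D) ⁻¹' {ξ : K | Bdd B (Real.sqrt (ν D).toReal) ξ} := by
        ext ξ
        simp only [Set.mem_ofPred_eq, Set.mem_iInter, Set.mem_preimage, BddX]
      rw [e]
      refine isClosed_iInter fun D => isClosed_iInter fun _ => ?_
      exact (closed52 B (Real.sqrt_nonneg _)).preimage (M.py.p D).continuous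
    exact e1.inter (tclosed52 (𝓝 (1 : C)) σ.U σ.norm_le)
  have hSconv : Convex ℝ S := by
    rintro x ⟨x1, x3⟩ y ⟨y1, y3⟩ p q hp hq hpq
    have ea : p • x = (p : ℂ) • x := rfl
    have eb : q • y = (q : ℂ) • y := rfl
    rw [ea, eb]
    refine ⟨fun D hD => ?_, ?_⟩
    · rw [map_add, map_smul, map_smul]
      refine (((x1 D hD).smul (p : ℂ)).add ((y1 D hD).smul (q : ℂ))).mono ?_
      rw [Complex.norm_real, Complex.norm_real, Real.norm_of_nonneg hp, Real.norm_of_nonneg hq,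
        ← add_mul, hpq, one_mul]
    · have h2 := (x3.const_smul (p : ℂ)).add (y3.const_smul (q : ℂ))
      refine h2.congr fun h => ?_
      rw [map_add, map_smul, map_smul]
  have hηS : η ∈ S := by
    refine hScl.mem_of_tendsto hlim ?_
    filter_upwards [eventually_ge_atTop 1] with n hn
    rw [Finset.smul_sum]
    refine hSconv.sum_mem (fun k _ => by positivity) ?_ fun k _ => ⟨hb0 _, hct _⟩
    rw [Finset.sum_const, Finset.card_range, nsmul_eq_mul]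
    have : (n : ℝ) ≠ 0 := by
      have h2 : 0 < n := hn
      positivity
    exact mul_inv_cancel₀ this
  refine ⟨η, hηS.1, hηS.2, hfix, fun ε hε => ?_⟩
  have hlim2 := (tendsto_iff_norm_sub_tendsto_zero.1 hlim).mul_const ‖ζ‖
  rw [zero_mul] at hlim2
  have hev := hlim2.eventually (ge_mem_nhds hε)
  obtain ⟨K0, hK0⟩ := eventually_atTop.1 hev
  refine ⟨K0, fun n hn h => ?_⟩
  have h2 := hK0 n hn
  have e1 : (∑ k ∈ Finset.range n, (inner ℂ (TL (opL M0 a (CRep.ext A0 E) (a0 ^ k * h) ζ))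
      (TR (opL M0 a (CRep.ext A0 E) (a0 ^ k * h) ζ)) : ℂ).re) / n =
      (inner ℂ (σ.U h⁻¹ ((n : ℝ)⁻¹ • ∑ k ∈ Finset.range n, σ.U (a0 ^ k)⁻¹ η0)) (TR ζ) : ℂ).re := by
    have ec : ∀ v : K, (n : ℝ)⁻¹ • v = (((n : ℝ)⁻¹ : ℝ) : ℂ) • v := fun v => rfl
    rw [ec, map_smul, inner_smul_left, Complex.conj_ofReal, Complex.re_ofReal_mul, map_sum,
      sum_inner, Complex.re_sum, div_eq_inv_mul]
    congr 1
    refine Finset.sum_congr rfl fun k _ => ?_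
    have e3 := hin (a0 ^ k * h)⁻¹
    rw [inv_inv] at e3
    rw [← e3]
    have e4 : σ.U h⁻¹ (σ.U (a0 ^ k)⁻¹ η0) =
        sgm M a (CRep.ext A E) (CRep.ext B E.conj) (a0 ^ k * h)⁻¹ η0 := by
      rw [← σ.mul, mul_inv_rev]
    rw [e4]
  rw [e1]
  have e2 : (inner ℂ (σ.U h⁻¹ ((n : ℝ)⁻¹ • ∑ k ∈ Finset.range n, σ.U (a0 ^ k)⁻¹ η0)) (TR ζ) : ℂ).re -
      (inner ℂ (sgm M a (CRep.ext A E) (CRep.ext B E.conj) h⁻¹ η) (TR ζ) : ℂ).re =
      (inner ℂ (σ.U h⁻¹ ((n : ℝ)⁻¹ • ∑ k ∈ Finset.range n, σ.U (a0 ^ k)⁻¹ η0 - η)) (TR ζ) : ℂ).re := by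
    rw [map_sub, inner_sub_left, Complex.sub_re]
  rw [e2]
  refine (Complex.abs_re_le_norm _).trans ((norm_inner_le_norm _ _).trans ?_)
  rw [TR.norm_map]
  exact (mul_le_mul_of_nonneg_right (σ.norm_le _ _) (norm_nonneg _)).trans h2

end Pool.Agent.Helper43.TA
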