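import Pool.Agent.Helper43.TA.Lim
import Pool.Agent.Helper43.TA.Mean
import Pool.Agent.Helper84.FR.EV

/-!
# Block TYA-ESC: the mean value form of the escape lemma

PROOF: adapt `escapeX` (`Helper84/FR/ET.lean`) and `esc` (`Helper84/FR/EV.lean`). If `XPpr R (vec b) = 0` then all masses vanish (`mR_ltr`). `(XPpr R (vec (a0 ^ k b)) = opL (a0 ^ k) (XPpr R (vec b))` by `XPpr_opL`, `opL_vec` (as `e1` in `esc`). Suppose the means do not tend to `0`: they are `≥ 0`, so there is `ε > 0` such that they are `≥ ε` for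
infinitely many `K`. As in `escapeX` (with `meanX` instead of `hullX`, `C = cen b`, `a0' : cen b`) take `η`; `⟪TL .., TR ..⟫.re ≥ c mR (R.W n)` for `L0 v ζ = XPpr R (vec (v b))` (`inner_XTL_XTR`, `xlower`, `Γ.pos n`), so the mean of the scalar products is `≥ c ε` for infinitely many `K`, and by the last property of `meanX` with `h = 1`
(`σ 1⁻¹ η = η`: from the continuity at `1`, or `sgm_mul` and `σ a0 η = η`) `⟪η, TR ζ⟫.re ≥ c ε > 0`. The rest is as in `escapeX`: `mautnerX`, `finalX`, `NonAm`. The data `I0`, `T`, `e`, `hna'` are constructed as in `esc`.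
-/

set_option autoImplicit false
set_option linter.unusedSectionVars false

open MeasureTheory Filter Topology

namespace Pool.Agent.Helper43.TA

open Pool.Agent.Helper84.NI Pool.Agent.Helper84.GVN Pool.Agent.Helper90.RK
open Pool.Agent.Helper84.GN hiding toReg
open Pool.Agent.Helper96.RK Pool.Agent.Helper66.FR Pool.Agent.Helper84.FR Pool.Agent.Helper96.FR Pool.Agent.Helper55.FR

variable {G1 X G Λ : Type} [Group G1] [TopologicalSpace G1] [IsTopologicalGroup G1] [MeasurableSpace X] {μ : Measure X}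
  [MulAction G1 X] [MeasurableConstSMul G1 X] [SMulInvariantMeasure G1 X μ] [IsProbabilityMeasure μ]
  [Group G] [Group Λ] [Countable Λ] {a : Cocy G1 X Λ} {E : Emb Λ G}

theorem esc_mean (h3 : Tendsto (fun g : G1 => μ {x | a.a g x ≠ 1}) (𝓝 1) (𝓝 0))
    (hp : ∀ F : Subgroup G1, DiscreteTopology F → Countable F ∧ ∃ p : X → Λ → F,
      (∀ (l : Λ) (s : Set F), MeasurableSet {x | p x l ∈ s}) ∧
        ∀ (f : F) (x : X) (l : Λ), p ((f : G1) • x) (a.a f x * l) = f * p x l)
    {R : Reg G} (hco : HasCoc R) (b : ℕ → G1) {a0 u w : G1} (ha : ∀ n, b n * a0 = a0 * b n)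
    (hu : ∀ n, b n * u = u * b n) (hw : ∀ n, b n * w = w * b n)
    (hu1 : Tendsto (fun m : ℕ => (a0 ^ m)⁻¹ * u * a0 ^ m) atTop (𝓝 1))
    (hw1 : Tendsto (fun m : ℕ => a0 ^ m * w * (a0 ^ m)⁻¹) atTop (𝓝 1))
    (hd : DiscreteTopology (Subgroup.closure {u, w})) (hna : NonAm (Subgroup.closure {u, w})) (n : ℕ) :
    Tendsto (av fun k => mR μ a E R (R.W n) (ltr (a0 ^ k) b)) atTop (𝓝 0) := by
  classical
  obtain ⟨L, _, _, _, Γ, hD⟩ := hco
  -- elements of the centraliser
  let a0' : cen b := ⟨a0, mem_cen.2 ha⟩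
  let u' : cen b := ⟨u, mem_cen.2 hu⟩
  let w' : cen b := ⟨w, mem_cen.2 hw⟩
  have hu1' : Tendsto (fun m : ℕ => (a0' ^ m)⁻¹ * u' * a0' ^ m) atTop (𝓝 1) := by
    rw [Topology.IsInducing.subtypeVal.tendsto_nhds_iff]
    exact hu1
  have hw1' : Tendsto (fun m : ℕ => a0' ^ m * w' * (a0' ^ m)⁻¹) atTop (𝓝 1) := by
    rw [Topology.IsInducing.subtypeVal.tendsto_nhds_iff]
    exact hw1
  -- the group generated by `u`, `w`
  have hmap : (Subgroup.closure {u', w'}).map (cen b).subtype = Subgroup.closure {u, w} := by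
    rw [MonoidHom.map_closure, Set.image_pair]
    rfl
  let e : Subgroup.closure {u', w'} ≃* Subgroup.closure {u, w} :=
    ((Subgroup.closure {u', w'}).equivMapOfInjective (cen b).subtype (cen b).subtype_injective).trans
      (MulEquiv.subgroupCongr hmap)
  have he : ∀ f : Subgroup.closure {u', w'}, ((e f : Subgroup.closure {u, w}) : G1) = ((f : cen b) : G1) :=
    fun f => rfl
  have hna' : NonAm (Subgroup.closure {u', w'}) := by
    rw [Pool.Agent.Helper66.RK.nonAm_iff] at hna ⊢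
    exact fun h => hna (h.congr e)
  obtain ⟨hcount, p, hpm, hpe⟩ := hp (Subgroup.closure {u, w}) hd
  have hcount' : Countable (Subgroup.closure {u', w'}) := e.toEquiv.countable_iff.2 hcount
  have hsmi : SMulInvariantMeasure (Subgroup.closure {u', w'}) X μ :=
    ⟨fun g _ hs => SMulInvariantMeasure.measure_preimage_smul ((g : cen b) : G1) hs⟩
  have hmcs : MeasurableConstSMul (Subgroup.closure {u', w'}) X :=
    ⟨fun g => measurable_const_smul ((g : cen b) : G1)⟩
  let aF : Cocy (Subgroup.closure {u', w'}) X Λ := cres (cres a (cen b)) (Subgroup.closure {u', w'})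
  let I0 : Imp (Subgroup.closure {u', w'}) X (XL μ (L2 Λ)) := impX μ aF (fun x l => e.symm (p x l))
    (fun l g => by
      have h := hpm l {e g}
      refine (congrArg MeasurableSet ?_).mp h
      ext x
      simp only [Set.mem_setOf_eq, Set.mem_singleton_iff]
      exact (MulEquiv.symm_apply_eq e).symm)
    (fun f x l => by
      have h := hpe (e f) x l
      change e.symm (p (((f : cen b) : G1) • x) (a.a ((f : cen b) : G1) x * l)) = f * e.symm (p x l)
      rw [MulEquiv.symm_apply_eq, map_mul, MulEquiv.apply_symm_apply]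
      exact h)
  -- suppose that the means do not tend to zero
  by_contra hne
  rw [Metric.tendsto_atTop] at hne
  push Not at hne
  obtain ⟨ε, hε, hne⟩ := hne
  obtain ⟨c, hc, hpos⟩ := Γ.pos n
  have hc1 : 0 < c * ε := by positivity
  have hbA : Bdd (XAU R) 1 (XPpr R (vec μ a E b)) :=
    (Bdd.map (A := AE μ G) (T := XPpr R) (XPpr_A R) (bdd_A_vec b)).mono (by
      simpa using norm_XPpr (μ := μ) R)
  have hbB : BddX (xmUa μ b R) μ (XBU R) (XPpr R (vec μ a E b)) := by
    intro D hDm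
    have h1 := (hom_XPpr (μ := μ) (R := R) b).y D hDm (vec μ a E b)
    rw [← h1]
    refine (Bdd.map (A := BE μ G) (T := XPpr R) (XPpr_B R) (bddX_vec (b := b) (a := a) (E := E) hDm)).mono ?_
    have := mul_le_mul_of_nonneg_right (norm_XPpr (μ := μ) R) (Real.sqrt_nonneg (μ D).toReal)
    linarith
  have hcen : ∀ v : cen b, opL (xmUa μ b R) (cres a (cen b)) (CRep.ext (XAU R) E) v⁻¹ (XPpr R (vec μ a E b)) =
      opR (xmUa μ b R) (cres a (cen b)) (CRep.ext (XBU R) E.conj) v (XPpr R (vec μ a E b)) := by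
    intro v
    rw [← XPpr_opL, ← XPpr_opR, vec_central]
  have hν : ∀ D : Set X, MeasurableSet D → ‖(xmUa μ b R).px.p D (XPpr R (vec μ a E b))‖ ^ 2 ≤ (μ D).toReal := by
    intro D hDm
    have h1 := (hom_XPpr (μ := μ) (R := R) b).x D hDm (vec μ a E b)
    rw [← h1]
    exact (pow_le_pow_left₀ (norm_nonneg _) (norm_XPpr_le _) 2).trans (norm_px_vec hDm)
  have h3' : Tendsto (fun h : cen b => μ {x | (cres a (cen b)).a h x ≠ 1}) (𝓝 1) (𝓝 0) := by
    have h4 : Tendsto (fun h : cen b => (h : G1)) (𝓝 1) (𝓝 1) := continuous_subtype_val.tendsto (1 : cen b)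
    exact h3.comp h4
  obtain ⟨η, h1, hcont, hfix0, hlim⟩ := meanX (cres a (cen b)) E (mrep_XU b) (mrep_XV b Γ) (XTL μ Γ) (XTR μ Γ)
    (XTR_A μ Γ) (XTL_B μ Γ) (hom_XTR b Γ) (hom_XTL b Γ) (ν := μ) hbA.mem_VB hbB hcen hν h3' a0'
  have hU : UHom (xmVp μ b R L) (CRep.ext (XAV μ Γ) E) := uhom_ext E (mrep_XV b Γ).hA
  have hU' : UHom (xmVp μ b R L) (CRep.ext (XBV μ Γ) E.conj) := uhom_ext E.conj (mrep_XV b Γ).hB
  have hUU := ucom_ext (mrep_XV (μ := μ) (R := R) b Γ).comm2 E E.conj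
  let σ : CRep (cen b) (XVp μ R L) :=
    { U := sgm (xmVp μ b R L) (cres a (cen b)) (CRep.ext (XAV μ Γ) E) (CRep.ext (XBV μ Γ) E.conj)
      mul := sgm_mul (xmVp μ b R L) (cres a (cen b)) hU hU' hUU
      norm_le := norm_sgm_le (xmVp μ b R L) (cres a (cen b)) hU hU'
      adj := sgm_adj (xmVp μ b R L) (cres a (cen b)) hU hU' hUU }
  have hfix1 : σ.U 1⁻¹ η = η := by
    have h4 := σ.mul 1 a0' η
    rw [one_mul] at h4
    have h5 : σ.U a0' η = η := hfix0
    rw [h5] at h4
    rw [inv_one]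
    exact h4.symm
  -- the scalar product is positive
  have h2 : 0 < (inner ℂ η (XTR μ Γ (XPpr R (vec μ a E b))) : ℂ).re := by
    obtain ⟨K0, hK0⟩ := hlim (c * ε / 2) (by positivity)
    obtain ⟨K, hK, hK2⟩ := hne K0
    have h4 := hK0 K hK 1
    have h5 : sgm (xmVp μ b R L) (cres a (cen b)) (CRep.ext (XAV μ Γ) E) (CRep.ext (XBV μ Γ) E.conj) 1⁻¹ η = η := hfix1
    rw [h5] at h4
    have h6 : ε ≤ av (fun k => mR μ a E R (R.W n) (ltr (a0 ^ k) b)) K := by
      rw [Real.dist_eq, sub_zero, abs_of_nonneg] at hK2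
      · exact hK2
      · unfold av
        exact div_nonneg (Finset.sum_nonneg fun k _ => mR_nonneg R _ _) (Nat.cast_nonneg K)
    have h7 : c * av (fun k => mR μ a E R (R.W n) (ltr (a0 ^ k) b)) K ≤
        (∑ k ∈ Finset.range K, (inner ℂ (XTL μ Γ (opL (xmUa μ b R) (cres a (cen b)) (CRep.ext (XAU R) E) (a0' ^ k * 1)
          (XPpr R (vec μ a E b)))) (XTR μ Γ (opL (xmUa μ b R) (cres a (cen b)) (CRep.ext (XAU R) E) (a0' ^ k * 1)
          (XPpr R (vec μ a E b)))) : ℂ).re) / K := by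
      unfold av
      rw [← mul_div_assoc, Finset.mul_sum]
      refine div_le_div_of_nonneg_right (Finset.sum_le_sum fun k _ => ?_) (Nat.cast_nonneg K)
      have e1 : opL (xmUa μ b R) (cres a (cen b)) (CRep.ext (XAU R) E) (a0' ^ k * 1) (XPpr R (vec μ a E b)) =
          XPpr R (vec μ a E (ltr (a0 ^ k) b)) := by
        rw [mul_one, ← XPpr_opL, opL_vec]
        rfl
      rw [e1, inner_XTL_XTR]
      refine xlower (W := R.W n) (c := c) (fun γ => ?_) (fun γ => Γ.nonneg γ) (fun γ hγ => hpos γ hγ) _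
      refine (norm_inner_le_norm _ _).trans ?_
      rw [Γ.nvX, Γ.nv, mul_one]
    have h8 := mul_le_mul_of_nonneg_left h6 hc.le
    have h9 := (abs_le.1 h4).2
    linarith
  have hfix : ∀ f ∈ Subgroup.closure {u', w'}, σ.U f η = η := by
    refine mautnerX (σ := σ) hcont (a0 := a0') hfix0 ?_
    rintro x (rfl | hx)
    · exact Or.inl hu1'
    · rw [Set.mem_singleton_iff] at hx
      subst hx
      exact Or.inr hw1'
  obtain ⟨F, ε₀, hε₀, hF⟩ := hna'
  let T : XL μ (L2 Λ) →L[ℂ] UE μ (L2 G) := Too μ a E b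
  have hTV : ∀ (f : Subgroup.closure {u', w'}) x,
      T (I0.V f x) = opL (xmU μ b (L2 G)) (cres a (cen b)) (CRep.ext (AE μ G) E) f (T x) :=
    fun f φ => Too_V (aF := aF) b f (f : cen b) (fun _ => rfl) (fun _ => rfl) φ
  have hTP : ∀ D : Set X, MeasurableSet D → ∀ x, T (I0.P0.p D x) = (xmU μ b (L2 G)).py.p D (T x) :=
    fun D hDm φ => Too_P0 b hDm φ
  have hT0 : T (v0 μ Λ) = vec μ a E b := Too_v0 b
  let T' : XL μ (L2 Λ) →L[ℂ] XVp μ R L := ((XTR μ Γ).toContinuousLinearMap.comp (XPpr R)).comp T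
  have hT' : ∀ x, T' x = XTR μ Γ (XPpr R (T x)) := fun x => rfl
  obtain ⟨q, hq, hq2⟩ := finalX (cres a (cen b)) E (mrep_XV b Γ) (xapx Γ b hD) (Subgroup.closure {u', w'}) I0
    T' (fun f x => by
      rw [hT', hT', hTV, XPpr_opL, XTR_opL]) (fun D hDm x => by
      rw [hT', hT', hTP D hDm]
      have e1 := (hom_XPpr (μ := μ) (R := R) b).y D hDm (T x)
      have e2 := (hom_XTR (μ := μ) b Γ).y D hDm (XPpr R (T x))
      rw [e1]
      exact e2) (v0 μ Λ) h1 (by
      rw [hT', hT0]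
      intro h0
      rw [h0, Complex.zero_re] at h2
      exact lt_irrefl _ h2) hfix F (half_pos hε₀)
  obtain ⟨g, hg, hg2⟩ := hF q hq
  have h5 := hq2 g hg
  linarith

end Pool.Agent.Helper43.TA
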