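import Pool.Agent.Helper43.TA.Ms

/-!
# Block TYA-LIM: components over strata

`lim_mass`: `A` a decreasing sequence of sets in the region `R.W n`, finer than the filter `R.F n`. Let `ξ m := C (A m) (vec g)` (`C s := UE.map μ (ind ℂ s)`). For `m ≤ m'`: `‖ξ m - ξ m'‖ ^ 2 = ‖ξ m‖ ^ 2 - ‖ξ m'‖ ^ 2` (`ξ m' = C (A m') (ξ m)`, `sq_compl` and so on), the norms decrease, so `ξ` is a Cauchy sequence; let `η` be its limit
(`UE μ (L2 G)` is complete). `C (A m) η = η` for all `m`, so `C s η = η` for all `s ∈ R.F n` (`A m ⊆ s`), i.e. `η ∈ XUaSet`, `η ∈ XUa μ R`. `⟪ξ m, vec g⟫ = ‖ξ m‖ ^ 2`, in the limit `‖η‖ ^ 2 = ⟪η, vec g⟫ = ⟪η, XPpr R (vec g)⟫` (`inner_XPpr`) `= ⟪C (R.W n) η, XPpr ..⟫ = ⟪η, C (R.W n) (XPpr ..)⟫ ≤ ‖η‖ ‖C (R.W n) (XPpr R (vec g))‖`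
(`C (R.W n) η = η` as `R.W n ∈ R.F n`). So `lim ‖ξ m‖ ^ 2 = ‖η‖ ^ 2 ≤ mR R (R.W n) g`.
`hasComp_iff`: `HasComp R (zx μ a E) zx_bound g ↔ 0 < mR μ a E R univ g`. `→`: `XPpr_ne_zero` as in `esc`. `←`: if `XPpr R (vec g) ≠ 0` then some element `ξ` of the spanning set `XUaSet` has `⟪ξ, vec g⟫ ≠ 0` (otherwise `vec g` is orthogonal to the span and its closure, and `XPpr R (vec g) = 0`). `vec g = cls (fun n => zx (g n))` definitionally (`vec_eq`).
`mR_ltr`: `esc_norm` and `XPpr_opL`, `opL_vec` (as `n1` in the proof of `esc`): for `h` commuting with all `g n`, `‖XPpr R (vec (h g))‖ = ‖XPpr R (vec g)‖`.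
-/

set_option autoImplicit false
set_option linter.unusedSectionVars false

open MeasureTheory Filter Topology

namespace Pool.Agent.Helper43.TA

open Pool.Agent.Helper84.NI Pool.Agent.Helper84.GVN Pool.Agent.Helper90.RK
open Pool.Agent.Helper84.GN hiding toReg
open Pool.Agent.Helper96.RK Pool.Agent.Helper66.FR Pool.Agent.Helper84.FR Pool.Agent.Helper96.FR Pool.Agent.Helper55.FR

variable {G1 X G Λ : Type} [Group G1] [MeasurableSpace X] {μ : Measure X} [MulAction G1 X]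
  [MeasurableConstSMul G1 X] [SMulInvariantMeasure G1 X μ] [IsProbabilityMeasure μ]
  [Group G] [Group Λ] [Countable Λ] {a : Cocy G1 X Λ} {E : Emb Λ G}

private theorem univ47 (ξ : UE μ (L2 G)) : UE.map μ (ind ℂ (Set.univ : Set G)) ξ = ξ := by
  have h : (ind ℂ (Set.univ : Set G) : L2 G →L[ℂ] L2 G) = ContinuousLinearMap.id ℂ (L2 G) := by
    ext1 x
    apply lv_ext
    intro i
    rw [ind_apply, if_pos (Set.mem_univ i), ContinuousLinearMap.id_apply]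
  rw [h, UE.map_id]

/-- `⟪C t v, C s v⟫ = ‖C t v‖ ^ 2` for `t ⊆ s`. -/
private theorem inner47 {s t : Set G} (h : t ⊆ s) (v : UE μ (L2 G)) :
    (inner ℂ (UE.map μ (ind ℂ s) v) (UE.map μ (ind ℂ t) v) : ℂ) = ((‖UE.map μ (ind ℂ t) v‖ ^ 2 : ℝ) : ℂ) := by
  have h1 : UE.map μ (ind ℂ t) v = UE.map μ (ind ℂ t) (UE.map μ (ind ℂ t) v) := by
    rw [xind_ind, Set.inter_self]
  have h2 : UE.map μ (ind ℂ t) (UE.map μ (ind ℂ s) v) = UE.map μ (ind ℂ t) v := by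
    rw [xind_ind, Set.inter_eq_left.2 h]
  calc (inner ℂ (UE.map μ (ind ℂ s) v) (UE.map μ (ind ℂ t) v) : ℂ)
      = inner ℂ (UE.map μ (ind ℂ s) v) (UE.map μ (ind ℂ t) (UE.map μ (ind ℂ t) v)) := by rw [← h1]
    _ = inner ℂ (UE.map μ (ind ℂ t) (UE.map μ (ind ℂ s) v)) (UE.map μ (ind ℂ t) v) :=
          (xinner_ind t (UE.map μ (ind ℂ s) v) (UE.map μ (ind ℂ t) v)).symm
    _ = inner ℂ (UE.map μ (ind ℂ t) v) (UE.map μ (ind ℂ t) v) := by rw [h2]
    _ = _ := by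
      rw [inner_self_eq_norm_sq_to_K]
      norm_cast

private theorem dist47 {s t : Set G} (h : t ⊆ s) (v : UE μ (L2 G)) :
    ‖UE.map μ (ind ℂ s) v - UE.map μ (ind ℂ t) v‖ ^ 2 =
      ‖UE.map μ (ind ℂ s) v‖ ^ 2 - ‖UE.map μ (ind ℂ t) v‖ ^ 2 := by
  rw [norm_sub_sq (𝕜 := ℂ), inner47 h v]
  rw [show (RCLike.re (((‖UE.map μ (ind ℂ t) v‖ ^ 2 : ℝ) : ℂ)) : ℝ) = ‖UE.map μ (ind ℂ t) v‖ ^ 2 from Complex.ofReal_re _]
  ring

theorem lim_mass (R : Reg G) (n : ℕ) {A : ℕ → Set G} (hA : Antitone A) (hW : ∀ m, A m ⊆ R.W n)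
    (hF : ∀ s ∈ R.F n, ∃ m, A m ⊆ s) (g : ℕ → G1) {ε : ℝ} (hε : 0 < ε) :
    ∃ m, ms μ a E (A m) g ≤ mR μ a E R (R.W n) g + ε := by
  set v : UE μ (L2 G) := vec μ a E g with hv
  set ξ : ℕ → UE μ (L2 G) := fun m => UE.map μ (ind ℂ (A m)) v with hξ
  -- the norms converge
  have hanti : Antitone fun m => ‖ξ m‖ ^ 2 := by
    intro m m' hm
    have h1 := dist47 (hA hm) v
    have h2 : 0 ≤ ‖UE.map μ (ind ℂ (A m)) v - UE.map μ (ind ℂ (A m')) v‖ ^ 2 := by positivity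
    change ‖UE.map μ (ind ℂ (A m')) v‖ ^ 2 ≤ ‖UE.map μ (ind ℂ (A m)) v‖ ^ 2
    linarith
  have hbdd : BddBelow (Set.range fun m => ‖ξ m‖ ^ 2) := ⟨0, by
    rintro _ ⟨m, rfl⟩
    positivity⟩
  have hlim := tendsto_atTop_ciInf hanti hbdd
  have hcs : CauchySeq fun m => ‖ξ m‖ ^ 2 := hlim.cauchySeq
  have hcau : CauchySeq ξ := by
    rw [Metric.cauchySeq_iff] at hcs ⊢
    intro δ hδ
    obtain ⟨N0, hN0⟩ := hcs (δ ^ 2) (by positivity)
    refine ⟨N0, fun m hm k hk => ?_⟩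
    have key : ∀ p q : ℕ, N0 ≤ p → p ≤ q → ‖ξ p - ξ q‖ < δ := by
      intro p q hp hpq
      have h1 := dist47 (hA hpq) v
      have h2 := hN0 p hp q (hp.trans hpq)
      rw [Real.dist_eq] at h2
      have h3 : ‖ξ p - ξ q‖ ^ 2 < δ ^ 2 := by
        change ‖UE.map μ (ind ℂ (A p)) v - UE.map μ (ind ℂ (A q)) v‖ ^ 2 < δ ^ 2
        rw [h1]
        exact (le_abs_self _).trans_lt h2
      exact lt_of_pow_lt_pow_left₀ 2 hδ.le h3
    rw [dist_eq_norm]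
    rcases le_total m k with h | h
    · exact key m k hm h
    · rw [norm_sub_rev]
      exact key k m hk h
  obtain ⟨η, hη⟩ := cauchySeq_tendsto_of_complete hcau
  -- the limit is carried by the filter
  have hfix : ∀ s ∈ R.F n, UE.map μ (ind ℂ s) η = η := by
    intro s hs
    obtain ⟨m0, hm0⟩ := hF s hs
    have h1 : Tendsto (fun m => UE.map μ (ind ℂ s) (ξ m)) atTop (𝓝 (UE.map μ (ind ℂ s) η)) :=
      ((UE.map μ (ind ℂ s)).continuous.tendsto η).comp hη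
    have h2 : (fun m => UE.map μ (ind ℂ s) (ξ m)) =ᶠ[atTop] ξ := by
      filter_upwards [eventually_ge_atTop m0] with m hm
      change UE.map μ (ind ℂ s) (UE.map μ (ind ℂ (A m)) v) = UE.map μ (ind ℂ (A m)) v
      rw [xind_ind, Set.inter_eq_right.2 ((hA hm).trans hm0)]
    exact tendsto_nhds_unique (h1.congr' h2) hη
  have hmem : η ∈ XUa μ R := Submodule.le_topologicalClosure _ (Submodule.subset_span ⟨n, hfix⟩)
  -- the inner product with `v`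
  have hin : (inner ℂ η v : ℂ) = ((‖η‖ ^ 2 : ℝ) : ℂ) := by
    have h1 : Tendsto (fun m => (inner ℂ (ξ m) v : ℂ)) atTop (𝓝 (inner ℂ η v)) :=
      hη.inner tendsto_const_nhds
    have h2 : Tendsto (fun m => ((‖ξ m‖ ^ 2 : ℝ) : ℂ)) atTop (𝓝 ((‖η‖ ^ 2 : ℝ) : ℂ)) :=
      (Complex.continuous_ofReal.tendsto _).comp (hη.norm.pow 2)
    refine tendsto_nhds_unique h1 (h2.congr fun m => ?_)
    have h3 := inner47 (Set.Subset.refl (A m)) v
    change _ = (inner ℂ (UE.map μ (ind ℂ (A m)) v) v : ℂ)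
    rw [← h3, ← xinner_ind, xind_ind, Set.inter_self]
  have hWF : R.W n ∈ R.F n := le_principal_iff.1 (R.le n)
  have hle : ‖η‖ ≤ ‖UE.map μ (ind ℂ (R.W n)) ((XPpr R v : XUa μ R) : UE μ (L2 G))‖ := by
    have h1 : (inner ℂ η v : ℂ) =
        inner ℂ η (UE.map μ (ind ℂ (R.W n)) ((XPpr R v : XUa μ R) : UE μ (L2 G))) := by
      have h2 := inner_XPpr R v ⟨η, hmem⟩
      have h3 : (inner ℂ (⟨η, hmem⟩ : XUa μ R) (XPpr R v) : ℂ) =
          inner ℂ η ((XPpr R v : XUa μ R) : UE μ (L2 G)) := rfl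
      rw [h3] at h2
      rw [← xinner_ind, hfix _ hWF]
      exact h2
    by_cases h0 : ‖η‖ = 0
    · rw [h0]
      exact norm_nonneg _
    · have hpos : 0 < ‖η‖ := lt_of_le_of_ne (norm_nonneg _) (Ne.symm h0)
      have h4 : ‖η‖ ^ 2 ≤ ‖η‖ * ‖UE.map μ (ind ℂ (R.W n)) ((XPpr R v : XUa μ R) : UE μ (L2 G))‖ := by
        have h5 := norm_inner_le_norm (𝕜 := ℂ) η (UE.map μ (ind ℂ (R.W n)) ((XPpr R v : XUa μ R) : UE μ (L2 G)))
        rw [← h1, hin, Complex.norm_real, Real.norm_eq_abs, abs_of_nonneg (by positivity)] at h5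
        exact h5
      rw [sq] at h4
      exact le_of_mul_le_mul_left h4 hpos
  have hn2 : Tendsto (fun m => ‖ξ m‖ ^ 2) atTop (𝓝 (‖η‖ ^ 2)) := hη.norm.pow 2
  obtain ⟨m, hm⟩ := (hn2.eventually (gt_mem_nhds (show ‖η‖ ^ 2 < ‖η‖ ^ 2 + ε by linarith))).exists
  refine ⟨m, ?_⟩
  have h6 : ‖η‖ ^ 2 ≤ mR μ a E R (R.W n) g := pow_le_pow_left₀ (norm_nonneg _) hle 2
  have h7 : ms μ a E (A m) g = ‖ξ m‖ ^ 2 := rfl
  rw [h7]
  linarith

theorem hasComp_iff (R : Reg G) (g : ℕ → G1) :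
    HasComp R (zx μ a E) zx_bound g ↔ 0 < mR μ a E R Set.univ g := by
  have hm : mR μ a E R Set.univ g = ‖((XPpr R (vec μ a E g) : XUa μ R) : UE μ (L2 G))‖ ^ 2 := by
    unfold mR
    rw [univ47]
  rw [hm]
  constructor
  · rintro ⟨ξ, ⟨n, hn⟩, hin⟩
    have hne : XPpr R (vec μ a E g) ≠ 0 :=
      XPpr_ne_zero R (Submodule.le_topologicalClosure _ (Submodule.subset_span ⟨n, hn⟩)) hin
    have h1 : ((XPpr R (vec μ a E g) : XUa μ R) : UE μ (L2 G)) ≠ 0 := by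
      intro h0
      exact hne (Subtype.ext h0)
    have h2 := norm_pos_iff.2 h1
    positivity
  · intro hpos
    by_contra hcon
    have horth : XUa μ R ≤ (ℂ ∙ vec μ a E g)ᗮ := by
      refine Submodule.topologicalClosure_minimal _ ?_ (Submodule.isClosed_orthogonal _)
      rw [Submodule.span_le]
      rintro ξ ⟨n, hn⟩
      rw [SetLike.mem_coe, Submodule.mem_orthogonal_singleton_iff_inner_left]
      by_contra h0
      exact hcon ⟨ξ, ⟨n, hn⟩, h0⟩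
    have h1 := horth (XPpr R (vec μ a E g)).2
    rw [Submodule.mem_orthogonal_singleton_iff_inner_left, inner_XPpr] at h1
    have h2 : XPpr R (vec μ a E g) = 0 := inner_self_eq_zero.1 h1
    rw [h2] at hpos
    simp at hpos

theorem mR_ltr (R : Reg G) {g : ℕ → G1} {h : G1} (hh : ∀ n, g n * h = h * g n) :
    mR μ a E R Set.univ (ltr h g) = mR μ a E R Set.univ g := by
  let _ : TopologicalSpace G1 := ⊥
  have _ : DiscreteTopology G1 := ⟨rfl⟩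
  have _ : IsTopologicalGroup G1 := inferInstance
  let h' : cen g := ⟨h, mem_cen.2 hh⟩
  have hzV : XPpr R (vec μ a E g) ∈ VB (XAU R) :=
    (Bdd.map (A := AE μ G) (T := XPpr R) (XPpr_A R) (bdd_A_vec g)).mem_VB
  have e1 : XPpr R (vec μ a E (ltr h g)) =
      opL (xmUa μ g R) (cres a (cen g)) (CRep.ext (XAU R) E) h' (XPpr R (vec μ a E g)) := by
    rw [← XPpr_opL, opL_vec]
    rfl
  have n1 : ‖XPpr R (vec μ a E (ltr h g))‖ = ‖XPpr R (vec μ a E g)‖ := by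
    rw [e1]
    exact esc_norm a E g h' hzV
  unfold mR
  rw [univ47, univ47]
  exact congrArg (fun r : ℝ => r ^ 2) n1

end Pool.Agent.Helper43.TA
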