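import Pool.Agent.Helper43.TA.Fin2
import Pool.Agent.Helper43.TA.Top

/-!
# Block TYB-TOP2: lattices of groups with `TwoG` do not embed in discrete groups of type A of the same rank

PROOF. As `typeA_emb`, `typeA_hom`, `typeA_iso` in `TA/Top.lean`, with `typeA_core2` for `typeA_core`: `Dat μ a Z (N - 2)` from `TwoF (N - 2) Z`; `hreach` from `reachX` for the group `F`.
-/

set_option autoImplicit false
set_option linter.unusedSectionVars false

open MeasureTheory Filter Topology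

namespace Pool.Agent.Helper43.TA

open Pool.Agent.Helper84.NI Pool.Agent.Helper84.GVN Pool.Agent.Helper90.RK
open Pool.Agent.Helper84.GN hiding toReg
open Pool.Agent.Helper96.RK Pool.Agent.Helper66.FR Pool.Agent.Helper84.FR Pool.Agent.Helper96.FR Pool.Agent.Helper55.FR
open Pool.Agent.Helper66.RKS

private theorem cl_ind_mono56 {X G : Type} [MeasurableSpace X] {μ : Measure X} [IsProbabilityMeasure μ] {A B : Set G}
    (h : A ⊆ B) (f : XL μ (L2 G)) : ‖cl μ (ind ℂ A) f‖ ≤ ‖cl μ (ind ℂ B) f‖ := by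
  have h1 := cl_ind_ind A B f
  rw [Set.inter_eq_left.2 h] at h1
  rw [← h1]
  have h2 := norm_cl_le_of (μ := μ) (T := ind ℂ A) (C := 1) zero_le_one (fun x => by
    rw [one_mul]
    exact norm_ind2 _ _) (cl μ (ind ℂ B) f)
  rwa [one_mul] at h2

private theorem gp_lt56 {G : Type} [Group G] {N : ℕ} {P : PH G N} (S : Sv P) {γ : G} {j : Fin N} {R : ℝ}
    (h : (⌈R⌉₊ : ℝ) < lg S γ j) : R < gp S γ j := by
  rw [gp_eq_exp]
  have h1 := Nat.le_ceil R
  have h2 := Real.add_one_le_exp (lg S γ j)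
  linarith

private theorem two_sub56 {G : Type} [Group G] {N : ℕ} {P : PH G N} (S : Sv P) (R : ℕ) :
    Pool.Agent.Helper84.GN.S3.Two S (Real.exp R) ⊆ TwoL S R := by
  rintro γ ⟨i, j, hij, h1, h2⟩
  refine ⟨i, j, hij, ?_, ?_⟩
  · rw [gp_eq_exp] at h1
    exact Real.exp_lt_exp.1 h1
  · rw [gp_eq_exp] at h2
    exact Real.exp_lt_exp.1 h2

/-- A discrete nonamenable group `F ⊆ K Z K`, `K` compact, such that the group `Z` has `r` commuting elements as in `TwoF`. -/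
def TwoG (G1 : Type) [Group G1] [TopologicalSpace G1] (r : ℕ) : Prop :=
  ∃ (Z F : Subgroup G1) (K : Set G1), IsCompact K ∧ (∀ f ∈ F, ∃ k ∈ K, ∃ z ∈ Z, ∃ k' ∈ K, f = k * z * k') ∧
    DiscreteTopology F ∧ NonAm F ∧ TwoF r Z

variable {G1 : Type} [Group G1] [TopologicalSpace G1] [IsTopologicalGroup G1] [LocallyCompactSpace G1]
  [SecondCountableTopology G1] [T2Space G1] {Γ1 : Subgroup G1} {Γ2 : Type} [Group Γ2] {N : ℕ}

theorem typeA_emb2 (hL : Pool.Agent.Helper96.FR.Lattice Γ1) (hN : 3 ≤ N) (hT : TwoG G1 (N - 2)) (ρ : PRep Γ2 N)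
    (E : Emb Γ1 Γ2) : False := by
  classical
  obtain ⟨Z, F, K, hK, hKZ, hF, hna, hTZ⟩ := hT
  obtain ⟨S⟩ := nonempty_sv ρ.ph
  have hd : DiscreteTopology Γ1 := hL.1
  have hcount : Countable Γ1 := countable_of_discrete Γ1
  obtain ⟨X, mX, act, μ, hμ, c, hmp, hme, hmul, hF2, hF3, hF4⟩ := exists_cocycle Γ1 hL
  have i1 : MeasurableConstSMul G1 X := ⟨fun g => (hmp g).measurable⟩
  have i2 : SMulInvariantMeasure G1 X μ := ⟨fun g s hs => (hmp g).measure_preimage hs.nullMeasurableSet⟩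
  let a : Cocy G1 X Γ1 := ⟨c, fun h l => hme h {l}, hmul⟩
  obtain ⟨e, u, w, hcF, hcc, hcu, hcon, hmt⟩ := hTZ
  let D : Dat μ a Z (N - 2) :=
    { h3 := hF3
      hF2 := hF2
      hp := fun F' hF' => ⟨countable_of_discrete F', hF4 F' hF'⟩
      e := e
      u := u
      w := w
      cF := hcF
      cc := hcc
      cu := hcu
      con := hcon
      mt := hmt }
  have hFc : Countable F := countable_of_discrete F
  obtain ⟨p, hp, hpe⟩ := hF4 F hF
  refine typeA_core2 (E := E) (S := S) D (by omega) (by omega) hK hKZ hF hna ?_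
  intro q β hβ hq hgap
  obtain ⟨β', hβ', h⟩ := Pool.Agent.Helper84.GN.S3.X.reachX (a := a) (E := E) hN S F hna p (fun l g => hp l {g}) hpe hβ (by
    rcases hq with hq | hq
    · right
      intro R'
      obtain ⟨f, hf, hl⟩ := hgap ⌈R'⌉₊
      refine ⟨f, hf, hl.trans (cl_ind_mono56 ?_ _)⟩
      intro γ hγ j hj
      have : j = q := Fin.ext (hj.trans hq.symm)
      rw [this]
      exact gp_lt56 S hγ
    · left
      intro R'
      obtain ⟨f, hf, hl⟩ := hgap ⌈R'⌉₊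
      refine ⟨f, hf, hl.trans (cl_ind_mono56 ?_ _)⟩
      intro γ hγ j hj
      have : j = q := Fin.ext (by omega)
      rw [this]
      exact gp_lt56 S hγ)
  refine ⟨β', hβ', fun R => ?_⟩
  obtain ⟨f, hf, hl⟩ := h (Real.exp R)
  exact ⟨f, hf, hl.trans (cl_ind_mono56 (two_sub56 S R) _)⟩

/-- No trace preserving homomorphism. -/
theorem typeA_hom2 (hL : Pool.Agent.Helper96.FR.Lattice Γ1) (hN : 3 ≤ N) (hT : TwoG G1 (N - 2)) (ρ : PRep Γ2 N)
    (θ : LH Γ1 →⋆ₐ[ℂ] LH Γ2) (hτ : ∀ x, (θ x).tr = x.tr) : False := by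
  refine typeA_emb2 hL hN hT ρ
    (homEmb (((bridge Γ2).toStarAlgHom.comp θ).comp (bridge Γ1).symm.toStarAlgHom) fun x => ?_)
  have h1 := hτ ((bridge Γ1).symm x)
  change (θ ((bridge Γ1).symm x)).coeff 1 = ((bridge Γ1).symm x).coeff 1 at h1
  rw [← bridge_coeff, ← bridge_coeff] at h1
  exact h1

/-- No isomorphism. -/
theorem typeA_iso2 (hL : Pool.Agent.Helper96.FR.Lattice Γ1) (hicc : IsICC Γ1) (hN : 3 ≤ N) (hT : TwoG G1 (N - 2))
    (ρ : PRep Γ2 N) (h : IsoL Γ1 Γ2) : False := by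
  obtain ⟨e⟩ := h
  let e' : LG Γ1 ≃⋆ₐ[ℂ] LG Γ2 := (bridge Γ1).symm.trans (e.trans (bridge Γ2))
  exact typeA_emb2 hL hN hT ρ
    (homEmb e'.toStarAlgHom fun x => Pool.Agent.Helper84.TU.tr_iso hicc e' x)

end Pool.Agent.Helper43.TA
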