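import Pool.Agent.Helper43.TA.Geo

/-!
# Block TYA-COMB: combinatorics of the scales

PROOFS. `card_hd`: induction on the chain (`Finset.card_lt_card`, `IsCh`, `hd [] = univ` has `N` elements; `hd (J :: c) = J`).
`last_mem`: if `L ∉ J` for a set `J` of the chain then `1 * (1 + ∑ i ∈ J, lg γ i) ≤ lg γ L = 0` (`gp = 1` for the last index), but the sum is `≥ 0` (`sum_lg_nonneg`).
`TJ_anti`: `TC_anti`. `TJ_shift`: `lg_shift S g h` (`Ty1`: there is `C : ℕ` with `lg (g⁻¹ γ h) i ≤ lg γ i + C` and conversely) and `TC_shift` with `m' := m * (1 + N * C) + C`.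
`TJ_gap`: let `c` be the chain; `card_hd`: `(hd c).card ≤ 1` if `N ≤ j + 1`; `c ≠ []` as `N ≥ 2`, so `hd c` is in the chain and contains the last index (`last_mem`, `TC_anti`), hence `hd c = {last}`; the gap `i` is not in `hd c`, so `m + 1 ≤ (m + 1) (1 + ...) ≤ lg γ i`.
`TJ_zero`: `c = []`.
-/

set_option autoImplicit false

open Filter Topology

namespace Pool.Agent.Helper43.TA

open Pool.Agent.Helper84.NI Pool.Agent.Helper90.RK Pool.Agent.Helper96.RK

variable {G : Type} [Group G] {N : ℕ} {P : PH G N} (S : Sv P)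

theorem card_hd (c : List (Finset (Fin N))) (hc : IsCh c) : (hd c).card + c.length ≤ N := by
  induction c with
  | nil => simp [hd]
  | cons J c ih =>
    have h1 : J ⊂ hd c ∧ IsCh c := hc
    have h2 := ih h1.2
    have h3 := Finset.card_lt_card h1.1
    have h4 : hd (J :: c) = J := rfl
    rw [h4, List.length_cons]
    omega

theorem last_mem {c : List (Finset (Fin N))} {m : ℕ} (hm : 1 ≤ m) {γ : G} (h : γ ∈ TC S c m) {L : Fin N}
    (hL : (L : ℕ) + 1 = N) : ∀ J ∈ c, L ∈ J := by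
  intro J hJ
  by_contra hn
  have h1 := h J hJ L hn
  have h2 : lg S γ L = 0 := by
    have : ¬ (L : ℕ) + 1 < N := by omega
    unfold lg gp
    rw [dif_neg this, Real.log_one]
  have h3 := sum_lg_nonneg S γ J
  have h4 : (1 : ℝ) ≤ m := by exact_mod_cast hm
  rw [h2] at h1
  nlinarith

theorem TJ_anti (j : ℕ) {m m' : ℕ} (h : m ≤ m') : TJ S j m' ⊆ TJ S j m := by
  rintro γ ⟨c, h1, h2, h3⟩
  exact ⟨c, h1, h2, TC_anti S c h h3⟩

theorem TJ_zero (m : ℕ) : TJ S 0 m = Set.univ := by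
  refine Set.eq_univ_of_forall fun γ => ⟨[], rfl, trivial, ?_⟩
  intro I hI
  exact absurd hI List.not_mem_nil

theorem TJ_shift (g h : G) (j m : ℕ) : ∃ m' : ℕ, ∀ γ ∈ TJ S j m', g⁻¹ * γ * h ∈ TJ S j m := by
  obtain ⟨C, hC⟩ := lg_shift S g h
  refine ⟨m * (1 + N * C) + C, ?_⟩
  rintro γ ⟨c, h1, h2, h3⟩
  exact ⟨c, h1, h2, TC_shift S c (hC γ) m h3⟩

theorem TJ_gap {j m : ℕ} (hj : N ≤ j + 1) {γ : G} (h : γ ∈ TJ S j (m + 1)) {i : Fin N} (hi : (i : ℕ) + 1 < N) :
    (m : ℝ) + 1 ≤ lg S γ i := by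
  obtain ⟨c, h1, h2, h3⟩ := h
  have h4 := card_hd c h2
  have hlast : ∀ J ∈ c, (⟨N - 1, by omega⟩ : Fin N) ∈ J :=
    last_mem S (Nat.le_add_left 1 m) h3 (L := ⟨N - 1, by omega⟩) (by show N - 1 + 1 = N; omega)
  rcases c with _ | ⟨J, c⟩
  · rw [List.length_nil] at h1
    omega
  · have h5 : hd (J :: c) = J := rfl
    rw [h5, h1] at h4
    have h6 := hlast J List.mem_cons_self
    have h7 : i ∉ J := by
      intro hiJ
      have h8 : J.card ≤ 1 := by omega
      have h9 := Finset.card_le_one.1 h8 i hiJ _ h6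
      rw [h9] at hi
      simp only at hi
      omega
    have h8 := h3 J List.mem_cons_self i h7
    have h9 := sum_lg_nonneg S γ J
    have h10 : (0 : ℝ) ≤ m := Nat.cast_nonneg m
    push_cast at h8
    nlinarith

end Pool.Agent.Helper43.TA
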