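import Pool.Agent.Helper43.TA.Geo

/-!
# Block TYA-SCALE: separation of scales

PROOF of `sep_scales`. Claim (induction on the cardinality of `I`): for every `m` there is `w` such that for all `γ` with some `i ∈ I`, `lg γ i > w`, there is a set `J ⊂ I` with `m (1 + ∑ i ∈ J, lg γ i) ≤ lg γ j` for all `j ∈ I \ J`.
Let `w'` be the number for all proper subsets (finitely many: take the maximum, or do the induction on the cardinality with a number `w'` for all sets of smaller cardinality); put `w := m (1 + N w')` (and `w ≥ w'`). Let `i0 ∈ I` have the smallest gap in `I`, `I' := I \ {i0}`.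
Simplest: let `i1 ∈ I` be arbitrary with `lg γ i1 > w`. Sort: let `K := {i ∈ I : lg γ i ≤ w'}`. If `K = ∅`... Alternative without sorting: choose `J ⊂ I` by the pigeonhole principle: define `t_0 := m`, `t_(k+1) := m (1 + N t_k) + m` (increasing natural numbers). The `N + 1` intervals `(t_k, t_(k+1)]`, `k ≤ N`, contain not all a gap of `γ` (there are `N` gaps), so for some `k ≤ N` no `lg γ i`,
`i ∈ I`, is in `(t_k, t_(k+1)]`. Let `J := {i ∈ I : lg γ i ≤ t_k}`. For `j ∈ I \ J`: `lg γ j > t_(k+1) ≥ m (1 + N t_k) ≥ m (1 + ∑ i ∈ J, lg γ i)`. If some gap in `I` is larger than `w := t_(N+1)` then `J ≠ I`. This is the proof, no induction is needed.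
`sep_scales`: `I := hd c`. For `j ∉ hd c`: if `c = []` there is none; otherwise `hd c` is in the chain and `m (1 + ∑_J) ≤ w (1 + ∑_(hd c)) ≤ lg γ j` for `γ ∈ TC S c w`, `w ≥ m`. `TC_cons`, `TC_anti`.
`TJ_succ`: for each chain `c` of length `j` (`List.finite_length_eq`: finitely many) take `w c` of `sep_scales`, and `w` a common upper bound. Let `γ ∈ TJ S j w`, `c` its chain; `γ ∈ TC S c (w c)`. If `γ ∉ WC S (hd c) w` then `γ ∉ WC S (hd c) (w c)`, so `γ ∈ TC S (J :: c) m` with `J ⊂ hd c`, i.e. `γ ∈ TJ S (j + 1) m`, a contradiction.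
-/

set_option autoImplicit false

open Filter Topology

namespace Pool.Agent.Helper43.TA

open Pool.Agent.Helper84.NI Pool.Agent.Helper90.RK Pool.Agent.Helper96.RK

variable {G : Type} [Group G] {N : ℕ} {P : PH G N} (S : Sv P)

/-- The bounds of the intervals of the pigeonhole argument. -/
private def tt34 (N m : ℕ) : ℕ → ℕ
  | 0 => m
  | k + 1 => m * (1 + N * tt34 N m k) + tt34 N m k

private theorem tt34_mono (N m : ℕ) : Monotone (tt34 N m) :=
  monotone_nat_of_le_succ fun k => by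
    show tt34 N m k ≤ m * (1 + N * tt34 N m k) + tt34 N m k
    exact Nat.le_add_left _ _

theorem sep_scales {c : List (Finset (Fin N))} (hc : IsCh c) (m : ℕ) :
    ∃ w : ℕ, ∀ γ ∈ TC S c w, γ ∉ WC S (hd c) w → ∃ J, J ⊂ hd c ∧ γ ∈ TC S (J :: c) m := by
  classical
  refine ⟨tt34 N m (N + 1), fun γ hγ hW => ?_⟩
  have hmw : m ≤ tt34 N m (N + 1) := tt34_mono N m (Nat.zero_le (N + 1))
  obtain ⟨i0, hi0, hi0'⟩ : ∃ i ∈ hd c, ((tt34 N m (N + 1) : ℕ) : ℝ) < lg S γ i := by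
    by_contra hcon
    push Not at hcon
    exact hW fun i hi => hcon i hi
  obtain ⟨k, hk⟩ : ∃ k : Fin (N + 1), ∀ i : Fin N, ((tt34 N m k : ℕ) : ℝ) < lg S γ i →
      ((tt34 N m ((k : ℕ) + 1) : ℕ) : ℝ) < lg S γ i := by
    by_contra hcon
    push Not at hcon
    choose f hf1 hf2 using hcon
    obtain ⟨x, y, hxy, hfxy⟩ := Fintype.exists_ne_map_eq_of_card_lt f (by simp)
    have key : ∀ x y : Fin (N + 1), (x : ℕ) < (y : ℕ) → f x = f y → False := by
      intro x y hlt hf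
      have h1 := hf2 x
      have h2 := hf1 y
      rw [hf] at h1
      have h3 : tt34 N m ((x : ℕ) + 1) ≤ tt34 N m (y : ℕ) := tt34_mono N m hlt
      have h4 : ((tt34 N m ((x : ℕ) + 1) : ℕ) : ℝ) ≤ ((tt34 N m (y : ℕ) : ℕ) : ℝ) := by exact_mod_cast h3
      linarith
    rcases lt_trichotomy (x : ℕ) (y : ℕ) with h | h | h
    · exact key x y h hfxy
    · exact hxy (Fin.ext h)
    · exact key y x h hfxy.symm
  have hkw : tt34 N m (k : ℕ) ≤ tt34 N m (N + 1) := tt34_mono N m (by omega)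
  have hkw' : ((tt34 N m (k : ℕ) : ℕ) : ℝ) ≤ ((tt34 N m (N + 1) : ℕ) : ℝ) := by exact_mod_cast hkw
  refine ⟨(hd c).filter fun i => lg S γ i ≤ ((tt34 N m (k : ℕ) : ℕ) : ℝ), ?_, ?_⟩
  · refine Finset.filter_ssubset.2 ⟨i0, hi0, ?_⟩
    intro hcon
    linarith
  rw [TC_cons]
  refine ⟨fun j hj => ?_, TC_anti S c hmw hγ⟩
  have hm0 : (0 : ℝ) ≤ (m : ℝ) := Nat.cast_nonneg m
  by_cases hjc : j ∈ hd c
  · have h1 : ((tt34 N m (k : ℕ) : ℕ) : ℝ) < lg S γ j := by
      by_contra hcon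
      push Not at hcon
      exact hj (Finset.mem_filter.2 ⟨hjc, hcon⟩)
    have h2 := hk j h1
    have h3 : tt34 N m ((k : ℕ) + 1) = m * (1 + N * tt34 N m (k : ℕ)) + tt34 N m (k : ℕ) := rfl
    rw [h3] at h2
    push_cast at h2
    have h4 : ∑ i ∈ (hd c).filter (fun i => lg S γ i ≤ ((tt34 N m (k : ℕ) : ℕ) : ℝ)), lg S γ i
        ≤ (N : ℝ) * ((tt34 N m (k : ℕ) : ℕ) : ℝ) := by
      calc ∑ i ∈ (hd c).filter (fun i => lg S γ i ≤ ((tt34 N m (k : ℕ) : ℕ) : ℝ)), lg S γ i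
          ≤ ∑ i ∈ (hd c).filter (fun i => lg S γ i ≤ ((tt34 N m (k : ℕ) : ℕ) : ℝ)),
            ((tt34 N m (k : ℕ) : ℕ) : ℝ) := Finset.sum_le_sum fun i hi => (Finset.mem_filter.1 hi).2
        _ = (((hd c).filter (fun i => lg S γ i ≤ ((tt34 N m (k : ℕ) : ℕ) : ℝ))).card : ℝ) *
            ((tt34 N m (k : ℕ) : ℕ) : ℝ) := by rw [Finset.sum_const, nsmul_eq_mul]
        _ ≤ (N : ℝ) * ((tt34 N m (k : ℕ) : ℕ) : ℝ) := by
            refine mul_le_mul_of_nonneg_right ?_ (Nat.cast_nonneg _)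
            have := Finset.card_le_univ ((hd c).filter (fun i => lg S γ i ≤ ((tt34 N m (k : ℕ) : ℕ) : ℝ)))
            rw [Fintype.card_fin] at this
            exact_mod_cast this
    have h5 : (0 : ℝ) ≤ ((tt34 N m (k : ℕ) : ℕ) : ℝ) := Nat.cast_nonneg _
    have h6 := mul_le_mul_of_nonneg_left (add_le_add_right h4 1) hm0
    have h7 : (m : ℝ) * (1 + ∑ i ∈ (hd c).filter (fun i => lg S γ i ≤ ((tt34 N m (k : ℕ) : ℕ) : ℝ)), lg S γ i)
        ≤ (m : ℝ) * (1 + (N : ℝ) * ((tt34 N m (k : ℕ) : ℕ) : ℝ)) :=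
      mul_le_mul_of_nonneg_left (by linarith) hm0
    linarith
  · have hne : ∃ I c', c = I :: c' := by
      cases c with
      | nil => exact absurd (Finset.mem_univ j) hjc
      | cons I c' => exact ⟨I, c', rfl⟩
    obtain ⟨I, c', rfl⟩ := hne
    have h1 := ((TC_cons S).1 hγ).1 j hjc
    have h2 : ∑ i ∈ (hd (I :: c')).filter (fun i => lg S γ i ≤ ((tt34 N m (k : ℕ) : ℕ) : ℝ)), lg S γ i
        ≤ ∑ i ∈ I, lg S γ i :=
      Finset.sum_le_sum_of_subset_of_nonneg (Finset.filter_subset _ _) fun i _ _ => lg_nonneg S γ i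
    have h3 : (m : ℝ) ≤ ((tt34 N m (N + 1) : ℕ) : ℝ) := by exact_mod_cast hmw
    have h4 := sum_lg_nonneg S γ I
    refine le_trans ?_ h1
    exact mul_le_mul h3 (by linarith) (by linarith [sum_lg_nonneg S γ ((hd (I :: c')).filter (fun i => lg S γ i ≤ ((tt34 N m (k : ℕ) : ℕ) : ℝ)))]) (Nat.cast_nonneg _)

theorem TJ_succ (j m : ℕ) : ∃ w : ℕ, ∀ γ ∈ TJ S j w, γ ∉ TJ S (j + 1) m →
    ∃ c : List (Finset (Fin N)), c.length = j ∧ IsCh c ∧ γ ∈ TC S c w ∧ γ ∈ WC S (hd c) w := by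
  classical
  have hfin : {c : List (Finset (Fin N)) | c.length = j}.Finite := List.finite_length_eq _ j
  let wc : List (Finset (Fin N)) → ℕ := fun c => if h : IsCh c then (sep_scales S h m).choose else 0
  refine ⟨hfin.toFinset.sup wc, fun γ hγ hγ' => ?_⟩
  obtain ⟨c, hcl, hc, hcT⟩ := hγ
  have hle : wc c ≤ hfin.toFinset.sup wc := Finset.le_sup (f := wc) (hfin.mem_toFinset.2 hcl)
  refine ⟨c, hcl, hc, hcT, ?_⟩
  by_contra hW
  have hwc : wc c = (sep_scales S hc m).choose := dif_pos hc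
  have h1 : γ ∈ TC S c (wc c) := TC_anti S c hle hcT
  have h2 : γ ∉ WC S (hd c) (wc c) := fun h => hW (WC_mono S _ hle h)
  rw [hwc] at h1 h2
  obtain ⟨J, hJ, hJT⟩ := (sep_scales S hc m).choose_spec γ h1 h2
  exact hγ' ⟨J :: c, by rw [List.length_cons, hcl], ⟨hJ, hc⟩, hJT⟩

end Pool.Agent.Helper43.TA
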