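import Pool.Agent.Helper43.TA.Lim
import Pool.Agent.Helper43.TA.Comb
import Pool.Agent.Helper43.TA.Scale

/-!
# Block TYA-ALL: all the mass has `j` scales

`all_ltr`. PROOF. Let `R` be the `Reg` with `W n = univ`, `F n = ⨅ m, 𝓟 (TJ S j m)` (`TJ_anti`; a set is in it iff it contains some `TJ S j m`; `shift`: `TJ_shift`). `AllT S j g` means `UE.map μ (ind ℂ (TJ S j m)) (vec g) = vec g` for all `m` (`ms_compl`/`sq_compl`, norms: `‖C s ξ‖ = ‖ξ‖` gives `C sᶜ ξ = 0`, `ξ = C s ξ + C sᶜ ξ`), so `vec g ∈ XUa μ R` and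
`XPpr R (vec g) = vec g` (as elements of `UE μ (L2 G)`). By `XPpr_opL`, `opL_vec` (`h ∈ cen g`) `XPpr R (vec (h g)) = opL h (XPpr R (vec g))`, whose norm is `1` (`mR_ltr`: `mR R univ (ltr h g) = mR R univ g = 1`), and `‖vec (h g)‖ = 1`, so `vec (h g)` is in `XUa μ R` (`norm_orthogonalProjection` equality; or `mR_le_ms`, `mR_carried`: `1 = mR R univ (h g) = mR R (TJ S j m) (h g) ≤ ms (TJ S j m) (h g) ≤ 1`).
So the second argument: `ms (TJ S j m) (ltr h g) = 1` and `ms_compl`.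
`all_one`. PROOF. For `m` let `w` be the number of `TJ_succ S 0 m` (chains of length `0`: `c = []`, `hd [] = univ`, `TJ_zero`): `(TJ S 1 m)ᶜ ⊆ WC S univ w`, a finite set (`finite_lg_le S w`). `ms (WC S univ w) b = lim ‖cl (ind ..) (zx (b n))‖ ^ 2 = 0` by `ms_tendsto` and `tendsto_mass` (`Helper55/FR/Start.lean`; used in this way in `rank_le_of_escape` in `Helper55/FR/Asm.lean`: copy from there, with `b m` for `a i0 ^ m`;
`Nat.hyperfilter_le_atTop`).
`succ_le`. PROOF. `w` of `TJ_succ S j m` (increase it to be `≥ m`). For every `m' ≥ w`: `(TJ S (j+1) m)ᶜ ⊆ (TJ S j m')ᶜ ∪ ⋃ c ∈ CH, (TC S c m' ∩ WC S (hd c) w)`: if `γ ∈ TJ S j m'`, then the number `w` can be used for the chain of `γ`: better use the proof of `TJ_succ` in the form: for all `m' ≥ w`, `γ ∈ TJ S j m'`, `γ ∉ TJ S (j+1) m` gives a chain `c` with `γ ∈ TC S c m' ∩ WC S (hd c) w`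
(from `sep_scales` for all chains, `w` their maximum; this is the statement `TJ_succ'` below, prove it first). For `c = J :: c'` (as `1 ≤ j`) `lim_mass` with `R = toReg (chStr S J c')`, `n = w`, `A m' = TC S c m' ∩ WC S (hd c) w` (`mem_FC`, `R.W w = WC S J w`) gives for large `m'`: `ms (A m') g ≤ mR R (R.W w) g + ε`; finitely many chains; `ms_union`, `ms_biUnion`, `ms (TJ S j m')ᶜ g = 0`; `ε → 0`.
-/

set_option autoImplicit false
set_option linter.unusedSectionVars false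

open MeasureTheory Filter Topology

namespace Pool.Agent.Helper43.TA

open Pool.Agent.Helper84.NI Pool.Agent.Helper84.GVN Pool.Agent.Helper90.RK
open Pool.Agent.Helper84.GN hiding toReg
open Pool.Agent.Helper96.RK Pool.Agent.Helper66.FR Pool.Agent.Helper84.FR Pool.Agent.Helper96.FR Pool.Agent.Helper55.FR

variable {G1 X G Λ : Type} [Group G1] [MeasurableSpace X] {μ : Measure X} [MulAction G1 X]
  [MeasurableConstSMul G1 X] [SMulInvariantMeasure G1 X μ] [IsProbabilityMeasure μ]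
  [Group G] [Group Λ] [Countable Λ] {a : Cocy G1 X Λ} {E : Emb Λ G} {N : ℕ} {P : PH G N} (S : Sv P)

private theorem mem_iT78 (j : ℕ) {s : Set G} : s ∈ (⨅ m : ℕ, 𝓟 (TJ S j m)) ↔ ∃ m, TJ S j m ⊆ s := by
  have hd : Directed (· ≥ ·) fun m : ℕ => 𝓟 (TJ S j m) := by
    intro m m'
    exact ⟨max m m', principal_mono.2 (TJ_anti S j (le_max_left _ _)),
      principal_mono.2 (TJ_anti S j (le_max_right _ _))⟩
  rw [mem_iInf_of_directed hd]
  simp only [mem_principal]

/-- The regions given by the sets with `j` scales. -/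
private noncomputable def tR78 (j : ℕ) : Reg G where
  W _ := Set.univ
  F _ := ⨅ m : ℕ, 𝓟 (TJ S j m)
  monoF _ := le_rfl
  le _ := le_principal_iff.2 univ_mem
  shift g h n := by
    refine ⟨n, tendsto_iInf.2 fun m => tendsto_principal.2 ?_⟩
    obtain ⟨m', hm'⟩ := TJ_shift S g h j m
    exact (mem_iT78 S j).2 ⟨m', hm'⟩

private theorem ind_add78 (s : Set G) (ξ : UE μ (L2 G)) :
    UE.map μ (ind ℂ s) ξ + UE.map μ (ind ℂ sᶜ) ξ = ξ := by
  classical
  have h : ind ℂ s + ind ℂ sᶜ = ContinuousLinearMap.id ℂ (L2 G) := by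
    ext1 x
    apply lv_ext
    intro i
    rw [_root_.add_apply, lp.coeFn_add, Pi.add_apply, ind_apply, ind_apply, ContinuousLinearMap.id_apply]
    by_cases h4 : i ∈ s <;> simp [h4]
  rw [← UE.map_add, h, UE.map_id]

private theorem all_mem78 {j : ℕ} {g : ℕ → G1} (hg : AllT μ a E S j g) : vec μ a E g ∈ XUa μ (tR78 S j) := by
  refine Submodule.le_topologicalClosure _ (Submodule.subset_span ⟨0, fun s hs => ?_⟩)
  obtain ⟨m, hm⟩ := (mem_iT78 S j).1 hs
  have h1 : UE.map μ (ind ℂ (TJ S j m)ᶜ) (vec μ a E g) = 0 := by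
    have h2 := hg m
    unfold ms at h2
    exact norm_eq_zero.1 (pow_eq_zero_iff (two_ne_zero)|>.1 h2)
  have h3 : UE.map μ (ind ℂ (TJ S j m)) (vec μ a E g) = vec μ a E g := by
    have h4 := ind_add78 (TJ S j m) (vec μ a E g)
    rwa [h1, add_zero] at h4
  rw [← h3, xind_ind, Set.inter_eq_right.2 hm]

theorem all_ltr {j : ℕ} {g : ℕ → G1} (hg : AllT μ a E S j g) {h : G1} (hh : ∀ n, g n * h = h * g n) :
    AllT μ a E S j (ltr h g) := by
  intro m
  have hmem := all_mem78 S hg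
  have h1 : mR μ a E (tR78 S j) Set.univ g = 1 := by
    unfold mR
    rw [XUa_ind (tR78 S j) (fun _ => univ_mem) (XPpr (tR78 S j) (vec μ a E g)).2]
    have h2 : ((XPpr (tR78 S j) (vec μ a E g) : XUa μ (tR78 S j)) : UE μ (L2 G)) = vec μ a E g :=
      Submodule.starProjection_eq_self_iff.2 hmem
    rw [h2, norm_vec, one_pow]
  have h3 := mR_ltr (μ := μ) (a := a) (E := E) (tR78 S j) hh
  have h4 := mR_carried (μ := μ) (a := a) (E := E) (tR78 S j) (s := TJ S j m)
    (fun _ => (mem_iT78 S j).2 ⟨m, le_rfl⟩) Set.univ (ltr h g)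
  have h5 := mR_le_ms (μ := μ) (a := a) (E := E) (tR78 S j) (TJ S j m ∩ Set.univ) (ltr h g)
  rw [h4, h3, h1, Set.inter_univ] at h5
  have h6 := ms_compl (μ := μ) (a := a) (E := E) (TJ S j m) (ltr h g)
  have h7 := ms_nonneg (μ := μ) (a := a) (E := E) (TJ S j m)ᶜ (ltr h g)
  linarith

theorem all_one [TopologicalSpace G1] (hF2 : ∀ l : Λ, Tendsto (fun g : G1 => μ {x | a.a g x = l}) (cocompact G1) (𝓝 0))
    {b : ℕ → G1} (hb : Tendsto b atTop (cocompact G1)) : AllT μ a E S 1 b := by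
  intro m
  obtain ⟨w, hw⟩ := TJ_succ S 0 m
  have hfin : {γ | ∀ i, lg S γ i ≤ w}.Finite := finite_lg_le S w
  have hsub : (TJ S 1 m)ᶜ ⊆ ((hfin.toFinset : Finset G) : Set G) := by
    intro γ hγ
    rw [hfin.coe_toFinset]
    obtain ⟨c, hc0, -, -, hc⟩ := hw γ (by rw [TJ_zero]; trivial) hγ
    rw [List.length_eq_zero_iff] at hc0
    rw [hc0] at hc
    intro i
    exact hc i (Finset.mem_univ _)
  have hc : ∀ (g : G1) (l : Λ), MeasurableSet (a.a g ⁻¹' {l}) := fun g l => a.meas g l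
  have h1 := tendsto_mass (μ := μ) E (f := fun m : ℕ => zx μ a E (b m))
    (c := fun m x => a.a (b m) ((b m)⁻¹ • x))
    (fun m l => (measurable_const_smul (b m)⁻¹) (hc _ l))
    (fun m => zv_apply (mea_a (b m) (b m)⁻¹)) (fun l => by
      have h2 := (ENNReal.tendsto_toReal ENNReal.zero_ne_top).comp ((hF2 l).comp hb)
      rw [ENNReal.toReal_zero] at h2
      refine h2.congr fun m => ?_
      have h3 := (measurePreserving_smul (b m)⁻¹ μ).measure_preimage (hc (b m) l).nullMeasurableSet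
      change (μ (a.a (b m) ⁻¹' {l})).toReal =
        (μ ((fun x => (b m)⁻¹ • x) ⁻¹' (a.a (b m) ⁻¹' {l}))).toReal
      rw [h3]) hfin.toFinset
  have h2 := ms_tendsto (μ := μ) (a := a) (E := E) ((hfin.toFinset : Finset G) : Set G) b
  have h3 : ms μ a E ((hfin.toFinset : Finset G) : Set G) b = 0 :=
    tendsto_nhds_unique h2 (h1.mono_left Nat.hyperfilter_le_atTop)
  have h4 := ms_mono (μ := μ) (a := a) (E := E) hsub b
  rw [h3] at h4
  exact le_antisymm h4 (ms_nonneg _ _)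

theorem finite_CH (N j : ℕ) : {c : List (Finset (Fin N)) | c.length = j ∧ IsCh c}.Finite :=
  Set.Finite.subset (List.finite_length_eq (Finset (Fin N)) j) fun c (hc : c.length = j ∧ IsCh c) => hc.1

/-- The chains of length `j`. -/
noncomputable def CH (N j : ℕ) : Finset (List (Finset (Fin N))) := (finite_CH N j).toFinset

theorem mem_CH {j : ℕ} {c : List (Finset (Fin N))} : c ∈ CH N j ↔ c.length = j ∧ IsCh c := by
  unfold CH
  rw [Set.Finite.mem_toFinset]
  rfl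

theorem TJ_succ' (j m : ℕ) : ∃ w : ℕ, ∀ m' : ℕ, w ≤ m' → ∀ γ ∈ TJ S j m', γ ∉ TJ S (j + 1) m →
    ∃ c ∈ CH N j, γ ∈ TC S c m' ∧ γ ∈ WC S (hd c) w := by
  classical
  have h1 : ∀ c : List (Finset (Fin N)), ∃ w : ℕ, c ∈ CH N j → ∀ γ ∈ TC S c w, γ ∉ WC S (hd c) w →
      ∃ J, J ⊂ hd c ∧ γ ∈ TC S (J :: c) m := by
    intro c
    by_cases hc : c ∈ CH N j
    · obtain ⟨w, hw⟩ := sep_scales S (mem_CH.1 hc).2 m
      exact ⟨w, fun _ => hw⟩
    · exact ⟨0, fun h => absurd h hc⟩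
  choose w hw using h1
  refine ⟨(CH N j).sup w, fun m' hm' γ hγ hγ' => ?_⟩
  obtain ⟨c, hcj, hc, hγc⟩ := hγ
  have hcm : c ∈ CH N j := mem_CH.2 ⟨hcj, hc⟩
  have hwc : w c ≤ (CH N j).sup w := Finset.le_sup hcm
  refine ⟨c, hcm, hγc, ?_⟩
  by_contra hcon
  obtain ⟨J, hJ, hJ2⟩ := hw c hcm γ (TC_anti S c (hwc.trans hm') hγc)
    (fun h => hcon (WC_mono S (hd c) hwc h))
  refine hγ' ⟨J :: c, ?_, ⟨hJ, hc⟩, hJ2⟩
  rw [List.length_cons, hcj]

theorem succ_le {j : ℕ} (hj : 1 ≤ j) (m : ℕ) : ∃ w : ℕ, ∀ g : ℕ → G1, AllT μ a E S j g →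
    ms μ a E (TJ S (j + 1) m)ᶜ g ≤
      ∑ c ∈ CH N j, mR μ a E (toReg (chStr S (hd c) c.tail)) (WC S (hd c) w) g := by
  classical
  obtain ⟨w, hw⟩ := TJ_succ' S j m
  refine ⟨w, fun g hg => ?_⟩
  refine le_of_forall_pos_le_add fun ε hε => ?_
  have hK : (0 : ℝ) < ((CH N j).card : ℝ) + 1 := by positivity
  have h1 : ∀ c : List (Finset (Fin N)), ∃ n : ℕ, c ∈ CH N j →
      ms μ a E (TC S c n ∩ WC S (hd c) w) g ≤
        mR μ a E (toReg (chStr S (hd c) c.tail)) (WC S (hd c) w) g + ε / ((CH N j).card + 1) := by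
    intro c
    by_cases hc : c ∈ CH N j
    · obtain ⟨hcj, -⟩ := mem_CH.1 hc
      rcases c with _ | ⟨J, c'⟩
      · simp only [List.length_nil] at hcj
        omega
      · obtain ⟨n, hn⟩ := lim_mass (μ := μ) (a := a) (E := E) (toReg (chStr S J c')) w
          (A := fun n => TC S (J :: c') n ∩ WC S J w)
          (fun n n' hnn => Set.inter_subset_inter_left _ (TC_anti S _ hnn))
          (fun n => Set.inter_subset_right)
          (fun s hs => by
            obtain ⟨n, hn⟩ := (mem_FC S).1 hs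
            refine ⟨n, ?_⟩
            rw [Set.inter_comm]
            exact hn) g (ε := ε / ((CH N j).card + 1)) (by positivity)
        exact ⟨n, fun _ => hn⟩
    · exact ⟨0, fun h => absurd h hc⟩
  choose n hn using h1
  obtain ⟨m', hm'⟩ : ∃ m' : ℕ, m' = max w ((CH N j).sup n) := ⟨_, rfl⟩
  have hwm : w ≤ m' := by rw [hm']; exact le_max_left _ _
  have hsub : (TJ S (j + 1) m)ᶜ ⊆ (TJ S j m')ᶜ ∪ ⋃ c ∈ CH N j, (TC S c m' ∩ WC S (hd c) w) := by
    intro γ hγ
    by_cases h : γ ∈ TJ S j m'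
    · right
      obtain ⟨c, hc, h2, h3⟩ := hw m' hwm γ h hγ
      rw [Set.mem_iUnion₂]
      exact ⟨c, hc, h2, h3⟩
    · left
      exact h
  have h2 := ms_mono (μ := μ) (a := a) (E := E) hsub g
  have h3 := ms_union (μ := μ) (a := a) (E := E) (TJ S j m')ᶜ
    (⋃ c ∈ CH N j, (TC S c m' ∩ WC S (hd c) w)) g
  have h4 := ms_biUnion (μ := μ) (a := a) (E := E) (CH N j) (fun c => TC S c m' ∩ WC S (hd c) w) g
  rw [hg m', zero_add] at h3
  have h5 : ∑ c ∈ CH N j, ms μ a E (TC S c m' ∩ WC S (hd c) w) g ≤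
      ∑ c ∈ CH N j, (mR μ a E (toReg (chStr S (hd c) c.tail)) (WC S (hd c) w) g + ε / ((CH N j).card + 1)) := by
    refine Finset.sum_le_sum fun c hc => ?_
    refine le_trans (ms_mono (Set.inter_subset_inter_left _ (TC_anti S c ?_)) g) (hn c hc)
    rw [hm']
    exact (Finset.le_sup hc).trans (le_max_right _ _)
  rw [Finset.sum_add_distrib, Finset.sum_const, nsmul_eq_mul] at h5
  have h6 : ((CH N j).card : ℝ) * (ε / ((CH N j).card + 1)) ≤ ε := by
    rw [mul_div_assoc', div_le_iff₀ hK]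
    nlinarith
  linarith

end Pool.Agent.Helper43.TA
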