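import Pool.Agent.Helper90.RK.FB

/-!
# Block TYA-FDEC: the fibre representation with decay

`Dec Ψ`: the matrix coefficient `⟪v, π(diag x) v⟫` tends to zero when the quotient of two of the numbers `x i` in one block tends to infinity.
PROOF. Take the representation of `exists_fibM` (`Helper90/RK/FB.lean`: copy the structure, or copy the proof), where `v` is the normalised indicator function `II N` of the unit ball `BB N` (redo `exists_ball` with the additional claim). `⟪v, π(C) v⟫ = vol (B ∩ TC b C ⁻¹' B) / vol B`, `B = BB N`, `TC b C y = (fun j => nrm b C⁻¹ *ᵥ y j)` (see `II_comp` and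
the last part of `exists_ball`). For `C = diag x`, `nrm b C⁻¹ = diag (t (b i) / x i)`, `t β > 0` (`om b C⁻¹ β`), because `nrm b C = diagonal (om b C (b i)) * C` (see `Helper90/RK/Mp.lean` and `DM.lean`), and it has determinant of modulus one. Let `y' i := t (b i) / x i`. Let `x i > r x j`, `b i = b j`; then `y' j > r y' i`, so `y' j ≥ √r` or `y' i ≤ 1/√r`.
First case: `B ∩ TC⁻¹ B ⊆ {y ∈ B : ‖y k j‖ ≤ 1/√r}` (any `k`, e.g. `k = i`; `‖y' j y k j‖ ≤ 1`). Second case: `vol (B ∩ TC⁻¹ B) = vol (TC (B ∩ TC⁻¹ B))` `⊆ {y ∈ B : ‖y k i‖ ≤ 1/√r}` (`TC b C` is measure preserving and bijective with inverse `TC b C⁻¹`; simpler: `⟪v, π(C) v⟫ = ⟪π(C⁻¹) v, v⟫`, so the second case for `C` is the first case for `C⁻¹ = diag (1/x)`).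
`vol {y ∈ B : ‖y k j‖ ≤ δ} → 0` as `δ → 0`: the sets decrease to `{y ∈ B : y k j = 0}`, a set of measure zero (proper subspace: `MeasureTheory.Measure.addHaar_submodule`, or by the product structure), `tendsto_measure_iInter_atTop` for `δ = 1/(n+1)`; there are finitely many pairs `(k, j)`.
-/

set_option autoImplicit false

open Filter Topology Matrix MeasureTheory
open scoped ENNReal

namespace Pool.Agent.Helper43.TA

open Pool.Agent.Helper84.NI Pool.Agent.Helper90.RK

variable {N : ℕ}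

/-- Decay of the matrix coefficient. -/
def Dec {b : Fin N → ℕ} {L : Type} [NormedAddCommGroup L] [InnerProductSpace ℂ L] (Ψ : FibM b L) : Prop :=
  ∀ ε : ℝ, 0 < ε → ∃ r : ℝ, ∀ x : Fin N → ℝ, (∀ i, 0 < x i) → (∃ i j, b i = b j ∧ r * x j < x i) →
    (inner ℂ Ψ.Φ.v (Ψ.Φ.π (diagonal fun i => (x i : ℂ)) Ψ.Φ.v) : ℂ).re ≤ ε

private theorem fdec_norm {y : YY N} (hy : y ∈ BB N) (k i : Fin N) : ‖y k i‖ ≤ 1 := by
  have hy' : nq y ≤ 1 := hy
  have h1 : ‖y k i‖ ^ 2 ≤ nq y := by
    unfold nq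
    calc ‖y k i‖ ^ 2 ≤ ∑ i, ‖y k i‖ ^ 2 :=
          Finset.single_le_sum (f := fun i => ‖y k i‖ ^ 2) (fun _ _ => by positivity) (Finset.mem_univ i)
      _ ≤ _ := Finset.single_le_sum (f := fun j => ∑ i, ‖y j i‖ ^ 2)
          (fun _ _ => Finset.sum_nonneg fun _ _ => by positivity) (Finset.mem_univ k)
  nlinarith [norm_nonneg (y k i)]

/-- A thin slice of the ball. -/
private def Sl (N : ℕ) (j : Fin N) (δ : ℝ) : Set (YY N) := {y | y ∈ BB N ∧ ‖y j j‖ ≤ δ}

private theorem Sl_meas (j : Fin N) (δ : ℝ) : MeasurableSet (Sl N j δ) := by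
  have hc : Continuous fun y : YY N => ‖y j j‖ := by fun_prop
  have h : IsClosed (Sl N j δ) :=
    IsClosed.inter BB_closed (isClosed_le hc continuous_const)
  exact h.measurableSet

private theorem Sl_fin (j : Fin N) (δ : ℝ) : (volume : Measure (YY N)) (Sl N j δ) ≠ ∞ :=
  ((measure_mono (fun _ hy => hy.1)).trans_lt (lt_top_iff_ne_top.2 BB_fin)).ne

private theorem Sl_mono (j : Fin N) {δ δ' : ℝ} (h : δ ≤ δ') : Sl N j δ ⊆ Sl N j δ' :=
  fun _ hy => ⟨hy.1, hy.2.trans h⟩

private theorem thin1 (j : Fin N) {ε : ℝ} (hε : 0 < ε) :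
    ∃ δ : ℝ, 0 < δ ∧ (volume : Measure (YY N)).real (Sl N j δ) ≤ ε := by
  have hanti : Antitone fun n : ℕ => Sl N j (1 / ((n : ℝ) + 1)) := by
    intro m n hmn
    refine Sl_mono j (one_div_le_one_div_of_le (by positivity) ?_)
    have : (m : ℝ) ≤ n := by exact_mod_cast hmn
    linarith
  have hlim := tendsto_measure_iInter_atTop (μ := (volume : Measure (YY N)))
    (fun n : ℕ => (Sl_meas (N := N) j (1 / ((n : ℝ) + 1))).nullMeasurableSet) hanti ⟨0, Sl_fin j _⟩
  have hzero : (volume : Measure (YY N)) (⋂ n : ℕ, Sl N j (1 / ((n : ℝ) + 1))) = 0 := by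
    have h0 : (volume : Measure (Fin N → ℂ)) {f | f j = 0} = 0 :=
      Measure.pi_hyperplane (fun _ : Fin N => (volume : Measure ℂ)) j 0
    have h1 : (volume : Measure (YY N)) (Function.eval j ⁻¹' {f : Fin N → ℂ | f j = 0}) = 0 :=
      Measure.pi_eval_preimage_null (fun _ : Fin N => (volume : Measure (Fin N → ℂ))) h0
    refine measure_mono_null ?_ h1
    intro y hy
    rw [Set.mem_iInter] at hy
    have h2 : Tendsto (fun n : ℕ => 1 / ((n : ℝ) + 1)) atTop (𝓝 0) := tendsto_one_div_add_atTop_nhds_zero_nat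
    have h3 : ‖y j j‖ ≤ 0 := ge_of_tendsto' h2 fun n => (hy n).2
    exact norm_le_zero_iff.1 h3
  rw [hzero] at hlim
  obtain ⟨n, hn⟩ := (ENNReal.tendsto_atTop_zero.1 hlim) (ENNReal.ofReal ε) (ENNReal.ofReal_pos.2 hε)
  refine ⟨1 / ((n : ℝ) + 1), by positivity, ?_⟩
  rw [measureReal_def]
  exact ENNReal.toReal_le_of_le_ofReal hε.le (hn n le_rfl)

private theorem thin (N : ℕ) {ε : ℝ} (hε : 0 < ε) :
    ∃ δ : ℝ, 0 < δ ∧ ∀ j : Fin N, (volume : Measure (YY N)).real (Sl N j δ) ≤ ε := by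
  choose d hd hd2 using fun j : Fin N => thin1 j hε
  rcases isEmpty_or_nonempty (Fin N) with hN | hN
  · exact ⟨1, one_pos, fun j => (hN.false j).elim⟩
  · obtain ⟨j0, hj0⟩ := Finite.exists_min d
    refine ⟨d j0, hd j0, fun j => (measureReal_mono (Sl_mono j (hj0 j)) (Sl_fin j _)).trans (hd2 j)⟩

private theorem dg_mem (b : Fin N → ℕ) {x : Fin N → ℝ} (hx : ∀ i, 0 < x i) :
    (diagonal fun i => (x i : ℂ) : MN N) ∈ GLb b := by
  refine ⟨D_diagonal b _, ?_⟩
  rw [Matrix.det_diagonal]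
  exact Finset.prod_ne_zero_iff.2 fun i _ => Complex.ofReal_ne_zero.2 (hx i).ne'

/-- The vector. -/
private noncomputable def vB (N : ℕ) : LL N := ((‖II N‖⁻¹ : ℝ) : ℂ) • II N

private theorem II_sq : ‖II N‖ ^ 2 = (volume : Measure (YY N)).real (BB N) := by
  unfold II
  rw [norm_indicatorConstLp (by norm_num) (by norm_num)]
  simp only [norm_one, one_mul]
  rw [← Real.rpow_natCast, ← Real.rpow_mul measureReal_nonneg]
  norm_num

private theorem coef (b : Fin N → ℕ) {C : MN N} (hC : C ∈ GLb b) :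
    (inner ℂ (vB N) (sig b C (vB N))).re =
      (volume : Measure (YY N)).real (BB N ∩ TC b C ⁻¹' BB N) / (volume : Measure (YY N)).real (BB N) := by
  unfold vB
  rw [map_smul, inner_smul_left, inner_smul_right, II_comp (TC_mp b hC) (sig_ae b hC (II N)), ← II_sq]
  have h : (inner ℂ (II N) (indicatorConstLp 2 (BB_meas.preimage (TC_mp b hC).measurable)
      (by rw [(TC_mp b hC).measure_preimage BB_meas.nullMeasurableSet]; exact BB_fin) (1 : ℂ) : LL N) : ℂ).re
      = (volume : Measure (YY N)).real (BB N ∩ TC b C ⁻¹' BB N) := by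
    unfold II
    rw [L2.inner_indicatorConstLp_one_indicatorConstLp_one (𝕜 := ℂ) BB_meas
      (BB_meas.preimage (TC_mp b hC).measurable) BB_fin
      (by rw [(TC_mp b hC).measure_preimage BB_meas.nullMeasurableSet]; exact BB_fin)]
    exact Complex.ofReal_re _
  rw [Complex.conj_ofReal, ← mul_assoc, ← Complex.ofReal_mul, Complex.re_ofReal_mul, h]
  have hI := (II_norm (N := N)).ne'
  field_simp

private theorem TC_dg (b : Fin N → ℕ) {x : Fin N → ℝ} (hx : ∀ i, 0 < x i) (y : YY N) (k i : Fin N) :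
    TC b (diagonal fun i => (x i : ℂ)) y k i =
      ((om b (diagonal fun i => (x i : ℂ))⁻¹ (b i) / x i : ℝ) : ℂ) * y k i := by
  have h1 : (diagonal fun i => (x i : ℂ) : MN N)⁻¹ = diagonal fun i => ((x i : ℂ))⁻¹ :=
    diag_inv fun i => Complex.ofReal_ne_zero.2 (hx i).ne'
  unfold TC nrm
  rw [← Matrix.mulVec_mulVec, Matrix.mulVec_diagonal]
  rw [h1, Matrix.mulVec_diagonal]
  push_cast
  ring

private theorem ball_dec (b : Fin N → ℕ) {ε : ℝ} (hε : 0 < ε) : ∃ r : ℝ, ∀ x : Fin N → ℝ,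
    (∀ i, 0 < x i) → (∃ i j, b i = b j ∧ r * x j < x i) →
    (inner ℂ (vB N) (sig b (diagonal fun i => (x i : ℂ)) (vB N))).re ≤ ε := by
  have hV : 0 < (volume : Measure (YY N)).real (BB N) := by
    rw [← II_sq]
    exact pow_pos II_norm 2
  obtain ⟨δ, hδ, hδ2⟩ := thin N (mul_pos hε hV)
  refine ⟨(δ⁻¹) ^ 2, fun x hx => ?_⟩
  rintro ⟨i, j, hij, hlt⟩
  have hC := dg_mem b hx
  rw [coef b hC, div_le_iff₀ hV]
  set C : MN N := diagonal fun i => (x i : ℂ) with hCdef
  set t : ℝ := om b C⁻¹ (b i) with ht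
  have ht0 : 0 < t := Real.rpow_pos_of_pos (norm_pos_iff.2 (dt_ne b (GLb_inv b hC) i)) _
  have hTi : ∀ (y : YY N) (k : Fin N), TC b C y k i = ((t / x i : ℝ) : ℂ) * y k i := fun y k => TC_dg b hx y k i
  have hTj : ∀ (y : YY N) (k : Fin N), TC b C y k j = ((t / x j : ℝ) : ℂ) * y k j := fun y k => by
    have h := TC_dg b hx y k j
    rw [← hij] at h
    exact h
  by_cases hc : δ⁻¹ ≤ t / x j
  · refine (measureReal_mono ?_ (Sl_fin j δ)).trans (hδ2 j)
    rintro y ⟨hy1, hy2⟩
    refine ⟨hy1, ?_⟩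
    have h1 := fdec_norm hy2 j j
    rw [hTj, norm_mul, Complex.norm_real, Real.norm_of_nonneg (div_pos ht0 (hx j)).le] at h1
    have h2 : δ⁻¹ * ‖y j j‖ ≤ 1 := (mul_le_mul_of_nonneg_right hc (norm_nonneg _)).trans h1
    rw [inv_mul_le_iff₀ hδ, mul_one] at h2
    exact h2
  · rw [not_le] at hc
    have h3 : t / x i < δ := by
      rw [div_lt_iff₀ (hx j)] at hc
      rw [div_lt_iff₀ (hx i)]
      calc t < δ⁻¹ * x j := hc
        _ = δ * ((δ⁻¹) ^ 2 * x j) := by field_simp
        _ < δ * x i := mul_lt_mul_of_pos_left hlt hδ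
    have hsub : BB N ∩ TC b C ⁻¹' BB N ⊆ TC b C ⁻¹' (Sl N i δ) := by
      rintro y ⟨hy1, hy2⟩
      refine ⟨hy2, ?_⟩
      rw [hTi, norm_mul, Complex.norm_real, Real.norm_of_nonneg (div_pos ht0 (hx i)).le]
      calc t / x i * ‖y i i‖ ≤ t / x i * 1 :=
            mul_le_mul_of_nonneg_left (fdec_norm hy1 i i) (div_pos ht0 (hx i)).le
        _ ≤ δ := by rw [mul_one]; exact h3.le
    have hpre : (volume : Measure (YY N)) (TC b C ⁻¹' (Sl N i δ)) = volume (Sl N i δ) :=
      (TC_mp b hC).measure_preimage (Sl_meas i δ).nullMeasurableSet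
    have hpre2 : (volume : Measure (YY N)).real (TC b C ⁻¹' (Sl N i δ)) = (volume : Measure (YY N)).real (Sl N i δ) := by
      rw [measureReal_def, measureReal_def, hpre]
    refine (measureReal_mono hsub (by rw [hpre]; exact Sl_fin i δ)).trans ?_
    rw [hpre2]
    exact hδ2 i

private theorem ball_prop (b : Fin N → ℕ) : ‖vB N‖ = 1 ∧ (∀ (z : Fin N → ℂ) (hz : IsBu b z), rot b z hz (vB N) = vB N) ∧
    (∀ k : MN N, k ∈ GLb b → IsU k → sig b k (vB N) = vB N) ∧
    ∀ C : MN N, C ∈ GLb b → 0 < (inner ℂ (vB N) (sig b C (vB N))).re := by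
  unfold vB
  refine ⟨?_, ?_, ?_, ?_⟩
  · rw [norm_smul, Complex.norm_real, norm_inv, norm_norm, inv_mul_cancel₀ II_norm.ne']
  · intro z hz
    rw [map_smul]
    congr 1
    refine II_fix (rot_mp b hz.1 hz.2) ?_ (rot_ae b z hz (II N))
    ext y
    change nq (fun j => z * y j) ≤ 1 ↔ nq y ≤ 1
    have : nq (fun j => z * y j) = nq y := by
      unfold nq
      refine Finset.sum_congr rfl fun j _ => Finset.sum_congr rfl fun i _ => ?_
      change ‖z i * y j i‖ ^ 2 = ‖y j i‖ ^ 2
      rw [norm_mul, hz.2 i, one_mul]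
    rw [this]
  · intro k hk hu
    rw [map_smul]
    congr 1
    refine II_fix (TC_mp b hk) ?_ (sig_ae b hk (II N))
    ext y
    change nq (TC b k y) ≤ 1 ↔ nq y ≤ 1
    have hinv : k⁻¹ = kᴴ := Matrix.inv_eq_left_inv hu
    have hk' : IsU k⁻¹ := by
      rw [hinv]
      exact hu.star
    have : nq (TC b k y) = nq y := by
      unfold nq TC
      refine Finset.sum_congr rfl fun j _ => ?_
      rw [nrm_unitary b (GLb_inv b hk) hk', hinv]
      exact sum_mulVec_unitary hu (y j)
    rw [this]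
  · intro C hC
    rw [map_smul, inner_smul_left, inner_smul_right, II_comp (TC_mp b hC) (sig_ae b hC (II N))]
    unfold II
    rw [L2.inner_indicatorConstLp_one_indicatorConstLp_one (𝕜 := ℂ) BB_meas
      (BB_meas.preimage (TC_mp b hC).measurable) BB_fin
      (by rw [(TC_mp b hC).measure_preimage BB_meas.nullMeasurableSet]; exact BB_fin)]
    have h0 : TC b C 0 = 0 := by
      funext j
      simp [TC]
    have hn : BB N ∩ TC b C ⁻¹' BB N ∈ nhds (0 : YY N) := by
      refine Filter.inter_mem BB_nhds ((TC_cont b C).continuousAt.preimage_mem_nhds ?_)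
      rw [h0]
      exact BB_nhds
    have h : 0 < (volume : Measure (YY N)).real (BB N ∩ TC b C ⁻¹' BB N) := by
      rw [measureReal_def]
      refine ENNReal.toReal_pos (Measure.measure_pos_of_mem_nhds _ hn).ne' ?_
      exact ((measure_mono Set.inter_subset_left).trans_lt (lt_top_iff_ne_top.2 BB_fin)).ne
    have hI := II_norm (N := N)
    unfold II at hI
    rw [Complex.conj_ofReal]
    rw [← mul_assoc, ← Complex.ofReal_mul, Complex.re_ofReal_mul]
    refine mul_pos (mul_pos (inv_pos.2 hI) (inv_pos.2 hI)) ?_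
    exact h

theorem exists_fibMd (b : Fin N → ℕ) : ∃ (L : Type) (_ : NormedAddCommGroup L) (_ : InnerProductSpace ℂ L)
    (_ : CompleteSpace L), ∃ Ψ : FibM b L, Dec Ψ := by
  obtain ⟨hv1, hv2, hv3, hv4⟩ := ball_prop b
  refine ⟨LR b, inferInstance, inferInstance, inferInstance, ?_⟩
  let Φ : Fib b (LR b) :=
    { π := pR b
      mul := by
        intro C E hC hE w
        apply Subtype.ext
        rw [pR_coe b (GLb_mul b hC hE), pR_coe b hC, pR_coe b hE, sig_mul b hC hE]
      scal := by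
        intro z C hz hC
        ext1 w
        apply Subtype.ext
        rw [pR_coe b (GLb_mul b (bs_mem b hz) hC), pR_coe b hC]
        exact sig_scal b hz hC w.1 w.2
      cont := by
        intro w
        have h : ContinuousOn (fun C => ((pR b C w : LR b) : LL N)) (GLb b) := by
          refine (sig_cont b w.1).congr fun C hC => ?_
          exact pR_coe b hC w
        exact continuousOn_iff_continuous_domRestrict.2
          (Continuous.subtype_mk (continuousOn_iff_continuous_domRestrict.1 h) _)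
      v := ⟨vB N, hv2⟩
      nv := hv1
      inv := by
        intro k hk hu
        apply Subtype.ext
        rw [pR_coe b hk]
        exact hv3 k hk hu }
  let Ψ : FibM b (LR b) :=
    { Φ := Φ
      mu := muR b
      pos := by
        intro C hC
        have h := hv4 C hC
        rw [← pR_coe b hC ⟨vB N, hv2⟩] at h
        exact h
      sq1 := by
        intro ι S m hm h1 f
        have h := mop_sq1 S m (fun t ht => (hm t ht).meas) (fun t ht => (hm t ht).bdd) h1 f.1
        rw [← Submodule.coe_norm] at h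
        rw [← h]
        refine Finset.sum_congr rfl fun t ht => ?_
        rw [← muR_coe b (hm t ht), Submodule.coe_norm]
      sq2 := by
        intro ι S m m' a hm hm' h1 f
        have h := mop_sq2 S m m' a (fun t ht => (hm t ht).meas) (fun t ht => (hm t ht).bdd)
          (fun t ht => (hm' t ht).meas) (fun t ht => (hm' t ht).bdd) h1 f.1
        rw [← Submodule.coe_norm] at h
        refine le_trans (le_of_eq ?_) h
        refine Finset.sum_congr rfl fun t ht => ?_
        rw [← muR_coe b (hm t ht), ← muR_coe b (hm' t ht), ← Submodule.coe_sub, Submodule.coe_norm]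
      equi := by
        intro m C h hC f
        apply Subtype.ext
        change ((pR b C (muR b m f) : LR b) : LL N) =
          ((muR b (fun y => m fun j => C⁻¹ *ᵥ y j) (pR b C f) : LR b) : LL N)
        rw [pR_coe b hC, muR_coe b h, muR_coe b (Hm.comp_GLb h (GLb_inv b hC).1), pR_coe b hC]
        exact mop_sig b h hC f.1 }
  refine ⟨Ψ, fun ε hε => ?_⟩
  obtain ⟨r, hr⟩ := ball_dec b hε
  refine ⟨r, fun x hx hex => ?_⟩
  have h := hr x hx hex
  rw [← pR_coe b (dg_mem b hx) ⟨vB N, hv2⟩] at h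
  exact h

end Pool.Agent.Helper43.TA
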