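import Pool.Agent.Helper43.TA.Defs
import Pool.Agent.Helper43.TA.Fdec

/-!
# Block TYA-BLK: the cocycle of one block

PROOF. `T := chStr S J c`, `b = T.b = bJ J` (`Helper96/RK/Ty1`; `mem_of_bJ_eq`, `exists_of_bJ_lt`, `bJ_mono`). Only the block `β` of `b` is used.
For `C : MN N` let `rho C i j := if b i = β ∧ b j = β then C i j else if i = j then 1 else 0`. On `GLb b`: `rho (C D) = rho C * rho D` (block diagonal), `rho C ∈ GLb b` (`rho C * rho C⁻¹ = rho 1 = 1`), `rho` is continuous, `rho k` is unitary for unitary `k ∈ GLb b`, `rho (diagonal z * C) = diagonal z' * rho C` with `z' i = z i` for `b i = β` and `1` otherwise, `IsBs b z'`.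
So `Φ' := {π := fun C => Ψ.Φ.π (rho C), v := Ψ.Φ.v, ...} : Fib b L` for `Ψ` of `exists_fibMd b`. The cocycle: as `toCoc` (`Helper84/GN/I1.lean`) with `Φ'`: `pi g h γ := Φ'.π (T.C g h γ)`, `vX γ := Φ'.π (S.X γ) Φ'.v`; `coc_one T Φ'`, `coc_cpt`, `coc_mul`, `coc_left`, `coc_cptX`, `coc_right` are proved there for every `Fib`. `nonneg`: `Ψ.pos (rho (S.X γ))`.
`pos n` on `WC S (KB J β) n`: for `γ` in this set `rho (S.X γ)` is the diagonal matrix with entries `1 / s_i` (`b i = β`) and `1`; multiply by the block scalar `s_(i0)` on the block `β` (`i0` its first index): entries in `[1, exp (n) ^ N]` (`ratio_le`, `gp_eq_exp`, `S.anti`: for `i ≤ k < j`, `b i = b j = β`, the gap `k` is in `KB J β`), so a matrix in the compact set `Kb b (exp n ^ N) 1`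
(as in `X_compact` in `Helper90/RK/GD.lean`), then as in `coc_pos`. (If the block `β` is empty `rho C = 1`.)
Decay: if `γ ∉ WC S (KB J β) n` there is `i ∈ KB J β` with `lg γ i > n ≥ 0`, so `i + 1 < N` (`gp = 1` for the last index) and `b (i + 1) = b i = β` (`i ∈ J`; `exists_of_bJ_lt`): `1 / s_(i+1) > exp n * (1 / s_i)`: `Dec Ψ` with `r ≤ exp n` for `rho (S.X γ) = diagonal x` (`⟪vX γ, v⟫` is the conjugate of `⟪v, π(..) v⟫`).
-/

set_option autoImplicit false
set_option linter.unusedSectionVars false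

open MeasureTheory Filter Topology Matrix

namespace Pool.Agent.Helper43.TA

open Pool.Agent.Helper84.NI Pool.Agent.Helper84.GVN Pool.Agent.Helper90.RK
open Pool.Agent.Helper84.GN hiding toReg
open Pool.Agent.Helper96.RK

variable {G : Type} [Group G] {N : ℕ} {P : PH G N}

section Rho

variable (b : Fin N → ℕ) (β : ℕ)

/-- The projection on the block `β`. -/
private noncomputable def pB : MN N := diagonal fun i => if b i = β then 1 else 0

/-- The block `β` of `C`, and the identity on the other blocks. -/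
private noncomputable def rho (C : MN N) : MN N := C * pB b β + (1 - pB b β)

private theorem pB_comm {C : MN N} (hC : D b C = C) : pB b β * C = C * pB b β := by
  unfold pB
  ext i j
  rw [Matrix.diagonal_mul, Matrix.mul_diagonal]
  by_cases h : b i = b j
  · rw [h, mul_comm]
  · have : C i j = 0 := by
      rw [← hC, D_apply, if_neg h]
    rw [this]
    ring

private theorem pB_sq : pB b β * pB b β = pB b β := by
  unfold pB
  rw [Matrix.diagonal_mul_diagonal]
  congr 1
  funext i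
  split_ifs <;> simp

private theorem pB_star : (pB b β)ᴴ = pB b β := by
  unfold pB
  rw [Matrix.diagonal_conjTranspose]
  congr 1
  funext i
  simp only [Pi.star_apply]
  split_ifs <;> simp

private theorem rho_one : rho b β (1 : MN N) = 1 := by
  unfold rho
  rw [one_mul]
  abel

private theorem rho_mul {C E : MN N} (hE : D b E = E) : rho b β (C * E) = rho b β C * rho b β E := by
  unfold rho
  have h1 := pB_comm b β hE
  have h2 := pB_sq b β
  have e1 : C * pB b β * (E * pB b β) = C * E * pB b β := by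
    rw [← h1, Matrix.mul_assoc C, ← Matrix.mul_assoc (pB b β) (pB b β), h2, h1, ← Matrix.mul_assoc]
  have e2 : C * pB b β * (1 - pB b β) = 0 := by
    rw [Matrix.mul_sub, Matrix.mul_one, Matrix.mul_assoc, h2, sub_self]
  have e3 : (1 - pB b β) * (E * pB b β) = 0 := by
    rw [Matrix.sub_mul, Matrix.one_mul, ← h1, ← Matrix.mul_assoc, h2, sub_self]
  have e4 : (1 - pB b β) * (1 - pB b β) = 1 - pB b β := by
    rw [Matrix.mul_sub, Matrix.mul_one, Matrix.sub_mul, Matrix.one_mul, h2, sub_self, sub_zero]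
  rw [Matrix.add_mul, Matrix.mul_add, Matrix.mul_add, e1, e2, e3, e4]
  abel

private theorem rho_D {C : MN N} (hC : D b C = C) : D b (rho b β C) = rho b β C := by
  have hadd : ∀ A B : MN N, D b (A + B) = D b A + D b B := by
    intro A B
    ext i j
    rw [D_apply, Matrix.add_apply, Matrix.add_apply, D_apply, D_apply]
    split_ifs
    · rfl
    · rw [add_zero]
  unfold rho
  rw [hadd, D_sub, D_one, D_mul_left b hC]
  have h : D b (pB b β) = pB b β := D_diagonal b _
  rw [h]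

private theorem rho_mem {C : MN N} (hC : C ∈ GLb b) : rho b β C ∈ GLb b := by
  refine ⟨rho_D b β hC.1, fun h => ?_⟩
  have h1 := rho_mul b β (C := C) (GLb_inv b hC).1
  rw [Matrix.mul_nonsing_inv _ (isUnit_iff_ne_zero.2 hC.2), rho_one] at h1
  have h2 := congrArg Matrix.det h1
  rw [Matrix.det_one, Matrix.det_mul, h, zero_mul] at h2
  exact one_ne_zero h2

private theorem rho_unitary {k : MN N} (hk : k ∈ GLb b) (hu : IsU k) : IsU (rho b β k) := by
  have hk' : D b kᴴ = kᴴ := by rw [D_star, hk.1]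
  have h1 : (rho b β k)ᴴ = rho b β kᴴ := by
    unfold rho
    rw [Matrix.conjTranspose_add, Matrix.conjTranspose_mul, Matrix.conjTranspose_sub,
      Matrix.conjTranspose_one, pB_star, pB_comm b β hk']
  change (rho b β k)ᴴ * rho b β k = 1
  have hu' : kᴴ * k = 1 := hu
  rw [h1, ← rho_mul b β hk.1, hu', rho_one]

private theorem rho_diag (z : Fin N → ℂ) :
    rho b β (diagonal z) = diagonal fun i => if b i = β then z i else 1 := by
  unfold rho pB
  ext i j
  rw [Matrix.add_apply, Matrix.sub_apply, Matrix.diagonal_mul_diagonal]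
  by_cases hij : i = j
  · subst hij
    simp only [Matrix.diagonal_apply_eq, Matrix.one_apply_eq]
    split_ifs <;> simp
  · simp only [Matrix.diagonal_apply_ne _ hij, Matrix.one_apply_ne hij]
    simp

private theorem rho_cont : Continuous (rho (N := N) b β) := by
  unfold rho
  fun_prop

/-- The fibre representation of one block. -/
private noncomputable def fibB {L : Type} [NormedAddCommGroup L] [InnerProductSpace ℂ L] (Φ : Pool.Agent.Helper90.RK.Fib b L) :
    Pool.Agent.Helper90.RK.Fib b L where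
  π C := Φ.π (rho b β C)
  mul C E hC hE w := by
    rw [rho_mul b β hE.1]
    exact Φ.mul _ _ (rho_mem b β hC) (rho_mem b β hE) w
  scal z C hz hC := by
    rw [rho_mul b β hC.1, rho_diag]
    refine Φ.scal _ _ ⟨fun i => ?_, fun i j hij => ?_⟩ (rho_mem b β hC)
    · dsimp only
      split_ifs
      · exact hz.1 i
      · exact one_ne_zero
    · dsimp only
      rw [hij, hz.2 i j hij]
  cont w := (Φ.cont w).comp (rho_cont b β).continuousOn fun C hC => rho_mem b β hC
  v := Φ.v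
  nv := Φ.nv
  inv k hk hu := Φ.inv _ (rho_mem b β hk) (rho_unitary b β hk hu)

end Rho

private theorem re_symmB {L : Type} [NormedAddCommGroup L] [InnerProductSpace ℂ L] (x y : L) :
    (inner ℂ x y : ℂ).re = (inner ℂ y x : ℂ).re := by
  rw [← inner_conj_symm, Complex.conj_re]

private theorem rho_X (S : Sv P) (b : Fin N → ℕ) (β : ℕ) (γ : G) :
    rho b β (S.X γ) = diagonal fun i => (((if b i = β then (S.s γ i)⁻¹ else 1 : ℝ)) : ℂ) := by
  unfold Sv.X
  rw [rho_diag]
  congr 1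
  funext i
  split_ifs <;> simp

private theorem blk_compact (S : Sv P) (J : Finset (Fin N)) (β : ℕ) (n : ℕ) : ∃ K : ℝ, ∀ γ ∈ WC S (KB J β) n,
    ∃ z : Fin N → ℂ, (∀ i, z i ≠ 0) ∧
    (∀ i j, bJ J i = bJ J j → z i = z j) ∧ diagonal z * rho (bJ J) β (S.X γ) ∈ Kb (bJ J) K 1 := by
  have h1 : (1 : ℝ) ≤ Real.exp n := Real.one_le_exp (Nat.cast_nonneg n)
  refine ⟨max ((Real.exp n) ^ N) 1, fun γ hγ => ?_⟩
  have hf : ∀ i : Fin N, ∃ k : Fin N, bJ J k = bJ J i ∧ ∀ j, bJ J j = bJ J i → k ≤ j := by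
    intro i
    obtain ⟨k, hk, hk'⟩ := (Finset.univ.filter fun j => bJ J j = bJ J i).exists_min_image id
      ⟨i, by simp⟩
    rw [Finset.mem_filter] at hk
    exact ⟨k, hk.2, fun j hj => hk' j (by simp [hj])⟩
  choose f hf1 hf2 using hf
  have hf3 : ∀ i j, bJ J i = bJ J j → f i = f j := fun i j hij =>
    le_antisymm (hf2 i _ ((hf1 j).trans hij.symm)) (hf2 j _ ((hf1 i).trans hij))
  have hr1 : ∀ i, 1 ≤ S.s γ (f i) / S.s γ i := fun i => by
    rw [le_div_iff₀ (S.pos γ i), one_mul]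
    exact S.anti γ (hf2 i i rfl)
  have hr2 : ∀ i, bJ J i = β → S.s γ (f i) / S.s γ i ≤ (Real.exp n) ^ N := fun i hi => by
    rw [div_le_iff₀ (S.pos γ i)]
    refine ratio_le S γ h1 (f i) i fun k hik hkj => ?_
    rw [gp_eq_exp]
    refine Real.exp_le_exp.2 (hγ k (mem_KB.2 ⟨mem_of_bJ_eq (hf1 i) hik hkj, ?_⟩))
    have a1 := bJ_mono J hik
    have a2 := bJ_mono J hkj.le
    rw [hf1 i] at a1
    exact (le_antisymm a2 a1).trans hi
  set w : Fin N → ℝ := fun i => if bJ J i = β then S.s γ (f i) / S.s γ i else 1 with hw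
  have hw1 : ∀ i, 1 ≤ w i := fun i => by
    rw [hw]
    dsimp only
    split_ifs
    · exact hr1 i
    · exact le_rfl
  have hw2 : ∀ i, w i ≤ max ((Real.exp n) ^ N) 1 := fun i => by
    rw [hw]
    dsimp only
    split_ifs with h
    · exact (hr2 i h).trans (le_max_left _ _)
    · exact le_max_right _ _
  have e : diagonal (fun i => if bJ J i = β then (S.s γ (f i) : ℂ) else 1) * rho (bJ J) β (S.X γ) =
      diagonal (fun i => (w i : ℂ)) := by
    rw [rho_X, Matrix.diagonal_mul_diagonal]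
    congr 1
    funext i
    rw [hw]
    dsimp only
    split_ifs
    · push_cast
      rw [div_eq_mul_inv]
    · simp
  have hn : ∀ i, ‖((w i : ℝ) : ℂ)‖ = w i := fun i => by
    rw [Complex.norm_real, Real.norm_of_nonneg (zero_le_one.trans (hw1 i))]
  refine ⟨fun i => if bJ J i = β then (S.s γ (f i) : ℂ) else 1, fun i => ?_, fun i j hij => ?_, ?_⟩
  · dsimp only
    split_ifs
    · exact S.ofReal_ne γ _
    · exact one_ne_zero
  · dsimp only
    rw [hij, hf3 i j hij]
  · rw [e]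
    refine ⟨D_diagonal _ _, fun i j => ?_, ?_⟩
    · by_cases hij : i = j
      · subst hij
        rw [Matrix.diagonal_apply_eq, hn]
        exact hw2 i
      · rw [Matrix.diagonal_apply_ne _ hij, norm_zero]
        exact zero_le_one.trans (le_max_right _ _)
    · rw [Matrix.det_diagonal, norm_prod]
      calc (1:ℝ) = ∏ _i : Fin N, (1:ℝ) := by rw [Finset.prod_const_one]
        _ ≤ _ := Finset.prod_le_prod (fun i _ => zero_le_one) fun i _ => by
            rw [hn]
            exact hw1 i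

private theorem blk_pos (S : Sv P) (J : Finset (Fin N)) (β : ℕ) {L : Type} [NormedAddCommGroup L] [InnerProductSpace ℂ L]
    (Ψ : Pool.Agent.Helper90.RK.FibM (bJ J) L) (n : ℕ) :
    ∃ c : ℝ, 0 < c ∧ ∀ γ ∈ WC S (KB J β) n, c ≤ (inner ℂ (Ψ.Φ.π (rho (bJ J) β (S.X γ)) Ψ.Φ.v) Ψ.Φ.v : ℂ).re := by
  obtain ⟨K, hKX⟩ := blk_compact S J β n
  have hX : ∀ γ, S.X γ ∈ GLb (bJ J) := fun γ => Str.X_mem (chStr S J []) γ
  by_cases hne : (Kb (bJ J) K 1).Nonempty
  · have hK := isCompact_Kb (b := bJ J) K 1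
    have hcont : ContinuousOn (fun C : MN N => (inner ℂ Ψ.Φ.v (Ψ.Φ.π C Ψ.Φ.v) : ℂ).re)
        (Kb (bJ J) K 1) := by
      have h1 : ContinuousOn (fun C : MN N => Ψ.Φ.π C Ψ.Φ.v) (Kb (bJ J) K 1) :=
        (Ψ.Φ.cont Ψ.Φ.v).mono (Kb_sub (bJ J) one_pos)
      have h2 : Continuous fun w : L => (inner ℂ Ψ.Φ.v w : ℂ).re :=
        Complex.continuous_re.comp (continuous_const.inner continuous_id)
      exact h2.comp_continuousOn h1
    obtain ⟨C0, hC0, hmin⟩ := hK.exists_isMinOn hne hcont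
    refine ⟨_, Ψ.pos C0 (Kb_sub (bJ J) one_pos hC0), fun γ hγ => ?_⟩
    obtain ⟨z, hz0, hz1, hz2⟩ := hKX γ hγ
    rw [re_symmB (Ψ.Φ.π (rho (bJ J) β (S.X γ)) Ψ.Φ.v) Ψ.Φ.v,
      ← Ψ.Φ.scal z (rho (bJ J) β (S.X γ)) ⟨hz0, hz1⟩ (rho_mem _ β (hX γ))]
    exact hmin hz2
  · refine ⟨1, one_pos, fun γ hγ => ?_⟩
    obtain ⟨z, -, -, hz2⟩ := hKX γ hγ
    exact absurd ⟨_, hz2⟩ hne

theorem exists_blk (S : Sv P) (J : Finset (Fin N)) (c : List (Finset (Fin N))) (β : ℕ) :
    ∃ (L : Type) (_ : NormedAddCommGroup L) (_ : InnerProductSpace ℂ L) (_ : CompleteSpace L) (Γ : Coc (blkReg S J c β) L),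
    ∀ ε : ℝ, 0 < ε → ∃ n : ℕ, ∀ γ ∉ WC S (KB J β) n, (inner ℂ (Γ.vX γ) Γ.v : ℂ).re ≤ ε := by
  obtain ⟨L, iN, iI, iC, Ψ, hΨ⟩ := exists_fibMd (bJ J)
  let T : Str S := chStr S J c
  let Φ' : Pool.Agent.Helper90.RK.Fib T.b L := fibB (bJ J) β Ψ.Φ
  have hX : ∀ γ, S.X γ ∈ GLb (bJ J) := fun γ => Str.X_mem T γ
  let Γ : Coc (blkReg S J c β) L :=
    { pi := fun g h γ => Φ'.π (T.C g h γ)
      v := Φ'.v
      vX := fun γ => Φ'.π (S.X γ) Φ'.v
      nv := Φ'.nv
      nvX := fun γ => by rw [LinearIsometryEquiv.norm_map, Φ'.nv]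
      one := coc_one T Φ'
      cpt := coc_cpt T Φ'
      mul := coc_mul T Φ'
      left := coc_left T Φ'
      cptX := coc_cptX T Φ'
      right := coc_right T Φ'
      nonneg := fun γ => by
        rw [re_symmB]
        exact (Ψ.pos _ (rho_mem (bJ J) β (hX γ))).le
      pos := fun n => blk_pos S J β Ψ n }
  refine ⟨L, iN, iI, iC, Γ, fun ε hε => ?_⟩
  obtain ⟨r, hr⟩ := hΨ ε hε
  refine ⟨⌈r⌉₊, fun γ hγ => ?_⟩
  have hγ' : ∃ i ∈ KB J β, ¬ (lg S γ i ≤ (⌈r⌉₊ : ℝ)) := by
    by_contra hcon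
    push Not at hcon
    exact hγ fun i hi => hcon i hi
  obtain ⟨i, hi, hlt⟩ := hγ'
  rw [not_le] at hlt
  obtain ⟨hiJ, hiβ⟩ := mem_KB.1 hi
  have hr1 : r < gp S γ i := by
    rw [gp_eq_exp]
    have h1 := Real.add_one_le_exp (lg S γ i)
    have h2 := Nat.le_ceil r
    linarith
  have hgp : 1 < gp S γ i := by
    rw [gp_eq_exp]
    have h1 := Real.add_one_le_exp (lg S γ i)
    have h2 : (0 : ℝ) ≤ (⌈r⌉₊ : ℝ) := Nat.cast_nonneg _
    linarith
  have hiN : (i : ℕ) + 1 < N := by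
    by_contra hcon
    unfold gp at hgp
    rw [dif_neg hcon] at hgp
    exact lt_irrefl _ hgp
  unfold gp at hr1
  rw [dif_pos hiN] at hr1
  set j : Fin N := ⟨i + 1, hiN⟩ with hj
  have hbij : bJ J i = bJ J j := by
    refine le_antisymm (bJ_mono J (Fin.le_def.2 (Nat.le_succ _))) ?_
    by_contra hcon
    rw [not_le] at hcon
    obtain ⟨k, hik, hkj, hk⟩ := exists_of_bJ_lt hcon
    have hki : k = i := by
      apply Fin.ext
      have h1 := Fin.le_def.1 hik
      have h2 : (k : ℕ) < i + 1 := Fin.lt_def.1 hkj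
      omega
    rw [hki] at hk
    exact hk hiJ
  have h := hr (fun i => if bJ J i = β then (S.s γ i)⁻¹ else 1) (fun i => by
    split_ifs
    · exact inv_pos.2 (S.pos γ i)
    · exact one_pos) ⟨j, i, hbij.symm, by
      rw [if_pos hiβ, if_pos (hbij.symm.trans hiβ)]
      have a := S.pos γ i
      have b := S.pos γ j
      rw [lt_div_iff₀ b] at hr1
      calc r * (S.s γ i)⁻¹ = (r * S.s γ j) * ((S.s γ i)⁻¹ * (S.s γ j)⁻¹) := by field_simp
        _ < S.s γ i * ((S.s γ i)⁻¹ * (S.s γ j)⁻¹) := mul_lt_mul_of_pos_right hr1 (by positivity)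
        _ = (S.s γ j)⁻¹ := by field_simp⟩
  rw [← rho_X S (bJ J) β γ, re_symmB] at h
  exact h

end Pool.Agent.Helper43.TA
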