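import Pool.Agent.Helper43.TA.Defs

/-!
# Block TYB-CPT: the cocycle on compact sets

PROOF. By `h3` there is an open set `V ∋ 1` with `μ {x | a.a v x ≠ 1} ≤ ε / 2` for `v ∈ V`. The sets `k • V` (`k ∈ K`) cover `K`, so finitely many `k i • V` do (`IsCompact.elim_nhds_subcover`; `{g | k⁻¹ * g ∈ V}` is a neighbourhood of `k`). For each `i` the sets `{x | a.a (k i) x ∉ T}`, `T` finite, decrease to `∅` (`Λ` is countable, `a.meas`), so there is a
finite set `T i` with `μ {x | a.a (k i) x ∉ T i} ≤ ε / 2` (a countable measurable partition: `tendsto_measure_iInter_atTop`, or `∑ μ {a = l} = 1` summable). `T := ⋃ T i`. For `k = k i * v`: `a.a k x = a.a (k i) (v • x) * a.a v x` (the cocycle identity `a.mul`), so `a.a k x ∈ T i` unless `a.a v x ≠ 1` or `a.a (k i) (v • x) ∉ T i`; the measure is invariant.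
-/

set_option autoImplicit false
set_option linter.unusedSectionVars false

open MeasureTheory Filter Topology

namespace Pool.Agent.Helper43.TA

open Pool.Agent.Helper84.NI Pool.Agent.Helper84.GVN Pool.Agent.Helper90.RK
open Pool.Agent.Helper84.GN hiding toReg
open Pool.Agent.Helper96.RK Pool.Agent.Helper66.FR Pool.Agent.Helper84.FR Pool.Agent.Helper96.FR Pool.Agent.Helper55.FR

variable {G1 X G Λ : Type} [Group G1] [TopologicalSpace G1] [IsTopologicalGroup G1] [MeasurableSpace X] {μ : Measure X}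
  [MulAction G1 X] [MeasurableConstSMul G1 X] [SMulInvariantMeasure G1 X μ] [IsProbabilityMeasure μ]
  [Group G] [Group Λ] [Countable Λ] {a : Cocy G1 X Λ}

omit [Group Λ] in
private lemma h94_fin_val {X Λ : Type} [MeasurableSpace X] {μ : Measure X} [IsFiniteMeasure μ] [Countable Λ]
    (c : X → Λ) (hc : ∀ l, MeasurableSet (c ⁻¹' {l})) {δ : ENNReal} (hδ : 0 < δ) :
    ∃ T : Finset Λ, μ {x | c x ∉ T} < δ := by
  have h1 : ∑' l : Λ, μ (c ⁻¹' {l}) ≠ ⊤ := by
    rw [← measure_iUnion (fun l l' hl => Disjoint.preimage c (Set.disjoint_singleton.2 hl)) hc]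
    exact measure_ne_top _ _
  have h2 := ENNReal.tendsto_tsum_compl_atTop_zero h1
  obtain ⟨T, hT⟩ := ((tendsto_order.1 h2).2 δ hδ).exists
  refine ⟨T, lt_of_le_of_lt ?_ hT⟩
  have h3 : {x | c x ∉ T} ⊆ ⋃ b : {l : Λ // l ∉ T}, c ⁻¹' {(b : Λ)} := by
    intro x hx
    exact Set.mem_iUnion.2 ⟨⟨c x, hx⟩, rfl⟩
  exact (measure_mono h3).trans (measure_iUnion_le _)

omit [IsTopologicalGroup G1] in
private lemma h94_meas_set (a : Cocy G1 X Λ) (k : G1) (T : Finset Λ) : MeasurableSet {x | a.a k x ∉ T} := by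
  have e : {x | a.a k x ∉ T} = (⋃ l ∈ T, a.a k ⁻¹' {l})ᶜ := by
    ext x
    simp
  rw [e]
  exact (T.measurableSet_biUnion fun l _ => a.meas k l).compl

theorem cpt_fin (h3 : Tendsto (fun g : G1 => μ {x | a.a g x ≠ 1}) (𝓝 1) (𝓝 0)) {K : Set G1} (hK : IsCompact K)
    {ε : ℝ} (hε : 0 < ε) : ∃ T : Finset Λ, ∀ k ∈ K, μ.real {x | a.a k x ∉ T} ≤ ε := by
  classical
  set δ : ENNReal := ENNReal.ofReal (ε / 2) with hδ
  have hδ0 : 0 < δ := ENNReal.ofReal_pos.2 (by linarith)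
  have hV : {g : G1 | μ {x | a.a g x ≠ 1} < δ} ∈ 𝓝 (1 : G1) := (tendsto_order.1 h3).2 δ hδ0
  have hU : ∀ k ∈ K, {g : G1 | k⁻¹ * g ∈ {g : G1 | μ {x | a.a g x ≠ 1} < δ}} ∈ 𝓝 k := by
    intro k _
    have hc : ContinuousAt (fun g : G1 => k⁻¹ * g) k := (continuous_const.mul continuous_id).continuousAt
    exact hc.preimage_mem_nhds (by rw [inv_mul_cancel]; exact hV)
  obtain ⟨t, -, ht⟩ := hK.elim_nhds_subcover (fun k => {g : G1 | k⁻¹ * g ∈ {g : G1 | μ {x | a.a g x ≠ 1} < δ}}) hU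
  have hT : ∀ k : G1, ∃ T : Finset Λ, μ {x | a.a k x ∉ T} < δ := fun k => h94_fin_val (a.a k) (a.meas k) hδ0
  choose T hT using hT
  refine ⟨t.biUnion T, fun k hk => ?_⟩
  obtain ⟨k', hk', hv⟩ := Set.mem_iUnion₂.1 (ht hk)
  set v : G1 := k'⁻¹ * k with hvd
  have hkv : k = k' * v := by rw [hvd, mul_inv_cancel_left]
  have hsub : {x | a.a k x ∉ t.biUnion T} ⊆ {x | a.a v x ≠ 1} ∪ (fun x => v • x) ⁻¹' {x | a.a k' x ∉ T k'} := by
    intro x hx
    by_cases h1 : a.a v x = 1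
    · right
      intro h2
      apply hx
      have h4 : a.a k x = a.a k' (v • x) := by rw [hkv, a.mul, h1, mul_one]
      rw [h4]
      exact Finset.mem_biUnion.2 ⟨k', hk', h2⟩
    · left
      exact h1
  have hle : μ {x | a.a k x ∉ t.biUnion T} ≤ ENNReal.ofReal ε := by
    calc μ {x | a.a k x ∉ t.biUnion T}
        ≤ μ {x | a.a v x ≠ 1} + μ ((fun x => v • x) ⁻¹' {x | a.a k' x ∉ T k'}) :=
          (measure_mono hsub).trans (measure_union_le _ _)
      _ = μ {x | a.a v x ≠ 1} + μ {x | a.a k' x ∉ T k'} := by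
          rw [SMulInvariantMeasure.measure_preimage_smul v (h94_meas_set a k' (T k'))]
      _ ≤ δ + δ := add_le_add (le_of_lt hv) (hT k').le
      _ = ENNReal.ofReal ε := by
          rw [hδ, ← ENNReal.ofReal_add (by linarith) (by linarith), add_halves]
  exact ENNReal.toReal_le_of_le_ofReal hε.le hle

end Pool.Agent.Helper43.TA
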