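import Pool.Agent.Helper43.TA.All

/-!
# Block TYA-DIAG: the diagonal argument

`hE` is the conclusion of the escape lemma in mean (block TA-ESC) for one element `a0`.
`succ_mean`. PROOF: `succ_le` for the sequences `ltr (a0 ^ k) g` (`all_ltr`; `a0 ^ k` commutes with all `g n`) with one number `w`: `0 ≤ av (ms ..) K ≤ ∑ c ∈ CH N j, av (mR ..) K → 0` (`hE` with `J = hd c`, `c.tail`, `n = w`).
`diag`. PROOF. For each `i : ℕ` choose `h i ∈ H` with `ms (TJ S j i)ᶜ (ltr (h i) b) < 1/(i+1)` (`hQ`). By `ms_tendsto` the set of the `n` with `‖cl (ind (TJ S j i)ᶜ) (zx (h i * b n))‖ ^ 2 < 1/(i+1)` and `‖cl (ind Z) (zx (a0 ^ k * h i * b n))‖ ^ 2 > ms Z (ltr (a0 ^ k * h i) b) - 1/(i+1)` for all `k < i` is in the hyperfilter, so there is such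
an `n = nn i`. Let `g i := h i * b (nn i)`. (1) `AllT S j g`: for `m'` and `i ≥ m'`: `‖cl (ind (TJ S j m')ᶜ) (zx (g i))‖ ^ 2 ≤ ‖cl (ind (TJ S j i)ᶜ) (zx (g i))‖ ^ 2 < 1/(i+1)` (`TJ_anti`; monotonicity of `‖cl (ind s) f‖` in `s`), so the limit `ms (TJ S j m')ᶜ g` is `0`.
(2) For `K ≥ max K0 1`: `av (fun k => ms Z (ltr (a0 ^ k) g)) K = lim_i (mean over k < K of ‖cl (ind Z) (zx (a0 ^ k * g i))‖ ^ 2) ≥ lim_i (av (fun k => ms Z (ltr (a0 ^ k * h i) b)) K - 1/(i+1)) ≥ δ` (`i ≥ K`). If `Z ⊆ (TJ S (j+1) m)ᶜ` then `av (ms (TJ S (j+1) m)ᶜ (ltr (a0 ^ k) g)) K ≥ δ` for all large `K`, but it tends to `0` by `succ_mean`.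
-/

set_option autoImplicit false
set_option linter.unusedSectionVars false

open MeasureTheory Filter Topology

namespace Pool.Agent.Helper43.TA

open Pool.Agent.Helper84.NI Pool.Agent.Helper84.GVN Pool.Agent.Helper90.RK
open Pool.Agent.Helper84.GN hiding toReg
open Pool.Agent.Helper96.RK Pool.Agent.Helper66.FR Pool.Agent.Helper84.FR Pool.Agent.Helper96.FR Pool.Agent.Helper55.FR

variable {G1 X G Λ : Type} [Group G1] [MeasurableSpace X] {μ : Measure X} [MulAction G1 X]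
  [MeasurableConstSMul G1 X] [SMulInvariantMeasure G1 X μ] [IsProbabilityMeasure μ]
  [Group G] [Group Λ] [Countable Λ] {a : Cocy G1 X Λ} {E : Emb Λ G} {N : ℕ} {P : PH G N} {S : Sv P}

private theorem av_mono77 {f g : ℕ → ℝ} {K : ℕ} (h : ∀ k < K, f k ≤ g k) : av f K ≤ av g K := by
  unfold av
  refine div_le_div_of_nonneg_right (Finset.sum_le_sum fun k hk => h k (Finset.mem_range.1 hk)) (Nat.cast_nonneg K)

private theorem av_nonneg77 {f : ℕ → ℝ} (h : ∀ k, 0 ≤ f k) (K : ℕ) : 0 ≤ av f K := by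
  unfold av
  exact div_nonneg (Finset.sum_nonneg fun k _ => h k) (Nat.cast_nonneg K)

private theorem av_sum77 {ι : Type} (s : Finset ι) (f : ι → ℕ → ℝ) (K : ℕ) :
    av (fun k => ∑ c ∈ s, f c k) K = ∑ c ∈ s, av (f c) K := by
  unfold av
  rw [Finset.sum_comm, Finset.sum_div]

private theorem av_sub77 (f : ℕ → ℝ) (x : ℝ) {K : ℕ} (hK : 1 ≤ K) : av (fun k => f k - x) K = av f K - x := by
  have hK' : (K : ℝ) ≠ 0 := by
    have : (0 : ℝ) < K := by exact_mod_cast hK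
    exact this.ne'
  unfold av
  rw [Finset.sum_sub_distrib, Finset.sum_const, Finset.card_range, nsmul_eq_mul, sub_div, mul_div_cancel_left₀ _ hK']

private theorem cl_mono77 {s t : Set G} (h : s ⊆ t) (f : XL μ (L2 G)) :
    ‖cl μ (ind ℂ s) f‖ ≤ ‖cl μ (ind ℂ t) f‖ := by
  have h1 := cl_ind_ind (μ := μ) s t f
  rw [Set.inter_eq_left.2 h] at h1
  rw [← h1]
  refine (norm_cl_le_of (C := 1) zero_le_one (fun x => ?_) _).trans (le_of_eq (one_mul _))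
  rw [one_mul]
  exact norm_ind2 s x

private theorem one_div_tendsto77 : Tendsto (fun i : ℕ => (1 : ℝ) / ((i : ℝ) + 1)) atTop (𝓝 0) :=
  tendsto_one_div_add_atTop_nhds_zero_nat

theorem succ_mean {j : ℕ} (hj : 1 ≤ j) {g : ℕ → G1} (hg : AllT μ a E S j g) {a0 : G1} (ha : ∀ n, g n * a0 = a0 * g n)
    (hE : ∀ (J : Finset (Fin N)) (c : List (Finset (Fin N))) (n : ℕ),
      Tendsto (av fun k => mR μ a E (toReg (chStr S J c)) (WC S J n) (ltr (a0 ^ k) g)) atTop (𝓝 0)) (m : ℕ) :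
    Tendsto (av fun k => ms μ a E (TJ S (j + 1) m)ᶜ (ltr (a0 ^ k) g)) atTop (𝓝 0) := by
  obtain ⟨w, hw⟩ := succ_le (μ := μ) (a := a) (E := E) S hj m
  have hcomm : ∀ (k : ℕ) (n : ℕ), g n * a0 ^ k = a0 ^ k * g n := fun k n =>
    ((show Commute (g n) a0 from ha n).pow_right k).eq
  have h1 : ∀ k : ℕ, ms μ a E (TJ S (j + 1) m)ᶜ (ltr (a0 ^ k) g) ≤
      ∑ c ∈ CH N j, mR μ a E (toReg (chStr S (hd c) c.tail)) (WC S (hd c) w) (ltr (a0 ^ k) g) := fun k =>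
    hw _ (all_ltr S hg (hcomm k))
  have h2 : Tendsto (av fun k => ∑ c ∈ CH N j,
      mR μ a E (toReg (chStr S (hd c) c.tail)) (WC S (hd c) w) (ltr (a0 ^ k) g)) atTop (𝓝 0) := by
    have h3 : Tendsto (fun K => ∑ c ∈ CH N j,
        av (fun k => mR μ a E (toReg (chStr S (hd c) c.tail)) (WC S (hd c) w) (ltr (a0 ^ k) g)) K) atTop
        (𝓝 (∑ c ∈ CH N j, (0 : ℝ))) := tendsto_finsetSum _ fun c _ => hE (hd c) c.tail w
    rw [Finset.sum_const_zero] at h3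
    refine h3.congr fun K => ?_
    rw [av_sum77]
  exact squeeze_zero (fun K => av_nonneg77 (fun k => ms_nonneg _ _) K) (fun K => av_mono77 fun k _ => h1 k) h2

theorem diag {j : ℕ} (hj : 1 ≤ j) (b : ℕ → G1) (H : Set G1) {a0 : G1} (hc : ∀ h ∈ H, ∀ n, h * b n * a0 = a0 * (h * b n))
    (hE : ∀ g : ℕ → G1, (∀ n, ∃ h ∈ H, ∃ k, g n = h * b k) → ∀ (J : Finset (Fin N)) (c : List (Finset (Fin N))) (n : ℕ),
      Tendsto (av fun k => mR μ a E (toReg (chStr S J c)) (WC S J n) (ltr (a0 ^ k) g)) atTop (𝓝 0))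
    (hQ : ∀ (m : ℕ) (ε : ℝ), 0 < ε → ∃ h ∈ H, ms μ a E (TJ S j m)ᶜ (ltr h b) < ε)
    (Z : Set G) {δ : ℝ} (hδ : 0 < δ) (K0 : ℕ)
    (hZ : ∀ h ∈ H, ∀ K, K0 ≤ K → δ ≤ av (fun k => ms μ a E Z (ltr (a0 ^ k * h) b)) K) (m : ℕ) :
    ¬ Z ⊆ (TJ S (j + 1) m)ᶜ := by
  intro hsub
  have h1 : ∀ i : ℕ, ∃ h ∈ H, ms μ a E (TJ S j i)ᶜ (ltr h b) < 1 / ((i : ℝ) + 1) := fun i =>
    hQ i _ (by positivity)
  choose h hH hh using h1
  have h2 : ∀ i : ℕ, ∃ n : ℕ, ‖cl μ (ind ℂ (TJ S j i)ᶜ) (zx μ a E (h i * b n))‖ ^ 2 < 1 / ((i : ℝ) + 1) ∧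
      ∀ k ∈ Finset.range i, ms μ a E Z (ltr (a0 ^ k * h i) b) - 1 / ((i : ℝ) + 1) <
        ‖cl μ (ind ℂ Z) (zx μ a E (a0 ^ k * h i * b n))‖ ^ 2 := by
    intro i
    have e1 : ∀ᶠ n in (hyperfilter ℕ : Filter ℕ),
        ‖cl μ (ind ℂ (TJ S j i)ᶜ) (zx μ a E (h i * b n))‖ ^ 2 < 1 / ((i : ℝ) + 1) :=
      (ms_tendsto (μ := μ) (a := a) (E := E) (TJ S j i)ᶜ (ltr (h i) b)).eventually_lt_const (hh i)
    have e2 : ∀ᶠ n in (hyperfilter ℕ : Filter ℕ), ∀ k ∈ Finset.range i,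
        ms μ a E Z (ltr (a0 ^ k * h i) b) - 1 / ((i : ℝ) + 1) <
          ‖cl μ (ind ℂ Z) (zx μ a E (a0 ^ k * h i * b n))‖ ^ 2 := by
      rw [Filter.eventually_all_finset]
      intro k _
      refine (ms_tendsto (μ := μ) (a := a) (E := E) Z (ltr (a0 ^ k * h i) b)).eventually_const_lt ?_
      have : (0 : ℝ) < 1 / ((i : ℝ) + 1) := by positivity
      linarith
    exact (e1.and e2).exists
  choose nn h3 h4 using h2
  obtain ⟨g, hgdef⟩ : ∃ g : ℕ → G1, ∀ i, g i = h i * b (nn i) := ⟨_, fun i => rfl⟩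
  have hgc : ∀ n, g n * a0 = a0 * g n := fun n => by
    rw [hgdef]
    exact hc _ (hH n) _
  have hall : AllT μ a E S j g := by
    intro m'
    have e1 := ms_tendsto (μ := μ) (a := a) (E := E) (TJ S j m')ᶜ g
    have e2 : Tendsto (fun n => ‖cl μ (ind ℂ (TJ S j m')ᶜ) (zx μ a E (g n))‖ ^ 2) atTop (𝓝 0) := by
      refine squeeze_zero' (Eventually.of_forall fun n => sq_nonneg _) ?_ one_div_tendsto77
      filter_upwards [eventually_ge_atTop m'] with i hi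
      have e3 := h3 i
      rw [← hgdef] at e3
      have e4 : ‖cl μ (ind ℂ (TJ S j m')ᶜ) (zx μ a E (g i))‖ ≤ ‖cl μ (ind ℂ (TJ S j i)ᶜ) (zx μ a E (g i))‖ :=
        cl_mono77 (Set.compl_subset_compl.2 (TJ_anti S j hi)) _
      exact (pow_le_pow_left₀ (norm_nonneg _) e4 2).trans e3.le
    exact tendsto_nhds_unique e1 (e2.mono_left Nat.hyperfilter_le_atTop)
  have hlow : ∀ K : ℕ, max K0 1 ≤ K → δ ≤ av (fun k => ms μ a E (TJ S (j + 1) m)ᶜ (ltr (a0 ^ k) g)) K := by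
    intro K hK
    have hK0 : K0 ≤ K := (le_max_left _ _).trans hK
    have hK1 : 1 ≤ K := (le_max_right _ _).trans hK
    have e1 : Tendsto (fun i => av (fun k => ‖cl μ (ind ℂ Z) (zx μ a E (ltr (a0 ^ k) g i))‖ ^ 2) K)
        (hyperfilter ℕ : Filter ℕ) (𝓝 (av (fun k => ms μ a E Z (ltr (a0 ^ k) g)) K)) := by
      unfold av
      exact (tendsto_finsetSum _ fun k _ => ms_tendsto Z (ltr (a0 ^ k) g)).div_const _
    have e2 : Tendsto (fun i : ℕ => δ - 1 / ((i : ℝ) + 1)) (hyperfilter ℕ : Filter ℕ) (𝓝 (δ - 0)) :=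
      (tendsto_const_nhds.sub one_div_tendsto77).mono_left Nat.hyperfilter_le_atTop
    have e3 : ∀ᶠ i : ℕ in (hyperfilter ℕ : Filter ℕ), δ - 1 / ((i : ℝ) + 1) ≤
        av (fun k => ‖cl μ (ind ℂ Z) (zx μ a E (ltr (a0 ^ k) g i))‖ ^ 2) K := by
      refine Eventually.filter_mono Nat.hyperfilter_le_atTop ?_
      filter_upwards [eventually_ge_atTop K] with i hi
      have e4 := hZ (h i) (hH i) K hK0
      have e5 : av (fun k => ms μ a E Z (ltr (a0 ^ k * h i) b) - 1 / ((i : ℝ) + 1)) K ≤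
          av (fun k => ‖cl μ (ind ℂ Z) (zx μ a E (ltr (a0 ^ k) g i))‖ ^ 2) K := by
        refine av_mono77 fun k hk => ?_
        have e6 := h4 i k (Finset.mem_range.2 (hk.trans_le hi))
        have e7 : ltr (a0 ^ k) g i = a0 ^ k * h i * b (nn i) := by
          show a0 ^ k * g i = _
          rw [hgdef, mul_assoc]
        rw [e7]
        exact e6.le
      rw [av_sub77 _ _ hK1] at e5
      linarith
    have e4 := le_of_tendsto_of_tendsto e2 e1 e3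
    rw [sub_zero] at e4
    exact e4.trans (av_mono77 fun k _ => ms_mono hsub _)
  have h5 := succ_mean (μ := μ) (a := a) (E := E) (S := S) hj hall hgc
    (hE g fun n => ⟨h n, hH n, nn n, hgdef n⟩) m
  have h6 : δ ≤ 0 := ge_of_tendsto h5 (by
    filter_upwards [eventually_ge_atTop (max K0 1)] with K hK
    exact hlow K hK)
  linarith

end Pool.Agent.Helper43.TA
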