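import Pool.Agent.Helper43.TA.Geo

/-!
# Block TYB-SHF: shifts of regions

PROOF. `lg_shift S g h` (`Helper96/RK/Ty1.lean`): there is `C : ℕ` with `lg (g⁻¹ * γ * h) i ≤ lg γ i + C` and `lg γ i ≤ lg (g⁻¹ * γ * h) i + C`; take the maximum `C` for `g = q⁻¹`, `h = q'`, `q, q' ∈ Q`. `R' = R + C`.
-/

set_option autoImplicit false

open Filter Topology

namespace Pool.Agent.Helper43.TA

open Pool.Agent.Helper84.NI Pool.Agent.Helper90.RK Pool.Agent.Helper96.RK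

variable {G : Type} [Group G] {N : ℕ} {P : PH G N} (S : Sv P)

/-- The elements `γ` with `q * γ * q' ∈ s` for some `q`, `q' ∈ Q`. -/
def shf (Q : Finset G) (s : Set G) : Set G := {γ | ∃ q ∈ Q, ∃ q' ∈ Q, q * γ * q' ∈ s}

/-- The first and the last gap are at most `R`. -/
def EL (R : ℕ) : Set G := {γ | ∀ i : Fin N, ((i : ℕ) = 0 ∨ (i : ℕ) + 2 = N) → lg S γ i ≤ R}

private theorem shift_h54 (Q : Finset G) : ∃ C : ℕ, ∀ q ∈ Q, ∀ q' ∈ Q, ∀ γ i,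
    lg S (q * γ * q') i ≤ lg S γ i + C ∧ lg S γ i ≤ lg S (q * γ * q') i + C := by
  classical
  choose C hC using fun p : G × G => lg_shift S (p.1)⁻¹ p.2
  refine ⟨(Q ×ˢ Q).sup C, fun q hq q' hq' γ i => ?_⟩
  have h1 := hC (q, q') γ i
  simp only [inv_inv] at h1
  have h2 : C (q, q') ≤ (Q ×ˢ Q).sup C := Finset.le_sup (Finset.mk_mem_product hq hq')
  have h3 : (C (q, q') : ℝ) ≤ ((Q ×ˢ Q).sup C : ℕ) := by exact_mod_cast h2
  exact ⟨by linarith [h1.1], by linarith [h1.2]⟩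

theorem shf_TwoL (Q : Finset G) (R : ℕ) : ∃ R' : ℕ, shf Q (TwoL S R') ⊆ TwoL S R := by
  obtain ⟨C, hC⟩ := shift_h54 S Q
  refine ⟨R + C, ?_⟩
  rintro γ ⟨q, hq, q', hq', i, j, hij, hi, hj⟩
  have h1 := (hC q hq q' hq' γ i).1
  have h2 := (hC q hq q' hq' γ j).1
  push_cast at hi hj
  exact ⟨i, j, hij, by linarith, by linarith⟩

theorem shf_EL (Q : Finset G) (R : ℕ) : ∃ R' : ℕ, shf Q (EL S R) ⊆ EL S R' := by
  obtain ⟨C, hC⟩ := shift_h54 S Q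
  refine ⟨R + C, ?_⟩
  rintro γ ⟨q, hq, q', hq', h⟩ i hi
  have h1 := (hC q hq q' hq' γ i).2
  have h2 := h i hi
  push_cast
  linarith

end Pool.Agent.Helper43.TA
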