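import Pool.Agent.Helper43.TA.Mid
import Pool.Agent.Helper66.RK.FinIdx

/-!
# Block TYA-FIN: the end of the argument

`mass_comp`. PROOF: `HasComp` gives `ρ = mR R univ b > 0` (`hasComp_iff`); for every `m`: `mR_carried`, `mR_le_ms`: `ms (TC S (J :: c) m) b ≥ ρ`, `ms_tendsto`: some `n` has `‖cl (ind (TC S (J :: c) m)) (zx (b n))‖ ^ 2 ≥ ρ / 2`.
`typeA_core`. PROOF. `F` is infinite (nonamenable groups are infinite: `inf95` in `Helper9/S3/Y0.lean`, or `infinite_of_nonAm`), discrete, hence closed and its elements leave all compact sets: take an injective sequence `f : ℕ → F`: `Tendsto f atTop (cocompact G1)` (a discrete subgroup of a Hausdorff group is closed; a compact set contains finitely many of its elements). `‖zx (f n)‖ = 1` and by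
`tendsto_mass` (see `rank_le_of_escape` in `Helper55/FR/Asm.lean`) the mass of `zx (f n)` on the finite set `WC S univ m` tends to `0` for every `m` (`finite_lg_le`), so there is `nn m ≥ m` with mass `≤ 3/4` there; `b m := f (nn m)`, again `→ ∞`. `startX` or its proof: `1/2 ≤ ‖cl (ind (TC S [] m \ WC S univ m)) (zx (b m))‖`. `selectK` with `c = []`, `KK = {univ}`: `J ≠ univ` with
`HasComp (toReg (chStr S J [])) zx b`. The last index is in `J` (`TC_nonemptyX`, `last_mem`). If two different indices are not in `J`: `TC S [J] (R + 1) ⊆ TwoL S R`, and `mass_comp` contradicts `no_two`. So `J = univ.erase q`, `q + 1 < N`. `no_mid`: `q = 0` or `q + 2 = N`. `TC S [J] (R + 1) ⊆ GapL S q R`, so by `mass_comp` the hypothesis of `hreach` holds; its conclusion contradicts `no_two`.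
-/

set_option autoImplicit false
set_option linter.unusedSectionVars false

open MeasureTheory Filter Topology

namespace Pool.Agent.Helper43.TA

open Pool.Agent.Helper84.NI Pool.Agent.Helper84.GVN Pool.Agent.Helper90.RK
open Pool.Agent.Helper84.GN hiding toReg
open Pool.Agent.Helper96.RK Pool.Agent.Helper66.FR Pool.Agent.Helper84.FR Pool.Agent.Helper96.FR Pool.Agent.Helper55.FR

variable {G1 X G Λ : Type} [Group G1] [TopologicalSpace G1] [IsTopologicalGroup G1] [T2Space G1] [MeasurableSpace X]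
  {μ : Measure X} [MulAction G1 X] [MeasurableConstSMul G1 X] [SMulInvariantMeasure G1 X μ] [IsProbabilityMeasure μ]
  [Group G] [Group Λ] [Countable Λ] {a : Cocy G1 X Λ} {E : Emb Λ G} {N : ℕ} {P : PH G N} {S : Sv P}
  {F : Subgroup G1} {r : ℕ}

theorem cl_mono44 {s t : Set G} (h : s ⊆ t) (f : XL μ (L2 G)) :
    ‖cl μ (ind ℂ s) f‖ ≤ ‖cl μ (ind ℂ t) f‖ := by
  have h1 := cl_ind_ind (μ := μ) s t f
  rw [Set.inter_eq_left.2 h] at h1
  rw [← h1]
  refine (sq_le_sq₀ (norm_nonneg _) (norm_nonneg _)).1 ?_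
  have h2 := cl_ind_split s (cl μ (ind ℂ t) f)
  nlinarith [sq_nonneg ‖cl μ (ind ℂ (Set.univ \ s)) (cl μ (ind ℂ t) f)‖]

theorem mass_comp {J : Finset (Fin N)} {c : List (Finset (Fin N))} {b : ℕ → G1}
    (h : HasComp (toReg (chStr S J c)) (zx μ a E) zx_bound b) : ∃ β : ℝ, 0 < β ∧ ∀ m : ℕ, ∃ n,
      β ≤ ‖cl μ (ind ℂ (TC S (J :: c) m)) (zx μ a E (b n))‖ := by
  have hρ := (hasComp_iff (μ := μ) (a := a) (E := E) _ b).1 h
  set ρ := mR μ a E (toReg (chStr S J c)) Set.univ b with hρd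
  refine ⟨Real.sqrt (ρ / 2), Real.sqrt_pos.2 (by linarith), fun m => ?_⟩
  have h1 := mR_carried (μ := μ) (a := a) (E := E) (toReg (chStr S J c)) (s := TC S (J :: c) m)
    (fun n => TC_mem_FC S J c m n) Set.univ b
  rw [Set.inter_univ] at h1
  have h2 := mR_le_ms (μ := μ) (a := a) (E := E) (toReg (chStr S J c)) (TC S (J :: c) m) b
  rw [h1, ← hρd] at h2
  have h3 := ms_tendsto (μ := μ) (a := a) (E := E) (TC S (J :: c) m) b
  obtain ⟨n, hn⟩ := (h3.eventually (lt_mem_nhds (show ρ / 2 < _ by linarith))).exists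
  exact ⟨n, (Real.sqrt_le_left (norm_nonneg _)).2 hn.le⟩

theorem tend_disc {F : Subgroup G1} (hF : DiscreteTopology F) (hinf : Infinite F) :
    ∃ f : ℕ → F, Tendsto (fun n => (f n : G1)) atTop (cocompact G1) := by
  obtain ⟨f⟩ : Nonempty (ℕ ↪ F) := ⟨Infinite.natEmbedding F⟩
  refine ⟨f, ?_⟩
  have hcl : IsClosed (F : Set G1) := Subgroup.isClosed_of_discrete
  have h1 : Tendsto ((↑) : F → G1) (cocompact F) (cocompact G1) :=
    hcl.isClosedEmbedding_subtypeVal.tendsto_cocompact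
  rw [cocompact_eq_cofinite] at h1
  refine h1.comp ?_
  rw [← Nat.cofinite_eq_atTop]
  exact f.injective.tendsto_cofinite

theorem start44 (D : Dat μ a F r) (hF : DiscreteTopology F) (hna : NonAm F) :
    ∃ b : ℕ → G1, (∀ n, b n ∈ F) ∧ Tendsto b atTop (cocompact G1) ∧ ∀ m : ℕ,
      1 / 2 ≤ ‖cl μ (ind ℂ (TC S ([] : List (Finset (Fin N))) m \ WC S (hd []) m)) (zx μ a E (b m))‖ := by
  obtain ⟨f, hf⟩ := tend_disc hF (Pool.Agent.Helper66.RK.infinite_of_nonAm hna)
  have key : ∀ m : ℕ, ∃ k, m ≤ k ∧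
      1 / 2 ≤ ‖cl μ (ind ℂ (TC S ([] : List (Finset (Fin N))) m \ WC S (hd []) m)) (zx μ a E (f k))‖ := by
    intro m
    obtain ⟨g, ⟨k, hk, hkg⟩, hg⟩ := startX S (z := zx μ a E) (V := {g | ∃ k, m ≤ k ∧ (f k : G1) = g})
      (fun g _ => norm_zx g) (fun T hT => by
        have h1 := tendsto_mass (μ := μ) E (f := fun k : ℕ => zx μ a E (f k))
          (c := fun k x => a.a (f k) ((f k : G1)⁻¹ • x)) (fun k l => (mea_a _ _) l)
          (fun k => zv_apply (mea_a (a := a) (f k : G1) (f k : G1)⁻¹)) (fun l => by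
            have h2 := (ENNReal.tendsto_toReal ENNReal.zero_ne_top).comp ((D.hF2 l).comp hf)
            rw [ENNReal.toReal_zero] at h2
            refine h2.congr fun k => ?_
            have h3 := (measurePreserving_smul (f k : G1)⁻¹ μ).measure_preimage
              (s := a.a (f k) ⁻¹' {l}) ((a.meas (f k)) l).nullMeasurableSet
            change (μ (a.a (f k) ⁻¹' {l})).toReal = (μ ((fun x => (f k : G1)⁻¹ • x) ⁻¹' (a.a (f k) ⁻¹' {l}))).toReal
            rw [h3]) hT.toFinset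
        obtain ⟨k, hk1, hk2⟩ := ((h1.eventually (gt_mem_nhds (show (0 : ℝ) < 3 / 4 by norm_num))).and
          (eventually_ge_atTop m)).exists
        rw [hT.coe_toFinset] at hk1
        exact ⟨f k, ⟨k, hk2, rfl⟩, hk1.le⟩) m
    exact ⟨k, hk, by rw [hkg]; exact hg⟩
  choose kk h1 h2 using key
  refine ⟨fun m => f (kk m), fun m => (f (kk m)).2, ?_, h2⟩
  exact hf.comp (tendsto_atTop_mono h1 tendsto_id)

theorem TC_two {q q' : Fin N} {J : Finset (Fin N)} (hq : q ∉ J) (hq' : q' ∉ J) (hne : q ≠ q') (R : ℕ) :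
    TC S [J] (R + 1) ⊆ TwoL S R := by
  intro γ hγ
  have h0 := sum_lg_nonneg S γ J
  have h1 := hγ J (List.mem_singleton.2 rfl) q hq
  have h2 := hγ J (List.mem_singleton.2 rfl) q' hq'
  push_cast at h1 h2
  have h3 : (R : ℝ) < ((R : ℝ) + 1) * (1 + ∑ i ∈ J, lg S γ i) := by
    have : (0 : ℝ) ≤ (R : ℝ) := Nat.cast_nonneg R
    nlinarith
  exact ⟨q, q', hne, by linarith, by linarith⟩

theorem TC_gap {q : Fin N} {J : Finset (Fin N)} (hq : q ∉ J) (R : ℕ) : TC S [J] (R + 1) ⊆ GapL S q R := by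
  intro γ hγ
  have h0 := sum_lg_nonneg S γ J
  have h1 := hγ J (List.mem_singleton.2 rfl) q hq
  push_cast at h1
  have h3 : (R : ℝ) < ((R : ℝ) + 1) * (1 + ∑ i ∈ J, lg S γ i) := by
    have : (0 : ℝ) ≤ (R : ℝ) := Nat.cast_nonneg R
    nlinarith
  change (R : ℝ) < lg S γ q
  linarith

theorem typeA_core (D : Dat μ a F r) (hr : r + 2 = N) (hr1 : 1 ≤ r) (hF : DiscreteTopology F) (hna : NonAm F)
    (hreach : ∀ (q : Fin N) (β : ℝ), 0 < β → ((q : ℕ) = 0 ∨ (q : ℕ) + 2 = N) →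
      (∀ R : ℕ, ∃ f ∈ F, β ≤ ‖cl μ (ind ℂ (GapL S q R)) (zx μ a E f)‖) →
      ∃ β' : ℝ, 0 < β' ∧ ∀ R : ℕ, ∃ f ∈ F, β' ≤ ‖cl μ (ind ℂ (TwoL S R)) (zx μ a E f)‖) : False := by
  obtain ⟨b, hbF, hb, hb1⟩ := start44 (E := E) (S := S) D hF hna
  obtain ⟨J, -, hJ1, hcomp⟩ := selectK S [] {Finset.univ} (zx μ a E) zx_bound (β := 1 / 2) (by norm_num) b
    (fun m => by
      have h1 : {γ : G | ∃ K ∈ ({Finset.univ} : Finset (Finset (Fin N))), γ ∈ WC S K m} =
          WC S (hd []) m := by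
        ext γ
        simp [hd]
      rw [h1]
      exact hb1 m)
  have hJ2 : ¬ Finset.univ ⊆ J := hJ1 _ (Finset.mem_singleton_self _)
  obtain ⟨q, hq⟩ : ∃ q, q ∉ J := by
    by_contra hcon
    push Not at hcon
    exact hJ2 fun i _ => hcon i
  let L : Fin N := ⟨N - 1, by omega⟩
  have hL : (L : ℕ) + 1 = N := by
    change N - 1 + 1 = N
    omega
  have hLJ : L ∈ J := by
    obtain ⟨γ, hγ⟩ := TC_nonemptyX hcomp 1
    exact last_mem S le_rfl hγ hL J (List.mem_singleton.2 rfl)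
  obtain ⟨β, hβ, hm⟩ := mass_comp hcomp
  have huniq : ∀ q', q' ∉ J → q' = q := by
    intro q' hq'
    by_contra hne
    obtain ⟨R, hR⟩ := no_two (E := E) (S := S) D hr hβ
    obtain ⟨n, hn⟩ := hm (R + 1)
    have h1 := cl_mono44 (TC_two (S := S) hq' hq hne R) (zx μ a E (b n))
    exact absurd (hR (b n) (hbF n)) (not_lt.2 (hn.trans h1))
  have hJe : J = Finset.univ.erase q := by
    ext i
    rw [Finset.mem_erase]
    refine ⟨fun hi => ⟨fun h => hq (h ▸ hi), Finset.mem_univ i⟩, fun hi => ?_⟩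
    by_contra hcon
    exact hi.1 (huniq i hcon)
  have hqL : q ≠ L := fun h => hq (h ▸ hLJ)
  have hqN : (q : ℕ) + 1 < N := by
    have h1 := q.2
    have h2 : (q : ℕ) ≠ N - 1 := fun h => hqL (Fin.ext h)
    omega
  have hq2 : (q : ℕ) = 0 ∨ (q : ℕ) + 2 = N := by
    by_contra hcon
    push Not at hcon
    rw [hJe] at hcomp
    exact no_mid D hr hbF hb (q := q) (Nat.pos_of_ne_zero hcon.1) (by omega) hcomp
  obtain ⟨β', hβ', h3⟩ := hreach q β hβ hq2 fun R => by
    obtain ⟨n, hn⟩ := hm (R + 1)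
    exact ⟨b n, hbF n, hn.trans (cl_mono44 (TC_gap (S := S) hq R) _)⟩
  obtain ⟨R, hR⟩ := no_two (E := E) (S := S) D hr hβ'
  obtain ⟨f, hf, hf2⟩ := h3 R
  exact absurd (hR f hf) (not_lt.2 hf2)

end Pool.Agent.Helper43.TA
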