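import Pool.Agent.Helper43.TA.Geo
import Pool.Agent.Helper55.FR.Ind

/-!
# Block TYA-SEL: selection of a type, general form

PROOF of `selectK`: the proof of `selectX` (`Helper55/FR/Sel.lean`) with `A m := TC S c m \ {γ | ∃ K ∈ KK, γ ∈ WC S K m}`: `ξ = tru A f hf`, `J ⊆ hd c` of maximal cardinality with `UE.map μ (ind ℂ (WC S J n)) ξ ≠ 0` for some `n`; for `j ∈ hd c \ J` the sets `WC S (insert j J) n'` are null; `hTC` as there. If `K ⊆ J` for some `K ∈ KK` then `WC S J n ∩ A m ⊆ WC S K n ∩ A m = ∅` for `m ≥ n`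
(`WC S J n ⊆ WC S K n ⊆ WC S K m`), so `UE.map μ (ind ℂ (WC S J n)) ξ = tru (fun m => WC S J n ∩ A m) = 0` (`tru_congr`, `tru_empty`), a contradiction. The end (the vector `ξ'`) is the same (it used only `J ⊆ hd c`, `hnull`, `hTC`).
`card_bound`: PROOF: by induction on `k ≤ s`: there are `J`, `c`, `b` with `∀ n, b n ∈ V k`, `HasComp (toReg (chStr S J c)) z hz b` and `J.card + k ≤ J0.card` (step: `hesc` and `choose` and `selectK S (J :: c) {J}` or `selectX S (J :: c)` with `V (k + 1)`: the new set is `⊂ hd (J :: c) = J`). For `k = s`: `TC S (J :: c) 1` is not empty (`TC_nonemptyX`), so the last index of `Fin N` is in `J`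
(otherwise `1 ≤ 1 * (1 + ∑) ≤ lg γ last = 0`; `N > 0` is `hN`), `1 ≤ J.card`.
-/

set_option autoImplicit false
set_option linter.unusedSectionVars false

open MeasureTheory Filter Topology

namespace Pool.Agent.Helper43.TA

open Pool.Agent.Helper84.NI Pool.Agent.Helper84.GVN Pool.Agent.Helper90.RK
open Pool.Agent.Helper84.GN
open Pool.Agent.Helper96.RK Pool.Agent.Helper66.FR Pool.Agent.Helper55.FR

variable {X : Type} [MeasurableSpace X] {μ : Measure X} [IsProbabilityMeasure μ]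
variable {G : Type} [Group G] {N : ℕ} {P : PH G N}

theorem selectK (S : Sv P) (c : List (Finset (Fin N))) (KK : Finset (Finset (Fin N))) {I : Type} (z : I → XL μ (L2 G))
    (hz : ∀ i, ∀ᵐ y ∂μ, ‖z i y‖ ≤ 1) {β : ℝ} (hβ : 0 < β) (v : ℕ → I)
    (h : ∀ m : ℕ, β ≤ ‖cl μ (ind ℂ (TC S c m \ {γ | ∃ K ∈ KK, γ ∈ WC S K m})) (z (v m))‖) :
    ∃ J : Finset (Fin N), J ⊆ hd c ∧ (∀ K ∈ KK, ¬ K ⊆ J) ∧ HasComp (toReg (chStr S J c)) z hz v := by
  classical
  let A : ℕ → Set G := fun m => TC S c m \ {γ | ∃ K ∈ KK, γ ∈ WC S K m}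
  have hA : ∀ m, A m = TC S c m \ {γ | ∃ K ∈ KK, γ ∈ WC S K m} := fun m => rfl
  let f : ℕ → XL μ (L2 G) := fun m => z (v m)
  have hf : ∀ m, ∀ᵐ y ∂μ, ‖f m y‖ ≤ 1 := fun m => hz (v m)
  set ξ : UE μ (L2 G) := tru A f hf with hξ
  have hξ0 : 0 < ‖ξ‖ := lt_of_lt_of_le hβ (le_norm_tru fun m => h m)
  -- the maximal set
  let 𝒮 : Finset (Finset (Fin N)) :=
    Finset.univ.filter fun J => J ⊆ hd c ∧ ∃ n, UE.map μ (ind ℂ (WC S J n)) ξ ≠ 0
  have h𝒮 : ∀ J, J ∈ 𝒮 ↔ J ⊆ hd c ∧ ∃ n, UE.map μ (ind ℂ (WC S J n)) ξ ≠ 0 := by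
    intro J
    simp [𝒮]
  have hne : 𝒮.Nonempty := by
    refine ⟨∅, (h𝒮 _).2 ⟨Finset.empty_subset _, 0, ?_⟩⟩
    have h1 : WC S (∅ : Finset (Fin N)) 0 = Set.univ := by
      ext γ
      simp [WC]
    rw [h1, hξ, Helper55.FR.ind_tru]
    simp only [Set.univ_inter]
    rw [← hξ]
    exact norm_pos_iff.1 hξ0
  obtain ⟨J, hJ, hmax⟩ := Finset.exists_max_image 𝒮 Finset.card hne
  obtain ⟨hJc, n, hn⟩ := (h𝒮 J).1 hJ
  have hnull : ∀ j, j ∈ hd c → j ∉ J → ∀ n', UE.map μ (ind ℂ (WC S (insert j J) n')) ξ = 0 := by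
    intro j hj hjJ n'
    by_contra hcon
    have h1 : insert j J ∈ 𝒮 := (h𝒮 _).2 ⟨Finset.insert_subset hj hJc, n', hcon⟩
    have h2 := hmax _ h1
    rw [Finset.card_insert_of_notMem hjJ] at h2
    omega
  have hTC : ∀ m0, UE.map μ (ind ℂ (TC S c m0)ᶜ) ξ = 0 := by
    intro m0
    rw [hξ, Helper55.FR.ind_tru, Helper55.FR.tru_congr f hf m0 (B := fun _ => ∅), Helper55.FR.tru_empty]
    intro m hm
    rw [hA]
    ext γ
    simp only [Set.mem_inter_iff, Set.mem_sdiff, Set.mem_empty_iff_false, iff_false, Set.mem_compl_iff]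
    rintro ⟨h1, h2, _⟩
    exact h1 (TC_anti S c hm h2)
  have hK : ∀ K ∈ KK, ¬ K ⊆ J := by
    intro K hK hKJ
    refine hn ?_
    rw [hξ, Helper55.FR.ind_tru, Helper55.FR.tru_congr f hf n (B := fun _ => ∅), Helper55.FR.tru_empty]
    intro m hm
    rw [hA]
    ext γ
    simp only [Set.mem_inter_iff, Set.mem_sdiff, Set.mem_empty_iff_false, iff_false, not_and, not_not]
    intro h1 _
    exact ⟨K, hK, WC_mono S _ hm fun i hi => h1 i (hKJ hi)⟩
  refine ⟨J, hJc, hK, ?_⟩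
  set ξ' : UE μ (L2 G) := UE.map μ (ind ℂ (WC S J n)) ξ with hξ'
  refine ⟨ξ', ⟨n, fun s hs => ?_⟩, ?_⟩
  · obtain ⟨m0, hm0⟩ := (mem_FC S).1 (show s ∈ FC S J c n from hs)
    refine carried hξ' ?_
    have hsub : WC S J n \ s ⊆ (TC S c m0)ᶜ ∪
        ⋃ j ∈ hd c \ J, WC S (insert j J) (max n (m0 * (1 + N * n))) := by
      rintro γ ⟨h1, h2⟩
      by_cases h3 : γ ∈ TC S c m0
      · right
        have h4 : γ ∉ TC S (J :: c) m0 := fun h4 => h2 (hm0 ⟨h1, h4⟩)
        rw [TC_cons] at h4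
        have h5 : ∃ j, j ∉ J ∧ lg S γ j < (m0 : ℝ) * (1 + ∑ i ∈ J, lg S γ i) := by
          by_contra hcon
          push Not at hcon
          exact h4 ⟨hcon, h3⟩
        obtain ⟨j, hj, hlt⟩ := h5
        have hjc : j ∈ hd c := by
          by_contra hjc
          have h6 := h3 _ (hd_mem hjc) j hjc
          have h7 : ∑ i ∈ J, lg S γ i ≤ ∑ i ∈ hd c, lg S γ i :=
            Finset.sum_le_sum_of_subset_of_nonneg hJc fun i _ _ => lg_nonneg S γ i
          have h8 : (m0 : ℝ) * (1 + ∑ i ∈ J, lg S γ i) ≤ m0 * (1 + ∑ i ∈ hd c, lg S γ i) :=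
            mul_le_mul_of_nonneg_left (by linarith) (Nat.cast_nonneg _)
          linarith
        refine Set.mem_iUnion₂.2 ⟨j, Finset.mem_sdiff.2 ⟨hjc, hj⟩, ?_⟩
        intro i hi
        rcases Finset.mem_insert.1 hi with rfl | hi
        · have h9 : ∑ k ∈ J, lg S γ k ≤ N * n := by
            calc ∑ k ∈ J, lg S γ k ≤ ∑ _k ∈ J, (n : ℝ) := Finset.sum_le_sum fun k hk => h1 k hk
              _ = J.card * n := by rw [Finset.sum_const, nsmul_eq_mul]
              _ ≤ N * n := by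
                have h4 : (J.card : ℝ) ≤ N := by
                  have := Finset.card_le_univ J
                  rw [Fintype.card_fin] at this
                  exact_mod_cast this
                exact mul_le_mul_of_nonneg_right h4 (Nat.cast_nonneg n)
          have h10 : (m0 : ℝ) * (1 + ∑ k ∈ J, lg S γ k) ≤ m0 * (1 + N * n) :=
            mul_le_mul_of_nonneg_left (by linarith) (Nat.cast_nonneg _)
          refine (hlt.le.trans h10).trans ?_
          have : ((m0 * (1 + N * n) : ℕ) : ℝ) ≤ ((max n (m0 * (1 + N * n)) : ℕ) : ℝ) := by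
            exact_mod_cast le_max_right _ _
          push_cast at this ⊢
          exact this
        · refine (h1 i hi).trans ?_
          exact_mod_cast le_max_left _ _
      · exact Or.inl h3
    refine null_mono hsub (null_union (hTC m0) (null_iUnion _ _ fun j hj => ?_))
    rw [Finset.mem_sdiff] at hj
    exact hnull j hj.1 hj.2 _
  · have h1 : ξ' = tru (fun m => WC S J n ∩ A m) f hf := by
      rw [hξ', hξ, Helper55.FR.ind_tru]
    have h3 := inner_tru (fun m => WC S J n ∩ A m) f hf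
    rw [← h1] at h3
    have h2 : (cls (fun n => z (v n)) fun n => hz (v n) : UE μ (L2 G)) = cls f hf := rfl
    rw [h2, h3]
    have h4 : ‖ξ'‖ ≠ 0 := norm_ne_zero_iff.2 hn
    exact_mod_cast pow_ne_zero 2 h4

theorem card_bound (hN : 0 < N) {S : Sv P} {I : Type} (z : I → XL μ (L2 G)) (hz : ∀ i, ∀ᵐ y ∂μ, ‖z i y‖ ≤ 1)
    (V : ℕ → Set I) (s : ℕ) (J0 : Finset (Fin N)) (c0 : List (Finset (Fin N))) (b0 : ℕ → I) (hb0 : ∀ n, b0 n ∈ V 0)
    (h0 : HasComp (toReg (chStr S J0 c0)) z hz b0)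
    (hesc : ∀ k, k < s → ∀ (J : Finset (Fin N)) (c : List (Finset (Fin N))) (b : ℕ → I),
      (∀ n, b n ∈ V k) → HasComp (toReg (chStr S J c)) z hz b → ∃ β : ℝ, 0 < β ∧ ∀ m : ℕ, ∃ g ∈ V (k + 1),
        β ≤ ‖cl μ (ind ℂ (TC S (J :: c) m \ WC S (hd (J :: c)) m)) (z g)‖) : s + 1 ≤ J0.card := by
  have key : ∀ k : ℕ, k ≤ s → ∃ (J : Finset (Fin N)) (c : List (Finset (Fin N))) (b : ℕ → I),
      (∀ n, b n ∈ V k) ∧ HasComp (toReg (chStr S J c)) z hz b ∧ J.card + k ≤ J0.card := by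
    intro k
    induction k with
    | zero =>
      intro _
      exact ⟨J0, c0, b0, hb0, h0, le_of_eq (Nat.add_zero _)⟩
    | succ k ih =>
      intro hk
      obtain ⟨J, c, b, hb, hcomp, hcard⟩ := ih (by omega)
      obtain ⟨β, hβ, h⟩ := hesc k (by omega) J c b hb hcomp
      obtain ⟨J', b', hJ', hb', ξ, hξ, hne⟩ := selectX S (J :: c) z hz hβ h
      refine ⟨J', J :: c, b', hb', ⟨ξ, hξ, hne⟩, ?_⟩
      have h1 : J'.card < J.card := Finset.card_lt_card hJ'
      omega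
  obtain ⟨J, c, b, _, hcomp, hcard⟩ := key s le_rfl
  obtain ⟨γ, hγ⟩ := TC_nonemptyX hcomp 1
  have hlt : N - 1 < N := by omega
  have hlast : lg S γ ⟨N - 1, hlt⟩ = 0 := by
    unfold lg gp
    rw [dif_neg (by
      change ¬ (N - 1 + 1 < N)
      omega), Real.log_one]
  have hmem : (⟨N - 1, hlt⟩ : Fin N) ∈ J := by
    by_contra hcon
    have h1 := ((TC_cons S).1 hγ).1 _ hcon
    rw [hlast, Nat.cast_one, one_mul] at h1
    have h2 := sum_lg_nonneg S γ J
    linarith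
  have h1 : 0 < J.card := Finset.card_pos.2 ⟨_, hmem⟩
  omega

end Pool.Agent.Helper43.TA
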