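import Pool.Agent.Helper43.TA.Esc
import Pool.Agent.Helper43.TA.Sel
import Pool.Agent.Helper43.TA.Comb
import Pool.Agent.Helper84.GN.Main

/-!
# Block TYA-LVL: the escape steps with the elements of `Dat`; the group has no two gaps

`esc_dat`: `esc_mean` with `hasCoc (chStr S J c)` (`Helper84/GN/Main.lean`) for the stratum.
`esc_lvl`: `escAll`/`esc` (`Helper84/FR/EV.lean`: `Esc (zx μ a E) zx_bound`), with `R = toReg (chStr S J c)`, `s = TC S (J :: c) m` (`TC_mem_FC`), `R.W m = WC S J m`.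
`no_two`. PROOF. If not, for some `β > 0` there are `f m ∈ F` with `β ≤ ‖cl (ind (TwoL S m)) (zx (f m))‖` for all `m : ℕ`. `TwoL S m = TC S [] m \ {γ | ∃ K ∈ KK, γ ∈ WC S K m}` for `KK = univ.image (fun i => univ.erase i)` (`TC S [] m = univ`; two indices have gap `> m` iff for every `i` some `k ≠ i` has gap `> m`; if `N = 0` both are empty...: for `N = 0` `TwoL = ∅`, use `hN`).
`selectK` with `c = []`: `J` with `¬ univ.erase i ⊆ J` for all `i`, so `J.card ≤ N - 2 = r` (two different indices are not in `J`: take `i ∉ J` (`¬ univ ⊆ J`), then `k ≠ i`, `k ∉ J`), `HasComp (toReg (chStr S J [])) zx f`. `card_bound` with `V k := {g | ∀ i : Fin r, k ≤ i → g commutes with D.e i, D.u i, D.w i}`, `s = r`: `F ⊆ V 0`;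
`hesc`: `esc_lvl` with `i = k`, the new element `D.e k ^ q * b n` is in `V (k + 1)` (`D.cc`, `D.cu`). So `r + 1 ≤ J.card ≤ r`, a contradiction.
-/

set_option autoImplicit false
set_option linter.unusedSectionVars false

open MeasureTheory Filter Topology

namespace Pool.Agent.Helper43.TA

open Pool.Agent.Helper84.NI Pool.Agent.Helper84.GVN Pool.Agent.Helper90.RK
open Pool.Agent.Helper84.GN hiding toReg
open Pool.Agent.Helper96.RK Pool.Agent.Helper66.FR Pool.Agent.Helper84.FR Pool.Agent.Helper96.FR Pool.Agent.Helper55.FR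

variable {G1 X G Λ : Type} [Group G1] [TopologicalSpace G1] [IsTopologicalGroup G1] [MeasurableSpace X] {μ : Measure X}
  [MulAction G1 X] [MeasurableConstSMul G1 X] [SMulInvariantMeasure G1 X μ] [IsProbabilityMeasure μ]
  [Group G] [Group Λ] [Countable Λ] {a : Cocy G1 X Λ} {E : Emb Λ G} {N : ℕ} {P : PH G N} {S : Sv P}
  {F : Subgroup G1} {r : ℕ}

theorem esc_dat (D : Dat μ a F r) (i : Fin r) (b : ℕ → G1)
    (hb : ∀ n, b n * D.e i = D.e i * b n ∧ b n * D.u i = D.u i * b n ∧ b n * D.w i = D.w i * b n)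
    (J : Finset (Fin N)) (c : List (Finset (Fin N))) (n : ℕ) :
    Tendsto (av fun k => mR μ a E (toReg (chStr S J c)) (WC S J n) (ltr (D.e i ^ k) b)) atTop (𝓝 0) := by
  exact esc_mean D.h3 D.hp (R := toReg (chStr S J c)) (hasCoc (chStr S J c)) b (fun n => (hb n).1) (fun n => (hb n).2.1)
    (fun n => (hb n).2.2) (D.con i).1 (D.con i).2.1 (D.con i).2.2.1 (D.con i).2.2.2 n

theorem esc_lvl (D : Dat μ a F r) (i : Fin r) (b : ℕ → G1)
    (hb : ∀ n, b n * D.e i = D.e i * b n ∧ b n * D.u i = D.u i * b n ∧ b n * D.w i = D.w i * b n)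
    (J : Finset (Fin N)) (c : List (Finset (Fin N))) (hne : HasComp (toReg (chStr S J c)) (zx μ a E) zx_bound b) :
    ∃ β : ℝ, 0 < β ∧ ∀ m : ℕ, ∃ (n : ℕ) (k : ℤ),
      β ≤ ‖cl μ (ind ℂ (TC S (J :: c) m \ WC S (hd (J :: c)) m)) (zx μ a E (D.e i ^ k * b n))‖ := by
  have hE : Esc (zx μ a E) zx_bound := Pool.Agent.Helper84.FR.esc a E D.h3 D.hp
  obtain ⟨β, hβ, h⟩ := hE (toReg (chStr S J c)) (hasCoc (chStr S J c)) b hne (D.e i) (D.u i) (D.w i)
    (fun n => (hb n).1) (fun n => (hb n).2.1) (fun n => (hb n).2.2) (D.con i).1 (D.con i).2.1 (D.con i).2.2.1 (D.con i).2.2.2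
  exact ⟨β, hβ, fun m => h (TC S (J :: c) m) (fun n => TC_mem_FC S J c m n) m⟩

private theorem twoL_eq86 (hN : 0 < N) (m : ℕ) :
    TwoL S m = TC S ([] : List (Finset (Fin N))) m \
      {γ | ∃ K ∈ (Finset.univ.image fun i : Fin N => (Finset.univ : Finset (Fin N)).erase i), γ ∈ WC S K m} := by
  classical
  have hTC : TC S ([] : List (Finset (Fin N))) m = Set.univ := by
    ext γ
    simp [Pool.Agent.Helper96.RK.TC]
  rw [hTC]
  ext γ
  constructor
  · rintro ⟨i, j, hij, hi, hj⟩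
    refine ⟨Set.mem_univ _, ?_⟩
    rintro ⟨K, hK, hγ⟩
    obtain ⟨l, -, rfl⟩ := Finset.mem_image.1 hK
    by_cases hl : i = l
    · have h1 := hγ j (Finset.mem_erase.2 ⟨fun h => hij (hl.trans h.symm), Finset.mem_univ _⟩)
      linarith
    · have h1 := hγ i (Finset.mem_erase.2 ⟨hl, Finset.mem_univ _⟩)
      linarith
  · rintro ⟨-, h⟩
    have hex : ∀ i : Fin N, ∃ k, k ≠ i ∧ (m : ℝ) < lg S γ k := by
      intro i
      by_contra hcon
      push Not at hcon
      refine h ⟨Finset.univ.erase i, Finset.mem_image_of_mem _ (Finset.mem_univ i), fun k hk => ?_⟩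
      exact hcon k (Finset.mem_erase.1 hk).1
    obtain ⟨k, -, hk⟩ := hex ⟨0, hN⟩
    obtain ⟨k', hk', hk2⟩ := hex k
    exact ⟨k, k', fun h => hk' h.symm, hk, hk2⟩

private theorem card86 {J : Finset (Fin N)} {r : ℕ} (hr : r + 2 = N)
    (hJ : ∀ K ∈ (Finset.univ.image fun i : Fin N => (Finset.univ : Finset (Fin N)).erase i), ¬ K ⊆ J) : J.card ≤ r := by
  classical
  have hex : ∀ i : Fin N, ∃ k, k ≠ i ∧ k ∉ J := by
    intro i
    by_contra hcon
    push Not at hcon
    exact hJ _ (Finset.mem_image_of_mem _ (Finset.mem_univ i)) fun k hk => hcon k (Finset.mem_erase.1 hk).1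
  obtain ⟨k, -, hk⟩ := hex ⟨0, by omega⟩
  obtain ⟨k', hk', hk2⟩ := hex k
  have h1 : J ⊆ (Finset.univ.erase k).erase k' := by
    intro i hi
    refine Finset.mem_erase.2 ⟨?_, Finset.mem_erase.2 ⟨?_, Finset.mem_univ _⟩⟩
    · rintro rfl; exact hk2 hi
    · rintro rfl; exact hk hi
  have h2 := Finset.card_le_card h1
  rw [Finset.card_erase_of_mem (Finset.mem_erase.2 ⟨hk', Finset.mem_univ _⟩), Finset.card_erase_of_mem (Finset.mem_univ _),
    Finset.card_univ, Fintype.card_fin] at h2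
  omega

private theorem zcomm86 {G1 : Type} [Group G1] {a b x : G1} (q : ℤ) (ha : a * x = x * a) (hb : b * x = x * b) :
    a ^ q * b * x = x * (a ^ q * b) := by
  have h1 : Commute (a ^ q) x := (show Commute a x from ha).zpow_left q
  have h2 : Commute b x := hb
  exact (h1.mul_left h2)

theorem no_two (D : Dat μ a F r) (hr : r + 2 = N) {β : ℝ} (hβ : 0 < β) :
    ∃ R : ℕ, ∀ f ∈ F, ‖cl μ (ind ℂ (TwoL S R)) (zx μ a E f)‖ < β := by
  classical
  by_contra hcon
  push Not at hcon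
  choose f hfF hf using hcon
  have hN : 0 < N := by omega
  obtain ⟨J, -, hJ, hcomp⟩ := selectK S ([] : List (Finset (Fin N)))
    (Finset.univ.image fun i : Fin N => (Finset.univ : Finset (Fin N)).erase i) (zx μ a E) zx_bound hβ f (fun m => by
      rw [← twoL_eq86 hN m]
      exact hf m)
  have hcard := card86 hr hJ
  have h1 := card_bound hN (zx μ a E) zx_bound
    (fun k => {g : G1 | ∀ i : Fin r, k ≤ (i : ℕ) → g * D.e i = D.e i * g ∧ g * D.u i = D.u i * g ∧ g * D.w i = D.w i * g})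
    r J [] f (fun n i _ => D.cF i (f n) (hfF n)) hcomp (by
      intro k hk J' c' b hb hc
      obtain ⟨β', hβ', h⟩ := esc_lvl (S := S) D ⟨k, hk⟩ b (fun n => hb n ⟨k, hk⟩ le_rfl) J' c' hc
      refine ⟨β', hβ', fun m => ?_⟩
      obtain ⟨n, q, hnq⟩ := h m
      refine ⟨_, ?_, hnq⟩
      intro i hi
      have hi' : k + 1 ≤ (i : ℕ) := hi
      have hne : (⟨k, hk⟩ : Fin r) ≠ i := by
        intro h0
        have := congrArg Fin.val h0
        simp only at this
        omega
      obtain ⟨b1, b2, b3⟩ := hb n i (by omega)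
      obtain ⟨c1, c2⟩ := D.cu ⟨k, hk⟩ i hne
      exact ⟨zcomm86 q (D.cc _ _) b1, zcomm86 q c1 b2, zcomm86 q c2 b3⟩)
  omega

end Pool.Agent.Helper43.TA
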