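import Pool.Agent.Helper43.TA.Cpt

/-!
# Block TYB-TRR: right translates

PROOF of `cf_right`. The mirror image of `cf_left` (block TYB-TRL): `cf (w * E.U l) = ∑_{q ∈ Q} (cf (E.U l) q) ρ_q cf w + (rest)`, where `ρ_q` is the right translation and the rest is the image of `ind ℂ Qᶜ (cf (E.U l))` under the left multiplication by the unitary `w`, so its norm is `≤ ε`.
PROOF of `trr`. As `trl`: `a.a (g * k) ((g * k)⁻¹ • x) = a.a g (g⁻¹ • x) * a.a k (k⁻¹ • (g⁻¹ • x))`, `B := {x | a.a k (k⁻¹ • (g⁻¹ • x)) ∉ T}`, `μ.real B = μ.real {x | a.a k x ∉ T}` (invariance).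
-/

set_option autoImplicit false
set_option linter.unusedSectionVars false

open MeasureTheory Filter Topology

namespace Pool.Agent.Helper43.TA

open Pool.Agent.Helper84.NI Pool.Agent.Helper84.GVN Pool.Agent.Helper90.RK
open Pool.Agent.Helper84.GN hiding toReg
open Pool.Agent.Helper96.RK Pool.Agent.Helper66.FR Pool.Agent.Helper84.FR Pool.Agent.Helper96.FR Pool.Agent.Helper55.FR

section aux

variable {G : Type} [Group G]

private theorem ind_mono74 {A B : Set G} (h : A ⊆ B) (f : L2 G) : ‖ind ℂ A f‖ ≤ ‖ind ℂ B f‖ := by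
  classical
  have h1 : ind ℂ A f = ind ℂ A (ind ℂ B f) := by
    apply l2_ext
    intro x
    rw [ind_apply, ind_apply, ind_apply]
    by_cases hA : x ∈ A
    · rw [if_pos hA, if_pos hA, if_pos (h hA)]
    · rw [if_neg hA, if_neg hA]
  rw [h1]
  exact norm_ind2 A _

private theorem ind_rho74 (s : Set G) (q : G) (f : L2 G) :
    ind ℂ s (rhoU q⁻¹ f) = rhoU q⁻¹ (ind ℂ {γ | γ * q ∈ s} f) := by
  classical
  apply l2_ext
  intro x
  rw [ind_apply, rhoU_apply, rhoU_apply, ind_apply]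
  have h1 : x * q⁻¹ ∈ {γ | γ * q ∈ s} ↔ x ∈ s := by
    rw [Set.mem_setOf_eq, inv_mul_cancel_right]
  by_cases hx : x ∈ s
  · rw [if_pos hx, if_pos (h1.2 hx)]
  · rw [if_neg hx, if_neg (fun h => hx (h1.1 h))]

end aux

variable {G1 X G Λ : Type} [Group G1] [TopologicalSpace G1] [IsTopologicalGroup G1] [MeasurableSpace X] {μ : Measure X}
  [MulAction G1 X] [MeasurableConstSMul G1 X] [SMulInvariantMeasure G1 X μ] [IsProbabilityMeasure μ]
  [Group G] [Group Λ] [Countable Λ] {a : Cocy G1 X Λ} {E : Emb Λ G}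

theorem cf_right (l : Λ) {ε : ℝ} (hε : 0 < ε) : ∃ Q : Finset G, ∀ (l' : Λ) (s : Set G),
    ‖ind ℂ s (cf (E.U (l' * l)))‖ ≤ Q.card * ‖ind ℂ {γ | ∃ q ∈ Q, γ * q ∈ s} (cf (E.U l'))‖ + ε := by
  classical
  have h1 := hasSum_dl (cf (E.U l))
  have h2 := (Metric.tendsto_nhds.1 h1) ε hε
  obtain ⟨Q, hQ⟩ := h2.exists
  refine ⟨Q, fun l' s => ?_⟩
  obtain ⟨v, hv⟩ : ∃ v, v = cf (E.U l) := ⟨_, rfl⟩
  rw [← hv, dist_eq_norm, norm_sub_rev] at hQ
  obtain ⟨r, hr⟩ : ∃ r, r = v - ∑ q ∈ Q, v q • (dl q : L2 G) := ⟨_, rfl⟩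
  rw [← hr] at hQ
  have hvn : ‖v‖ = 1 := by rw [hv]; exact norm_cf _
  have hvq : ∀ q, ‖v q‖ ≤ 1 := fun q => (lp.norm_apply_le_norm (by norm_num) v q).trans hvn.le
  have h3 : ∀ q : G, E.U l' (dl q) = rhoU q⁻¹ (cf (E.U l')) := by
    intro q
    have h4 := E.comm l' q⁻¹ (dl 1)
    rw [rhoU_dl, inv_inv, one_mul] at h4
    exact h4
  have h5 : cf (E.U (l' * l)) = ∑ q ∈ Q, v q • rhoU q⁻¹ (cf (E.U l')) + E.U l' r := by
    have h6 : cf (E.U (l' * l)) = E.U l' v := by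
      rw [map_mul, hv]
      rfl
    rw [h6, hr, map_sub, map_sum]
    simp only [map_smul, h3]
    abel
  rw [h5, map_add, map_sum]
  refine (norm_add_le _ _).trans (add_le_add ((norm_sum_le _ _).trans ?_) ?_)
  · have h7 : ∀ q ∈ Q, ‖ind ℂ s (v q • rhoU q⁻¹ (cf (E.U l')))‖ ≤
        ‖ind ℂ {γ | ∃ q ∈ Q, γ * q ∈ s} (cf (E.U l'))‖ := by
      intro q hq
      rw [map_smul, norm_smul, ind_rho74, LinearIsometryEquiv.norm_map]
      have h8 : ‖ind ℂ {γ | γ * q ∈ s} (cf (E.U l'))‖ ≤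
          ‖ind ℂ {γ | ∃ q ∈ Q, γ * q ∈ s} (cf (E.U l'))‖ := by
        refine ind_mono74 ?_ _
        intro γ hγ
        exact ⟨q, hq, hγ⟩
      calc _ ≤ 1 * ‖ind ℂ {γ | γ * q ∈ s} (cf (E.U l'))‖ :=
            mul_le_mul_of_nonneg_right (hvq q) (norm_nonneg _)
        _ ≤ _ := by rw [one_mul]; exact h8
    calc _ ≤ ∑ _q ∈ Q, ‖ind ℂ {γ | ∃ q ∈ Q, γ * q ∈ s} (cf (E.U l'))‖ := Finset.sum_le_sum h7
      _ = _ := by rw [Finset.sum_const, nsmul_eq_mul]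
  · refine (norm_ind2 _ _).trans ?_
    rw [LinearIsometryEquiv.norm_map]
    exact hQ.le

theorem trr (h3 : Tendsto (fun g : G1 => μ {x | a.a g x ≠ 1}) (𝓝 1) (𝓝 0)) {K : Set G1} (hK : IsCompact K)
    {ε : ℝ} (hε : 0 < ε) : ∃ (Q : Finset G) (C : ℝ), 0 ≤ C ∧ ∀ k ∈ K, ∀ (g : G1) (s : Set G),
      ‖cl μ (ind ℂ s) (zx μ a E (g * k))‖ ≤ C * ‖cl μ (ind ℂ {γ | ∃ q ∈ Q, γ * q ∈ s}) (zx μ a E g)‖ + ε := by
  classical
  obtain ⟨T, hT⟩ := cpt_fin (a := a) (μ := μ) h3 hK (ε := ε ^ 2 / 9) (by positivity)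
  choose Q hQ using fun l : Λ => cf_right (E := E) l (ε := ε / 3) (by positivity)
  refine ⟨T.biUnion Q, 2 * ((T.biUnion Q).card : ℝ), by positivity, fun k hk g s => ?_⟩
  obtain ⟨C, hC⟩ : ∃ C : ℝ, C = ((T.biUnion Q).card : ℝ) := ⟨_, rfl⟩
  have hC0 : 0 ≤ C := by rw [hC]; positivity
  rw [← hC]
  obtain ⟨s', hs'⟩ : ∃ s' : Set G, s' = {γ | ∃ q ∈ T.biUnion Q, γ * q ∈ s} := ⟨_, rfl⟩
  rw [← hs']
  -- the pointwise estimate
  have hpt : ∀ l' l : Λ, l ∈ T → ‖ind ℂ s (cf (E.U (l' * l)))‖ ≤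
      C * ‖ind ℂ s' (cf (E.U l'))‖ + ε / 3 := by
    intro l' l hl
    refine (hQ l l' s).trans (add_le_add ?_ le_rfl)
    have h4 : ((Q l).card : ℝ) ≤ C := by
      rw [hC]
      exact_mod_cast Finset.card_le_card (Finset.subset_biUnion_of_mem Q hl)
    have h5 : ‖ind ℂ {γ | ∃ q ∈ Q l, γ * q ∈ s} (cf (E.U l'))‖ ≤ ‖ind ℂ s' (cf (E.U l'))‖ := by
      refine ind_mono74 ?_ _
      rintro γ ⟨q, hq, hγ⟩
      rw [hs']
      exact ⟨q, Finset.mem_biUnion.2 ⟨l, hl, hq⟩, hγ⟩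
    exact mul_le_mul h4 h5 (norm_nonneg _) hC0
  have hone : ∀ l : Λ, ‖ind ℂ s (cf (E.U l))‖ ≤ 1 := fun l =>
    (norm_ind2 _ _).trans (norm_cf _).le
  -- the bad set
  obtain ⟨B, hB⟩ : ∃ B : Set X, B = {x | a.a k (k⁻¹ • g⁻¹ • x) ∉ T} := ⟨_, rfl⟩
  have hTm : MeasurableSet {x | a.a k x ∉ T} := by
    have h6 : {x | a.a k x ∉ T} = (⋃ l ∈ T, (a.a k) ⁻¹' {l})ᶜ := by
      ext x
      simp
    rw [h6]
    exact (Finset.measurableSet_biUnion T fun l _ => a.meas k l).compl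
  have hBpre : B = (fun x => (g * k)⁻¹ • x) ⁻¹' {x | a.a k x ∉ T} := by
    rw [hB]
    ext x
    simp only [Set.mem_setOf_eq, Set.mem_preimage, mul_inv_rev, mul_smul]
  have hBm : MeasurableSet B := by
    rw [hBpre]
    exact (measurable_const_smul _) hTm
  have hBμ : μ.real B ≤ ε ^ 2 / 9 := by
    have h7 : μ.real B = μ.real {x | a.a k x ∉ T} := by
      rw [hBpre, measureReal_def, measureReal_def,
        (measurePreserving_smul (g * k)⁻¹ μ).measure_preimage hTm.nullMeasurableSet]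
    rw [h7]
    exact hT k hk
  -- square norms
  have hae : ∀ᵐ x ∂μ, ‖cl μ (ind ℂ s) (zx μ a E (g * k)) x‖ ^ 2 ≤
      3 * C ^ 2 * ‖cl μ (ind ℂ s') (zx μ a E g) x‖ ^ 2 + (ε ^ 2 / 3 + 3 * B.indicator 1 x) := by
    have z1 := zv_apply (μ := μ) (E := E) (mea_a (a := a) (g * k) (g * k)⁻¹)
    have z2 := zv_apply (μ := μ) (E := E) (mea_a (a := a) g g⁻¹)
    filter_upwards [cl_apply (ind ℂ s) (zx μ a E (g * k)), cl_apply (ind ℂ s') (zx μ a E g), z1, z2]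
      with x h1 h2 h4 h5
    rw [← zx_eq] at h4 h5
    rw [h1, h2, h4, h5]
    have h6 : a.a (g * k) ((g * k)⁻¹ • x) = a.a g (g⁻¹ • x) * a.a k (k⁻¹ • g⁻¹ • x) := by
      rw [a.mul, mul_inv_rev, mul_smul, smul_inv_smul]
    rw [h6]
    have hn0 : 0 ≤ C * ‖ind ℂ s' (cf (E.U (a.a g (g⁻¹ • x))))‖ := by positivity
    by_cases hx : x ∈ B
    · have h7 := hone (a.a g (g⁻¹ • x) * a.a k (k⁻¹ • g⁻¹ • x))
      have h8 : ‖ind ℂ s (cf (E.U (a.a g (g⁻¹ • x) * a.a k (k⁻¹ • g⁻¹ • x))))‖ ^ 2 ≤ 1 :=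
        pow_le_one₀ (norm_nonneg _) h7
      rw [Set.indicator_of_mem hx, Pi.one_apply]
      nlinarith [sq_nonneg (C * ‖ind ℂ s' (cf (E.U (a.a g (g⁻¹ • x))))‖), sq_nonneg ε]
    · rw [Set.indicator_of_notMem hx]
      have hx' : a.a k (k⁻¹ • g⁻¹ • x) ∈ T := by
        by_contra hcon
        exact hx (by rw [hB]; exact hcon)
      have h7 := hpt (a.a g (g⁻¹ • x)) _ hx'
      have h8 := pow_le_pow_left₀ (norm_nonneg _) h7 2
      nlinarith [sq_nonneg (C * ‖ind ℂ s' (cf (E.U (a.a g (g⁻¹ • x))))‖ - ε / 3), sq_nonneg ε]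
  have hind : Integrable (fun x => 3 * B.indicator (1 : X → ℝ) x) μ :=
    (((integrable_const (1 : ℝ)).indicator hBm).const_mul 3)
  have hint : Integrable (fun x => ε ^ 2 / 3 + 3 * B.indicator 1 x) μ :=
    (integrable_const _).add hind
  have hle : ‖cl μ (ind ℂ s) (zx μ a E (g * k))‖ ^ 2 ≤
      3 * C ^ 2 * ‖cl μ (ind ℂ s') (zx μ a E g)‖ ^ 2 + ε ^ 2 := by
    rw [xl_norm_sq, xl_norm_sq (cl μ (ind ℂ s') (zx μ a E g))]
    refine (integral_mono_ae (xl_int _) (((xl_int _).const_mul _).add hint) hae).trans ?_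
    have e1 : ∫ x, (3 * C ^ 2 * ‖cl μ (ind ℂ s') (zx μ a E g) x‖ ^ 2 +
        (ε ^ 2 / 3 + 3 * B.indicator 1 x)) ∂μ = 3 * C ^ 2 *
        (∫ x, ‖cl μ (ind ℂ s') (zx μ a E g) x‖ ^ 2 ∂μ) + (ε ^ 2 / 3 + 3 * μ.real B) := by
      rw [integral_add ((xl_int _).const_mul _) hint, integral_const_mul, integral_add
        (integrable_const _) hind, integral_const, integral_const_mul, integral_indicator_one hBm]
      simp
    refine (le_of_eq e1).trans ?_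
    linarith [sq_nonneg ε]
  have hN : 0 ≤ ‖cl μ (ind ℂ s') (zx μ a E g)‖ := norm_nonneg _
  refine abs_le_of_sq_le_sq' ?_ (by positivity) |>.2
  nlinarith [mul_nonneg (mul_nonneg hC0 hN) hε.le, sq_nonneg (C * ‖cl μ (ind ℂ s') (zx μ a E g)‖)]

end Pool.Agent.Helper43.TA
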