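import Pool.Agent.Helper43.TA.Trl
import Pool.Agent.Helper43.TA.Trr
import Pool.Agent.Helper43.TA.Shf
import Pool.Agent.Helper43.TA.Lvl

/-!
# Block TYB-TRF: two sided translates

PROOF of `transfer`. `trl` with `ε / 2`: `Q1`, `C1`; then `trr` with `ε / (2 (C1 + 1))`: `Q2`, `C2`; `Q := Q1 ∪ Q2`, `C := C1 * C2`. `‖cl (ind s) (zx (k (g k')))‖ ≤ C1 ‖cl (ind s1) (zx (g k'))‖ + ε / 2 ≤ C1 (C2 ‖cl (ind s2) (zx g)‖ + ε / (2 (C1 + 1))) + ε / 2`, `s2 = {γ | ∃ q' ∈ Q2, ∃ q ∈ Q1, q * (γ * q') ∈ s} ⊆ shf Q s`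
(monotonicity of `‖cl μ (ind ℂ s) f‖` in `s`).
PROOF of `no_two_K`. `transfer` with `β / 2`: `Q`, `C`; `no_two D hr` with `β / (2 (C + 1))` gives `R0`; `shf_TwoL S Q R0` gives `R`.
-/

set_option autoImplicit false
set_option linter.unusedSectionVars false

open MeasureTheory Filter Topology

namespace Pool.Agent.Helper43.TA

open Pool.Agent.Helper84.NI Pool.Agent.Helper84.GVN Pool.Agent.Helper90.RK
open Pool.Agent.Helper84.GN hiding toReg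
open Pool.Agent.Helper96.RK Pool.Agent.Helper66.FR Pool.Agent.Helper84.FR Pool.Agent.Helper96.FR Pool.Agent.Helper55.FR

variable {G1 X G Λ : Type} [Group G1] [TopologicalSpace G1] [IsTopologicalGroup G1] [MeasurableSpace X] {μ : Measure X}
  [MulAction G1 X] [MeasurableConstSMul G1 X] [SMulInvariantMeasure G1 X μ] [IsProbabilityMeasure μ]
  [Group G] [Group Λ] [Countable Λ] {a : Cocy G1 X Λ} {E : Emb Λ G}

private theorem cl_mono46 {s t : Set G} (h : s ⊆ t) (f : XL μ (L2 G)) : ‖cl μ (ind ℂ s) f‖ ≤ ‖cl μ (ind ℂ t) f‖ := by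
  have h1 : cl μ (ind ℂ s) f = cl μ (ind ℂ s) (cl μ (ind ℂ t) f) := by
    rw [cl_ind_ind, Set.inter_eq_self_of_subset_left h]
  rw [h1]
  have h2 := norm_cl_le_of (μ := μ) (T := (ind ℂ s : L2 G →L[ℂ] L2 G)) zero_le_one
    (fun x => by rw [one_mul]; exact norm_ind2 s x) (cl μ (ind ℂ t) f)
  rw [one_mul] at h2
  exact h2

theorem transfer (h3 : Tendsto (fun g : G1 => μ {x | a.a g x ≠ 1}) (𝓝 1) (𝓝 0)) {K : Set G1} (hK : IsCompact K)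
    {ε : ℝ} (hε : 0 < ε) : ∃ (Q : Finset G) (C : ℝ), 0 ≤ C ∧ ∀ k ∈ K, ∀ k' ∈ K, ∀ (g : G1) (s : Set G),
      ‖cl μ (ind ℂ s) (zx μ a E (k * g * k'))‖ ≤ C * ‖cl μ (ind ℂ (shf Q s)) (zx μ a E g)‖ + ε := by
  classical
  obtain ⟨Q1, C1, hC1, h1⟩ := trl (E := E) h3 hK (half_pos hε)
  have hC1' : (0 : ℝ) < C1 + 1 := by linarith
  have hε2 : (0 : ℝ) < ε / (2 * (C1 + 1)) := by positivity
  obtain ⟨Q2, C2, hC2, h2⟩ := trr (E := E) h3 hK hε2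
  refine ⟨Q1 ∪ Q2, C1 * C2, mul_nonneg hC1 hC2, ?_⟩
  intro k hk k' hk' g s
  rw [mul_assoc k g k']
  have e1 := h1 k hk (g * k') s
  have e2 := h2 k' hk' g {γ | ∃ q ∈ Q1, q * γ ∈ s}
  have hsub : {γ | ∃ q ∈ Q2, γ * q ∈ {γ : G | ∃ q ∈ Q1, q * γ ∈ s}} ⊆ shf (Q1 ∪ Q2) s := by
    rintro γ ⟨q', hq', q, hq, hs⟩
    refine ⟨q, Finset.mem_union_left _ hq, q', Finset.mem_union_right _ hq', ?_⟩
    rw [mul_assoc]
    exact hs
  have e3 := cl_mono46 (μ := μ) hsub (zx μ a E g)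
  have e4 : C1 * (ε / (2 * (C1 + 1))) ≤ ε / 2 := by
    rw [mul_div_assoc', div_le_div_iff₀ (by positivity) two_pos]
    nlinarith
  have e5 := mul_le_mul_of_nonneg_left (e2.trans (add_le_add (mul_le_mul_of_nonneg_left e3 hC2) le_rfl)) hC1
  calc _ ≤ _ := e1
    _ ≤ C1 * (C2 * ‖cl μ (ind ℂ (shf (Q1 ∪ Q2) s)) (zx μ a E g)‖ + ε / (2 * (C1 + 1))) + ε / 2 := add_le_add e5 le_rfl
    _ ≤ _ := by linarith

variable {N : ℕ} {P : PH G N} {S : Sv P} {Z : Subgroup G1} {r : ℕ}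

theorem no_two_K (D : Dat μ a Z r) (hr : r + 2 = N) {K : Set G1} (hK : IsCompact K) {β : ℝ} (hβ : 0 < β) :
    ∃ R : ℕ, ∀ k ∈ K, ∀ k' ∈ K, ∀ z ∈ Z, ‖cl μ (ind ℂ (TwoL S R)) (zx μ a E (k * z * k'))‖ < β := by
  obtain ⟨Q, C, hC, h⟩ := transfer (E := E) D.h3 hK (half_pos hβ)
  have hC' : (0 : ℝ) < C + 1 := by linarith
  have hβ2 : (0 : ℝ) < β / (2 * (C + 1)) := by positivity
  obtain ⟨R0, hR0⟩ := no_two (E := E) (S := S) D hr hβ2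
  obtain ⟨R, hR⟩ := shf_TwoL S Q R0
  refine ⟨R, fun k hk k' hk' z hz => ?_⟩
  have e1 := h k hk k' hk' z (TwoL S R)
  have e2 := cl_mono46 (μ := μ) hR (zx μ a E z)
  have e3 := (hR0 z hz)
  have e4 : C * ‖cl μ (ind ℂ (shf Q (TwoL S R))) (zx μ a E z)‖ < β / 2 := by
    have e5 : C * ‖cl μ (ind ℂ (shf Q (TwoL S R))) (zx μ a E z)‖ ≤ C * (β / (2 * (C + 1))) :=
      mul_le_mul_of_nonneg_left (e2.trans e3.le) hC
    have e6 : C * (β / (2 * (C + 1))) < β / 2 := by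
      rw [mul_div_assoc', div_lt_div_iff₀ (by positivity) two_pos]
      nlinarith
    linarith
  linarith

end Pool.Agent.Helper43.TA
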