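import Pool.Agent.Helper43.TA.Ext
import Pool.Agent.Helper43.TA.Trf

/-!
# Block TYB-FIN2: the end of the argument, general form

PROOF of `typeA_core2`. (1) `F` is infinite and discrete: there are `f n ∈ F`, `Tendsto f atTop (cocompact G1)` (as in `typeA_core` in `TA/Fin.lean`). (2) Let `R : ℕ`. `transfer D.h3 hK` with `ε = 1/4`: `Q`, `C`; `shf_EL S Q R`: `R1`; `ext_gaps D hr hr1 R1` with `1 / (4 (C + 1))`: the compact set `K0`. For large `n`: `f n ∉ K * K0 * K` (compact), `f n = k z k'`, so `z ∉ K0` and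
`‖cl (ind (EL S R)) (zx (f n))‖ ≤ C / (4 (C + 1)) + 1/4 ≤ 1/2`. `‖zx (f n)‖ = 1`, and the complement of `EL S R` is contained in `GapL S q0 R ∪ GapL S q1 R`, `q0` the first index, `q1` the index `N - 2` (if `N ≥ 3` both exist), so one of the two has `‖cl (ind (GapL S q R)) (zx (f n))‖ ≥ 1/4` (`1 = ‖zx‖ ≤ ‖cl (ind (EL S R)) ..‖ + ‖cl (ind (EL S R)ᶜ) ..‖` and
`‖cl (ind (s ∪ t)) ..‖ ≤ ‖cl (ind s) ..‖ + ‖cl (ind t) ..‖`). (3) So for one `q ∈ {q0, q1}` this holds for infinitely many `R`, hence for all `R` (`GapL` decreases with `R`). `hreach` gives `β'`, and `no_two_K D hr hK` for `β'` is a contradiction.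
-/

set_option autoImplicit false
set_option linter.unusedSectionVars false

open MeasureTheory Filter Topology

namespace Pool.Agent.Helper43.TA

open Pool.Agent.Helper84.NI Pool.Agent.Helper84.GVN Pool.Agent.Helper90.RK
open Pool.Agent.Helper84.GN hiding toReg
open Pool.Agent.Helper96.RK Pool.Agent.Helper66.FR Pool.Agent.Helper84.FR Pool.Agent.Helper96.FR Pool.Agent.Helper55.FR

private theorem mono68 {X G : Type} [MeasurableSpace X] {μ : Measure X} [IsProbabilityMeasure μ] {A B : Set G}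
    (h : A ⊆ B) (f : XL μ (L2 G)) : ‖cl μ (ind ℂ A) f‖ ≤ ‖cl μ (ind ℂ B) f‖ := by
  have h1 := cl_ind_ind A B f
  rw [Set.inter_eq_left.2 h] at h1
  rw [← h1]
  have h2 := norm_cl_le_of (μ := μ) (T := ind ℂ A) (C := 1) zero_le_one (fun x => by
    rw [one_mul]
    exact norm_ind2 _ _) (cl μ (ind ℂ B) f)
  rwa [one_mul] at h2

private theorem union68 {X G : Type} [MeasurableSpace X] {μ : Measure X} [IsProbabilityMeasure μ] (A B : Set G)
    (f : XL μ (L2 G)) : ‖cl μ (ind ℂ (A ∪ B)) f‖ ≤ ‖cl μ (ind ℂ A) f‖ + ‖cl μ (ind ℂ B) f‖ := by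
  classical
  have h1 : (ind ℂ (A ∪ B) : L2 G →L[ℂ] L2 G) = ind ℂ A + ind ℂ (B \ A) := by
    ext1 v
    apply lv_ext
    intro i
    have h : ((ind ℂ A + ind ℂ (B \ A) : L2 G →L[ℂ] L2 G) v) i = ind ℂ A v i + ind ℂ (B \ A) v i := rfl
    rw [h, ind_apply, ind_apply, ind_apply]
    by_cases h1 : i ∈ A <;> by_cases h2 : i ∈ B <;> simp [h1, h2]
  rw [h1, cl_add]
  exact (norm_add_le _ _).trans (add_le_add le_rfl (mono68 Set.sdiff_subset _))

variable {G1 X G Λ : Type} [Group G1] [TopologicalSpace G1] [IsTopologicalGroup G1] [LocallyCompactSpace G1]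
  [SecondCountableTopology G1] [T2Space G1] [MeasurableSpace X]
  {μ : Measure X} [MulAction G1 X] [MeasurableConstSMul G1 X] [SMulInvariantMeasure G1 X μ] [IsProbabilityMeasure μ]
  [Group G] [Group Λ] [Countable Λ] {a : Cocy G1 X Λ} {E : Emb Λ G} {N : ℕ} {P : PH G N} {S : Sv P}
  {Z : Subgroup G1} {r : ℕ}

theorem typeA_core2 (D : Dat μ a Z r) (hr : r + 2 = N) (hr1 : 1 ≤ r) {K : Set G1} (hK : IsCompact K) {F : Subgroup G1}
    (hKZ : ∀ f ∈ F, ∃ k ∈ K, ∃ z ∈ Z, ∃ k' ∈ K, f = k * z * k') (hF : DiscreteTopology F) (hna : NonAm F)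
    (hreach : ∀ (q : Fin N) (β : ℝ), 0 < β → ((q : ℕ) = 0 ∨ (q : ℕ) + 2 = N) →
      (∀ R : ℕ, ∃ f ∈ F, β ≤ ‖cl μ (ind ℂ (GapL S q R)) (zx μ a E f)‖) →
      ∃ β' : ℝ, 0 < β' ∧ ∀ R : ℕ, ∃ f ∈ F, β' ≤ ‖cl μ (ind ℂ (TwoL S R)) (zx μ a E f)‖) : False := by
  classical
  have hinf : Infinite F := Pool.Agent.Helper66.RK.infinite_of_nonAm hna
  have hclosed : IsClosed (F : Set G1) := Subgroup.isClosed_of_discrete
  have hleave : ∀ K' : Set G1, IsCompact K' → ∃ f ∈ F, f ∉ K' := by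
    intro K' hK'
    by_contra hcon
    push Not at hcon
    have h1 : (F : Set G1) ⊆ K' := hcon
    have h2 : IsCompact (F : Set G1) := hK'.of_isClosed_subset hclosed h1
    have h3 : (F : Set G1).Finite := h2.finite ⟨hF⟩
    exact Set.infinite_coe_iff.1 hinf h3
  obtain ⟨Q, C, hC, hT⟩ := transfer (E := E) D.h3 hK (ε := 1 / 4) (by norm_num)
  have hq0 : 0 < N := by omega
  have hq1 : N - 2 < N := by omega
  have key : ∀ R : ℕ, ∃ f ∈ F, 1 / 4 ≤ ‖cl μ (ind ℂ (GapL S (⟨0, hq0⟩ : Fin N) R)) (zx μ a E f)‖ ∨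
      1 / 4 ≤ ‖cl μ (ind ℂ (GapL S (⟨N - 2, hq1⟩ : Fin N) R)) (zx μ a E f)‖ := by
    intro R
    obtain ⟨R1, hR1⟩ := shf_EL S Q R
    obtain ⟨K0, hK0, hz⟩ := ext_gaps (E := E) (S := S) D hr hr1 R1 (ε := 1 / (4 * (C + 1))) (by positivity)
    have hcomp : IsCompact ((fun p : G1 × G1 × G1 => p.1 * p.2.1 * p.2.2) '' (K ×ˢ K0 ×ˢ K)) :=
      (hK.prod (hK0.prod hK)).image (by fun_prop)
    obtain ⟨f, hfF, hf⟩ := hleave _ hcomp
    refine ⟨f, hfF, ?_⟩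
    obtain ⟨k, hk, z, hzZ, k', hk', hfe⟩ := hKZ f hfF
    have hzK : z ∉ K0 := by
      intro h
      apply hf
      rw [hfe]
      exact ⟨(k, z, k'), ⟨hk, h, hk'⟩, rfl⟩
    have h1 := hT k hk k' hk' z (EL S R)
    rw [← hfe] at h1
    have h2 := (mono68 hR1 (zx μ a E z)).trans (hz z hzZ hzK)
    have h3 : ‖cl μ (ind ℂ (EL S R)) (zx μ a E f)‖ ≤ 1 / 2 := by
      have h4 : C * ‖cl μ (ind ℂ (shf Q (EL S R))) (zx μ a E z)‖ ≤ 1 / 4 := by
        refine (mul_le_mul_of_nonneg_left h2 hC).trans ?_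
        have h5 : (0 : ℝ) < 4 * (C + 1) := by positivity
        rw [mul_one_div, div_le_iff₀ h5]
        linarith
      linarith
    by_contra hcon
    push Not at hcon
    have h4 := cl_ind_split (EL S R) (zx μ a E f)
    rw [norm_zx] at h4
    have h5 : Set.univ \ EL S R ⊆ GapL S (⟨0, hq0⟩ : Fin N) R ∪ GapL S (⟨N - 2, hq1⟩ : Fin N) R := by
      intro γ hγ
      have h6 := hγ.2
      simp only [EL, Set.mem_ofPred_eq, not_forall, not_le] at h6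
      obtain ⟨i, hi, hlt⟩ := h6
      rcases hi with hi | hi
      · left
        have h7 : i = ⟨0, hq0⟩ := Fin.ext hi
        rw [h7] at hlt
        exact hlt
      · right
        have h7 : i = ⟨N - 2, hq1⟩ := Fin.ext (by show (i : ℕ) = N - 2; omega)
        rw [h7] at hlt
        exact hlt
    have h6 := (mono68 h5 (zx μ a E f)).trans (union68 _ _ _)
    have h7 : ‖cl μ (ind ℂ (Set.univ \ EL S R)) (zx μ a E f)‖ ≤ 1 / 2 := by linarith [hcon.1, hcon.2]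
    have h8 : ‖cl μ (ind ℂ (EL S R)) (zx μ a E f)‖ ^ 2 ≤ (1 / 2) ^ 2 := pow_le_pow_left₀ (norm_nonneg _) h3 2
    have h9 : ‖cl μ (ind ℂ (Set.univ \ EL S R)) (zx μ a E f)‖ ^ 2 ≤ (1 / 2) ^ 2 :=
      pow_le_pow_left₀ (norm_nonneg _) h7 2
    linarith
  have gmono : ∀ (q : Fin N) {R R' : ℕ}, R ≤ R' → GapL S q R' ⊆ GapL S q R := by
    intro q R R' h γ hγ
    have h1 : (R' : ℝ) < lg S γ q := hγ
    have h2 : (R : ℝ) ≤ R' := Nat.cast_le.2 h
    exact lt_of_le_of_lt h2 h1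
  have hsel : ∃ q : Fin N, ((q : ℕ) = 0 ∨ (q : ℕ) + 2 = N) ∧
      ∀ R : ℕ, ∃ f ∈ F, 1 / 4 ≤ ‖cl μ (ind ℂ (GapL S q R)) (zx μ a E f)‖ := by
    by_cases h : ∀ R : ℕ, ∃ f ∈ F, 1 / 4 ≤ ‖cl μ (ind ℂ (GapL S (⟨0, hq0⟩ : Fin N) R)) (zx μ a E f)‖
    · exact ⟨⟨0, hq0⟩, Or.inl rfl, h⟩
    · push Not at h
      obtain ⟨R0, hR0⟩ := h
      refine ⟨⟨N - 2, hq1⟩, Or.inr (by show N - 2 + 2 = N; omega), fun R => ?_⟩
      obtain ⟨f, hfF, hf⟩ := key (max R R0)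
      refine ⟨f, hfF, ?_⟩
      rcases hf with hf | hf
      · have h1 := hf.trans (mono68 (gmono _ (le_max_right R R0)) _)
        exact absurd (hR0 f hfF) (not_lt.2 h1)
      · exact hf.trans (mono68 (gmono _ (le_max_left R R0)) _)
  obtain ⟨q, hq, hqR⟩ := hsel
  obtain ⟨β', hβ', hβR⟩ := hreach q (1 / 4) (by norm_num) hq hqR
  obtain ⟨R, hR⟩ := no_two_K (E := E) (S := S) D hr hK hβ'
  obtain ⟨f, hfF, hf⟩ := hβR R
  obtain ⟨k, hk, z, hzZ, k', hk', hfe⟩ := hKZ f hfF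
  have h1 := hR k hk k' hk' z hzZ
  rw [← hfe] at h1
  exact absurd h1 (not_lt.2 hf)

end Pool.Agent.Helper43.TA
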