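import Pool.Agent.Helper43.TA.STop2
import Pool.Agent.Helper96.TO.Fin
import Pool.Agent.Helper96.TO.Max
import Pool.Agent.Helper66.BD.Fin

/-!
# Project TA (MP_0f6f3f_an): the final theorems for simple real Lie algebras

`type_emb`: a lattice of a group between the adjoint group and the automorphism group of a simple real Lie algebra of real rank `r ≥ 2`, whose restricted root system is not of type `A`, has no trace preserving
homomorphism to the algebras of discrete groups of type `A` of size at most `r + 1`. `type_isoR`, `type_isoC`: no isomorphism with the algebras of the lattices of `PSL(n, ℝ)`, `PSL(n, ℂ)`, for any `n`.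
-/

set_option autoImplicit false

open Matrix Topology Filter

namespace Pool.Agent.Helper43.TA

open Pool.Agent.Helper96.SA Pool.Agent.Helper96.FR Pool.Agent.Helper66.RKS Pool.Agent.Helper96.TO Pool.Agent.Helper66.BD
open Pool.Agent.Helper84.NI Pool.Agent.Helper84.GN Pool.Agent.Helper84.GVN Pool.Agent.Helper55.FR

/-- An isomorphism gives embeddings in both directions if one of the groups is icc. -/
theorem emb_both {Γ Λ : Type} [Group Γ] [Group Λ] (hicc : IsICC Γ) (h : IsoL Γ Λ) :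
    Nonempty (Emb Γ Λ) ∧ Nonempty (Emb Λ Γ) := by
  obtain ⟨e⟩ := h
  let e' : LG Γ ≃⋆ₐ[ℂ] LG Λ := (bridge Γ).symm.trans (e.trans (bridge Λ))
  have ht : ∀ x, Pool.Agent.Helper84.GVN.tr (e' x) = Pool.Agent.Helper84.GVN.tr x :=
    fun x => Pool.Agent.Helper84.TU.tr_iso hicc e' x
  refine ⟨⟨homEmb e'.toStarAlgHom fun x => ht x⟩, ⟨homEmb e'.symm.toStarAlgHom fun x => ?_⟩⟩
  have h1 := ht (e'.symm x)
  rw [StarAlgEquiv.apply_symm_apply] at h1
  exact h1.symm

/-- The embedding given by a trace preserving homomorphism. -/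
theorem emb_of_embL {Γ Λ : Type} [Group Γ] [Group Λ] (h : EmbL Γ Λ) : Nonempty (Emb Γ Λ) := by
  obtain ⟨φ, hτ⟩ := h
  refine ⟨homEmb (((bridge Λ).toStarAlgHom.comp φ).comp (bridge Γ).symm.toStarAlgHom) fun x => ?_⟩
  have h1 := hτ ((bridge Γ).symm x)
  change (φ ((bridge Γ).symm x)).coeff 1 = ((bridge Γ).symm x).coeff 1 at h1
  rw [← bridge_coeff, ← bridge_coeff] at h1
  exact h1

variable {L : Type} [LieRing L] [LieAlgebra ℝ L] {N : ℕ} {θ : L ≃ₗ⁅ℝ⁆ L} {b : Module.Basis (Fin N) ℝ L}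
  {G : Subgroup (GL (Fin N) ℝ)} {Γ : Subgroup G} {A : Submodule ℝ L}

theorem type_emb [LieAlgebra.IsSimple ℝ L] (h : CartanBasis θ b) (hG : IsAdj b G) (hA : MaxFlat θ A)
    (h2 : 2 ≤ Module.finrank ℝ A) (hn : ¬ IsTypeA (rootsL A)) (hL : Pool.Agent.Helper96.FR.Lattice Γ)
    {Λ : Type} [Group Λ] {n : ℕ} (hnr : n ≤ Module.finrank ℝ A + 1) (ρ : PRep Λ n) : IsEmpty (Emb Γ Λ) := by
  have hr := finrank_eq h hG hA
  have hp := simSl2_of_simple inferInstance h hG hA h2 hn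
  rw [hr] at hp h2 hnr
  exact ⟨fun E => sim_emb (selfAdj_of_aut h hG) hp h2 hL hnr ρ E⟩

/-- A trace preserving homomorphism to the algebra of a discrete group of type A of size at most `r + 1`: the restricted root system is of type `A_r`. -/
theorem type_emb' [LieAlgebra.IsSimple ℝ L] (h : CartanBasis θ b) (hG : IsAdj b G) (hA : MaxFlat θ A)
    (h2 : 2 ≤ Module.finrank ℝ A) (hL : Pool.Agent.Helper96.FR.Lattice Γ) {Λ : Type} [Group Λ] {n : ℕ}
    (hnr : n ≤ Module.finrank ℝ A + 1) (ρ : PRep Λ n) (E : Emb Γ Λ) : IsTypeA (rootsL A) ∧ n = Module.finrank ℝ A + 1 := by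
  have hr := finrank_eq h hG hA
  have hS := selfAdj_of_aut h hG
  obtain ⟨i1, i2, i3⟩ := instances hS.closed
  refine ⟨?_, ?_⟩
  · by_contra hn
    exact (type_emb h hG hA h2 hn hL hnr ρ).false E
  · have h3 : RankLE Λ (n - 1) := ⟨n, ρ, (cartan_iff ρ).2 (Pool.Agent.Helper66.RK.kak_general ρ.ph)⟩
    have h4 := full_rank_emb escAll hL (rankGE_realRank hS) h3 E
    omega

/-- An isomorphism with the algebra of a lattice of `PSL(n, ℝ)`. -/
theorem type_isoR [LieAlgebra.IsSimple ℝ L] (h : CartanBasis θ b) (hG : IsAdj b G) (hA : MaxFlat θ A)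
    (h2 : 2 ≤ Module.finrank ℝ A) (hL : Pool.Agent.Helper96.FR.Lattice Γ)
    {n : ℕ} {Λ : Subgroup (ProjectiveSpecialLinearGroup (Fin n) ℝ)} (hΛ : Pool.Agent.Helper96.FR.Lattice Λ)
    (hiso : IsoL Γ Λ) : IsTypeA (rootsL A) ∧ n = Module.finrank ℝ A + 1 := by
  have hr := finrank_eq h hG hA
  have hS := selfAdj_of_aut h hG
  have hicc : IsICC Γ := icc_adj h hG (by rw [← realRank_of_aut h hG, ← hr]; omega) hL
  obtain ⟨⟨E⟩, ⟨E'⟩⟩ := emb_both hicc hiso
  obtain ⟨ρ⟩ := rep_PSLR Λ hΛ.1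
  refine type_emb' h hG hA h2 hL ?_ ρ E
  rcases n with _ | k
  · exact Nat.zero_le _
  · have hk : k ≤ realRank G := full_rank_emb escAll hΛ (rankGE_PSL (𝕜 := ℝ) (r := k)) (rankLE_realRank hS Γ hL.1) E'
    omega

private theorem t2_43 {r : ℕ} : T2Space (ProjectiveSpecialLinearGroup (Fin (r + 1)) ℂ) := by
  have : IsClosed (Subgroup.center (SpecialLinearGroup (Fin (r + 1)) ℂ) : Set (SpecialLinearGroup (Fin (r + 1)) ℂ)) :=
    Pool.Agent.Helper96.FR.isCompact_center.isClosed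
  have h3 : T3Space (SpecialLinearGroup (Fin (r + 1)) ℂ ⧸ Subgroup.center (SpecialLinearGroup (Fin (r + 1)) ℂ)) :=
    @QuotientGroup.instT3Space _ _ _ _ _ _ this
  exact (inferInstance : T2Space (SpecialLinearGroup (Fin (r + 1)) ℂ ⧸ Subgroup.center (SpecialLinearGroup (Fin (r + 1)) ℂ)))

/-- An isomorphism with the algebra of a lattice of `PSL(n, ℂ)`. -/
theorem type_isoC [LieAlgebra.IsSimple ℝ L] (h : CartanBasis θ b) (hG : IsAdj b G) (hA : MaxFlat θ A)
    (h2 : 2 ≤ Module.finrank ℝ A) (hL : Pool.Agent.Helper96.FR.Lattice Γ)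
    {n : ℕ} {Λ : Subgroup (ProjectiveSpecialLinearGroup (Fin n) ℂ)} (hΛ : Pool.Agent.Helper96.FR.Lattice Λ)
    (hiso : IsoL Γ Λ) : IsTypeA (rootsL A) ∧ n = Module.finrank ℝ A + 1 := by
  have hr := finrank_eq h hG hA
  have hS := selfAdj_of_aut h hG
  have hicc : IsICC Γ := icc_adj h hG (by rw [← realRank_of_aut h hG, ← hr]; omega) hL
  obtain ⟨⟨E⟩, ⟨E'⟩⟩ := emb_both hicc hiso
  obtain ⟨ρ⟩ := rep_PSLC Λ hΛ.1
  refine type_emb' h hG hA h2 hL ?_ ρ E
  rcases n with _ | k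
  · exact Nat.zero_le _
  · have : T2Space (ProjectiveSpecialLinearGroup (Fin (k + 1)) ℂ) := t2_43
    have hk : k ≤ realRank G := full_rank_emb escAll hΛ (rankGE_PSL (𝕜 := ℂ) (r := k)) (rankLE_realRank hS Γ hL.1) E'
    omega

/-- A trace preserving homomorphism to the algebra of a discrete subgroup of `PSL(n, ℂ)`, `n ≤ r + 1`. -/
theorem type_embC [LieAlgebra.IsSimple ℝ L] (h : CartanBasis θ b) (hG : IsAdj b G) (hA : MaxFlat θ A)
    (h2 : 2 ≤ Module.finrank ℝ A) (hL : Pool.Agent.Helper96.FR.Lattice Γ)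
    {n : ℕ} {Λ : Subgroup (ProjectiveSpecialLinearGroup (Fin n) ℂ)} (hΛ : DiscreteTopology Λ)
    (hnr : n ≤ Module.finrank ℝ A + 1) (he : EmbL Γ Λ) : IsTypeA (rootsL A) ∧ n = Module.finrank ℝ A + 1 := by
  obtain ⟨E⟩ := emb_of_embL he
  obtain ⟨ρ⟩ := rep_PSLC Λ hΛ
  exact type_emb' h hG hA h2 hL hnr ρ E

end Pool.Agent.Helper43.TA
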