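import Pool.Agent.Helper43.TA.Kdef
import Pool.Agent.Helper96.SA.Hw

/-!
# Block TYB-KSPAN: the strings span everything

PROOF of `hw_span`. Let `W` be the span of all `v j`, `HW X k v`; `X W ⊆ W`, `Xᵀ W ⊆ W`, hence the orthogonal complement `W' = {u | ∀ w ∈ W, u ⬝ᵥ w = 0}` is mapped into itself by `X`, `Xᵀ` and `T = X Xᵀ - Xᵀ X`. Suppose `W' ≠ 0`. The symmetric matrix `T` has an eigenvector in `W'` (restrict the symmetric operator to the invariant subspace `W'`:
`LinearMap.IsSymmetric` has an eigenvalue on a nonzero finite-dimensional space, `LinearMap.IsSymmetric.hasEigenvalue_iSup_of_finiteDimensional`, or minimal polynomial splits). Let `a` be the largest eigenvalue of `T` on `W'` (finitely many), `v ∈ W'` an eigenvector: `T (X v) = (a + 2) X v`, `X v ∈ W'`, so `X v = 0`.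
Now as in the proof of `exists_hw` (`Helper96/SA/Hw.lean`): `v j = (1 / j!) (Xᵀ) ^ j v` satisfies `T (v j) = (a - 2 j) v j`, `X (v (j+1)) = (a - j) v j`; the `v j` are eventually zero, so `a = k` is a natural number (`0 = X (v (k+1)) = (a - k) v k` for the minimal `k` with `v (k+1) = 0`; here `k = 0` is allowed) and `HW X k v`. So `v = v 0 ∈ W ∩ W'`, `v = 0`, a contradiction. So `W' = 0`, `W = ⊤`.
PROOF of `PP_unique`. For every string `(g - h) *ᵥ crv k v 1 y = 0` for all `y`: `∑ j ≤ k, y^j (g - h) v j = 0` (entrywise a polynomial in `y` which vanishes everywhere), so `(g - h) v j = 0` for all `j`, and `g = h` by `hw_span`.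
-/

set_option autoImplicit false

open Matrix

namespace Pool.Agent.Helper43.TA

open Pool.Agent.Helper96.SA

variable {M : ℕ} {X : Mat M}

private lemma ks_eig {T : Mat M} (hT : T.IsHermitian) (W : Submodule ℝ (Fin M → ℝ)) (hW : ∀ u ∈ W, T *ᵥ u ∈ W)
    {u0 : Fin M → ℝ} (h0 : u0 ∈ W) (hu0 : u0 ≠ 0) : ∃ μ : ℝ, ∃ u ∈ W, u ≠ 0 ∧ T *ᵥ u = μ • u := by
  classical
  let V : Submodule ℝ (EuclideanSpace ℝ (Fin M)) := W.comap (WithLp.linearEquiv 2 ℝ (Fin M → ℝ)).toLinearMap
  have hmem : ∀ v : EuclideanSpace ℝ (Fin M), v ∈ V ↔ v.ofLp ∈ W := fun v => Iff.rfl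
  have hV : ∀ v ∈ V, Matrix.toEuclideanLin T v ∈ V := by
    intro v hv
    rw [hmem] at hv ⊢
    rw [Matrix.toLpLin_apply]
    exact hW _ hv
  have hs : ((Matrix.toEuclideanLin T).restrict hV).IsSymmetric :=
    (Matrix.isSymmetric_toEuclideanLin_iff.2 hT).restrict_invariant hV
  have hn : Nontrivial V := by
    refine ⟨⟨⟨WithLp.toLp 2 u0, h0⟩, 0, ?_⟩⟩
    intro h
    have h1 := congrArg (fun z : V => (z : EuclideanSpace ℝ (Fin M)).ofLp) h
    exact hu0 h1
  obtain ⟨μ, hμ⟩ : ∃ μ : ℝ, Module.End.HasEigenvalue ((Matrix.toEuclideanLin T).restrict hV) μ :=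
    ⟨_, hs.hasEigenvalue_iSup_of_finiteDimensional⟩
  obtain ⟨v, hv⟩ := hμ.exists_hasEigenvector
  refine ⟨μ, (v : EuclideanSpace ℝ (Fin M)).ofLp, v.2, ?_, ?_⟩
  · intro h
    apply hv.2
    ext i
    exact congrFun h i
  · have h1 := hv.apply_eq_smul
    have h2 := congrArg (fun z : V => (z : EuclideanSpace ℝ (Fin M)).ofLp) h1
    exact h2

theorem hw_span (h : (X * Xᵀ - Xᵀ * X) * X - X * (X * Xᵀ - Xᵀ * X) = (2 : ℝ) • X) :
    Submodule.span ℝ {u : Fin M → ℝ | ∃ (k : ℕ) (v : ℕ → Fin M → ℝ) (j : ℕ), HW X k v ∧ u = v j} = ⊤ := by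
  classical
  by_contra hne
  set W : Submodule ℝ (Fin M → ℝ) :=
    Submodule.span ℝ {u : Fin M → ℝ | ∃ (k : ℕ) (v : ℕ → Fin M → ℝ) (j : ℕ), HW X k v ∧ u = v j} with hWdef
  obtain ⟨T, hTd⟩ : ∃ T : Mat M, T = X * Xᵀ - Xᵀ * X := ⟨_, rfl⟩
  rw [← hTd] at h
  have hTt : Tᵀ = T := by
    rw [hTd, transpose_sub, transpose_mul, transpose_mul, transpose_transpose]
  have hTh : T.IsHermitian := by
    rw [Matrix.IsHermitian, conjTranspose_eq_transpose_of_trivial, hTt]
  have h' : T * Xᵀ - Xᵀ * T = (-2 : ℝ) • Xᵀ := by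
    have h1 := congrArg transpose h
    rw [transpose_sub, transpose_mul, transpose_mul, hTt, transpose_smul] at h1
    rw [neg_smul, ← h1, neg_sub]
  -- invariance of the span
  have hXW : ∀ w ∈ W, X *ᵥ w ∈ W := by
    intro w hw
    induction hw using Submodule.span_induction with
    | mem u hu =>
      obtain ⟨k, v, j, hv, rfl⟩ := hu
      rcases j with _ | j
      · rw [hv.top]
        exact W.zero_mem
      · rw [hv.up]
        exact W.smul_mem _ (Submodule.subset_span ⟨k, v, j, hv, rfl⟩)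
    | zero =>
      rw [mulVec_zero]
      exact W.zero_mem
    | add a b _ _ ha hb =>
      rw [mulVec_add]
      exact W.add_mem ha hb
    | smul c a _ ha =>
      rw [mulVec_smul]
      exact W.smul_mem _ ha
  have hXtW : ∀ w ∈ W, Xᵀ *ᵥ w ∈ W := by
    intro w hw
    induction hw using Submodule.span_induction with
    | mem u hu =>
      obtain ⟨k, v, j, hv, rfl⟩ := hu
      rw [hv.down]
      exact W.smul_mem _ (Submodule.subset_span ⟨k, v, j + 1, hv, rfl⟩)
    | zero =>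
      rw [mulVec_zero]
      exact W.zero_mem
    | add a b _ _ ha hb =>
      rw [mulVec_add]
      exact W.add_mem ha hb
    | smul c a _ ha =>
      rw [mulVec_smul]
      exact W.smul_mem _ ha
  -- the orthogonal complement
  obtain ⟨W', hW'⟩ : ∃ W' : Submodule ℝ (Fin M → ℝ), ∀ u, u ∈ W' ↔ ∀ w ∈ W, u ⬝ᵥ w = 0 :=
    ⟨{ carrier := {u | ∀ w ∈ W, u ⬝ᵥ w = 0}
       add_mem' := fun {a b} ha hb w hw => by rw [add_dotProduct, ha w hw, hb w hw, add_zero]
       zero_mem' := fun w _ => zero_dotProduct w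
       smul_mem' := fun c a ha w hw => by rw [smul_dotProduct, ha w hw, smul_zero] }, fun u => Iff.rfl⟩
  have hX' : ∀ u ∈ W', X *ᵥ u ∈ W' := by
    intro u hu
    rw [hW'] at hu ⊢
    intro w hw
    have h1 := hu _ (hXtW w hw)
    rw [dotProduct_mulVec, vecMul_transpose] at h1
    exact h1
  have hXt' : ∀ u ∈ W', Xᵀ *ᵥ u ∈ W' := by
    intro u hu
    rw [hW'] at hu ⊢
    intro w hw
    have h1 := hu _ (hXW w hw)
    rw [dotProduct_mulVec, ← mulVec_transpose] at h1
    exact h1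
  have hT' : ∀ u ∈ W', T *ᵥ u ∈ W' := by
    intro u hu
    rw [hTd, sub_mulVec, ← mulVec_mulVec, ← mulVec_mulVec]
    exact W'.sub_mem (hX' _ (hXt' _ hu)) (hXt' _ (hX' _ hu))
  -- the complement is not zero
  obtain ⟨u0, hu0, hu0'⟩ : ∃ u0 ∈ W', u0 ≠ 0 := by
    obtain ⟨f, hf, hWf⟩ := Submodule.exists_le_ker_of_lt_top W (lt_top_iff_ne_top.2 hne)
    have hfd : ∀ w : Fin M → ℝ, (fun i => f (Pi.single i 1)) ⬝ᵥ w = f w := by
      intro w
      conv_rhs => rw [← Finset.univ_sum_single w, map_sum]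
      unfold dotProduct
      refine Finset.sum_congr rfl fun i _ => ?_
      have h1 : (Pi.single i (w i) : Fin M → ℝ) = w i • Pi.single i (1 : ℝ) := by
        rw [← Pi.single_smul, smul_eq_mul, mul_one]
      rw [h1, map_smul, smul_eq_mul, mul_comm]
    refine ⟨fun i => f (Pi.single i 1), (hW' _).2 fun w hw => ?_, fun h0 => hf ?_⟩
    · rw [hfd]
      exact hWf hw
    · refine LinearMap.ext fun w => ?_
      rw [← hfd w, h0, zero_dotProduct]
      rfl
  -- the set of eigenvalues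
  obtain ⟨S, hS⟩ : ∃ S : Set ℝ, S = {μ : ℝ | ∃ u ∈ W', u ≠ 0 ∧ T *ᵥ u = μ • u} := ⟨_, rfl⟩
  have hSf : S.Finite := by
    refine (Module.End.finite_hasEigenvalue (Matrix.toLin' T)).subset ?_
    rintro μ hμ
    rw [hS] at hμ
    obtain ⟨u, _, hu, hTu⟩ := hμ
    refine Module.End.hasEigenvalue_of_hasEigenvector (x := u) ⟨?_, hu⟩
    rw [Module.End.mem_eigenspace_iff, Matrix.toLin'_apply, hTu]
  have hSn : S.Nonempty := by
    obtain ⟨μ, u, h1, h2, h3⟩ := ks_eig hTh W' hT' hu0 hu0'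
    refine ⟨μ, ?_⟩
    rw [hS]
    exact ⟨u, h1, h2, h3⟩
  obtain ⟨a, haS, hamax0⟩ := hSf.exists_maximal hSn
  have hamax' : ∀ μ ∈ S, μ ≤ a := by
    intro μ hμ
    by_contra hcon
    push Not at hcon
    exact absurd (hamax0 hμ hcon.le) (not_le.2 hcon)
  have haS' := haS
  rw [hS] at haS'
  obtain ⟨v0, hv0W, hv0, hTv0⟩ := haS'
  have hXv : X *ᵥ v0 = 0 := by
    by_contra hne
    have h1 : T *ᵥ (X *ᵥ v0) = (a + 2) • (X *ᵥ v0) := by
      have h2 : T * X = X * T + (2 : ℝ) • X := by rw [← h]; abel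
      rw [mulVec_mulVec, h2, add_mulVec, ← mulVec_mulVec, hTv0, mulVec_smul, smul_mulVec, add_smul]
    have h2 : a + 2 ∈ S := by
      rw [hS]
      exact ⟨_, hX' _ hv0W, hne, h1⟩
    have h3 := hamax' _ h2
    linarith
  -- the chain
  obtain ⟨v, hv00, hvs⟩ : ∃ v : ℕ → Fin M → ℝ, v 0 = v0 ∧ ∀ j, v (j + 1) = (1 / ((j : ℝ) + 1)) • (Xᵀ *ᵥ v j) :=
    ⟨fun j => Nat.rec v0 (fun j u => (1 / ((j : ℝ) + 1)) • (Xᵀ *ᵥ u)) j, rfl, fun j => rfl⟩
  rw [← hv00] at hv0 hTv0 hXv hv0W
  have hvW : ∀ j, v j ∈ W' := by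
    intro j
    induction j with
    | zero => exact hv0W
    | succ j ih =>
      rw [hvs]
      exact W'.smul_mem _ (hXt' _ ih)
  have hXt : ∀ j : ℕ, Xᵀ *ᵥ v j = ((j : ℝ) + 1) • v (j + 1) := by
    intro j
    have hj : ((j : ℝ) + 1) ≠ 0 := by positivity
    rw [hvs, smul_smul, mul_one_div_cancel hj, one_smul]
  have hTv : ∀ j : ℕ, T *ᵥ v j = (a - 2 * j) • v j := by
    intro j
    induction j with
    | zero =>
      rw [Nat.cast_zero, mul_zero, sub_zero]
      exact hTv0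
    | succ j ih =>
      have h2 : T * Xᵀ = Xᵀ * T + (-2 : ℝ) • Xᵀ := by rw [← h']; abel
      rw [hvs, mulVec_smul, mulVec_mulVec, h2, add_mulVec, ← mulVec_mulVec, ih, mulVec_smul, smul_mulVec,
        ← add_smul, smul_comm]
      congr 1
      push_cast
      ring
  have hXX : X * Xᵀ = T + Xᵀ * X := by rw [hTd]; abel
  have hXvs : ∀ j : ℕ, X *ᵥ v (j + 1) = (a - j) • v j := by
    intro j
    induction j with
    | zero =>
      have e0 : X *ᵥ v 0 = 0 := hXv
      have e1 := hTv 0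
      rw [hvs, mulVec_smul, mulVec_mulVec, hXX, add_mulVec, ← mulVec_mulVec, e0, mulVec_zero, add_zero, e1,
        Nat.cast_zero, mul_zero, zero_add, div_one, one_smul]
    | succ j ih =>
      have hj : ((j : ℝ) + 1 + 1) ≠ 0 := by positivity
      rw [hvs (j + 1), mulVec_smul, mulVec_mulVec, hXX, add_mulVec, ← mulVec_mulVec, ih, mulVec_smul, hXt,
        hTv (j + 1), smul_smul, ← add_smul, smul_smul]
      congr 1
      push_cast
      field_simp
      ring
  -- the end of the chain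
  obtain ⟨j0, hj0⟩ : ∃ j, v j = 0 := by
    by_contra hcon
    push Not at hcon
    have hinf : Set.Infinite (Set.range fun j : ℕ => a - 2 * (j : ℝ)) := by
      refine Set.infinite_range_of_injective fun x y hxy => ?_
      have h1 : a - 2 * (x : ℝ) = a - 2 * (y : ℝ) := hxy
      have h2 : (x : ℝ) = y := by linarith
      exact_mod_cast h2
    refine hinf (hSf.subset ?_)
    rintro _ ⟨j, rfl⟩
    rw [hS]
    exact ⟨v j, hvW j, hcon j, hTv j⟩
  have hne : ∃ j, v j = 0 := ⟨j0, hj0⟩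
  obtain ⟨m, hm⟩ : ∃ m, m = Nat.find hne := ⟨Nat.find hne, rfl⟩
  have hm0 : v m = 0 := by rw [hm]; exact Nat.find_spec hne
  have hm1 : ∀ j < m, v j ≠ 0 := by
    intro j hj
    rw [hm] at hj
    exact Nat.find_min hne hj
  have hmpos : m ≠ 0 := by
    rintro rfl
    exact hv0 hm0
  obtain ⟨k, rfl⟩ := Nat.exists_eq_succ_of_ne_zero hmpos
  have hak : a = k := by
    have h1 := hXvs k
    have h2 : X *ᵥ v (k + 1) = 0 := by
      have h3 : v (k + 1) = 0 := hm0
      rw [h3, mulVec_zero]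
    rw [h2] at h1
    have h3 := (smul_eq_zero.1 h1.symm).resolve_right (hm1 k (Nat.lt_succ_self k))
    linarith
  have hfin : ∀ j, k < j → v j = 0 := by
    intro j hj
    induction j with
    | zero => omega
    | succ j ih =>
      by_cases hjk : j = k
      · subst hjk
        exact hm0
      · rw [hvs, ih (by omega), mulVec_zero, smul_zero]
  have hHW : HW X k v :=
    { top := hXv
      up := fun j => by rw [hXvs j, hak]
      down := hXt
      wt := fun j => by rw [← hTd, hTv j, hak]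
      fin := hfin }
  have h1 : v 0 ∈ W := Submodule.subset_span ⟨k, v, 0, hHW, rfl⟩
  have h2 := (hW' _).1 hv0W _ h1
  exact hv0 (dotProduct_self_eq_zero.1 h2)

theorem PP_unique (h : (X * Xᵀ - Xᵀ * X) * X - X * (X * Xᵀ - Xᵀ * X) = (2 : ℝ) • X) {g g' : GL (Fin M) ℝ}
    {A : Matrix (Fin 2) (Fin 2) ℝ} (h1 : PP X g A) (h2 : PP X g' A) : g = g' := by
  classical
  obtain ⟨D, hD⟩ : ∃ D : Mat M, D = (g : Mat M) - (g' : Mat M) := ⟨_, rfl⟩
  have hDv : ∀ (k : ℕ) (v : ℕ → Fin M → ℝ) (j : ℕ), HW X k v → D *ᵥ v j = 0 := by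
    intro k v j hv
    rcases lt_or_ge k j with hj | hj
    · rw [hv.fin j hj, mulVec_zero]
    have h3 : ∀ y : ℝ, ∑ i ∈ Finset.range (k + 1), y ^ i • (D *ᵥ v i) = 0 := by
      intro y
      have h4 : D *ᵥ crv k v 1 y = 0 := by
        rw [hD, sub_mulVec, h1 k v hv 1 y, h2 k v hv 1 y, sub_self]
      unfold crv at h4
      rw [mulVec_sum] at h4
      rw [← h4]
      refine Finset.sum_congr rfl fun i _ => ?_
      rw [mulVec_smul, one_pow, one_mul]
    ext l
    have h5 : (∑ i ∈ Finset.range (k + 1), Polynomial.C ((D *ᵥ v i) l) * Polynomial.X ^ i : Polynomial ℝ) = 0 := by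
      refine Polynomial.funext fun y => ?_
      rw [Polynomial.eval_finsetSum, Polynomial.eval_zero]
      have h6 := congrFun (h3 y) l
      rw [Finset.sum_apply] at h6
      rw [Pi.zero_apply] at h6
      rw [← h6]
      refine Finset.sum_congr rfl fun i _ => ?_
      rw [Polynomial.eval_mul, Polynomial.eval_C, Polynomial.eval_pow, Polynomial.eval_X, Pi.smul_apply,
        smul_eq_mul, mul_comm]
    have h7 := congrArg (fun p : Polynomial ℝ => p.coeff j) h5
    simp only [Polynomial.finsetSum_coeff, Polynomial.coeff_C_mul_X_pow, Polynomial.coeff_zero] at h7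
    rw [Finset.sum_ite_eq, if_pos (Finset.mem_range.2 (by omega))] at h7
    exact h7
  have hDu : ∀ u : Fin M → ℝ, D *ᵥ u = 0 := by
    intro u
    have hu : u ∈ Submodule.span ℝ {u : Fin M → ℝ | ∃ (k : ℕ) (v : ℕ → Fin M → ℝ) (j : ℕ), HW X k v ∧ u = v j} := by
      rw [hw_span h]
      trivial
    induction hu using Submodule.span_induction with
    | mem u hu =>
      obtain ⟨k, v, j, hv, rfl⟩ := hu
      exact hDv k v j hv
    | zero => exact mulVec_zero D
    | add a b _ _ ha hb => rw [mulVec_add, ha, hb, add_zero]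
    | smul c a _ ha => rw [mulVec_smul, ha, smul_zero]
  have hD0 : D = 0 := by
    ext i j
    have h3 := congrFun (hDu (Pi.single j 1)) i
    rw [mulVec_single_one] at h3
    exact h3
  refine Units.ext ?_
  rw [hD] at hD0
  exact sub_eq_zero.1 hD0

end Pool.Agent.Helper43.TA
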