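import Pool.Agent.Helper43.TA.Kdef

/-!
# Block TYB-KTWO: Cartan decomposition of `SL(2, ℝ)`

PROOF. `A = [a b; c d]` acts on `ℂ = ℝ²` as `z ↦ α z + β conj z` with `α = ((a + d) + i (c - b)) / 2`, `β = ((a - d) + i (b + c)) / 2`, `|α|² - |β|² = det A = 1`. `rot θ` is `α = e^(-iθ)`, `β = 0`; `dgn t` is `α = cosh t`, `β = sinh t`; `rot θ * dgn t * rot θ'` has `α = e^(-i(θ + θ')) cosh t`, `β = e^(-i(θ - θ')) sinh t`.
Choose `t ≥ 0` with `sinh t = |β|` (`Real.arsinh`), so `cosh t = |α|`; `p = -arg α`, `q = -arg β`, `θ = (p + q) / 2`, `θ' = (p - q) / 2`. In real form: choose `t`, `p`, `q` with `(a + d) / 2 = cosh t cos p`, `(c - b) / 2 = - cosh t sin p`, `(a - d) / 2 = sinh t cos q`, `(b + c) / 2 = - sinh t sin q` and check the four entries (addition theorems).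
-/

set_option autoImplicit false

open Matrix

namespace Pool.Agent.Helper43.TA

private theorem polar87 (x y r : ℝ) (hr : 0 ≤ r) (h : x ^ 2 + y ^ 2 = r ^ 2) :
    ∃ p : ℝ, x = r * Real.cos p ∧ y = r * Real.sin p := by
  refine ⟨Complex.arg ⟨x, y⟩, ?_, ?_⟩
  · have h1 : ‖(⟨x, y⟩ : ℂ)‖ = r := by
      rw [Complex.norm_def, Complex.normSq_mk, ← Real.sqrt_sq hr, ← h]
      congr 1
      ring
    have h2 := Complex.norm_mul_cos_arg (⟨x, y⟩ : ℂ)
    rw [h1] at h2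
    exact h2.symm
  · have h1 : ‖(⟨x, y⟩ : ℂ)‖ = r := by
      rw [Complex.norm_def, Complex.normSq_mk, ← Real.sqrt_sq hr, ← h]
      congr 1
      ring
    have h2 := Complex.norm_mul_sin_arg (⟨x, y⟩ : ℂ)
    rw [h1] at h2
    exact h2.symm

theorem kak_two (A : Matrix (Fin 2) (Fin 2) ℝ) (hA : A.det = 1) : ∃ θ t θ' : ℝ, A = rot θ * dgn t * rot θ' := by
  rw [Matrix.det_fin_two] at hA
  obtain ⟨a, b, c, d, e⟩ : ∃ a b c d : ℝ, A = !![a, b; c, d] := ⟨A 0 0, A 0 1, A 1 0, A 1 1, Matrix.eta_fin_two A⟩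
  subst e
  simp only [Matrix.of_apply, Matrix.cons_val', Matrix.cons_val_zero, Matrix.cons_val_one, Matrix.cons_val_fin_one] at hA
  obtain ⟨r, hr⟩ : ∃ r : ℝ, r = Real.sqrt (((a - d) / 2) ^ 2 + ((b + c) / 2) ^ 2) := ⟨_, rfl⟩
  have hr0 : 0 ≤ r := hr ▸ Real.sqrt_nonneg _
  have hr2 : r ^ 2 = ((a - d) / 2) ^ 2 + ((b + c) / 2) ^ 2 := by
    rw [hr, Real.sq_sqrt (by positivity)]
  obtain ⟨t, ht⟩ : ∃ t : ℝ, t = Real.arsinh r := ⟨_, rfl⟩
  have hs : Real.sinh t = r := by rw [ht, Real.sinh_arsinh]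
  have hc : Real.cosh t ^ 2 = r ^ 2 + 1 := by
    have := Real.cosh_sq t
    rw [this, hs]
  obtain ⟨p, hp1, hp2⟩ := polar87 ((a + d) / 2) ((b - c) / 2) (Real.cosh t) (Real.cosh_pos t).le (by
    rw [hc, hr2]
    linear_combination hA)
  obtain ⟨q, hq1, hq2⟩ := polar87 ((a - d) / 2) (-(b + c) / 2) (Real.sinh t) (hs.symm ▸ hr0) (by
    rw [hs, hr2]
    ring)
  refine ⟨(p + q) / 2, t, (p - q) / 2, ?_⟩
  have e1 : p = (p + q) / 2 + (p - q) / 2 := by ring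
  have e2 : q = (p + q) / 2 - (p - q) / 2 := by ring
  rw [e1, Real.cos_add] at hp1
  rw [e1, Real.sin_add] at hp2
  rw [e2, Real.cos_sub] at hq1
  rw [e2, Real.sin_sub] at hq2
  rw [Real.cosh_eq] at hp1 hp2
  rw [Real.sinh_eq] at hq1 hq2
  unfold rot dgn
  ext i j
  fin_cases i <;> fin_cases j
  · simp [Matrix.mul_apply, Fin.sum_univ_two]
    linear_combination hp1 + hq1
  · simp [Matrix.mul_apply, Fin.sum_univ_two]
    linear_combination hp2 - hq2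
  · simp [Matrix.mul_apply, Fin.sum_univ_two]
    linear_combination -hp2 - hq2
  · simp [Matrix.mul_apply, Fin.sum_univ_two]
    linear_combination hp1 - hq1

end Pool.Agent.Helper43.TA
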