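import Pool.Agent.Helper43.TA.Kflow
import Pool.Agent.Helper43.TA.Kspan
import Pool.Agent.Helper43.TA.Ktwo

/-!
# Block TYB-KAK: Cartan decomposition of the group generated by an `sl(2)`

PROOF. First let `c = 2`. By `Subgroup.closure_induction`: every `g` in the group has a matrix `A` with `det A = 1` and `PP X g A` (`PP_X`, `PP_Y`, `PP_one`, `PP_mul`, `PP_inv`). `kak_two A`: `A = rot θ * dgn t * rot θ'`; the element `g' = ex (θ (X - Xᵀ)) * ex (t T) * ex (θ' (X - Xᵀ))` has `PP X g' A` (`PP_R`, `PP_T`, `PP_mul`), so `g = g'` by `PP_unique`.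
General case: `Y := b • X`, `b = √(2 / c)`, satisfies `(Y Yᵀ - Yᵀ Y) Y - Y (Y Yᵀ - Yᵀ Y) = 2 • Y` (see the beginning of the proof of `discrete_nonAm` in `Helper96/SA/Sl2.lean`), the groups generated for `X` and `Y` are the same (`ex (t • X) = ex ((t / b) • Y)`), `Y - Yᵀ = b • (X - Xᵀ)`, `Y Yᵀ - Yᵀ Y = b ^ 2 • (X Xᵀ - Xᵀ X)`: rescale `θ`, `t`, `θ'`.
-/

set_option autoImplicit false

open Matrix

namespace Pool.Agent.Helper43.TA

open Pool.Agent.Helper96.SA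

variable {M : ℕ} {X : Mat M}

private theorem det_rot53 (t : ℝ) : (rot t).det = 1 := by
  unfold rot
  rw [Matrix.det_fin_two]
  simp only [Matrix.of_apply, Matrix.cons_val', Matrix.cons_val_zero, Matrix.cons_val_one, Matrix.cons_val_fin_one]
  linear_combination Real.cos_sq_add_sin_sq t

private theorem kak_two53 (h : (X * Xᵀ - Xᵀ * X) * X - X * (X * Xᵀ - Xᵀ * X) = (2 : ℝ) • X) {g : GL (Fin M) ℝ}
    (hg : g ∈ Subgroup.closure {g : GL (Fin M) ℝ | ∃ t : ℝ, g = ex (t • X) ∨ g = ex (t • Xᵀ)}) :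
    ∃ θ t θ' : ℝ, g = ex (θ • (X - Xᵀ)) * ex (t • (X * Xᵀ - Xᵀ * X)) * ex (θ' • (X - Xᵀ)) := by
  have h1 : ∃ A : Matrix (Fin 2) (Fin 2) ℝ, A.det = 1 ∧ PP X g A := by
    induction hg using Subgroup.closure_induction with
    | mem x hx =>
      obtain ⟨t, rfl | rfl⟩ := hx
      · exact ⟨!![1, t; 0, 1], by simp [Matrix.det_fin_two], PP_X t⟩
      · exact ⟨!![1, 0; t, 1], by simp [Matrix.det_fin_two], PP_Y t⟩
    | one => exact ⟨1, Matrix.det_one, PP_one⟩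
    | mul x y _ _ hx hy =>
      obtain ⟨A, hA, h1⟩ := hx
      obtain ⟨B, hB, h2⟩ := hy
      exact ⟨A * B, by rw [Matrix.det_mul, hA, hB, one_mul], PP_mul h1 h2⟩
    | inv x _ hx =>
      obtain ⟨A, hA, h1⟩ := hx
      refine ⟨A.adjugate, ?_, PP_inv hA h1⟩
      rw [Matrix.det_adjugate, hA, one_pow]
  obtain ⟨A, hA, h2⟩ := h1
  obtain ⟨θ, t, θ', e⟩ := kak_two A hA
  refine ⟨θ, t, θ', PP_unique h h2 ?_⟩
  rw [e]
  exact PP_mul (PP_mul (PP_R θ) (PP_T t)) (PP_R θ')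

theorem kak_ex {c : ℝ} (hc : 0 < c) (h : (X * Xᵀ - Xᵀ * X) * X - X * (X * Xᵀ - Xᵀ * X) = c • X) {g : GL (Fin M) ℝ}
    (hg : g ∈ Subgroup.closure {g : GL (Fin M) ℝ | ∃ t : ℝ, g = ex (t • X) ∨ g = ex (t • Xᵀ)}) :
    ∃ θ t θ' : ℝ, g = ex (θ • (X - Xᵀ)) * ex (t • (X * Xᵀ - Xᵀ * X)) * ex (θ' • (X - Xᵀ)) := by
  obtain ⟨b, hb⟩ : ∃ b : ℝ, b = Real.sqrt (2 / c) := ⟨_, rfl⟩
  have hb0 : 0 < b := by
    rw [hb]
    exact Real.sqrt_pos.2 (by positivity)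
  have hb2 : b ^ 2 * c = 2 := by
    rw [hb, Real.sq_sqrt (by positivity)]
    field_simp
  obtain ⟨Y, hY⟩ : ∃ Y : Mat M, Y = b • X := ⟨_, rfl⟩
  have hYT : Yᵀ = b • Xᵀ := by rw [hY, transpose_smul]
  have hYc : (Y * Yᵀ - Yᵀ * Y) * Y - Y * (Y * Yᵀ - Yᵀ * Y) = (2 : ℝ) • Y := by
    have e1 : (Y * Yᵀ - Yᵀ * Y) * Y - Y * (Y * Yᵀ - Yᵀ * Y) =
        (b ^ 3) • ((X * Xᵀ - Xᵀ * X) * X - X * (X * Xᵀ - Xᵀ * X)) := by
      rw [hYT, hY]
      simp only [smul_mul_smul_comm, ← smul_sub]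
      have e3 : b * b * b = b ^ 3 := by ring
      have e4 : b * (b * b) = b ^ 3 := by ring
      rw [e3, e4, smul_sub]
    rw [e1, h, hY, smul_smul, smul_smul]
    congr 1
    linear_combination b * hb2
  have hset : {g : GL (Fin M) ℝ | ∃ t : ℝ, g = ex (t • X) ∨ g = ex (t • Xᵀ)} =
      {g : GL (Fin M) ℝ | ∃ t : ℝ, g = ex (t • Y) ∨ g = ex (t • Yᵀ)} := by
    ext x
    constructor
    · rintro ⟨t, ht⟩
      refine ⟨t / b, ?_⟩
      rw [hYT, hY, smul_smul, smul_smul, div_mul_cancel₀ t hb0.ne']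
      exact ht
    · rintro ⟨t, ht⟩
      refine ⟨t * b, ?_⟩
      rw [hYT, hY, smul_smul, smul_smul] at ht
      exact ht
  rw [hset] at hg
  obtain ⟨θ, t, θ', e⟩ := kak_two53 hYc hg
  refine ⟨θ * b, t * (b * b), θ' * b, ?_⟩
  have e1 : Y - Yᵀ = b • (X - Xᵀ) := by rw [hYT, hY, smul_sub]
  have e2 : Y * Yᵀ - Yᵀ * Y = (b * b) • (X * Xᵀ - Xᵀ * X) := by
    rw [hYT, hY, smul_mul_smul_comm, smul_mul_smul_comm, smul_sub]
  rw [e1, e2, smul_smul, smul_smul, smul_smul] at e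
  exact e

end Pool.Agent.Helper43.TA
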