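import Pool.Agent.Helper96.SA.Crv

/-!
# Project TA (MP_0f6f3f_an): strings of weight vectors, definitions

`HW X k v`: `v 0, v 1, ...` is a string of highest weight `k` for the `sl(2)` spanned by `X`, `Xᵀ`, `X Xᵀ - Xᵀ X`. `PP X g A`: `g` acts on the rational normal curves `crv k v` of all strings as the matrix `A`.
-/

set_option autoImplicit false

open Matrix

namespace Pool.Agent.Helper43.TA

open Pool.Agent.Helper96.SA

variable {M : ℕ}

/-- A string of highest weight `k`. -/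
structure HW (X : Mat M) (k : ℕ) (v : ℕ → Fin M → ℝ) : Prop where
  top : X *ᵥ v 0 = 0
  up : ∀ j : ℕ, X *ᵥ v (j + 1) = ((k : ℝ) - j) • v j
  down : ∀ j : ℕ, Xᵀ *ᵥ v j = ((j : ℝ) + 1) • v (j + 1)
  wt : ∀ j : ℕ, (X * Xᵀ - Xᵀ * X) *ᵥ v j = ((k : ℝ) - 2 * j) • v j
  fin : ∀ j, k < j → v j = 0

/-- `g` acts on the curves as the matrix `A`. -/
def PP (X : Mat M) (g : GL (Fin M) ℝ) (A : Matrix (Fin 2) (Fin 2) ℝ) : Prop :=
  ∀ (k : ℕ) (v : ℕ → Fin M → ℝ), HW X k v → ∀ x y : ℝ,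
    (g : Mat M) *ᵥ crv k v x y = crv k v (A 0 0 * x + A 0 1 * y) (A 1 0 * x + A 1 1 * y)

/-- rotations -/
noncomputable def rot (θ : ℝ) : Matrix (Fin 2) (Fin 2) ℝ := !![Real.cos θ, Real.sin θ; -Real.sin θ, Real.cos θ]

/-- diagonal matrices -/
noncomputable def dgn (t : ℝ) : Matrix (Fin 2) (Fin 2) ℝ := !![Real.exp t, 0; 0, Real.exp (-t)]

end Pool.Agent.Helper43.TA
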