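import Pool.Agent.Helper43.TA.Kdef

/-!
# Block TYB-KFLOW: the action on the curves

PROOF. `PP_X`, `PP_Y`: `exp_crv_X`, `exp_crv_Y` (`Helper96/SA/Crv.lean`). `PP_T`: `T (crv x y) = ∑ x^(k-j) y^j (k - 2j) v j`, directly `exp(tT) v j = e^(t(k-2j)) v j` (`T v = c v` gives `exp(tT) v = e^(tc) v`: by the private lemma `flow52` in `Crv.lean` with `F s = e^(sc) v`; copy it), and `x^(k-j) y^j e^(t(k-2j)) = (e^t x)^(k-j) (e^(-t) y)^j`.
`PP_R`: `(X - Xᵀ) (crv x y) = (y ∂_x - x ∂_y) crv`, so `F t = crv (x cos t + y sin t) (-x sin t + y cos t)` satisfies `F' = (X - Xᵀ) F` and `flow52` (copy it) applies; for the derivative see the proofs of `exp_crv_X`, `exp_crv_Y` (sums of the two derivatives). `PP_mul`, `PP_inv`: substitution (`A⁻¹` for `det A = 1` is the adjugate `!![A 1 1, -A 0 1; -A 1 0, A 0 0]`).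
-/

set_option autoImplicit false

open Matrix NormedSpace

namespace Pool.Agent.Helper43.TA

open Pool.Agent.Helper96.SA

variable {M : ℕ} {X : Mat M}

private theorem flow97 (X : Mat M) (F : ℝ → Fin M → ℝ)
    (hF : ∀ s j, HasDerivAt (fun s => F s j) ((X *ᵥ F s) j) s) (s : ℝ) :
    exp (s • X) *ᵥ F 0 = F s := by
  have hcomm : ∀ s : ℝ, exp (s • (-X)) * X = X * exp (s • (-X)) := by
    intro s
    have h1 : Commute X (s • (-X)) := ((Commute.refl X).neg_right).smul_right s
    exact h1.exp_right.eq.symm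
  have hd : ∀ i (s : ℝ), HasDerivAt (fun s : ℝ => ∑ j, exp (s • (-X)) i j * F s j) 0 s := by
    intro i s
    have h1 : ∀ j ∈ (Finset.univ : Finset (Fin M)),
        HasDerivAt (fun s : ℝ => exp (s • (-X)) i j * F s j)
        (((-X) * exp (s • (-X))) i j * F s j + exp (s • (-X)) i j * (X *ᵥ F s) j) s :=
      fun j _ => (hasDerivAt_exp (-X) s i j).mul (hF s j)
    have h2 := HasDerivAt.fun_sum h1
    have e : ∑ j, (((-X) * exp (s • (-X))) i j * F s j + exp (s • (-X)) i j * (X *ᵥ F s) j) = 0 := by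
      rw [Finset.sum_add_distrib]
      have e1 : ∑ j, ((-X) * exp (s • (-X))) i j * F s j = (((-X) * exp (s • (-X))) *ᵥ F s) i := rfl
      have e2 : ∑ j, exp (s • (-X)) i j * (X *ᵥ F s) j = (exp (s • (-X)) *ᵥ (X *ᵥ F s)) i := rfl
      rw [e1, e2, Matrix.mulVec_mulVec, hcomm, neg_mul, Matrix.neg_mulVec, Pi.neg_apply,
        neg_add_cancel]
    rw [e] at h2
    exact h2
  have hconst : exp (s • (-X)) *ᵥ F s = F 0 := by
    funext i
    have h1 : (fun s : ℝ => ∑ j, exp (s • (-X)) i j * F s j) s =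
        (fun s : ℝ => ∑ j, exp (s • (-X)) i j * F s j) 0 :=
      is_const_of_deriv_eq_zero (fun s => (hd i s).differentiableAt) (fun s => (hd i s).deriv) s 0
    have h2 : (exp ((0 : ℝ) • (-X)) *ᵥ F 0) i = F 0 i := by
      rw [zero_smul, exp_zero, Matrix.one_mulVec]
    calc (exp (s • (-X)) *ᵥ F s) i = (fun s : ℝ => ∑ j, exp (s • (-X)) i j * F s j) s := rfl
      _ = (fun s : ℝ => ∑ j, exp (s • (-X)) i j * F s j) 0 := h1
      _ = (exp ((0 : ℝ) • (-X)) *ᵥ F 0) i := rfl
      _ = F 0 i := h2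
  have hinv : exp (s • X) * exp (s • (-X)) = 1 := by
    rw [← Matrix.exp_add_of_commute (s • X) (s • (-X))
      ((((Commute.refl X).neg_right).smul_right s).smul_left s), smul_neg, add_neg_cancel, exp_zero]
  rw [← hconst, Matrix.mulVec_mulVec, hinv, Matrix.one_mulVec]

private theorem crv_apply97 (k : ℕ) (v : ℕ → Fin M → ℝ) (x y : ℝ) (j0 : Fin M) :
    crv k v x y j0 = ∑ j ∈ Finset.range (k + 1), x ^ (k - j) * y ^ j * v j j0 := by
  unfold crv
  rw [Finset.sum_apply]
  rfl

private theorem X_crv97 {X : Mat M} {k : ℕ} {v : ℕ → Fin M → ℝ} (h0 : X *ᵥ v 0 = 0)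
    (h : ∀ j : ℕ, X *ᵥ v (j + 1) = ((k : ℝ) - j) • v j) (x y : ℝ) (j0 : Fin M) :
    (X *ᵥ crv k v x y) j0 =
      ∑ j ∈ Finset.range (k + 1), ((k - j : ℕ) : ℝ) * x ^ (k - j - 1) * y * y ^ j * v j j0 := by
  unfold crv
  rw [Matrix.mulVec_sum, Finset.sum_apply, Finset.sum_range_succ', Finset.sum_range_succ]
  rw [Matrix.mulVec_smul, h0, smul_zero, Pi.zero_apply, add_zero, Nat.sub_self, Nat.cast_zero]
  rw [zero_mul, zero_mul, zero_mul, zero_mul, add_zero]
  refine Finset.sum_congr rfl fun j hj => ?_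
  rw [Finset.mem_range] at hj
  rw [Matrix.mulVec_smul, h j, Pi.smul_apply, Pi.smul_apply, smul_eq_mul, smul_eq_mul,
    Nat.cast_sub hj.le, Nat.sub_sub]
  ring

private theorem Y_crv97 {Y : Mat M} {k : ℕ} {v : ℕ → Fin M → ℝ} (h0 : ∀ j, k < j → v j = 0)
    (h : ∀ j : ℕ, Y *ᵥ v j = ((j : ℝ) + 1) • v (j + 1)) (x y : ℝ) (j0 : Fin M) :
    (Y *ᵥ crv k v x y) j0 =
      ∑ j ∈ Finset.range (k + 1), x ^ (k - j) * ((j : ℝ) * y ^ (j - 1) * x) * v j j0 := by
  unfold crv
  rw [Matrix.mulVec_sum, Finset.sum_apply, Finset.sum_range_succ, Finset.sum_range_succ']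
  have hk : Y *ᵥ v k = 0 := by
    rw [h k, h0 (k + 1) (Nat.lt_succ_self k), smul_zero]
  rw [Matrix.mulVec_smul, hk, smul_zero, Pi.zero_apply, add_zero, Nat.cast_zero]
  rw [zero_mul, zero_mul, mul_zero, zero_mul, add_zero]
  refine Finset.sum_congr rfl fun j hj => ?_
  rw [Finset.mem_range] at hj
  have hx : x ^ (k - j) = x ^ (k - (j + 1)) * x := by
    rw [← pow_succ]
    congr 1
    omega
  rw [Matrix.mulVec_smul, h j, Pi.smul_apply, Pi.smul_apply, smul_eq_mul, smul_eq_mul,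
    Nat.add_sub_cancel, hx]
  push_cast
  ring

private theorem pow97 (n : ℕ) (a : ℝ) : (n : ℝ) * a ^ (n - 1) * a = (n : ℝ) * a ^ n := by
  cases n with
  | zero => simp
  | succ n =>
    rw [Nat.add_sub_cancel, pow_succ]
    ring

theorem PP_X (t : ℝ) : PP X (ex (t • X)) !![1, t; 0, 1] := by
  intro k v h x y
  have h1 := exp_crv_X h.top h.up t x y
  rw [ex_coe, h1]
  simp

theorem PP_Y (t : ℝ) : PP X (ex (t • Xᵀ)) !![1, 0; t, 1] := by
  intro k v h x y
  have h1 := exp_crv_Y h.fin h.down t x y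
  rw [ex_coe, h1]
  simp [add_comm]

theorem PP_T (t : ℝ) : PP X (ex (t • (X * Xᵀ - Xᵀ * X))) (dgn t) := by
  intro k v h x y
  have key : ∀ s j0, HasDerivAt (fun s => crv k v (Real.exp s * x) (Real.exp (-s) * y) j0)
      (((X * Xᵀ - Xᵀ * X) *ᵥ crv k v (Real.exp s * x) (Real.exp (-s) * y)) j0) s := by
    intro s j0
    have ha : HasDerivAt (fun s : ℝ => Real.exp s * x) (Real.exp s * x) s :=
      (Real.hasDerivAt_exp s).mul_const x
    have hb : HasDerivAt (fun s : ℝ => Real.exp (-s) * y) (-(Real.exp (-s) * y)) s := by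
      have h1 := ((Real.hasDerivAt_exp (-s)).comp s (hasDerivAt_neg s)).mul_const y
      refine h1.congr_deriv ?_
      ring
    have h1 : ∀ j ∈ Finset.range (k + 1), HasDerivAt
        (fun s : ℝ => (Real.exp s * x) ^ (k - j) * (Real.exp (-s) * y) ^ j * v j j0)
        ((((k - j : ℕ) : ℝ) * (Real.exp s * x) ^ (k - j - 1) * (Real.exp s * x) * (Real.exp (-s) * y) ^ j +
          (Real.exp s * x) ^ (k - j) * ((j : ℝ) * (Real.exp (-s) * y) ^ (j - 1) * (-(Real.exp (-s) * y)))) *
            v j j0) s :=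
      fun j _ => (((ha.pow (k - j)).mul (hb.pow j)).mul_const (v j j0))
    have h2 := HasDerivAt.fun_sum h1
    have e1 : (fun s : ℝ => crv k v (Real.exp s * x) (Real.exp (-s) * y) j0) =
        fun s => ∑ j ∈ Finset.range (k + 1), (Real.exp s * x) ^ (k - j) * (Real.exp (-s) * y) ^ j * v j j0 := by
      funext s
      exact crv_apply97 k v _ _ j0
    rw [e1]
    refine h2.congr_deriv ?_
    unfold crv
    rw [Matrix.mulVec_sum, Finset.sum_apply]
    refine Finset.sum_congr rfl fun j hj => ?_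
    rw [Finset.mem_range] at hj
    rw [Matrix.mulVec_smul, h.wt j, Pi.smul_apply, Pi.smul_apply, smul_eq_mul, smul_eq_mul, pow97]
    have hj' := pow97 j (Real.exp (-s) * y)
    have hc : ((k - j : ℕ) : ℝ) = (k : ℝ) - j := Nat.cast_sub (by omega)
    rw [hc]
    linear_combination (-(Real.exp s * x) ^ (k - j) * v j j0) * hj'
  have h3 := flow97 (X * Xᵀ - Xᵀ * X) (fun s => crv k v (Real.exp s * x) (Real.exp (-s) * y)) key t
  simp only [Real.exp_zero, one_mul, neg_zero] at h3
  rw [ex_coe, h3]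
  simp [dgn]

theorem PP_R (t : ℝ) : PP X (ex (t • (X - Xᵀ))) (rot t) := by
  intro k v h x y
  have key : ∀ s j0, HasDerivAt
      (fun s => crv k v (Real.cos s * x + Real.sin s * y) (-Real.sin s * x + Real.cos s * y) j0)
      (((X - Xᵀ) *ᵥ crv k v (Real.cos s * x + Real.sin s * y) (-Real.sin s * x + Real.cos s * y)) j0) s := by
    intro s j0
    have ha : HasDerivAt (fun s : ℝ => Real.cos s * x + Real.sin s * y)
        (-Real.sin s * x + Real.cos s * y) s :=
      ((Real.hasDerivAt_cos s).mul_const x).add ((Real.hasDerivAt_sin s).mul_const y)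
    have hb : HasDerivAt (fun s : ℝ => -Real.sin s * x + Real.cos s * y)
        (-(Real.cos s * x + Real.sin s * y)) s := by
      have h1 := ((Real.hasDerivAt_sin s).neg.mul_const x).add ((Real.hasDerivAt_cos s).mul_const y)
      refine h1.congr_deriv ?_
      ring
    have h1 : ∀ j ∈ Finset.range (k + 1), HasDerivAt
        (fun s : ℝ => (Real.cos s * x + Real.sin s * y) ^ (k - j) *
          (-Real.sin s * x + Real.cos s * y) ^ j * v j j0)
        ((((k - j : ℕ) : ℝ) * (Real.cos s * x + Real.sin s * y) ^ (k - j - 1) *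
          (-Real.sin s * x + Real.cos s * y) * (-Real.sin s * x + Real.cos s * y) ^ j +
          (Real.cos s * x + Real.sin s * y) ^ (k - j) * ((j : ℝ) *
            (-Real.sin s * x + Real.cos s * y) ^ (j - 1) * (-(Real.cos s * x + Real.sin s * y)))) *
            v j j0) s :=
      fun j _ => (((ha.pow (k - j)).mul (hb.pow j)).mul_const (v j j0))
    have h2 := HasDerivAt.fun_sum h1
    have e1 : (fun s : ℝ => crv k v (Real.cos s * x + Real.sin s * y)
        (-Real.sin s * x + Real.cos s * y) j0) =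
        fun s => ∑ j ∈ Finset.range (k + 1), (Real.cos s * x + Real.sin s * y) ^ (k - j) *
          (-Real.sin s * x + Real.cos s * y) ^ j * v j j0 := by
      funext s
      exact crv_apply97 k v _ _ j0
    rw [e1]
    refine h2.congr_deriv ?_
    rw [Matrix.sub_mulVec, Pi.sub_apply, X_crv97 h.top h.up, Y_crv97 h.fin h.down,
      ← Finset.sum_sub_distrib]
    refine Finset.sum_congr rfl fun j _ => ?_
    ring
  have h3 := flow97 (X - Xᵀ)
    (fun s => crv k v (Real.cos s * x + Real.sin s * y) (-Real.sin s * x + Real.cos s * y)) key t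
  simp only [Real.cos_zero, Real.sin_zero, one_mul, zero_mul, add_zero, neg_zero, zero_add] at h3
  rw [ex_coe, h3]
  simp [rot]

theorem PP_one : PP X 1 1 := by
  intro k v _ x y
  simp

theorem PP_mul {g h : GL (Fin M) ℝ} {A B : Matrix (Fin 2) (Fin 2) ℝ} (hg : PP X g A) (hh : PP X h B) :
    PP X (g * h) (A * B) := by
  intro k v hv x y
  rw [Units.val_mul, ← Matrix.mulVec_mulVec, hh k v hv, hg k v hv]
  simp only [Matrix.mul_apply, Fin.sum_univ_two]
  congr 1
  · ring
  · ring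

theorem PP_inv {g : GL (Fin M) ℝ} {A : Matrix (Fin 2) (Fin 2) ℝ} (hA : A.det = 1) (hg : PP X g A) :
    PP X g⁻¹ A.adjugate := by
  intro k v hv x y
  rw [Matrix.det_fin_two] at hA
  rw [Matrix.adjugate_fin_two]
  simp only [Matrix.of_apply, Matrix.cons_val', Matrix.cons_val_zero, Matrix.cons_val_one,
    Matrix.cons_val_fin_one]
  have h1 := hg k v hv (A 1 1 * x + -A 0 1 * y) (-A 1 0 * x + A 0 0 * y)
  have e1 : A 0 0 * (A 1 1 * x + -A 0 1 * y) + A 0 1 * (-A 1 0 * x + A 0 0 * y) = x := by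
    linear_combination x * hA
  have e2 : A 1 0 * (A 1 1 * x + -A 0 1 * y) + A 1 1 * (-A 1 0 * x + A 0 0 * y) = y := by
    linear_combination y * hA
  rw [e1, e2] at h1
  rw [← h1, Matrix.mulVec_mulVec, ← Units.val_mul, inv_mul_cancel, Units.val_one, Matrix.one_mulVec]

end Pool.Agent.Helper43.TA
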