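import Pool.Agent.Helper43.TA.Side

/-!
# Block TYA-MID: the group reaches only the types of the first and the last gap

PROOF of `no_mid`. Let `J0 := univ.erase q`, `R := toReg (chStr S J0 [])`, `ρ := mR R univ b > 0` (`hasComp_iff`), `a0 := D.e i0`, `i0` the index `0` of `Fin r` (`r = N - 2 ≥ 1` because `0 < q < N - 2`). `KA := KB J0 (bJ J0 0)` (contains the index `0`; all its elements are `< q`), `KC := KB J0 (bJ J0 (q + 1))` (contains `q + 1`, all its elements are `> q`): an index `k > q`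
with `bJ J0 k = bJ J0 0` would give `q ∈ J0` by `mem_of_bJ_eq`, similarly an index `k < q` with `bJ J0 k = bJ J0 (q + 1)`. Let `m : ℕ`. By `side_mean` for the indices `0` and `q + 1` the means of `mR R (WC S KA m ∪ WC S KC m) (ltr (a0 ^ k) b)` tend to `0` (`mR_union`),
so some `k` has `mR R (..) (ltr (a0 ^ k) b) ≤ ρ / 2` (if all were `> ρ / 2` the means would be). `mR R univ (ltr (a0 ^ k) b) = ρ` (`mR_ltr`), so by `mR_compl`, `mR_carried` (`s = TC S [J0] m`, `TC_mem_FC`), `mR_le_ms`: `ms (TC S [J0] m ∩ (..)ᶜ) (ltr (a0 ^ k) b) ≥ ρ / 2`, and by `ms_tendsto` there is `n` with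
`‖cl (ind (TC S [J0] m \ (WC S KA m ∪ WC S KC m))) (zx (a0 ^ k * b n))‖ ^ 2 ≥ ρ / 4`. Let `v m := a0 ^ k * b n`. `selectK` with `c = [J0]`, `KK = {KA, KC}`, `β = √(ρ / 4)`: `J ⊆ J0` which misses also an element of `KA` and an element of `KC`: `J.card ≤ N - 3 = r - 1`, `HasComp (toReg (chStr S J [J0])) zx v`.
`card_bound` with `V k := {g | ∀ i : Fin r, k + 1 ≤ i → g commutes with D.e i, D.u i, D.w i}` (`v m ∈ V 0`), `s = r - 1` (`hesc`: `esc_lvl` with `i = k + 1`): `r ≤ J.card`, a contradiction.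
-/

set_option autoImplicit false
set_option linter.unusedSectionVars false

open MeasureTheory Filter Topology

namespace Pool.Agent.Helper43.TA

open Pool.Agent.Helper84.NI Pool.Agent.Helper84.GVN Pool.Agent.Helper90.RK
open Pool.Agent.Helper84.GN hiding toReg
open Pool.Agent.Helper96.RK Pool.Agent.Helper66.FR Pool.Agent.Helper84.FR Pool.Agent.Helper96.FR Pool.Agent.Helper55.FR

variable {G1 X G Λ : Type} [Group G1] [TopologicalSpace G1] [IsTopologicalGroup G1] [T2Space G1] [MeasurableSpace X]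
  {μ : Measure X} [MulAction G1 X] [MeasurableConstSMul G1 X] [SMulInvariantMeasure G1 X μ] [IsProbabilityMeasure μ]
  [Group G] [Group Λ] [Countable Λ] {a : Cocy G1 X Λ} {E : Emb Λ G} {N : ℕ} {P : PH G N} {S : Sv P}
  {F : Subgroup G1} {r : ℕ}

private theorem exists_small {f : ℕ → ℝ} (hf : Tendsto (av f) atTop (𝓝 0)) {ρ : ℝ} (hρ : 0 < ρ) :
    ∃ k, f k ≤ ρ := by
  by_contra hcon
  push Not at hcon
  have h1 : ∀ᶠ K in atTop, av f K < ρ := hf.eventually (gt_mem_nhds hρ)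
  obtain ⟨K, hK, hK1⟩ := (h1.and (eventually_ge_atTop 1)).exists
  have hK0 : (0 : ℝ) < K := by exact_mod_cast hK1
  have h2 : ρ * K ≤ ∑ k ∈ Finset.range K, f k := by
    calc ρ * K = ∑ k ∈ Finset.range K, ρ := by
          rw [Finset.sum_const, Finset.card_range, nsmul_eq_mul, mul_comm]
      _ ≤ _ := Finset.sum_le_sum fun k _ => (hcon k).le
  have h3 : ρ ≤ av f K := by
    unfold av
    rw [le_div_iff₀ hK0]
    exact h2
  linarith

/-- The elements which commute with the elements of `D` with numbers `> k`. -/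
private def VS (D : Dat μ a F r) (k : ℕ) : Set G1 :=
  {g | ∀ i : Fin r, k + 1 ≤ (i : ℕ) → g * D.e i = D.e i * g ∧ g * D.u i = D.u i * g ∧ g * D.w i = D.w i * g}

private theorem comm_pow (D : Dat μ a F r) {i j : Fin r} (hij : i ≠ j) (z : ℤ) {b : G1}
    (hb : b * D.e j = D.e j * b ∧ b * D.u j = D.u j * b ∧ b * D.w j = D.w j * b) :
    (D.e i ^ z * b) * D.e j = D.e j * (D.e i ^ z * b) ∧ (D.e i ^ z * b) * D.u j = D.u j * (D.e i ^ z * b) ∧
      (D.e i ^ z * b) * D.w j = D.w j * (D.e i ^ z * b) := by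
  have h1 : Commute (D.e i) (D.e j) := D.cc i j
  have h2 : Commute (D.e i) (D.u j) := (D.cu i j hij).1
  have h3 : Commute (D.e i) (D.w j) := (D.cu i j hij).2
  have b1 : Commute b (D.e j) := hb.1
  have b2 : Commute b (D.u j) := hb.2.1
  have b3 : Commute b (D.w j) := hb.2.2
  exact ⟨(h1.zpow_left z).mul_left b1, (h2.zpow_left z).mul_left b2, (h3.zpow_left z).mul_left b3⟩

theorem no_mid (D : Dat μ a F r) (hr : r + 2 = N) {b : ℕ → G1} (hbF : ∀ n, b n ∈ F)
    (hb : Tendsto b atTop (cocompact G1)) {q : Fin N} (hq1 : 0 < (q : ℕ)) (hq2 : (q : ℕ) + 2 < N) :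
    ¬ HasComp (toReg (chStr S (Finset.univ.erase q) [])) (zx μ a E) zx_bound b := by
  classical
  intro hcomp
  have hN : 0 < N := by omega
  have hr1 : 1 ≤ r := by omega
  have hqJ : q ∉ (Finset.univ.erase q : Finset (Fin N)) := Finset.notMem_erase q _
  have hρ0 := (hasComp_iff (a := a) (E := E) (toReg (chStr S (Finset.univ.erase q) [])) b).1 hcomp
  obtain ⟨ρ, hρ⟩ : ∃ ρ, ρ = mR μ a E (toReg (chStr S (Finset.univ.erase q) [])) Set.univ b := ⟨_, rfl⟩
  rw [← hρ] at hρ0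
  let i0 : Fin r := ⟨0, by omega⟩
  let z0 : Fin N := ⟨0, hN⟩
  let q1 : Fin N := ⟨(q : ℕ) + 1, by omega⟩
  have hz0 : z0 ≠ q := by
    intro h
    have h1 : (z0 : ℕ) = (q : ℕ) := by rw [h]
    change 0 = (q : ℕ) at h1
    omega
  have hq1' : q1 ≠ q := by
    intro h
    have h1 : (q1 : ℕ) = (q : ℕ) := by rw [h]
    change (q : ℕ) + 1 = (q : ℕ) at h1
    omega
  set J0 : Finset (Fin N) := Finset.univ.erase q with hJ0
  set KA := KB J0 (bJ J0 z0) with hKA
  set KC := KB J0 (bJ J0 q1) with hKC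
  have hA : ∀ k ∈ KA, k < q := by
    intro k hk
    rw [hKA, mem_KB] at hk
    by_contra hkq
    have hkne : k ≠ q := fun h => hqJ (h ▸ hk.1)
    have h1 : q < k := lt_of_le_of_ne (not_lt.1 hkq) (Ne.symm hkne)
    exact hqJ (mem_of_bJ_eq hk.2.symm (Fin.mk_le_of_le_val (Nat.zero_le _)) h1)
  have hC : ∀ k ∈ KC, q < k := by
    intro k hk
    rw [hKC, mem_KB] at hk
    by_contra hkq
    have h2 : q < q1 := by
      change (q : ℕ) < (q : ℕ) + 1
      omega
    exact hqJ (mem_of_bJ_eq hk.2 (not_lt.1 hkq) h2)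
  have hRF : ∀ m n, TC S [J0] m ∈ (toReg (chStr S J0 [])).F n := fun m n => TC_mem_FC S J0 [] m n
  have key : ∀ m : ℕ, ∃ (k n : ℕ), Real.sqrt (ρ / 4) ≤
      ‖cl μ (ind ℂ (TC S [J0] m \ {γ | ∃ K ∈ ({KA, KC} : Finset (Finset (Fin N))), γ ∈ WC S K m}))
        (zx μ a E (D.e i0 ^ k * b n))‖ := by
    intro m
    have hsA := side_mean (E := E) (S := S) D hr hbF hb (q := q) (i := z0) (by change 0 + 1 < N; omega) hz0 m (i0 := i0) rfl
    have hsC := side_mean (E := E) (S := S) D hr hbF hb (q := q) (i := q1)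
      (by change (q : ℕ) + 1 + 1 < N; omega) hq1' m (i0 := i0) rfl
    have hsum := hsA.add hsC
    rw [add_zero] at hsum
    have hav : Tendsto (av fun k => mR μ a E (toReg (chStr S J0 [])) (WC S KA m) (ltr (D.e i0 ^ k) b) +
        mR μ a E (toReg (chStr S J0 [])) (WC S KC m) (ltr (D.e i0 ^ k) b)) atTop (𝓝 0) := by
      refine hsum.congr fun K => ?_
      unfold av
      rw [Finset.sum_add_distrib, add_div]
    obtain ⟨k, hk⟩ := exists_small hav (by linarith : 0 < ρ / 2)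
    have hcom : ∀ n, b n * D.e i0 ^ k = D.e i0 ^ k * b n := by
      intro n
      have h1 : Commute (b n) (D.e i0) := (D.cF i0 (b n) (hbF n)).1
      exact (h1.pow_right k)
    have h1 := mR_ltr (a := a) (E := E) (μ := μ) (toReg (chStr S J0 [])) hcom
    rw [← hρ] at h1
    have h2 := mR_union (a := a) (E := E) (μ := μ) (toReg (chStr S J0 [])) (WC S KA m) (WC S KC m) (ltr (D.e i0 ^ k) b)
    have h3 := mR_compl (a := a) (E := E) (μ := μ) (toReg (chStr S J0 [])) (WC S KA m ∪ WC S KC m) (ltr (D.e i0 ^ k) b)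
    have h4 := mR_carried (a := a) (E := E) (μ := μ) (toReg (chStr S J0 [])) (hRF m) (WC S KA m ∪ WC S KC m)ᶜ
      (ltr (D.e i0 ^ k) b)
    have h5 := mR_le_ms (a := a) (E := E) (μ := μ) (toReg (chStr S J0 [])) (TC S [J0] m ∩ (WC S KA m ∪ WC S KC m)ᶜ)
      (ltr (D.e i0 ^ k) b)
    have h6 : ρ / 4 < ms μ a E (TC S [J0] m ∩ (WC S KA m ∪ WC S KC m)ᶜ) (ltr (D.e i0 ^ k) b) := by linarith
    have hset : TC S [J0] m \ {γ | ∃ K ∈ ({KA, KC} : Finset (Finset (Fin N))), γ ∈ WC S K m} =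
        TC S [J0] m ∩ (WC S KA m ∪ WC S KC m)ᶜ := by
      ext γ
      simp only [Set.mem_sdiff, Set.mem_ofPred_eq, Finset.mem_insert, Finset.mem_singleton, exists_eq_or_imp,
        exists_eq_left, Set.mem_inter_iff, Set.mem_compl_iff, Set.mem_union]
    obtain ⟨n, hn⟩ := ((ms_tendsto (a := a) (E := E) (μ := μ) (TC S [J0] m ∩ (WC S KA m ∪ WC S KC m)ᶜ)
      (ltr (D.e i0 ^ k) b)).eventually (lt_mem_nhds h6)).exists
    refine ⟨k, n, ?_⟩
    rw [hset]
    exact Real.sqrt_le_iff.2 ⟨norm_nonneg _, hn.le⟩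
  choose kk nn hkn using key
  obtain ⟨J, hJ, hKJ, hcJ⟩ := selectK S [J0] {KA, KC} (zx μ a E) zx_bound (Real.sqrt_pos.2 (by linarith : 0 < ρ / 4))
    (fun m => D.e i0 ^ kk m * b (nn m)) hkn
  have hJ0' : J ⊆ J0 := hJ
  obtain ⟨x, hx, hxJ⟩ := Finset.not_subset.1 (hKJ KA (by simp))
  obtain ⟨y, hy, hyJ⟩ := Finset.not_subset.1 (hKJ KC (by simp))
  have hxq := hA x hx
  have hyq := hC y hy
  have hsub : J ⊆ ((Finset.univ.erase q).erase x).erase y := by
    intro j hj
    rw [Finset.mem_erase, Finset.mem_erase]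
    exact ⟨fun h => hyJ (h ▸ hj), fun h => hxJ (h ▸ hj), hJ0' hj⟩
  have hcard : J.card ≤ N - 3 := by
    refine (Finset.card_le_card hsub).trans ?_
    have e1 : y ∈ (Finset.univ.erase q).erase x := by
      rw [Finset.mem_erase, Finset.mem_erase]
      exact ⟨(lt_trans hxq hyq).ne', hyq.ne', Finset.mem_univ _⟩
    have e2 : x ∈ (Finset.univ.erase q : Finset (Fin N)) := by
      rw [Finset.mem_erase]
      exact ⟨hxq.ne, Finset.mem_univ _⟩
    rw [Finset.card_erase_of_mem e1, Finset.card_erase_of_mem e2, Finset.card_erase_of_mem (Finset.mem_univ q),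
      Finset.card_univ, Fintype.card_fin]
    omega
  have hv : ∀ n, D.e i0 ^ kk n * b (nn n) ∈ VS D 0 := by
    intro n j hj
    have hne : i0 ≠ j := by
      intro h
      have h1 : (i0 : ℕ) = (j : ℕ) := by rw [h]
      change 0 = (j : ℕ) at h1
      omega
    have h1 := comm_pow D hne (kk n : ℤ) (D.cF j (b (nn n)) (hbF _))
    rw [zpow_natCast] at h1
    exact h1
  have hfin := card_bound hN (S := S) (zx μ a E) zx_bound (VS D) (r - 1) J [J0] _ hv hcJ (by
    intro k hk J' c' b' hb' hc'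
    obtain ⟨β, hβ, hβ'⟩ := esc_lvl D ⟨k + 1, by omega⟩ b' (fun n => hb' n ⟨k + 1, by omega⟩ le_rfl) J' c' hc'
    refine ⟨β, hβ, fun m => ?_⟩
    obtain ⟨n, z, hz⟩ := hβ' m
    refine ⟨_, ?_, hz⟩
    intro j hj
    have hne : (⟨k + 1, by omega⟩ : Fin r) ≠ j := by
      intro h
      have h1 : k + 1 = (j : ℕ) := by rw [← h]
      omega
    exact comm_pow D hne z (hb' n j (by omega)))
  omega

end Pool.Agent.Helper43.TA
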