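import Pool.Agent.Helper43.TA.Diag
import Pool.Agent.Helper43.TA.Lvl

/-!
# Block TYA-RGL: regularity

`HS D j`: the subgroup generated by the `D.e i`, `1 ≤ i < j`. `reg_ind`. PROOF by induction on `j`. `j = 1`: `h = 1`, `ltr 1 b = b`, `all_one` (`D.hF2`). Step: `j + 1 ≤ r`, let `i : Fin r` be the index `j`, `a0 := D.e i`. Suppose the claim fails for `j + 1`, `m`, `ε`: `ε ≤ ms (TJ S (j+1) m)ᶜ (ltr h b)` for all `h ∈ HS D (j+1)`. `diag` with `H = HS D j`, `Z = (TJ S (j+1) m)ᶜ`, `δ = ε`, `K0 = 1`: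
`a0 ^ k * h ∈ HS D (j+1)` for `h ∈ HS D j`, so the mean is `≥ ε` for `K ≥ 1`. `hc`, `hE`: `h * b n` commutes with `D.e i`, `D.u i`, `D.w i` (for `h ∈ HS D j` by `Subgroup.closure_induction`, `D.cc`, `D.cu` as the indices are different; `b n ∈ F`, `D.cF`): `esc_dat`.
-/

set_option autoImplicit false
set_option linter.unusedSectionVars false

open MeasureTheory Filter Topology

namespace Pool.Agent.Helper43.TA

open Pool.Agent.Helper84.NI Pool.Agent.Helper84.GVN Pool.Agent.Helper90.RK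
open Pool.Agent.Helper84.GN hiding toReg
open Pool.Agent.Helper96.RK Pool.Agent.Helper66.FR Pool.Agent.Helper84.FR Pool.Agent.Helper96.FR Pool.Agent.Helper55.FR

variable {G1 X G Λ : Type} [Group G1] [TopologicalSpace G1] [IsTopologicalGroup G1] [MeasurableSpace X] {μ : Measure X}
  [MulAction G1 X] [MeasurableConstSMul G1 X] [SMulInvariantMeasure G1 X μ] [IsProbabilityMeasure μ]
  [Group G] [Group Λ] [Countable Λ] {a : Cocy G1 X Λ} {E : Emb Λ G} {N : ℕ} {P : PH G N} {S : Sv P}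
  {F : Subgroup G1} {r : ℕ}

/-- The subgroup generated by the `D.e i`, `1 ≤ i < j`. -/
def HS (D : Dat μ a F r) (j : ℕ) : Subgroup G1 := Subgroup.closure {g | ∃ i : Fin r, 1 ≤ (i : ℕ) ∧ (i : ℕ) < j ∧ D.e i = g}

theorem HS_comm (D : Dat μ a F r) {j : ℕ} {h : G1} (hh : h ∈ HS D j) {i : Fin r} (hi : (i : ℕ) = 0 ∨ j ≤ (i : ℕ)) :
    h * D.e i = D.e i * h ∧ h * D.u i = D.u i * h ∧ h * D.w i = D.w i * h := by
  have key : HS D j ≤ Subgroup.centralizer ({D.e i, D.u i, D.w i} : Set G1) := by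
    unfold HS
    rw [Subgroup.closure_le]
    rintro g ⟨i', h1, h2, rfl⟩
    have hne : i' ≠ i := by
      rintro rfl
      omega
    rw [SetLike.mem_coe, Subgroup.mem_centralizer_iff]
    intro x hx
    simp only [Set.mem_insert_iff, Set.mem_singleton_iff] at hx
    rcases hx with rfl | rfl | rfl
    · exact D.cc _ _
    · exact (D.cu i' i hne).1.symm
    · exact (D.cu i' i hne).2.symm
  have h1 := Subgroup.mem_centralizer_iff.1 (key hh)
  exact ⟨(h1 _ (by simp)).symm, (h1 _ (by simp)).symm, (h1 _ (by simp)).symm⟩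

theorem reg_ind (D : Dat μ a F r) {b : ℕ → G1} (hbF : ∀ n, b n ∈ F) (hb : Tendsto b atTop (cocompact G1))
    {j : ℕ} (hj : 1 ≤ j) (hjr : j ≤ r) (m : ℕ) {ε : ℝ} (hε : 0 < ε) :
    ∃ h ∈ HS D j, ms μ a E (TJ S j m)ᶜ (ltr h b) < ε := by
  induction j, hj using Nat.le_induction generalizing m ε with
  | base =>
    refine ⟨1, one_mem _, ?_⟩
    have h1 : ltr 1 b = b := funext fun n => one_mul _
    rw [h1, all_one S D.hF2 hb m]
    exact hε
  | succ j hj ih =>
    by_contra hcon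
    push Not at hcon
    have hlt : j < r := by omega
    have hle : HS D j ≤ HS D (j + 1) := by
      unfold HS
      refine Subgroup.closure_mono ?_
      rintro g ⟨i, h1, h2, h3⟩
      exact ⟨i, h1, by omega, h3⟩
    have hei : D.e ⟨j, hlt⟩ ∈ HS D (j + 1) :=
      Subgroup.subset_closure ⟨⟨j, hlt⟩, hj, Nat.lt_succ_self j, rfl⟩
    have hcm : ∀ h ∈ HS D j, ∀ n, (h * b n) * D.e ⟨j, hlt⟩ = D.e ⟨j, hlt⟩ * (h * b n) ∧
        (h * b n) * D.u ⟨j, hlt⟩ = D.u ⟨j, hlt⟩ * (h * b n) ∧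
        (h * b n) * D.w ⟨j, hlt⟩ = D.w ⟨j, hlt⟩ * (h * b n) := by
      intro h hh n
      obtain ⟨a1, a2, a3⟩ := HS_comm D hh (i := ⟨j, hlt⟩) (Or.inr le_rfl)
      obtain ⟨b1, b2, b3⟩ := D.cF ⟨j, hlt⟩ (b n) (hbF n)
      refine ⟨?_, ?_, ?_⟩
      · rw [mul_assoc, b1, ← mul_assoc, a1, mul_assoc]
      · rw [mul_assoc, b2, ← mul_assoc, a2, mul_assoc]
      · rw [mul_assoc, b3, ← mul_assoc, a3, mul_assoc]
    refine diag (S := S) (E := E) (μ := μ) (a := a) hj b (HS D j : Set G1) (a0 := D.e ⟨j, hlt⟩)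
      (fun h hh n => (hcm h hh n).1) ?_ (fun m ε hε => ih (by omega) m hε)
      (TJ S (j + 1) m)ᶜ hε 1 ?_ m (Set.Subset.refl _)
    · intro g hg J c n
      refine esc_dat D ⟨j, hlt⟩ g ?_ J c n
      intro n
      obtain ⟨h, hh, k, hk⟩ := hg n
      rw [hk]
      exact hcm h hh k
    · intro h hh K hK
      unfold av
      have hK' : (0 : ℝ) < K := by exact_mod_cast hK
      rw [le_div_iff₀ hK']
      calc ε * K = ∑ _k ∈ Finset.range K, ε := by
            rw [Finset.sum_const, Finset.card_range, nsmul_eq_mul, mul_comm]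
        _ ≤ ∑ k ∈ Finset.range K, ms μ a E (TJ S (j + 1) m)ᶜ (ltr (D.e ⟨j, hlt⟩ ^ k * h) b) :=
            Finset.sum_le_sum fun k _ => hcon _ (mul_mem (pow_mem hei k) (hle hh))

end Pool.Agent.Helper43.TA
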