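import Pool.Agent.Helper43.TA.SDef
import Pool.Agent.Helper96.SA.Adj3

/-!
# Block TYA-SADJ: Lie subalgebras of a real semisimple Lie algebra as Lie algebras of matrices

`TT b x`: the matrix of `ad x`; `adS b K` the image of the subalgebra `K`. Copy the private lemmas of `Helper96/SA/Adj3.lean` (`TT_inj_h54`, `TT_transpose_h54`: the transposed matrix is `TT b (-(θ x))`, `TT_symm_iff_h54`, `TT_comm_iff_h54`, `finrank_map_h54`).
PROOFS. `TT_brk`: `ad ⁅x, y⁆ = ⁅ad x, ad y⁆`. `adS_lsub`: `hG.exp_ad (t • x)` (`mem_lie`), `TT_brk`, `TT_transpose`. `adS_sim`: `ne`: `K` is not abelian (`LieAlgebra.IsSimple.non_abelian`); `ideal`: for `I` let `I'` be the `LieIdeal` of `K` of all `x : K` with `TT b x ∈ I`; `I' = ⊥` or `⊤` (`LieAlgebra.IsSimple.eq_bot_or_eq_top`); every element of `I`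
is `TT b x` with `x ∈ K`. `adS_noCen`: `TT b x` commutes with `TT b y` for all `y ∈ K` iff `⁅x, y⁆ = 0` for all `y ∈ K`. `adS_flat`: the set of the dimensions in `rankIn` is not empty (`a = ⊥`) and bounded (`finrank L`), so there is `a` with `finrank a = rankIn θ K` (`Nat.sSup_mem`); `V := a.map (TT b)`.
-/

set_option autoImplicit false

open Matrix

namespace Pool.Agent.Helper43.TA

open Pool.Agent.Helper96.SA

variable {L : Type} [LieRing L] [LieAlgebra ℝ L] {M : ℕ}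

/-- The matrix of `ad x`. -/
noncomputable def TT (b : Module.Basis (Fin M) ℝ L) : L →ₗ[ℝ] Mat M :=
  (LinearMap.toMatrix b b).toLinearMap ∘ₗ (LieAlgebra.ad ℝ L : L →ₗ[ℝ] Module.End ℝ L)

/-- The matrices of `ad x`, `x ∈ K`. -/
noncomputable def adS (b : Module.Basis (Fin M) ℝ L) (K : LieSubalgebra ℝ L) : Submodule ℝ (Mat M) := K.toSubmodule.map (TT b)

/-- The real rank of a `θ`-stable subalgebra `K`: the largest dimension of a commutative subspace of `K` on which `θ = -1`. -/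
noncomputable def rankIn (θ : L ≃ₗ⁅ℝ⁆ L) (K : LieSubalgebra ℝ L) : ℕ :=
  sSup {d | ∃ a : Submodule ℝ L, (∀ x ∈ a, x ∈ K) ∧ (∀ x ∈ a, θ x = -x) ∧ (∀ x ∈ a, ∀ y ∈ a, ⁅x, y⁆ = 0) ∧ Module.finrank ℝ a = d}

variable {θ : L ≃ₗ⁅ℝ⁆ L} {b : Module.Basis (Fin M) ℝ L}

private theorem coord_h4 (h : CartanBasis θ b) (x : L) (i : Fin M) :
    b.repr x i = -killingForm ℝ L x (θ (b i)) := by
  conv_rhs => rw [← b.sum_repr x]
  simp only [map_sum, map_smul, LinearMap.sum_apply, LinearMap.smul_apply]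
  rw [← Finset.sum_neg_distrib]
  have h1 : ∀ j, -(b.repr x j • killingForm ℝ L (b j) (θ (b i))) = b.repr x j * (if j = i then 1 else 0) := by
    intro j
    rw [← h.orth j i, smul_eq_mul, mul_neg]
  simp only [h1]
  simp

private theorem killing_h4 (h : CartanBasis θ b) : LieAlgebra.IsKilling ℝ L := by
  refine ⟨?_⟩
  rw [LieSubmodule.eq_bot_iff]
  intro x hx
  rw [LieIdeal.mem_killingCompl] at hx
  apply b.repr.injective
  ext i
  rw [coord_h4 h, LieModule.traceForm_comm, hx _ (LieSubmodule.mem_top _), neg_zero, map_zero]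
  rfl

private theorem TT_apply_h4 (x : L) :
    TT b x = LinearMap.toMatrix b b (LieAlgebra.ad ℝ L x) := rfl

private theorem toLin_TT_h4 (x y : L) :
    toLin b b (TT b x) y = ⁅x, y⁆ := by
  rw [TT_apply_h4, Matrix.toLin_toMatrix, LieAlgebra.ad_apply]

theorem TT_brk (x y : L) : TT b ⁅x, y⁆ = TT b x * TT b y - TT b y * TT b x := by
  apply (Matrix.toLin b b).injective
  refine LinearMap.ext fun z => ?_
  rw [toLin_TT_h4, map_sub, LinearMap.sub_apply, toLin_mul b b b, toLin_mul b b b,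
    LinearMap.comp_apply, LinearMap.comp_apply, toLin_TT_h4, toLin_TT_h4, toLin_TT_h4,
    toLin_TT_h4, lie_lie]

private theorem TT_inj_h4 (h : CartanBasis θ b) : Function.Injective (TT b) := by
  intro x y hxy
  have hK := killing_h4 h
  have hF : Module.Finite ℝ L := Module.Finite.of_basis b
  have h1 : ∀ z : L, ⁅x, z⁆ = ⁅y, z⁆ := by
    intro z
    rw [← toLin_TT_h4 (b := b) x z, hxy, toLin_TT_h4]
  have h2 : LieDerivation.ad ℝ L (x - y) = 0 := by
    ext z
    have h3 : (LieDerivation.ad ℝ L (x - y)) z = LieAlgebra.ad ℝ L (x - y) z := by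
      rw [← LieDerivation.coe_ad_apply_eq_ad_apply]
      rfl
    rw [h3, LieAlgebra.ad_apply, sub_lie, h1, sub_self]
    rfl
  exact sub_eq_zero.1 ((LieDerivation.IsKilling.ad_apply_eq_zero_iff ℝ L _).1 h2)

private theorem TT_transpose_h4 (h : CartanBasis θ b) (x : L) :
    (TT b x)ᵀ = -TT b (θ x) := by
  ext i j
  rw [Matrix.transpose_apply, Matrix.neg_apply, TT_apply_h4, TT_apply_h4, LinearMap.toMatrix_apply,
    LinearMap.toMatrix_apply, LieAlgebra.ad_apply, LieAlgebra.ad_apply, coord_h4 h, coord_h4 h, neg_neg]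
  have h1 : killingForm ℝ L ⁅θ x, b j⁆ (θ (b i)) = killingForm ℝ L ⁅x, θ (b j)⁆ (b i) := by
    rw [← LieAlgebra.killingForm_of_equiv_apply θ ⁅x, θ (b j)⁆ (b i), LieEquiv.map_lie, h.invol]
  have h2 : killingForm ℝ L ⁅x, b i⁆ (θ (b j)) = -killingForm ℝ L (b i) ⁅x, θ (b j)⁆ :=
    LieModule.traceForm_apply_lie_apply' ℝ L L x (b i) (θ (b j))
  rw [h1, h2, neg_neg, LieModule.traceForm_comm]

private theorem TT_comm_iff_h4 (h : CartanBasis θ b) (x y : L) :
    TT b x * TT b y = TT b y * TT b x ↔ ⁅x, y⁆ = 0 := by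
  rw [← sub_eq_zero, ← TT_brk]
  constructor
  · intro h2
    apply TT_inj_h4 h
    rw [h2, map_zero]
  · intro h2
    rw [h2, map_zero]

private theorem finrank_map_h4 {V W : Type} [AddCommGroup V] [Module ℝ V] [AddCommGroup W] [Module ℝ W]
    {T : V →ₗ[ℝ] W} (hT : Function.Injective T) (a : Submodule ℝ V) :
    Module.finrank ℝ (a.map T) = Module.finrank ℝ a :=
  (LinearEquiv.finrank_eq (Submodule.equivMapOfInjective T hT a)).symm

private theorem mem_adS_h4 {K : LieSubalgebra ℝ L} {X : Mat M} :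
    X ∈ adS b K ↔ ∃ x ∈ K, TT b x = X := Iff.rfl

theorem TT_symm (h : CartanBasis θ b) (x : L) : (TT b x)ᵀ = TT b x ↔ θ x = -x := by
  rw [TT_transpose_h4 h]
  constructor
  · intro h1
    apply TT_inj_h4 h
    rw [map_neg, ← h1, neg_neg]
  · intro h1
    rw [h1, map_neg, neg_neg]

theorem TT_inj (h : CartanBasis θ b) : Function.Injective (TT b) := by
  exact TT_inj_h4 h

theorem adS_lsub (h : CartanBasis θ b) {G : Subgroup (GL (Fin M) ℝ)} (hG : IsAdj b G) {K : LieSubalgebra ℝ L}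
    (hK : ∀ x ∈ K, θ x ∈ K) : LSub G (adS b K) := by
  refine ⟨?_, ?_, ?_⟩
  · intro X hX
    obtain ⟨x, _, rfl⟩ := mem_adS_h4.1 hX
    rw [mem_lie]
    intro t
    rw [← map_smul]
    exact hG.exp_ad (t • x)
  · intro X hX Y hY
    obtain ⟨x, hx, rfl⟩ := mem_adS_h4.1 hX
    obtain ⟨y, hy, rfl⟩ := mem_adS_h4.1 hY
    exact mem_adS_h4.2 ⟨⁅x, y⁆, K.lie_mem hx hy, TT_brk x y⟩
  · intro X hX
    obtain ⟨x, hx, rfl⟩ := mem_adS_h4.1 hX
    refine mem_adS_h4.2 ⟨-θ x, neg_mem (hK x hx), ?_⟩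
    rw [TT_transpose_h4 h, map_neg]

theorem adS_sim (h : CartanBasis θ b) {K : LieSubalgebra ℝ L} (hK : LieAlgebra.IsSimple ℝ K) : IsSim (adS b K) := by
  refine ⟨?_, ?_⟩
  · by_contra hcon
    push Not at hcon
    refine hK.non_abelian ⟨fun x y => ?_⟩
    apply Subtype.ext
    exact (TT_comm_iff_h4 h (x : L) (y : L)).1 (hcon _ (mem_adS_h4.2 ⟨x, x.2, rfl⟩) _
      (mem_adS_h4.2 ⟨y, y.2, rfl⟩))
  · intro I hI hI2
    let I' : LieIdeal ℝ K :=
      { carrier := {x : K | TT b (x : L) ∈ I}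
        add_mem' := by
          intro x y hx hy
          change TT b ((x : L) + (y : L)) ∈ I
          rw [map_add]
          exact I.add_mem hx hy
        zero_mem' := by
          change TT b (0 : L) ∈ I
          rw [map_zero]
          exact I.zero_mem
        smul_mem' := by
          intro c x hx
          change TT b (c • (x : L)) ∈ I
          rw [map_smul]
          exact I.smul_mem c hx
        lie_mem := by
          intro x y hy
          change TT b ⁅(x : L), (y : L)⁆ ∈ I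
          rw [TT_brk]
          exact hI2 _ hy _ (mem_adS_h4.2 ⟨x, x.2, rfl⟩) }
    have hmem : ∀ x : K, x ∈ I' ↔ TT b (x : L) ∈ I := fun x => Iff.rfl
    rcases hK.eq_bot_or_eq_top I' with h1 | h1
    · left
      rw [Submodule.eq_bot_iff]
      intro X hX
      obtain ⟨x, hx, rfl⟩ := mem_adS_h4.1 (hI hX)
      have h2 : (⟨x, hx⟩ : K) ∈ I' := (hmem _).2 hX
      rw [h1, LieSubmodule.mem_bot] at h2
      have h3 : x = 0 := congrArg Subtype.val h2
      rw [h3, map_zero]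
    · right
      refine le_antisymm hI fun X hX => ?_
      obtain ⟨x, hx, rfl⟩ := mem_adS_h4.1 hX
      have h2 : (⟨x, hx⟩ : K) ∈ I' := by
        rw [h1]
        exact LieSubmodule.mem_top _
      exact (hmem _).1 h2

theorem adS_noCen (h : CartanBasis θ b) {K : LieSubalgebra ℝ L} (hK : ∀ x ∈ K, (∀ y ∈ K, ⁅x, y⁆ = 0) → x = 0) :
    NoCen (adS b K) := by
  intro X hX _ hc
  obtain ⟨x, hx, rfl⟩ := mem_adS_h4.1 hX
  have h1 : x = 0 := hK x hx fun y hy =>
    (TT_comm_iff_h4 h x y).1 (hc _ (mem_adS_h4.2 ⟨y, hy, rfl⟩))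
  rw [h1, map_zero]

theorem adS_flat (h : CartanBasis θ b) (K : LieSubalgebra ℝ L) :
    ∃ V : Submodule ℝ (Mat M), FlatIn (adS b K) V ∧ Module.finrank ℝ V = rankIn θ K := by
  have hF : Module.Finite ℝ L := Module.Finite.of_basis b
  have h1 : rankIn θ K ∈ {d | ∃ a : Submodule ℝ L, (∀ x ∈ a, x ∈ K) ∧ (∀ x ∈ a, θ x = -x) ∧
      (∀ x ∈ a, ∀ y ∈ a, ⁅x, y⁆ = 0) ∧ Module.finrank ℝ a = d} := by
    refine Nat.sSup_mem ⟨0, ⊥, ?_, ?_, ?_, finrank_bot ℝ L⟩ ⟨Module.finrank ℝ L, ?_⟩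
    · intro x hx
      rw [(Submodule.mem_bot ℝ).1 hx]
      exact K.zero_mem
    · intro x hx
      rw [(Submodule.mem_bot ℝ).1 hx, map_zero, neg_zero]
    · intro x hx y _
      rw [(Submodule.mem_bot ℝ).1 hx, zero_lie]
    · rintro d ⟨a, _, _, _, rfl⟩
      exact Submodule.finrank_le a
  obtain ⟨a, ha1, ha2, ha3, ha4⟩ := h1
  refine ⟨a.map (TT b), ⟨?_, ?_, ?_⟩, ?_⟩
  · rintro _ ⟨x, hx, rfl⟩
    exact mem_adS_h4.2 ⟨x, ha1 x hx, rfl⟩
  · rintro _ ⟨x, hx, rfl⟩
    exact (TT_symm h x).2 (ha2 x hx)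
  · rintro _ ⟨x, hx, rfl⟩ _ ⟨y, hy, rfl⟩
    exact (TT_comm_iff_h4 h x y).2 (ha3 x hx y hy)
  · rw [finrank_map_h4 (TT_inj_h4 h) a, ha4]

end Pool.Agent.Helper43.TA
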