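import Pool.Agent.Helper43.TA.SDef

/-!
# Project TA (MP_0f6f3f_an): the predicate for groups which are not of type A

`SimSl2 G r`: `lie G` contains an `sl(2)`, spanned by `X`, `Xᵀ` and `T = X Xᵀ - Xᵀ X`, such that `T` commutes with a simple subalgebra `s`, closed under transposition, with a flat of dimension `r - 1`.
-/

set_option autoImplicit false

open Matrix

namespace Pool.Agent.Helper43.TA

open Pool.Agent.Helper96.SA

variable {M : ℕ}

/-- There are an `sl(2)`, closed under transposition, and a simple Lie algebra of real rank at least `r - 1` which commutes with the symmetric matrix `T = X Xᵀ - Xᵀ X` of the `sl(2)`. -/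
def SimSl2 (G : Subgroup (GL (Fin M) ℝ)) (r : ℕ) : Prop :=
  ∃ X ∈ lie G, X ≠ 0 ∧ (∃ c : ℝ, 0 < c ∧ (X * Xᵀ - Xᵀ * X) * X - X * (X * Xᵀ - Xᵀ * X) = c • X) ∧
    ∃ s : Submodule ℝ (Mat M), LSub G s ∧ IsSim s ∧ (∀ Y ∈ s, (X * Xᵀ - Xᵀ * X) * Y = Y * (X * Xᵀ - Xᵀ * X)) ∧
      ∃ V : Submodule ℝ (Mat M), FlatIn s V ∧ r ≤ Module.finrank ℝ V + 1

end Pool.Agent.Helper43.TA
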