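import Pool.Agent.Helper43.TA.SDef

/-!
# Block TYA-SEIG: eigenvectors of `ad H`

PROOF. `H = O diagonal d Oᵀ` (spectral theorem, `simDiag` in `Helper96/SA/Diag.lean` for `{H}`, or `spec66` in `GE.lean`). For `Y : Mat M` write `Y^ = Oᵀ Y O`; `(H Y - Y H)^ i j = (d i - d j) Y^ i j` (`hat_comm`). Let `vals` be the finite set of the values `d i - d j`. For `c ∈ vals` let `p_c` be the Lagrange polynomial with `p_c(c) = 1` and `p_c = 0` at the other values
(`Lagrange.interpolate`, as in the proof of `exists_roots` in `Helper96/SA/Root.lean`); `Y_c := aeval (adM H) p_c Y ∈ s` (`aeval_mem`), `Y_c^ i j = Y^ i j` if `d i - d j = c`, and `0` otherwise (`aeval_hat`), so `H Y_c - Y_c H = c • Y_c` (`hat_inj`) and `Y = ∑_c Y_c`. `Y0` is the term for `c = 0` (or `0` if `0 ∉ vals`; `0 ∈ vals` if `M > 0`), `Y1` the sum of the others.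
-/

set_option autoImplicit false

open Matrix Topology Filter

namespace Pool.Agent.Helper43.TA

open Pool.Agent.Helper96.SA Pool.Agent.Helper96.FR

variable {M : ℕ} {s : Submodule ℝ (Mat M)}

theorem eig_decomp (hbrk : ∀ X ∈ s, ∀ Y ∈ s, X * Y - Y * X ∈ s) {H : Mat M} (hH : H ∈ s) (hs : Hᵀ = H)
    (W : Submodule ℝ (Mat M)) (hW : ∀ X ∈ s, ∀ c : ℝ, c ≠ 0 → H * X - X * H = c • X → X ∈ W)
    {Y : Mat M} (hY : Y ∈ s) : ∃ Y0 ∈ s, H * Y0 = Y0 * H ∧ ∃ Y1 ∈ s, Y1 ∈ W ∧ Y = Y0 + Y1 := by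
  classical
  obtain ⟨O, h1, h2, hdiag⟩ := simDiag ({H} : Set (Mat M)) (fun X hX => by
    rw [Set.mem_singleton_iff.1 hX]
    exact hs) (fun X hX Z hZ => by
    rw [Set.mem_singleton_iff.1 hX, Set.mem_singleton_iff.1 hZ])
  obtain ⟨d, hd⟩ := hdiag H rfl
  let vals : Finset ℝ := Finset.univ.image fun kl : Fin M × Fin M => d kl.1 - d kl.2
  let q : ℝ → Polynomial ℝ := fun c => Lagrange.interpolate vals id (fun μ => if μ = c then 1 else 0)
  have hq : ∀ (c : ℝ) (k l : Fin M), (q c).eval (d k - d l) = if d k - d l = c then 1 else 0 := by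
    intro c k l
    have hmem : d k - d l ∈ vals := Finset.mem_image_of_mem (fun kl : Fin M × Fin M => d kl.1 - d kl.2) (Finset.mem_univ (k, l))
    exact Lagrange.eval_interpolate_at_node (s := vals) (v := id) (r := fun μ => if μ = c then (1 : ℝ) else 0)
      (i := d k - d l) (fun a _ b _ h => h) hmem
  have hX : ∀ (c : ℝ) (k l : Fin M), (Oᵀ * (Polynomial.aeval (adM H) (q c) Y) * O) k l =
      if d k - d l = c then (Oᵀ * Y * O) k l else 0 := by
    intro c k l
    have e := aeval_hat h1 (d := d) (q c) Y k l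
    rw [← hd] at e
    rw [e, hq]
    split_ifs <;> simp
  have hms : ∀ c, Polynomial.aeval (adM H) (q c) Y ∈ s := fun c =>
    aeval_mem (fun Z hZ => hbrk H hH Z hZ) (q c) Y hY
  have heig : ∀ c, H * Polynomial.aeval (adM H) (q c) Y - Polynomial.aeval (adM H) (q c) Y * H =
      c • Polynomial.aeval (adM H) (q c) Y := by
    intro c
    apply hat_inj h2
    intro k l
    have e := hat_comm h1 (d := d) (Polynomial.aeval (adM H) (q c) Y) k l
    rw [← hd] at e
    rw [e, Matrix.mul_smul, Matrix.smul_mul, Matrix.smul_apply, smul_eq_mul, hX]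
    split_ifs with h
    · rw [h]
    · rw [mul_zero, mul_zero]
  refine ⟨Polynomial.aeval (adM H) (q 0) Y, hms 0, ?_, ∑ c ∈ vals.erase 0, Polynomial.aeval (adM H) (q c) Y,
    s.sum_mem fun c _ => hms c, W.sum_mem fun c hc => hW _ (hms c) c (Finset.ne_of_mem_erase hc) (heig c), ?_⟩
  · have h := heig 0
    rw [zero_smul, sub_eq_zero] at h
    exact h
  · apply hat_inj h2
    intro k l
    have e : (Oᵀ * (Polynomial.aeval (adM H) (q 0) Y + ∑ c ∈ vals.erase 0, Polynomial.aeval (adM H) (q c) Y) * O) k l =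
        (Oᵀ * (Polynomial.aeval (adM H) (q 0) Y) * O) k l +
          ∑ c ∈ vals.erase 0, (Oᵀ * (Polynomial.aeval (adM H) (q c) Y) * O) k l := by
      rw [Matrix.mul_add, Matrix.add_mul, Matrix.add_apply, Matrix.mul_sum, Matrix.sum_mul, Matrix.sum_apply]
    rw [e, hX, Finset.sum_congr rfl fun c _ => hX c k l, Finset.sum_ite_eq]
    have hmem : d k - d l ∈ vals := Finset.mem_image_of_mem (fun kl : Fin M × Fin M => d kl.1 - d kl.2) (Finset.mem_univ (k, l))
    by_cases h : d k - d l = 0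
    · rw [if_pos h, if_neg (fun h3 => Finset.ne_of_mem_erase h3 h), add_zero]
    · rw [if_neg h, if_pos (Finset.mem_erase.2 ⟨h, hmem⟩), zero_add]

end Pool.Agent.Helper43.TA
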