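import Pool.Agent.Helper43.TA.SRoot
import Pool.Agent.Helper43.TA.SEig

/-!
# Block TYA-SMAUT: simple Lie algebras have the Mautner property

`ctr_root`. PROOF. `(a ^ m)⁻¹ b a ^ m = ex (t e^(-m c) X)` in `GL` (compute as `conj66`, `gconj66` in `Helper96/SA/GE.lean`, with `c`), which tends to `1` if `c > 0` (`tend66`); for `c < 0` use `a ^ m b (a ^ m)⁻¹ = ex (t e^(m c) X)`. `tendsto_subtype_rng` for the group `↥G`. `b` commutes with `F`: `ex_commute`, `hF`.
`mautner_lie`. Let `K := (Subgroup.closure (Ctr F a)).topologicalClosure` in `↥G` (`Mt F a` is its carrier), `K' := K.map G.subtype`, closed in `GL` (closed in the closed `G`), `lie K'` is a submodule (`lie_submodule`), closed under brackets (`lie_bracket`). (1) `X ∈ s`, `[H, X] = c X`, `c ≠ 0`: `X ∈ lie K'` by `ctr_root`.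
(2) Let `Y0 ∈ s`, `[H, Y0] = 0`, `y = ex (t Y0) ∈ G`; `y` commutes with `a = ex H` and with `F`, so conjugation by `y` preserves `Ctr F a` (continuity of conjugation, `y 1 y⁻¹ = 1`), hence the generated group and its closure `K`. So for `X ∈ lie K'`: `y X y⁻¹ ∈ lie K'` (`ex_conj`), for all `t`, and `(y X y⁻¹ - X) / t → Y0 X - X Y0 ∈ lie K'` (a submodule of a
finite-dimensional space is closed; the derivative is computed in the proof of `lie_bracket` in `Helper96/SA/Lie.lean`, lemma `slope43`: copy). (3) So `I := L ⊓ s` (`L` the submodule of `lie K'`) satisfies: `[Y, X] ∈ I` for `X ∈ I`, `Y ∈ s` (`eig_decomp` with `W = L`: `Y = Y0 + Y1`). `I ≠ ⊥`: otherwise all `Y ∈ s` commute with `H` (`eig_decomp` with `W = L`, `Y1 ∈ I`), so `H = 0` by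
`noCen_of_sim`. So `I = s` and `s ≤ lie K'`, in particular `ex Y ∈ K'`.
-/

set_option autoImplicit false

open Matrix Topology Filter

namespace Pool.Agent.Helper43.TA

open Pool.Agent.Helper96.SA Pool.Agent.Helper96.FR

variable {M : ℕ} {G : Subgroup (GL (Fin M) ℝ)} {s : Submodule ℝ (Mat M)}

/-- the spectral theorem -/
private theorem spec32 {H : Mat M} (hs : Hᵀ = H) : ∃ (O : Mat M) (d : Fin M → ℝ), Oᵀ * O = 1 ∧ O * Oᵀ = 1 ∧
    H = O * diagonal d * Oᵀ := by
  have hH : H.IsHermitian := by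
    unfold Matrix.IsHermitian
    rw [Matrix.conjTranspose_eq_transpose_of_trivial, hs]
  refine ⟨hH.eigenvectorUnitary, hH.eigenvalues, ?_, ?_, ?_⟩
  · have h := Unitary.coe_star_mul_self hH.eigenvectorUnitary
    rwa [Matrix.star_eq_conjTranspose, Matrix.conjTranspose_eq_transpose_of_trivial] at h
  · have h := Unitary.coe_mul_star_self hH.eigenvectorUnitary
    rwa [Unitary.coe_star, Matrix.star_eq_conjTranspose, Matrix.conjTranspose_eq_transpose_of_trivial] at h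
  · have h := hH.spectral_theorem
    rw [Unitary.conjStarAlgAut_apply, Matrix.star_eq_conjTranspose,
      Matrix.conjTranspose_eq_transpose_of_trivial] at h
    exact h

private theorem smul_spec32 (O : Mat M) (d : Fin M → ℝ) (t : ℝ) :
    t • (O * diagonal d * Oᵀ) = O * diagonal (fun i => t * d i) * Oᵀ := by
  have e : diagonal (fun i => t * d i) = t • diagonal d := by
    rw [← Matrix.diagonal_smul]
    rfl
  rw [e, Matrix.mul_smul, Matrix.smul_mul]

/-- conjugation by the exponential -/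
private theorem conj32 {H X : Mat M} (hs : Hᵀ = H) (h : H * X - X * H = X) (t : ℝ) :
    NormedSpace.exp (-(t • H)) * X * NormedSpace.exp (t • H) = Real.exp (-t) • X := by
  obtain ⟨O, d, h1, h2, rfl⟩ := spec32 hs
  have e1 : -(t • (O * diagonal d * Oᵀ)) = O * diagonal (fun i => -t * d i) * Oᵀ := by
    rw [← neg_smul, smul_spec32]
  rw [e1, smul_spec32, exp_diag O h1 h2, exp_diag O h1 h2]
  -- in the basis of eigenvectors
  have key : diagonal (fun i => Real.exp (-t * d i)) * (Oᵀ * X * O) * diagonal (fun i => Real.exp (t * d i)) =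
      Real.exp (-t) • (Oᵀ * X * O) := by
    have h3 : diagonal d * (Oᵀ * X * O) - (Oᵀ * X * O) * diagonal d = Oᵀ * X * O := by
      have h4 : Oᵀ * (O * diagonal d * Oᵀ * X - X * (O * diagonal d * Oᵀ)) * O = Oᵀ * X * O := by rw [h]
      refine Eq.trans ?_ h4
      rw [Matrix.mul_sub, Matrix.sub_mul]
      congr 1
      · calc diagonal d * (Oᵀ * X * O) = 1 * diagonal d * Oᵀ * X * O := by
              rw [Matrix.one_mul]; simp only [Matrix.mul_assoc]
          _ = Oᵀ * O * diagonal d * Oᵀ * X * O := by rw [h1]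
          _ = _ := by simp only [Matrix.mul_assoc]
      · calc Oᵀ * X * O * diagonal d = Oᵀ * X * O * diagonal d * 1 := by rw [Matrix.mul_one]
          _ = Oᵀ * X * O * diagonal d * (Oᵀ * O) := by rw [h1]
          _ = _ := by simp only [Matrix.mul_assoc]
    ext i j
    have h5 := congrFun (congrFun h3 i) j
    rw [Matrix.sub_apply, Matrix.diagonal_mul, Matrix.mul_diagonal] at h5
    rw [Matrix.mul_diagonal, Matrix.diagonal_mul, Matrix.smul_apply, smul_eq_mul]
    set y := (Oᵀ * X * O) i j with hy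
    by_cases hy0 : y = 0
    · rw [hy0]
      ring
    · have h6 : d i - d j = 1 := by
        have : (d i - d j) * y = 1 * y := by linarith
        exact mul_right_cancel₀ hy0 this
      have h7 : Real.exp (-t * d i) * y * Real.exp (t * d j) = Real.exp (-t * d i + t * d j) * y := by
        rw [Real.exp_add]
        ring
      rw [h7]
      congr 2
      have : d i = d j + 1 := by linarith
      rw [this]
      ring
  calc O * diagonal (fun i => Real.exp (-t * d i)) * Oᵀ * X * (O * diagonal (fun i => Real.exp (t * d i)) * Oᵀ) =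
      O * (diagonal (fun i => Real.exp (-t * d i)) * (Oᵀ * X * O) * diagonal (fun i => Real.exp (t * d i))) * Oᵀ := by
        simp only [Matrix.mul_assoc]
    _ = O * (Real.exp (-t) • (Oᵀ * X * O)) * Oᵀ := by rw [key]
    _ = Real.exp (-t) • (O * Oᵀ * X * (O * Oᵀ)) := by
        rw [Matrix.mul_smul, Matrix.smul_mul]
        simp only [Matrix.mul_assoc]
    _ = Real.exp (-t) • X := by rw [h2, Matrix.one_mul, Matrix.mul_one]

private theorem conjc32 {H X : Mat M} (hs : Hᵀ = H) {c : ℝ} (hc : c ≠ 0) (h : H * X - X * H = c • X) (t : ℝ) :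
    NormedSpace.exp (-(t • H)) * X * NormedSpace.exp (t • H) = Real.exp (-(t * c)) • X := by
  have h1 : (c⁻¹ • H)ᵀ = c⁻¹ • H := by rw [Matrix.transpose_smul, hs]
  have h2 : (c⁻¹ • H) * X - X * (c⁻¹ • H) = X := by
    rw [Matrix.smul_mul, Matrix.mul_smul, ← smul_sub, h, smul_smul, inv_mul_cancel₀ hc, one_smul]
  have h3 := conj32 h1 h2 (t * c)
  have h4 : (t * c) • (c⁻¹ • H) = t • H := by
    rw [smul_smul, mul_assoc, mul_inv_cancel₀ hc, mul_one]
  rwa [h4] at h3

private theorem gconjc32 {H X : Mat M} (hs : Hᵀ = H) {c : ℝ} (hc : c ≠ 0) (h : H * X - X * H = c • X) (t : ℝ) (m : ℕ) :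
    (ex H ^ m)⁻¹ * ex (t • X) * ex H ^ m = ex ((t * Real.exp (-((m : ℝ) * c))) • X) := by
  have h1 := ex_conj ((ex H ^ m)⁻¹) (t • X)
  rw [inv_inv] at h1
  rw [← h1]
  congr 1
  have e1 : ((ex H ^ m : GL (Fin M) ℝ) : Mat M) = NormedSpace.exp ((m : ℝ) • H) := by
    rw [← ex_nsmul, ex_coe]
  have e2 : (((ex H ^ m)⁻¹ : GL (Fin M) ℝ) : Mat M) = NormedSpace.exp (-((m : ℝ) • H)) := by
    rw [← ex_nsmul, ← ex_neg, ex_coe]
  rw [e1, e2, Matrix.mul_smul, Matrix.smul_mul, conjc32 hs hc h, smul_smul]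

private theorem gconjd32 {H X : Mat M} (hs : Hᵀ = H) {c : ℝ} (hc : c ≠ 0) (h : H * X - X * H = c • X) (t : ℝ) (m : ℕ) :
    ex H ^ m * ex (t • X) * (ex H ^ m)⁻¹ = ex ((t * Real.exp ((m : ℝ) * c)) • X) := by
  have h1 := ex_conj (ex H ^ m) (t • X)
  rw [← h1]
  congr 1
  have e1 : ((ex H ^ m : GL (Fin M) ℝ) : Mat M) = NormedSpace.exp ((m : ℝ) • H) := by
    rw [← ex_nsmul, ex_coe]
  have e2 : (((ex H ^ m)⁻¹ : GL (Fin M) ℝ) : Mat M) = NormedSpace.exp (-((m : ℝ) • H)) := by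
    rw [← ex_nsmul, ← ex_neg, ex_coe]
  have e3 := conjc32 hs hc h (-(m : ℝ))
  rw [neg_smul, neg_neg, neg_mul, neg_neg] at e3
  rw [e1, e2, Matrix.mul_smul, Matrix.smul_mul, e3, smul_smul]

private theorem tendc32 (X : Mat M) (t : ℝ) {c : ℝ} (hc : 0 < c) :
    Tendsto (fun m : ℕ => ex ((t * Real.exp (-((m : ℝ) * c))) • X)) atTop (𝓝 1) := by
  have h1 : Tendsto (fun m : ℕ => (t * Real.exp (-((m : ℝ) * c))) • X) atTop (𝓝 ((t * 0) • X)) := by
    refine Tendsto.smul_const (Tendsto.const_mul t ?_) X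
    exact (Real.tendsto_exp_neg_atTop_nhds_zero).comp (tendsto_natCast_atTop_atTop.atTop_mul_const hc)
  rw [mul_zero, zero_smul] at h1
  have h2 := (continuous_ex.tendsto (0 : Mat M)).comp h1
  rwa [ex_zero] at h2

theorem ctr_root {F : Subgroup G} {H X : Mat M} (hH : Hᵀ = H) {a b : G} (ha : (a : GL (Fin M) ℝ) = ex H)
    (hF : ∀ f ∈ F, ((f : GL (Fin M) ℝ) : Mat M) * X = X * ((f : GL (Fin M) ℝ) : Mat M)) {c : ℝ} (hc : c ≠ 0)
    (h : H * X - X * H = c • X) {t : ℝ} (hb : (b : GL (Fin M) ℝ) = ex (t • X)) : b ∈ Ctr (F : Set G) a := by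
  refine ⟨fun f hf => ?_, ?_⟩
  · refine Subtype.ext ?_
    rw [Subgroup.coe_mul, Subgroup.coe_mul, hb]
    refine ex_commute ?_
    rw [Matrix.mul_smul, Matrix.smul_mul, hF f hf]
  · rcases lt_or_gt_of_ne hc with hneg | hpos
    · right
      rw [tendsto_subtype_rng]
      refine (tendc32 X t (neg_pos.2 hneg)).congr fun m => ?_
      rw [Subgroup.coe_mul, Subgroup.coe_mul, Subgroup.coe_inv, Subgroup.coe_pow, ha, hb, gconjd32 hH hc h, mul_neg, neg_neg]
    · left
      rw [tendsto_subtype_rng]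
      refine (tendc32 X t hpos).congr fun m => ?_
      rw [Subgroup.coe_mul, Subgroup.coe_mul, Subgroup.coe_inv, Subgroup.coe_pow, ha, hb, gconjc32 hH hc h]

private theorem slope32 (X Y : Mat M) :
    Tendsto (fun t : ℝ => t⁻¹ • (NormedSpace.exp (t • X) * Y * NormedSpace.exp (t • (-X)) - Y)) (𝓝[≠] 0)
      (𝓝 (X * Y - Y * X)) := by
  open scoped Matrix.Norms.Operator in
  have h1 : HasDerivAt (fun t : ℝ => NormedSpace.exp (t • X)) (X * NormedSpace.exp ((0 : ℝ) • X)) 0 :=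
    hasDerivAt_exp_smul_const' X 0
  have h2 : HasDerivAt (fun t : ℝ => NormedSpace.exp (t • (-X))) (-X * NormedSpace.exp ((0 : ℝ) • (-X))) 0 :=
    hasDerivAt_exp_smul_const' (-X) 0
  have h3 := (h1.mul_const Y).mul h2
  have h4 := hasDerivAt_iff_tendsto_slope_zero.1 h3
  have e1 : X * NormedSpace.exp ((0 : ℝ) • X) * Y * NormedSpace.exp ((0 : ℝ) • (-X)) +
      NormedSpace.exp ((0 : ℝ) • X) * Y * (-X * NormedSpace.exp ((0 : ℝ) • (-X))) = X * Y - Y * X := by
    rw [zero_smul, zero_smul, NormedSpace.exp_zero, mul_one, mul_one, mul_one, one_mul, mul_neg, sub_eq_add_neg]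
  rw [e1] at h4
  refine h4.congr fun t => ?_
  simp only [zero_add, zero_smul, NormedSpace.exp_zero, one_mul, mul_one, Pi.mul_apply]

/-- conjugation preserves the contracted elements -/
private theorem ctrconj32 {F : Subgroup G} {a y : G} (hya : y * a = a * y) (hyF : ∀ f ∈ F, f * y = y * f) {u : G}
    (hu : u ∈ Ctr (F : Set G) a) : y * u * y⁻¹ ∈ Ctr (F : Set G) a := by
  have hpow : ∀ m : ℕ, y * a ^ m = a ^ m * y := fun m => (Commute.pow_right (show Commute y a from hya) m).eq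
  have hlim : Tendsto (fun x : G => y * x * y⁻¹) (𝓝 1) (𝓝 1) := by
    have h1 : Continuous fun x : G => y * x * y⁻¹ := by fun_prop
    have h2 := h1.tendsto 1
    rwa [mul_one, mul_inv_cancel] at h2
  refine ⟨fun f hf => ?_, ?_⟩
  · have h1 := hyF f hf
    have h2 := hu.1 f hf
    have h3 : f * y⁻¹ = y⁻¹ * f := by
      rw [eq_inv_mul_iff_mul_eq, ← mul_assoc, ← h1, mul_assoc, mul_inv_cancel, mul_one]
    calc f * (y * u * y⁻¹) = (f * y) * u * y⁻¹ := by simp only [mul_assoc]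
      _ = y * (f * u) * y⁻¹ := by rw [h1]; simp only [mul_assoc]
      _ = y * u * (f * y⁻¹) := by rw [h2]; simp only [mul_assoc]
      _ = y * u * y⁻¹ * f := by rw [h3]; simp only [mul_assoc]
  · have hinv : ∀ m : ℕ, y * (a ^ m)⁻¹ = (a ^ m)⁻¹ * y := fun m => by
      rw [eq_inv_mul_iff_mul_eq, ← mul_assoc, ← hpow, mul_assoc, mul_inv_cancel, mul_one]
    have hpow' : ∀ m : ℕ, y⁻¹ * a ^ m = a ^ m * y⁻¹ := fun m => by
      rw [inv_mul_eq_iff_eq_mul, ← mul_assoc, hpow, mul_assoc, mul_inv_cancel, mul_one]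
    have hinv' : ∀ m : ℕ, y⁻¹ * (a ^ m)⁻¹ = (a ^ m)⁻¹ * y⁻¹ := fun m => by
      rw [inv_mul_eq_iff_eq_mul, ← mul_assoc, hinv, mul_assoc, mul_inv_cancel, mul_one]
    rcases hu.2 with h | h
    · left
      refine (hlim.comp h).congr fun m => ?_
      change y * ((a ^ m)⁻¹ * u * a ^ m) * y⁻¹ = (a ^ m)⁻¹ * (y * u * y⁻¹) * a ^ m
      calc y * ((a ^ m)⁻¹ * u * a ^ m) * y⁻¹ = (y * (a ^ m)⁻¹) * u * (a ^ m * y⁻¹) := by simp only [mul_assoc]
        _ = (a ^ m)⁻¹ * (y * u * y⁻¹) * a ^ m := by rw [hinv, ← hpow']; simp only [mul_assoc]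
    · right
      refine (hlim.comp h).congr fun m => ?_
      change y * (a ^ m * u * (a ^ m)⁻¹) * y⁻¹ = a ^ m * (y * u * y⁻¹) * (a ^ m)⁻¹
      calc y * (a ^ m * u * (a ^ m)⁻¹) * y⁻¹ = (y * a ^ m) * u * ((a ^ m)⁻¹ * y⁻¹) := by simp only [mul_assoc]
        _ = a ^ m * (y * u * y⁻¹) * (a ^ m)⁻¹ := by rw [hpow, ← hinv']; simp only [mul_assoc]

theorem mautner_lie (hG : IsClosed (G : Set (GL (Fin M) ℝ))) (hs : LSub G s) (hsim : IsSim s)
    {F : Subgroup G} (hF : ∀ f ∈ F, ∀ Y ∈ s, ((f : GL (Fin M) ℝ) : Mat M) * Y = Y * ((f : GL (Fin M) ℝ) : Mat M))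
    {H : Mat M} (hH : H ∈ s) (hH1 : Hᵀ = H) (hH0 : H ≠ 0) {a b : G} (ha : (a : GL (Fin M) ℝ) = ex H)
    {Y : Mat M} (hY : Y ∈ s) (hb : (b : GL (Fin M) ℝ) = ex Y) : b ∈ Mt (F : Set G) a := by
  obtain ⟨C, hC⟩ : ∃ C : Subgroup G, C = Subgroup.closure (Ctr (F : Set G) a) := ⟨_, rfl⟩
  obtain ⟨K, hK⟩ : ∃ K : Subgroup G, K = C.topologicalClosure := ⟨_, rfl⟩
  obtain ⟨K', hK'⟩ : ∃ K' : Subgroup (GL (Fin M) ℝ), K' = K.map G.subtype := ⟨_, rfl⟩
  have hmemK : ∀ x : G, (x : GL (Fin M) ℝ) ∈ K' ↔ x ∈ K := by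
    intro x
    rw [hK', Subgroup.mem_map]
    constructor
    · rintro ⟨z, hz, hzx⟩
      have : z = x := Subtype.ext hzx
      rwa [← this]
    · intro hx
      exact ⟨x, hx, rfl⟩
  have hKc : IsClosed (K : Set G) := by
    rw [hK]
    exact C.isClosed_topologicalClosure
  have hK'c : IsClosed (K' : Set (GL (Fin M) ℝ)) := by
    have h1 := hG.isClosedEmbedding_subtypeVal.isClosedMap (K : Set G) hKc
    have h2 : (K' : Set (GL (Fin M) ℝ)) = Subtype.val '' (K : Set G) := by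
      rw [hK', Subgroup.coe_map]
      rfl
    rw [h2]
    exact h1
  have hCK : ∀ x ∈ C, x ∈ K := by
    intro x hx
    rw [hK]
    exact C.le_topologicalClosure hx
  have hexG : ∀ X ∈ s, ∀ t : ℝ, ex (t • X) ∈ G := fun X hX t => mem_lie.1 (hs.mem X hX) t
  obtain ⟨L, hL⟩ := lie_submodule hK'c
  have hLm : ∀ Z, Z ∈ L ↔ Z ∈ lie K' := fun Z => by rw [← hL]; rfl
  -- step 1
  have h1 : ∀ X ∈ s, ∀ c : ℝ, c ≠ 0 → H * X - X * H = c • X → X ∈ L := by
    intro X hX c hc hroot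
    rw [hLm, mem_lie]
    intro t
    have h2 : (⟨ex (t • X), hexG X hX t⟩ : G) ∈ C := by
      rw [hC]
      exact Subgroup.subset_closure (ctr_root hH1 ha (fun f hf => hF f hf X hX) hc hroot rfl)
    exact (hmemK ⟨ex (t • X), hexG X hX t⟩).2 (hCK _ h2)
  -- step 2
  have h2 : ∀ Y0 ∈ s, H * Y0 = Y0 * H → ∀ X ∈ L, Y0 * X - X * Y0 ∈ L := by
    intro Y0 hY0 hcomm X hX
    have hLc : IsClosed (L : Set (Mat M)) := L.closed_of_finiteDimensional
    refine hLc.mem_of_tendsto (slope32 Y0 X) (Eventually.of_forall fun t => ?_)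
    refine L.smul_mem _ (L.sub_mem ?_ hX)
    obtain ⟨y, hy⟩ : ∃ y : G, (y : GL (Fin M) ℝ) = ex (t • Y0) := ⟨⟨ex (t • Y0), hexG Y0 hY0 t⟩, rfl⟩
    have hya : y * a = a * y := by
      refine Subtype.ext ?_
      rw [Subgroup.coe_mul, Subgroup.coe_mul, hy, ha]
      refine ex_commute ?_
      rw [ex_coe]
      exact (Commute.exp_left (show Commute (t • Y0) H from by
        change t • Y0 * H = H * (t • Y0)
        rw [Matrix.smul_mul, Matrix.mul_smul, hcomm])).eq
    have hyF : ∀ f ∈ F, f * y = y * f := by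
      intro f hf
      refine Subtype.ext ?_
      rw [Subgroup.coe_mul, Subgroup.coe_mul, hy]
      refine ex_commute ?_
      rw [Matrix.mul_smul, Matrix.smul_mul, hF f hf Y0 hY0]
    have hconjC : ∀ x ∈ C, y * x * y⁻¹ ∈ C := by
      intro x hx
      have h3 : C.map (MulAut.conj y).toMonoidHom ≤ C := by
        rw [hC, MonoidHom.map_closure, Subgroup.closure_le]
        rintro _ ⟨u, hu, rfl⟩
        exact Subgroup.subset_closure (ctrconj32 hya hyF hu)
      exact h3 ⟨x, hx, rfl⟩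
    have hconjK : ∀ x ∈ K, y * x * y⁻¹ ∈ K := by
      intro x hx
      rw [hK] at hx ⊢
      have h4 : Continuous fun x : G => y * x * y⁻¹ := by fun_prop
      exact map_mem_closure (f := fun x : G => y * x * y⁻¹) h4 hx hconjC
    have h5 : (ex (t • Y0) : GL (Fin M) ℝ) * X * ((ex (t • Y0))⁻¹ : GL (Fin M) ℝ) ∈ L := by
      rw [hLm, mem_lie]
      intro r
      have e : r • ((ex (t • Y0) : GL (Fin M) ℝ) * X * ((ex (t • Y0))⁻¹ : GL (Fin M) ℝ)) =
          ((ex (t • Y0) : GL (Fin M) ℝ) : Mat M) * (r • X) * (((ex (t • Y0))⁻¹ : GL (Fin M) ℝ) : Mat M) := by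
        rw [mul_smul_comm, smul_mul_assoc]
      rw [e, ex_conj, ← hy]
      have h6 : ex (r • X) ∈ K' := mem_lie.1 ((hLm X).1 hX) r
      have h7 : ex (r • X) ∈ G := by
        rw [hK', Subgroup.mem_map] at h6
        obtain ⟨z, _, hz⟩ := h6
        rw [← hz]
        exact z.2
      have h8 : (⟨ex (r • X), h7⟩ : G) ∈ K := (hmemK ⟨ex (r • X), h7⟩).1 h6
      exact (hmemK _).2 (hconjK _ h8)
    rw [← ex_neg, ex_coe, ex_coe, ← smul_neg] at h5
    exact h5
  -- step 3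
  have h3 : ∀ X ∈ L ⊓ s, ∀ Z ∈ s, Z * X - X * Z ∈ L ⊓ s := by
    intro X hX Z hZ
    refine Submodule.mem_inf.2 ⟨?_, hs.brk Z hZ X (Submodule.mem_inf.1 hX).2⟩
    obtain ⟨Y0, hY0, hc0, Y1, hY1, hY1L, hZe⟩ := eig_decomp hs.brk hH hH1 L h1 hZ
    have e : Z * X - X * Z = (Y0 * X - X * Y0) + (Y1 * X - X * Y1) := by
      rw [hZe, Matrix.add_mul, Matrix.mul_add]
      abel
    rw [e]
    refine L.add_mem (h2 Y0 hY0 hc0 X (Submodule.mem_inf.1 hX).1) ?_
    rw [hLm]
    exact lie_bracket hK'c ((hLm _).1 hY1L) ((hLm _).1 (Submodule.mem_inf.1 hX).1)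
  have h4 : L ⊓ s = s := by
    rcases hsim.ideal (L ⊓ s) inf_le_right h3 with h | h
    · exfalso
      apply hH0
      refine noCen_of_sim hsim H hH hH1 fun Z hZ => ?_
      obtain ⟨Y0, hY0, hc0, Y1, hY1, hY1L, hZe⟩ := eig_decomp hs.brk hH hH1 L h1 hZ
      have h5 : Y1 ∈ L ⊓ s := Submodule.mem_inf.2 ⟨hY1L, hY1⟩
      rw [h, Submodule.mem_bot] at h5
      rw [hZe, h5, add_zero, hc0]
    · exact h
  have h5 : Y ∈ L := by
    have : Y ∈ L ⊓ s := by rw [h4]; exact hY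
    exact (Submodule.mem_inf.1 this).1
  have h6 := mem_lie.1 ((hLm Y).1 h5) 1
  rw [one_smul, ← hb] at h6
  have h7 := (hmemK b).1 h6
  rw [hK, hC] at h7
  exact h7

end Pool.Agent.Helper43.TA
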