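import Pool.Agent.Helper43.TA.SDef

/-!
# Block TYA-SROOT: roots of a Lie subalgebra

PROOFS. `noCen_of_sim`: the matrices in `s` which commute with `s` form a submodule `I ≤ s` with `Y X - X Y = 0 ∈ I`; `I = s` contradicts `ne`, so `I = ⊥`.
`exists_maxFlatIn`: among the submodules `V'` with `V ≤ V'` and `FlatIn s V'` take one of maximal dimension (dimensions are `≤ finrank (Mat M)`); for `Y` as in the claim `V' ⊔ span {Y}` is again flat (see `exists_maxFlat` in `Helper96/SA/Rank.lean`).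
`exists_roots'`, `sl2_of_root'`: copy the proofs of `exists_roots` (`Helper96/SA/Root.lean`) and `sl2_of_root` (`Helper96/SA/Root2.lean`) with `s` for `lie G` (`lie_submodule`, `lie_bracket` are replaced by `s` itself and `hs.brk`).
-/

set_option autoImplicit false

open Matrix Topology Filter

namespace Pool.Agent.Helper43.TA

open Pool.Agent.Helper96.SA Pool.Agent.Helper96.FR

variable {M : ℕ} {G : Subgroup (GL (Fin M) ℝ)} {s : Submodule ℝ (Mat M)}

theorem noCen_of_sim (hsim : IsSim s) : NoCen s := by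
  intro X hX _ hXc
  let I : Submodule ℝ (Mat M) :=
    { carrier := {Z | Z ∈ s ∧ ∀ Y ∈ s, Z * Y = Y * Z}
      add_mem' := by
        rintro A B ⟨hA, hA'⟩ ⟨hB, hB'⟩
        refine ⟨s.add_mem hA hB, fun Y hY => ?_⟩
        rw [Matrix.add_mul, Matrix.mul_add, hA' Y hY, hB' Y hY]
      zero_mem' := ⟨s.zero_mem, fun Y _ => by rw [Matrix.zero_mul, Matrix.mul_zero]⟩
      smul_mem' := by
        rintro c A ⟨hA, hA'⟩
        refine ⟨s.smul_mem c hA, fun Y hY => ?_⟩
        rw [Matrix.smul_mul, Matrix.mul_smul, hA' Y hY] }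
  have hI : ∀ Z, Z ∈ I ↔ Z ∈ s ∧ ∀ Y ∈ s, Z * Y = Y * Z := fun Z => Iff.rfl
  have hIs : I ≤ s := fun Z hZ => ((hI Z).1 hZ).1
  have hid : ∀ Z ∈ I, ∀ Y ∈ s, Y * Z - Z * Y ∈ I := by
    intro Z hZ Y hY
    have h1 := ((hI Z).1 hZ).2 Y hY
    rw [h1, sub_self]
    exact I.zero_mem
  have hXI : X ∈ I := (hI X).2 ⟨hX, hXc⟩
  rcases hsim.ideal I hIs hid with h | h
  · rw [h, Submodule.mem_bot] at hXI
    exact hXI
  · exfalso
    obtain ⟨A, hA, B, hB, hAB⟩ := hsim.ne
    rw [← h] at hA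
    exact hAB (((hI A).1 hA).2 B hB)

theorem exists_maxFlatIn {V : Submodule ℝ (Mat M)} (hV : FlatIn s V) : ∃ V' : Submodule ℝ (Mat M), V ≤ V' ∧ FlatIn s V' ∧
    ∀ Y ∈ s, Yᵀ = Y → (∀ H ∈ V', Y * H = H * Y) → Y ∈ V' := by
  have hbdd : BddAbove {d | ∃ V' : Submodule ℝ (Mat M), V ≤ V' ∧ FlatIn s V' ∧ Module.finrank ℝ V' = d} := by
    refine ⟨Module.finrank ℝ (Mat M), ?_⟩
    rintro d ⟨V', -, -, rfl⟩
    exact Submodule.finrank_le V'
  have hne : {d | ∃ V' : Submodule ℝ (Mat M), V ≤ V' ∧ FlatIn s V' ∧ Module.finrank ℝ V' = d}.Nonempty :=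
    ⟨_, V, le_rfl, hV, rfl⟩
  obtain ⟨V', hVV', hV', hr⟩ := Nat.sSup_mem hne hbdd
  refine ⟨V', hVV', hV', fun Y hY hYs hYc => ?_⟩
  have hW : FlatIn s (V' ⊔ Submodule.span ℝ {Y}) := by
    have hdec : ∀ X ∈ V' ⊔ Submodule.span ℝ {Y}, ∃ v ∈ V', ∃ c : ℝ, X = v + c • Y := by
      intro X hX
      obtain ⟨v, hv, w, hw, rfl⟩ := Submodule.mem_sup.1 hX
      obtain ⟨c, rfl⟩ := Submodule.mem_span_singleton.1 hw
      exact ⟨v, hv, c, rfl⟩
    refine ⟨fun X hX => ?_, fun X hX => ?_, fun X hX X' hX' => ?_⟩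
    · obtain ⟨v, hv, c, rfl⟩ := hdec X hX
      exact s.add_mem (hV'.le hv) (s.smul_mem c hY)
    · obtain ⟨v, hv, c, rfl⟩ := hdec X hX
      rw [transpose_add, transpose_smul, hYs, hV'.symm v hv]
    · obtain ⟨v, hv, c, rfl⟩ := hdec X hX
      obtain ⟨v', hv', c', rfl⟩ := hdec X' hX'
      have e1 := hYc v hv
      have e2 := hYc v' hv'
      have e3 := hV'.comm v hv v' hv'
      rw [add_mul, add_mul, mul_add, mul_add, mul_add, mul_add, smul_mul_assoc, smul_mul_assoc, smul_mul_assoc,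
        smul_mul_assoc, mul_smul_comm, mul_smul_comm, mul_smul_comm, mul_smul_comm, e3, e1, e2, smul_comm c c' (Y * Y)]
      abel
  have hle : Module.finrank ℝ (V' ⊔ Submodule.span ℝ {Y} : Submodule ℝ (Mat M)) ≤ Module.finrank ℝ V' := by
    rw [hr]
    exact le_csSup hbdd ⟨_, hVV'.trans le_sup_left, hW, rfl⟩
  have heq : V' = V' ⊔ Submodule.span ℝ {Y} := Submodule.eq_of_le_of_finrank_le le_sup_left hle
  rw [heq]
  exact Submodule.mem_sup_right (Submodule.mem_span_singleton_self Y)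

theorem exists_roots' (hs : LSub G s) (hsemi : NoCen s) {V : Submodule ℝ (Mat M)} (hV : FlatIn s V) :
    ∃ H X : Fin (Module.finrank ℝ V) → Mat M, (∀ i, H i ∈ V) ∧ (∀ i, X i ∈ s) ∧ (∀ i, X i ≠ 0) ∧
      (∀ i j, H i * X j - X j * H i = if i = j then X j else 0) ∧
      ∀ i, ∀ H' ∈ V, ∃ c : ℝ, H' * X i - X i * H' = c • X i := by
  classical
  set L : Submodule ℝ (Mat M) := s with hL
  have hLm : ∀ Y, Y ∈ L ↔ Y ∈ s := fun Y => Iff.rfl
  obtain ⟨O, h1, h2, hdiag⟩ := simDiag (V : Set (Mat M)) hV.symm hV.comm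
  -- elements of `V` are diagonal
  have hd : ∀ H ∈ V, H = O * diagonal (fun i => cf O i H) * Oᵀ := by
    intro H hH
    obtain ⟨d, hd⟩ := hdiag H hH
    have e : (fun i => cf O i H) = d := by
      funext i
      show (Oᵀ * H * O) i i = d i
      have e1 : Oᵀ * H * O = diagonal d := by
        rw [hd]
        calc Oᵀ * (O * diagonal d * Oᵀ) * O = (Oᵀ * O) * diagonal d * (Oᵀ * O) := by simp only [Matrix.mul_assoc]
          _ = diagonal d := by rw [h1, Matrix.one_mul, Matrix.mul_one]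
      rw [e1, diagonal_apply_eq]
    rw [e]
    exact hd
  have hcomm : ∀ H ∈ V, ∀ (Y : Mat M) (i j : Fin M), (Oᵀ * (H * Y - Y * H) * O) i j = (cf O i H - cf O j H) * (Oᵀ * Y * O) i j := by
    intro H hH Y i j
    have := hat_comm h1 (d := fun i => cf O i H) Y i j
    rwa [← hd H hH] at this
  -- the roots as functionals on `V`
  let α : Fin M × Fin M → Module.Dual ℝ V := fun ij => (cf O ij.1 - cf O ij.2).domRestrict V
  have hα : ∀ ij (H : V), α ij H = cf O ij.1 (H : Mat M) - cf O ij.2 (H : Mat M) := fun ij H => rfl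
  obtain ⟨H₀, hH₀⟩ : ∃ H₀ : V, ∀ p : (Fin M × Fin M) × (Fin M × Fin M), α p.1 H₀ = α p.2 H₀ → α p.1 = α p.2 := by
    obtain ⟨x, hx⟩ := Module.Dual.exists_forall_ne_zero_of_forall_exists
      (K := ℝ) (M := V) (ι := {p : (Fin M × Fin M) × (Fin M × Fin M) // α p.1 ≠ α p.2})
      (fun p => α p.1.1 - α p.1.2) (fun p => by
        by_contra hn
        push Not at hn
        apply p.2
        ext x
        have := hn x
        rw [LinearMap.sub_apply, sub_eq_zero] at this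
        exact this)
    refine ⟨x, fun p hp => ?_⟩
    by_contra hne
    apply hx ⟨p, hne⟩
    rw [LinearMap.sub_apply, sub_eq_zero]
    exact hp
  have hadL : ∀ Y ∈ L, (H₀ : Mat M) * Y - Y * (H₀ : Mat M) ∈ L := by
    intro Y hY
    exact hs.brk _ (hV.le H₀.2) _ hY
  -- the set of the roots which occur
  let Sg : Set (Fin M × Fin M) := {ij | ∃ Y ∈ L, (Oᵀ * Y * O) ij.1 ij.2 ≠ 0}
  have hroot : ∀ ij ∈ Sg, ∃ X ∈ L, X ≠ 0 ∧ ∀ H : V, (H : Mat M) * X - X * (H : Mat M) = (α ij H) • X := by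
    rintro ij ⟨Y, hY, hYne⟩
    let vals : Finset ℝ := Finset.univ.image fun kl : Fin M × Fin M => α kl H₀
    let q : Polynomial ℝ := Lagrange.interpolate vals id (fun μ => if μ = α ij H₀ then 1 else 0)
    have hq : ∀ kl : Fin M × Fin M, q.eval (α kl H₀) = if α kl H₀ = α ij H₀ then 1 else 0 := by
      intro kl
      have hmem : α kl H₀ ∈ vals := Finset.mem_image_of_mem _ (Finset.mem_univ _)
      exact Lagrange.eval_interpolate_at_node (s := vals) (v := id) (r := fun μ => if μ = α ij H₀ then (1 : ℝ) else 0)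
        (i := α kl H₀) (fun a _ b _ h => h) hmem
    have hX : ∀ k l, (Oᵀ * (Polynomial.aeval (adM (H₀ : Mat M)) q Y) * O) k l =
        if α (k, l) H₀ = α ij H₀ then (Oᵀ * Y * O) k l else 0 := by
      intro k l
      have e := aeval_hat h1 (d := fun i => cf O i (H₀ : Mat M)) q Y k l
      rw [← hd _ H₀.2] at e
      rw [e]
      have e2 := hq (k, l)
      rw [hα] at e2
      rw [e2, ← hα]
      split_ifs <;> simp
    refine ⟨Polynomial.aeval (adM (H₀ : Mat M)) q Y, aeval_mem hadL q Y hY, fun h0 => hYne ?_, fun H => ?_⟩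
    · have := hX ij.1 ij.2
      rw [h0, if_pos rfl] at this
      rw [← this]
      simp
    · apply hat_inj h2
      intro k l
      rw [hcomm _ H.2, Matrix.mul_smul, Matrix.smul_mul, Matrix.smul_apply, smul_eq_mul, hX]
      split_ifs with h
      · have := hH₀ ((k, l), ij) h
        have h3 : α (k, l) H = α ij H := by rw [this]
        rw [← h3, hα]
      · rw [mul_zero, mul_zero]
  -- the roots span the dual space
  have hspan : Submodule.span ℝ (Set.range fun ij : Sg => α ij) = ⊤ := by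
    rw [eq_top_iff]
    intro K _
    refine FiniteDimensional.mem_span_of_iInf_ker_le_ker ?_
    intro H hH
    have hz : ∀ ij ∈ Sg, α ij H = 0 := fun ij hij => (Submodule.mem_iInf _).1 hH ⟨ij, hij⟩
    have h0 : (H : Mat M) = 0 := by
      refine hsemi _ (hV.le H.2) (hV.symm _ H.2) fun Y hY => ?_
      rw [← sub_eq_zero]
      apply hat_inj h2
      intro i j
      rw [hcomm _ H.2]
      have : (Oᵀ * (0 : Mat M) * O) i j = 0 := by simp
      rw [this]
      by_cases h3 : (Oᵀ * Y * O) i j = 0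
      · rw [h3, mul_zero]
      · have h4 : α (i, j) H = 0 := hz (i, j) ⟨Y, (hLm Y).2 hY, h3⟩
        rw [hα] at h4
        rw [h4, zero_mul]
    have : H = 0 := Subtype.ext h0
    rw [this]
    exact Submodule.zero_mem _
  obtain ⟨κ, a, -, hsp, hli⟩ := exists_linearIndependent' ℝ (fun ij : Sg => α ij)
  rw [hspan] at hsp
  let β : Module.Basis κ ℝ (Module.Dual ℝ V) := Module.Basis.mk hli hsp.ge
  have hfin : Finite κ := Module.Finite.finite_basis β
  have hfk : Fintype κ := Fintype.ofFinite κ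
  have hcard : Module.finrank ℝ V = Fintype.card κ := by
    rw [← Subspace.dual_finrank_eq, Module.finrank_eq_card_basis β]
  let e : κ ≃ Fin (Module.finrank ℝ V) := (Fintype.equivFin κ).trans (finCongr hcard.symm)
  let b : Module.Basis (Fin (Module.finrank ℝ V)) ℝ (Module.Dual ℝ V) := β.reindex e
  have hb : ∀ i, b i = α (a (e.symm i)) := by
    intro i
    simp only [b, β, Module.Basis.reindex_apply, Module.Basis.mk_apply]
    rfl
  choose X hX hX0 hXr using hroot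
  refine ⟨fun i => ((Module.evalEquiv ℝ V).symm (b.dualBasis i) : V), fun i => X _ (a (e.symm i)).2, fun i => Subtype.coe_prop _,
    fun i => (hLm _).1 (hX _ _), fun i => hX0 _ _, fun i j => ?_, fun i H' hH' => ⟨_, hXr _ _ ⟨H', hH'⟩⟩⟩
  rw [hXr]
  have h5 : α (a (e.symm j)) ((Module.evalEquiv ℝ V).symm (b.dualBasis i)) = if j = i then 1 else 0 := by
    rw [← hb, Module.apply_evalEquiv_symm_apply, Module.Basis.dualBasis_apply_self]
  rw [h5]
  by_cases hij : i = j
  · rw [if_pos hij, if_pos hij.symm, one_smul]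
  · rw [if_neg hij, if_neg (fun h => hij h.symm), zero_smul]

private theorem tr57_eq (X : Mat M) : (X * Xᵀ).trace = ∑ i, ∑ j, X i j ^ 2 := by
  unfold Matrix.trace
  refine Finset.sum_congr rfl fun i _ => ?_
  rw [Matrix.diag_apply, Matrix.mul_apply]
  refine Finset.sum_congr rfl fun j _ => ?_
  rw [Matrix.transpose_apply, pow_two]

private theorem tr57_nonneg (X : Mat M) : 0 ≤ (X * Xᵀ).trace := by
  rw [tr57_eq]
  exact Finset.sum_nonneg fun i _ => Finset.sum_nonneg fun j _ => sq_nonneg _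

private theorem tr57_pos {X : Mat M} (h : X ≠ 0) : 0 < (X * Xᵀ).trace := by
  refine lt_of_le_of_ne (tr57_nonneg X) fun h0 => h ?_
  rw [tr57_eq] at h0
  have h1 := (Finset.sum_eq_zero_iff_of_nonneg fun i _ =>
    Finset.sum_nonneg fun j _ => sq_nonneg (X i j)).1 h0.symm
  ext i j
  have h2 := (Finset.sum_eq_zero_iff_of_nonneg fun j _ => sq_nonneg (X i j)).1
    (h1 i (Finset.mem_univ i)) j (Finset.mem_univ j)
  rw [Matrix.zero_apply]
  exact pow_eq_zero_iff (two_ne_zero) |>.1 h2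

private theorem tp57 {H X : Mat M} {c : ℝ} (hH : Hᵀ = H) (h : H * X - X * H = c • X) :
    Xᵀ * H - H * Xᵀ = c • Xᵀ := by
  have h1 := congrArg Matrix.transpose h
  rw [Matrix.transpose_sub, Matrix.transpose_mul, Matrix.transpose_mul, Matrix.transpose_smul, hH] at h1
  exact h1

private theorem trT57 {H X : Mat M} {c : ℝ} (hH : Hᵀ = H) (h : H * X - X * H = c • X) :
    ((X * Xᵀ - Xᵀ * X) * H).trace = c * (X * Xᵀ).trace := by
  have h1 : (Xᵀ * X * H).trace = (X * H * Xᵀ).trace := by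
    rw [Matrix.mul_assoc, Matrix.trace_mul_comm]
  have h2 := congrArg (fun Z => (X * Z).trace) (tp57 hH h)
  simp only [Matrix.mul_sub, Matrix.mul_smul, Matrix.trace_sub, Matrix.trace_smul, smul_eq_mul] at h2
  rw [Matrix.sub_mul, Matrix.trace_sub, h1, ← h2, Matrix.mul_assoc, Matrix.mul_assoc]

theorem sl2_of_root' (hs : LSub G s) {V : Submodule ℝ (Mat M)} (hV : FlatIn s V)
    (hmax : ∀ Y ∈ s, Yᵀ = Y → (∀ H ∈ V, Y * H = H * Y) → Y ∈ V)
    {H X : Mat M} (hH : H ∈ V) (hX : X ∈ s) (hX0 : X ≠ 0) (hroot : ∀ H' ∈ V, ∃ c : ℝ, H' * X - X * H' = c • X)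
    (h1 : H * X - X * H = X) :
    X * Xᵀ - Xᵀ * X ∈ V ∧ ∃ c : ℝ, 0 < c ∧ (X * Xᵀ - Xᵀ * X) * X - X * (X * Xᵀ - Xᵀ * X) = c • X := by
  have hT : (X * Xᵀ - Xᵀ * X)ᵀ = X * Xᵀ - Xᵀ * X := by
    rw [Matrix.transpose_sub, Matrix.transpose_mul, Matrix.transpose_mul, Matrix.transpose_transpose]
  have hmem : X * Xᵀ - Xᵀ * X ∈ V := by
    refine hmax _ (hs.brk X hX _ (hs.tr X hX)) hT fun H' hH' => ?_
    obtain ⟨c, hc⟩ := hroot H' hH'
    have hc2 := tp57 (hV.symm H' hH') hc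
    have e1 : H' * X = X * H' + c • X := by rw [← hc]; abel
    have e2 : Xᵀ * H' = H' * Xᵀ + c • Xᵀ := by rw [← hc2]; abel
    calc (X * Xᵀ - Xᵀ * X) * H' = X * (Xᵀ * H') - Xᵀ * (X * H') := by
          rw [Matrix.sub_mul, Matrix.mul_assoc, Matrix.mul_assoc]
      _ = X * (H' * Xᵀ + c • Xᵀ) - Xᵀ * (H' * X - c • X) := by
          rw [e2, e1, add_sub_cancel_right]
      _ = (X * H' + c • X) * Xᵀ - (Xᵀ * H' - c • Xᵀ) * X := by
          simp only [Matrix.mul_add, Matrix.mul_sub, Matrix.add_mul, Matrix.sub_mul, Matrix.mul_smul,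
            Matrix.smul_mul, Matrix.mul_assoc]
      _ = H' * (X * Xᵀ - Xᵀ * X) := by
          rw [e2, ← e1, add_sub_cancel_right, Matrix.mul_sub, Matrix.mul_assoc, Matrix.mul_assoc]
  refine ⟨hmem, ?_⟩
  obtain ⟨c, hc⟩ := hroot _ hmem
  refine ⟨c, ?_, hc⟩
  have hTne : X * Xᵀ - Xᵀ * X ≠ 0 := by
    intro h0
    have h2 := trT57 (c := 1) (hV.symm H hH) (by rw [one_smul]; exact h1)
    rw [h0, Matrix.zero_mul, Matrix.trace_zero, one_mul] at h2
    exact (tr57_pos hX0).ne h2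
  have h3 := trT57 hT hc
  have h4 := tr57_pos hTne
  rw [hT, h3] at h4
  exact (pos_iff_pos_of_mul_pos h4).2 (tr57_pos hX0)

end Pool.Agent.Helper43.TA
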