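import Pool.Agent.Helper43.TA.Kak
import Pool.Agent.Helper43.TA.STwo
import Pool.Agent.Helper43.TA.SDef2
import Pool.Agent.Helper43.TA.Top2
import Pool.Agent.Helper96.SA.Conj

/-!
# Block TYB-SSL: the predicate `SimSl2` gives `TwoG`

PROOF. `T := X Xᵀ - Xᵀ X ∈ lie G` (`lie_bracket`), symmetric. `Z`: the subgroup of `↥G` with the elements `g`, `(g : GL) = ex (t • T)` for some `t` (`ex_add_smul`, `ex_neg`). `K := {g : ↥G | (g : Mat M)ᵀ * (g : Mat M) = 1}`, compact (`isCompact_orth` in `Helper96/SA/Conj.lean`, `Subtype.isCompact_iff`). `F := Subgroup.closure {u, w}`, `u = ex (s X)`,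
`w = ex (s Xᵀ)` as elements of `↥G`, with `s` of `discrete_nonAm` (`Helper96/SA/Sl2.lean`; `X ≠ 0`); discreteness and nonamenability in `↥G` as `disc66`, `nonam66` in `Helper96/SA/GE.lean` (copy). For `f ∈ F` its image in `GL` is in the closure of `{ex (t X), ex (t Xᵀ)}` (`map66`, `Subgroup.closure_mono`), so `kak_ex` gives `f = ex (θ (X - Xᵀ)) ex (t T) ex (θ' (X - Xᵀ))`;
`X - Xᵀ ∈ lie G` (`lie_submodule`), and `ex (θ (X - Xᵀ))` is orthogonal (`ex_transpose`, `ex_neg`). `TwoF (r - 1) Z`: `twoF_of_sim` (`ex (t T)` commutes with `Y ∈ s`, as `T` does: `Commute.exp_left` or the power series).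
-/

set_option autoImplicit false

open Matrix Topology Filter

namespace Pool.Agent.Helper43.TA

open Pool.Agent.Helper96.SA Pool.Agent.Helper96.FR

variable {M : ℕ} {G : Subgroup (GL (Fin M) ℝ)}

private theorem map77 (x y : G) : (Subgroup.closure {x, y}).map G.subtype =
    Subgroup.closure {(x : GL (Fin M) ℝ), (y : GL (Fin M) ℝ)} := by
  rw [MonoidHom.map_closure, Set.image_pair]
  rfl

private theorem disc77 (x y : G) (h : DiscreteTopology (Subgroup.closure {(x : GL (Fin M) ℝ), (y : GL (Fin M) ℝ)})) :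
    DiscreteTopology (Subgroup.closure {x, y}) := by
  rw [← map77] at h
  let f : Subgroup.closure {x, y} → (Subgroup.closure {x, y}).map G.subtype :=
    fun z => ⟨((z : G) : GL (Fin M) ℝ), ⟨z, z.2, rfl⟩⟩
  have hf : Continuous f := by
    refine Continuous.subtype_mk ?_ _
    exact continuous_subtype_val.comp continuous_subtype_val
  refine DiscreteTopology.of_continuous_injective hf fun z z' hzz => ?_
  have h2 : (f z : GL (Fin M) ℝ) = f z' := by rw [hzz]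
  exact Subtype.ext (Subtype.ext h2)

private theorem nonam77 (x y : G) (h : Pool.Agent.Helper90.RK.NonAm (Subgroup.closure {(x : GL (Fin M) ℝ), (y : GL (Fin M) ℝ)})) :
    Pool.Agent.Helper90.RK.NonAm (Subgroup.closure {x, y}) := by
  rw [Pool.Agent.Helper66.RK.nonAm_iff] at h ⊢
  intro hA
  apply h
  rw [← map77]
  exact hA.congr ((Subgroup.closure {x, y}).equivMapOfInjective G.subtype G.subtype_injective)

/-- the one parameter group of `T` -/
private def oneP77 (T : Mat M) : Subgroup G where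
  carrier := {g | ∃ t : ℝ, (g : GL (Fin M) ℝ) = ex (t • T)}
  one_mem' := ⟨0, by rw [zero_smul, ex_zero]; rfl⟩
  mul_mem' := by
    rintro x y ⟨s, hs⟩ ⟨t, ht⟩
    exact ⟨s + t, by rw [ex_add_smul, Subgroup.coe_mul, hs, ht]⟩
  inv_mem' := by
    rintro x ⟨s, hs⟩
    exact ⟨-s, by rw [neg_smul, ex_neg, Subgroup.coe_inv, hs]⟩

/-- the exponential of a skew matrix is orthogonal -/
private theorem orth77 {A : Mat M} (hA : Aᵀ = -A) : ((ex A : GL (Fin M) ℝ) : Mat M)ᵀ * ((ex A : GL (Fin M) ℝ) : Mat M) = 1 := by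
  rw [ex_transpose, hA, ex_neg, Units.inv_mul]

theorem twoG_of_simSl2 (hG : IsClosed (G : Set (GL (Fin M) ℝ))) (ht : ∀ X ∈ lie G, Xᵀ ∈ lie G) {r : ℕ} (h : SimSl2 G r) :
    TwoG G (r - 1) := by
  obtain ⟨X, hX, hX0, ⟨c, hc, hcX⟩, s, hs, hsim, hT, V, hV, hr⟩ := h
  obtain ⟨q, _, hdis, hna⟩ := discrete_nonAm X hX0 c hc hcX
  have hXT : Xᵀ ∈ lie G := ht X hX
  have hD : X - Xᵀ ∈ lie G := by
    obtain ⟨L, hL⟩ := lie_submodule hG
    have hmem : ∀ Z, Z ∈ L ↔ Z ∈ lie G := fun Z => by rw [← hL]; rfl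
    rw [← hmem] at hX hXT ⊢
    exact L.sub_mem hX hXT
  have hTl : X * Xᵀ - Xᵀ * X ∈ lie G := lie_bracket hG hX hXT
  let u : G := ⟨ex (q • X), mem_lie.1 hX q⟩
  let w : G := ⟨ex (q • Xᵀ), mem_lie.1 hXT q⟩
  let K : Set G := {k | ((k : GL (Fin M) ℝ) : Mat M)ᵀ * ((k : GL (Fin M) ℝ) : Mat M) = 1}
  have hK : IsCompact K := by
    rw [Subtype.isCompact_iff]
    convert isCompact_orth hG using 1
    ext k
    constructor
    · rintro ⟨k', hk', rfl⟩
      exact ⟨k'.2, hk'⟩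
    · rintro ⟨h1, h2⟩
      exact ⟨⟨k, h1⟩, h2, rfl⟩
  have hR : ∀ θ : ℝ, ((ex (θ • (X - Xᵀ)) : GL (Fin M) ℝ) : Mat M)ᵀ * ((ex (θ • (X - Xᵀ)) : GL (Fin M) ℝ) : Mat M) = 1 := by
    intro θ
    apply orth77
    rw [Matrix.transpose_smul, Matrix.transpose_sub, Matrix.transpose_transpose, ← smul_neg, neg_sub]
  refine ⟨oneP77 (X * Xᵀ - Xᵀ * X), Subgroup.closure {u, w}, K, hK, ?_, disc77 u w hdis, nonam77 u w hna, ?_⟩
  · intro f hf
    have h1 : (f : GL (Fin M) ℝ) ∈ Subgroup.closure {(u : GL (Fin M) ℝ), (w : GL (Fin M) ℝ)} := by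
      rw [← map77]
      exact ⟨f, hf, rfl⟩
    have h2 : (f : GL (Fin M) ℝ) ∈ Subgroup.closure {g : GL (Fin M) ℝ | ∃ t : ℝ, g = ex (t • X) ∨ g = ex (t • Xᵀ)} := by
      refine Subgroup.closure_mono ?_ h1
      rintro g (rfl | hg)
      · exact ⟨q, Or.inl rfl⟩
      · rw [Set.mem_singleton_iff] at hg
        exact ⟨q, Or.inr hg⟩
    obtain ⟨θ, t, θ', h3⟩ := kak_ex hc hcX h2
    refine ⟨⟨ex (θ • (X - Xᵀ)), mem_lie.1 hD θ⟩, hR θ, ⟨ex (t • (X * Xᵀ - Xᵀ * X)), mem_lie.1 hTl t⟩, ⟨t, rfl⟩,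
      ⟨ex (θ' • (X - Xᵀ)), mem_lie.1 hD θ'⟩, hR θ', Subtype.ext h3⟩
  · refine twoF_of_sim hG hs hsim ?_ hV (by omega)
    rintro f ⟨t, hf⟩ Y hY
    rw [hf, ex_coe]
    have h1 : Commute (t • (X * Xᵀ - Xᵀ * X)) Y := by
      change t • (X * Xᵀ - Xᵀ * X) * Y = Y * t • (X * Xᵀ - Xᵀ * X)
      rw [Matrix.smul_mul, hT Y hY, Matrix.mul_smul]
    exact h1.exp_left

end Pool.Agent.Helper43.TA
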