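import Pool.Agent.Helper43.TA.Top
import Pool.Agent.Helper43.TA.STwo
import Pool.Agent.Helper43.TA.SAdj
import Pool.Agent.Helper96.SA.Final

/-!
# Block TYA-STOP: adjoint groups

`FullPair θ K1 K2`: commuting `θ`-stable subalgebras, `K1` without centre and not compact, `K2` simple, `rank K2 ≥ rank - 1`. `RPair` is the same for Lie algebras of matrices.
PROOF of `rpair_emb`. If `N ≤ rank` use `full_rank_emb` with `RankLE Γ2 (N - 1)` (`kak_general`, `Helper66/RK/Kak.lean`; `RankLE` is in terms of `PRep`, `cartan_iff`); `hrk : RankGE G r` gives `r ≤ N - 1`, a contradiction if `N ≤ r` and `r ≥ 1`. If `N = r + 1`: `F` from `exists_discrete` for `s1`, `twoF_of_sim` for `s2` (`hF` of it: the last claim of `exists_discrete`, as `s1` and `s2` commute)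
with `N - 2 = r - 1 ≤ finrank V`, and `typeA_emb` (`instances` in `Helper96/SA/Rank.lean` for the topological instances).
`adj_emb`: `s1 = adS b K1`, `s2 = adS b K2`, with the lemmas of `SAdj`, `RankGE G (rankL θ)` by `rankGE_realRank (selfAdj_of_aut h hG)` and `realRank_of_aut`. `adj_hom`, `adj_iso`: as `full_rank_hom`, `full_rank_iso` (`Helper55/FR/Pre.lean`).
-/

set_option autoImplicit false

open Matrix Topology Filter

namespace Pool.Agent.Helper43.TA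

open Pool.Agent.Helper96.SA Pool.Agent.Helper96.FR Pool.Agent.Helper66.RKS
open Pool.Agent.Helper84.NI Pool.Agent.Helper84.GVN Pool.Agent.Helper55.FR
open Pool.Agent.Helper84.GN hiding toReg

/-- Two commuting Lie algebras of matrices in `lie G`, the first not compact, without centre, the second simple, with a flat of dimension `r - 1`. -/
structure RPair {M : ℕ} (G : Subgroup (GL (Fin M) ℝ)) (s1 s2 : Submodule ℝ (Mat M)) (r : ℕ) : Prop where
  sub1 : LSub G s1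
  sub2 : LSub G s2
  comm : ∀ X ∈ s1, ∀ Y ∈ s2, X * Y = Y * X
  cen : NoCen s1
  nc : ∃ H ∈ s1, H ≠ 0 ∧ Hᵀ = H
  sim : IsSim s2
  rank : ∃ V : Submodule ℝ (Mat M), FlatIn s2 V ∧ r ≤ Module.finrank ℝ V + 1

theorem rpair_emb {M : ℕ} {G : Subgroup (GL (Fin M) ℝ)} (hG : IsClosed (G : Set (GL (Fin M) ℝ))) {s1 s2 : Submodule ℝ (Mat M)}
    {r : ℕ} (hp : RPair G s1 s2 r) (hrk : RankGE G r) (hr : 2 ≤ r) {Γ1 : Subgroup G} (hL : Pool.Agent.Helper96.FR.Lattice Γ1) {Γ2 : Type} [Group Γ2]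
    {N : ℕ} (hN : N ≤ r + 1) (ρ : PRep Γ2 N) (E : Emb Γ1 Γ2) : False := by
  obtain ⟨i1, i2, i3⟩ := instances hG
  have h2 : RankLE Γ2 (N - 1) := ⟨N, ρ, cartan_classical.1 N ρ⟩
  have h3 : r ≤ N - 1 := full_rank_emb escAll hL hrk h2 E
  obtain ⟨H, hH, hH0, hHt⟩ := hp.nc
  obtain ⟨F, hFd, hFna, hFc⟩ := exists_discrete hG hp.sub1 hp.cen hH hHt hH0
  obtain ⟨V, hV, hVr⟩ := hp.rank
  have hT : TwoF (N - 2) F := twoF_of_sim hG hp.sub2 hp.sim
    (fun f hf Y hY => hFc f hf Y (fun X hX => hp.comm X hX Y hY)) hV (by omega)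
  exact typeA_emb hL (by omega) hFd hFna hT ρ E

section Adj

variable {L : Type} [LieRing L] [LieAlgebra ℝ L] {M : ℕ} {θ : L ≃ₗ⁅ℝ⁆ L} {b : Module.Basis (Fin M) ℝ L}

/-- Two commuting subalgebras, stable under the Cartan involution `θ`, the first not compact, without centre, the second simple, of real rank one less than that of the Lie algebra. -/
structure FullPair (θ : L ≃ₗ⁅ℝ⁆ L) (K1 K2 : LieSubalgebra ℝ L) : Prop where
  st1 : ∀ x ∈ K1, θ x ∈ K1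
  st2 : ∀ x ∈ K2, θ x ∈ K2
  comm : ∀ x ∈ K1, ∀ y ∈ K2, ⁅x, y⁆ = 0
  cen : ∀ x ∈ K1, (∀ y ∈ K1, ⁅x, y⁆ = 0) → x = 0
  nc : ∃ x ∈ K1, x ≠ 0 ∧ θ x = -x
  sim : LieAlgebra.IsSimple ℝ K2
  rank : rankL θ ≤ rankIn θ K2 + 1

variable {G : Subgroup (GL (Fin M) ℝ)} {K1 K2 : LieSubalgebra ℝ L}

theorem adj_emb (h : CartanBasis θ b) (hG : IsAdj b G) (hp : FullPair θ K1 K2) (hr : 2 ≤ rankL θ) {Γ1 : Subgroup G}
    (hL : Pool.Agent.Helper96.FR.Lattice Γ1) {Γ2 : Type} [Group Γ2] {N : ℕ} (hN : N ≤ rankL θ + 1) (ρ : PRep Γ2 N) (E : Emb Γ1 Γ2) : False := by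
  have hS := selfAdj_of_aut h hG
  have hrk : RankGE G (rankL θ) := by
    rw [← realRank_of_aut h hG]
    exact rankGE_realRank hS
  have hpair : RPair G (adS b K1) (adS b K2) (rankL θ) := by
    refine ⟨adS_lsub h hG hp.st1, adS_lsub h hG hp.st2, ?_, adS_noCen h hp.cen, ?_, adS_sim h hp.sim, ?_⟩
    · rintro X ⟨x, hx, rfl⟩ Y ⟨y, hy, rfl⟩
      have h1 := TT_brk (b := b) x y
      rw [hp.comm x hx y hy, map_zero] at h1
      exact sub_eq_zero.1 h1.symm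
    · obtain ⟨x, hx, hx0, hxθ⟩ := hp.nc
      exact ⟨TT b x, ⟨x, hx, rfl⟩, fun h0 => hx0 (TT_inj h (by rw [h0, map_zero])), (TT_symm h x).2 hxθ⟩
    · obtain ⟨V, hV, hVr⟩ := adS_flat h K2
      exact ⟨V, hV, by rw [hVr]; exact hp.rank⟩
  exact rpair_emb hS.closed hpair hrk hr hL hN ρ E

/-- No trace preserving homomorphism. -/
theorem adj_hom (h : CartanBasis θ b) (hG : IsAdj b G) (hp : FullPair θ K1 K2) (hr : 2 ≤ rankL θ) {Γ1 : Subgroup G}
    (hL : Pool.Agent.Helper96.FR.Lattice Γ1) {Γ2 : Type} [Group Γ2] {N : ℕ} (hN : N ≤ rankL θ + 1) (ρ : PRep Γ2 N)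
    (φ : LH Γ1 →⋆ₐ[ℂ] LH Γ2) (hτ : ∀ x, (φ x).tr = x.tr) : False := by
  refine adj_emb h hG hp hr hL hN ρ
    (homEmb (((bridge Γ2).toStarAlgHom.comp φ).comp (bridge Γ1).symm.toStarAlgHom) fun x => ?_)
  have h1 := hτ ((bridge Γ1).symm x)
  change (φ ((bridge Γ1).symm x)).coeff 1 = ((bridge Γ1).symm x).coeff 1 at h1
  rw [← bridge_coeff, ← bridge_coeff] at h1
  exact h1

/-- No isomorphism. -/
theorem adj_iso (h : CartanBasis θ b) (hG : IsAdj b G) (hp : FullPair θ K1 K2) (hr : 2 ≤ rankL θ) {Γ1 : Subgroup G}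
    (hL : Pool.Agent.Helper96.FR.Lattice Γ1) (hicc : IsICC Γ1) {Γ2 : Type} [Group Γ2] {N : ℕ} (hN : N ≤ rankL θ + 1) (ρ : PRep Γ2 N)
    (hiso : IsoL Γ1 Γ2) : False := by
  obtain ⟨e⟩ := hiso
  let e' : LG Γ1 ≃⋆ₐ[ℂ] LG Γ2 := (bridge Γ1).symm.trans (e.trans (bridge Γ2))
  exact adj_emb h hG hp hr hL hN ρ
    (homEmb e'.toStarAlgHom fun x => Pool.Agent.Helper84.TU.tr_iso hicc e' x)

end Adj

end Pool.Agent.Helper43.TA
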