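import Pool.Agent.Helper43.TA.SSl
import Pool.Agent.Helper43.TA.SRep
import Pool.Agent.Helper43.TA.SAdj
import Pool.Agent.Helper96.SA.Final

/-!
# Block TYB-STOP2: self-adjoint groups which are not of type A

PROOF of `sim_emb`. `r := realRank G`. If `N ≤ r`: `full_rank_emb escAll` with `RankGE G r` (`rankGE_realRank h`) and `RankLE Γ2 (N - 1)` (`⟨N, ρ, _⟩`, `kak_general ρ.ph : Kak ρ.ph (N - 1)`, `cartan_iff`) gives `r ≤ N - 1`, a contradiction. If `N = r + 1`: `twoG_of_simSl2 h.closed (fun X hX => lie_transpose h hX) hp : TwoG G (r - 1)`, `r - 1 = N - 2`, and `typeA_emb2`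
(`instances h.closed` in `Helper96/SA/Rank.lean` for the topological instances). `sim_hom`, `sim_iso`: as `full_rank_hom`, `full_rank_iso` in `Helper55/FR/Pre.lean`.
PROOF of `sim_PSLR` etc. `n ≥ 1` (for `n = 0` the group `Γ2` is trivial and `L(Γ2)` has dimension one, but `Γ1` is infinite; simpler: `n = 0` is covered by `sim_iso` with `N = 0 ≤ r + 1` and `rep_PSLR`). `n = k + 1`: `full_rank hΓ2 i2 (rankGE_PSL (𝕜 := ℝ) (r := k)) (rankLE_realRank h Γ1 hΓ1.1) (isoL_symm hiso)`: `k ≤ r`, so `n ≤ r + 1`; `rep_PSLR Γ2 hΓ2.1 : Nonempty (PRep Γ2 n)` and `sim_iso`.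
-/

set_option autoImplicit false

open Matrix Topology Filter

namespace Pool.Agent.Helper43.TA

open Pool.Agent.Helper96.SA Pool.Agent.Helper96.FR Pool.Agent.Helper66.RKS
open Pool.Agent.Helper84.NI Pool.Agent.Helper84.GN Pool.Agent.Helper84.GVN Pool.Agent.Helper55.FR

variable {M : ℕ} {G : Subgroup (GL (Fin M) ℝ)}

theorem sim_emb (h : SelfAdj G) (hp : SimSl2 G (realRank G)) (hr : 2 ≤ realRank G) {Γ1 : Subgroup G}
    (hL : Pool.Agent.Helper96.FR.Lattice Γ1) {Γ2 : Type} [Group Γ2] {N : ℕ} (hN : N ≤ realRank G + 1) (ρ : PRep Γ2 N)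
    (E : Emb Γ1 Γ2) : False := by
  obtain ⟨i1, i2, i3⟩ := instances h.closed
  by_cases hc : N ≤ realRank G
  · have h2 : RankLE Γ2 (N - 1) := ⟨N, ρ, (cartan_iff ρ).2 (Pool.Agent.Helper66.RK.kak_general ρ.ph)⟩
    have h3 := full_rank_emb escAll hL (rankGE_realRank h) h2 E
    omega
  · have hT : TwoG G (realRank G - 1) := twoG_of_simSl2 h.closed (fun X hX => lie_transpose h hX) hp
    have e : realRank G - 1 = N - 2 := by omega
    rw [e] at hT
    exact typeA_emb2 hL (by omega) hT ρ E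

/-- No trace preserving homomorphism. -/
theorem sim_hom (h : SelfAdj G) (hp : SimSl2 G (realRank G)) (hr : 2 ≤ realRank G) {Γ1 : Subgroup G}
    (hL : Pool.Agent.Helper96.FR.Lattice Γ1) {Γ2 : Type} [Group Γ2] {N : ℕ} (hN : N ≤ realRank G + 1) (ρ : PRep Γ2 N)
    (φ : LH Γ1 →⋆ₐ[ℂ] LH Γ2) (hτ : ∀ x, (φ x).tr = x.tr) : False := by
  refine sim_emb h hp hr hL hN ρ
    (homEmb (((bridge Γ2).toStarAlgHom.comp φ).comp (bridge Γ1).symm.toStarAlgHom) fun x => ?_)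
  have h1 := hτ ((bridge Γ1).symm x)
  change (φ ((bridge Γ1).symm x)).coeff 1 = ((bridge Γ1).symm x).coeff 1 at h1
  rw [← bridge_coeff, ← bridge_coeff] at h1
  exact h1

/-- No isomorphism. -/
theorem sim_iso (h : SelfAdj G) (hp : SimSl2 G (realRank G)) (hr : 2 ≤ realRank G) {Γ1 : Subgroup G}
    (hL : Pool.Agent.Helper96.FR.Lattice Γ1) (hicc : IsICC Γ1) {Γ2 : Type} [Group Γ2] {N : ℕ} (hN : N ≤ realRank G + 1)
    (ρ : PRep Γ2 N) (hiso : IsoL Γ1 Γ2) : False := by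
  obtain ⟨e⟩ := hiso
  let e' : LG Γ1 ≃⋆ₐ[ℂ] LG Γ2 := (bridge Γ1).symm.trans (e.trans (bridge Γ2))
  exact sim_emb h hp hr hL hN ρ
    (homEmb e'.toStarAlgHom fun x => Pool.Agent.Helper84.TU.tr_iso hicc e' x)

private theorem t2_75 {r : ℕ} : T2Space (ProjectiveSpecialLinearGroup (Fin (r + 1)) ℂ) := by
  have : IsClosed (Subgroup.center (SpecialLinearGroup (Fin (r + 1)) ℂ) : Set (SpecialLinearGroup (Fin (r + 1)) ℂ)) :=
    Pool.Agent.Helper96.FR.isCompact_center.isClosed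
  have h3 : T3Space (SpecialLinearGroup (Fin (r + 1)) ℂ ⧸ Subgroup.center (SpecialLinearGroup (Fin (r + 1)) ℂ)) :=
    @QuotientGroup.instT3Space _ _ _ _ _ _ this
  exact (inferInstance : T2Space (SpecialLinearGroup (Fin (r + 1)) ℂ ⧸ Subgroup.center (SpecialLinearGroup (Fin (r + 1)) ℂ)))

/-- Lattices of `PSL(n, ℝ)`, every `n`. -/
theorem sim_PSLR (h : SelfAdj G) (hp : SimSl2 G (realRank G)) (hr : 2 ≤ realRank G) {Γ1 : Subgroup G}
    (hL : Pool.Agent.Helper96.FR.Lattice Γ1) (hicc : IsICC Γ1) {n : ℕ} {Γ2 : Subgroup (ProjectiveSpecialLinearGroup (Fin n) ℝ)}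
    (hL2 : Pool.Agent.Helper96.FR.Lattice Γ2) (hicc2 : IsICC Γ2) (hiso : IsoL Γ1 Γ2) : False := by
  obtain ⟨ρ⟩ := rep_PSLR Γ2 hL2.1
  rcases n with _ | k
  · exact sim_iso h hp hr hL hicc (Nat.zero_le _) ρ hiso
  · have hk : k ≤ realRank G :=
      full_rank hL2 hicc2 (rankGE_PSL (𝕜 := ℝ) (r := k)) (rankLE_realRank h Γ1 hL.1) (isoL_symm hiso)
    exact sim_iso h hp hr hL hicc (Nat.succ_le_succ hk) ρ hiso

/-- Lattices of `PSL(n, ℂ)`, every `n`. -/
theorem sim_PSLC (h : SelfAdj G) (hp : SimSl2 G (realRank G)) (hr : 2 ≤ realRank G) {Γ1 : Subgroup G}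
    (hL : Pool.Agent.Helper96.FR.Lattice Γ1) (hicc : IsICC Γ1) {n : ℕ} {Γ2 : Subgroup (ProjectiveSpecialLinearGroup (Fin n) ℂ)}
    (hL2 : Pool.Agent.Helper96.FR.Lattice Γ2) (hicc2 : IsICC Γ2) (hiso : IsoL Γ1 Γ2) : False := by
  obtain ⟨ρ⟩ := rep_PSLC Γ2 hL2.1
  rcases n with _ | k
  · exact sim_iso h hp hr hL hicc (Nat.zero_le _) ρ hiso
  · have : T2Space (ProjectiveSpecialLinearGroup (Fin (k + 1)) ℂ) := t2_75
    have hk : k ≤ realRank G :=
      full_rank hL2 hicc2 (rankGE_PSL (𝕜 := ℂ) (r := k)) (rankLE_realRank h Γ1 hL.1) (isoL_symm hiso)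
    exact sim_iso h hp hr hL hicc (Nat.succ_le_succ hk) ρ hiso

end Pool.Agent.Helper43.TA
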