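import Pool.Agent.Helper43.TA.Lim
import Pool.Agent.Helper43.TA.Mean
import Pool.Agent.Helper84.FR.ET

/-!
# Block TYA-TIGHT: means of the scalar function of a cocycle

`ph Γ g = Re ⟪TL z, TR z⟫`, `z = XPpr R (vec g)`. PROOFS. `ph_lower`: `inner_XTL_XTR`, `xlower` (`Helper84/FR/ES.lean`) with `Γ.pos n`. `ph_upper`: the same with an upper bound: `(f γ).re ≤ 1` on `W'` and `≤ ε` outside (`f γ = ⟪vX γ, v⟫`, `|f| ≤ 1`): `Re ⟪z, mulop f z⟫ ≤ ‖C W' z‖ ^ 2 + ε ‖z‖ ^ 2` (apply `xlower` or its proof to `1 - f`...; or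
directly: `UE.re_inner_nonneg` for the operator `ind W' + ε - mulop f`), `‖z‖ ≤ 1` (`norm_XPpr_le`, `norm_vec`).
`ph_nonneg`: `xlower` with `W = ∅` or `ph_lower`.
`tight`: `meanX` with `C = cen b`, the data as in the proof of `escapeX` (`Helper84/FR/ET.lean`: `hbA`, `hbB`, `hcen`, `hν`, `h3'`), gives `η`; put `κ := Re ⟪η, TR ζ⟫`. For `h` in the closure of the group generated by `Ctr (range b) a0`: such an `h` is in `cen b` (`cen b` is closed: `Set.isClosed_centralizer`, `T2Space`), and `σ h η = η`: for `h` in the group itself by `mautnerX` applied in `cen b`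
(the elements of `Ctr (range b) a0` are in `cen b`; the group generated in `cen b` is mapped onto the group generated in `G1`: `Subgroup.closure_induction`), for a limit `h` of such `h_i` (in `cen b`): `σ h_i η = η` and `σ h_i η = σ h (σ (h⁻¹ h_i) η) → σ h η` by the continuity of `η` at `1` (filters: `𝓝[..] h`, `h⁻¹ * h_i → 1`). So `σ h⁻¹ η = η`
(`σ 1 η = η`), and the last claim of `meanX` gives the uniform convergence of the means to `κ` (`opL (v) ζ = XPpr R (vec (v b))` by `XPpr_opL`, `opL_vec`). `κ ≥ 0`: limit of means of nonnegative numbers (`h = 1`).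
-/

set_option autoImplicit false
set_option linter.unusedSectionVars false

open MeasureTheory Filter Topology

namespace Pool.Agent.Helper43.TA

open Pool.Agent.Helper84.NI Pool.Agent.Helper84.GVN Pool.Agent.Helper90.RK
open Pool.Agent.Helper84.GN hiding toReg
open Pool.Agent.Helper96.RK Pool.Agent.Helper66.FR Pool.Agent.Helper84.FR Pool.Agent.Helper96.FR Pool.Agent.Helper55.FR

variable {G1 X G Λ : Type} [Group G1] [TopologicalSpace G1] [IsTopologicalGroup G1] [MeasurableSpace X] {μ : Measure X}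
  [MulAction G1 X] [MeasurableConstSMul G1 X] [SMulInvariantMeasure G1 X μ] [IsProbabilityMeasure μ]
  [Group G] [Group Λ] [Countable Λ] {a : Cocy G1 X Λ} {E : Emb Λ G}
  {R : Reg G} {L : Type} [NormedAddCommGroup L] [InnerProductSpace ℂ L] [CompleteSpace L]

/-- The scalar product of the two sections over the component of `vec g`. -/
noncomputable def ph (μ : Measure X) [SMulInvariantMeasure G1 X μ] [IsProbabilityMeasure μ] (a : Cocy G1 X Λ) (E : Emb Λ G)
    (Γ : Coc R L) (g : ℕ → G1) : ℝ :=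
  (inner ℂ (XTL μ Γ (XPpr R (vec μ a E g))) (XTR μ Γ (XPpr R (vec μ a E g))) : ℂ).re

private theorem mulop67 {G : Type} {f : G → ℂ} (hf : ∀ γ, ‖f γ‖ ≤ 1) (x : L2 G) :
    HasSum (fun γ => (f γ).re * ‖x γ‖ ^ 2) (inner ℂ x (mulop f x)).re := by
  have h1 : HasSum (fun γ => inner ℂ (x γ) (mulop f x γ)) (inner ℂ x (mulop f x)) :=
    lv_inner x (mulop f x)
  have h2 := Complex.reCLM.hasSum h1
  have h3 : (fun γ => Complex.reCLM (inner ℂ (x γ) (mulop f x γ))) =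
      fun γ => (f γ).re * ‖x γ‖ ^ 2 := by
    funext γ
    have hC : ∀ (i : G) (y : ℂ), ‖(f i • ContinuousLinearMap.id ℂ ℂ) y‖ ≤ 1 * ‖y‖ := by
      intro i y
      rw [_root_.smul_apply, ContinuousLinearMap.id_apply, norm_smul]
      exact mul_le_mul_of_nonneg_right (hf i) (norm_nonneg _)
    have h4 : mulop f x γ = f γ * x γ := by
      unfold mulop
      rw [dg_apply hC, _root_.smul_apply, ContinuousLinearMap.id_apply, smul_eq_mul]
    rw [h4]
    change (inner ℂ (x γ) (f γ * x γ) : ℂ).re = _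
    rw [← smul_eq_mul, inner_smul_right, inner_self_eq_norm_sq_to_K]
    have : ((‖x γ‖ : ℂ)) ^ 2 = ((‖x γ‖ ^ 2 : ℝ) : ℂ) := by push_cast; rfl
    change (f γ * ((‖x γ‖ : ℂ)) ^ 2).re = _
    rw [this, Complex.re_mul_ofReal]
  rw [h3] at h2
  exact h2

private theorem upper67 {X G : Type} [MeasurableSpace X] {μ : Measure X} {f : G → ℂ} (hf : ∀ γ, ‖f γ‖ ≤ 1)
    {W : Set G} {c : ℝ} (hc : 0 ≤ c) (h : ∀ γ ∉ W, (f γ).re ≤ c) (b : UE μ (L2 G)) :
    (inner ℂ b (UE.map μ (mulop f) b)).re ≤ ‖UE.map μ (ind ℂ W) b‖ ^ 2 + c * ‖b‖ ^ 2 := by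
  classical
  have h1 := UE.re_inner_nonneg (μ := μ)
    (T := (ind ℂ W + (c : ℂ) • ContinuousLinearMap.id ℂ (L2 G)) - mulop f)
    (S := ContinuousLinearMap.id ℂ (L2 G)) (fun x => by
      rw [ContinuousLinearMap.id_apply, _root_.sub_apply, _root_.add_apply, _root_.smul_apply,
        ContinuousLinearMap.id_apply, inner_sub_right, inner_add_right, inner_smul_right, Complex.sub_re,
        Complex.add_re, Complex.re_ofReal_mul]
      have s1 := mulop67 hf x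
      have s2 : HasSum (fun γ => (inner ℂ (x γ) (ind ℂ W x γ) : ℂ).re) (inner ℂ x (ind ℂ W x)).re :=
        Complex.reCLM.hasSum (lv_inner x (ind ℂ W x))
      have s5 : HasSum (fun γ => (inner ℂ (x γ) (x γ) : ℂ).re) (inner ℂ x x).re :=
        Complex.reCLM.hasSum (lv_inner x x)
      have s3 := s5.mul_left c
      have s4 := (s2.add s3).sub s1
      refine s4.nonneg fun γ => ?_
      rw [ind_apply]
      have e0 : (inner ℂ (x γ) (x γ) : ℂ).re = ‖x γ‖ ^ 2 := by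
        rw [inner_self_eq_norm_sq_to_K]
        have : ((‖x γ‖ : ℂ)) ^ 2 = ((‖x γ‖ ^ 2 : ℝ) : ℂ) := by push_cast; rfl
        change (((‖x γ‖ : ℂ)) ^ 2 : ℂ).re = _
        rw [this, Complex.ofReal_re]
      by_cases hγ : γ ∈ W
      · rw [if_pos hγ, e0]
        have h2 : (f γ).re ≤ 1 := (Complex.re_le_norm _).trans (hf γ)
        have h3 := mul_le_mul_of_nonneg_right h2 (sq_nonneg ‖x γ‖)
        have h4 : 0 ≤ c * ‖x γ‖ ^ 2 := mul_nonneg hc (sq_nonneg _)
        linarith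
      · rw [if_neg hγ, inner_zero_right, Complex.zero_re, zero_add, e0]
        have h3 := mul_le_mul_of_nonneg_right (h γ hγ) (sq_nonneg ‖x γ‖)
        linarith) b
  rw [UE.map_id, UE.map_sub, UE.map_add, UE.map_smul, UE.map_id, inner_sub_right, inner_add_right,
    inner_smul_right, Complex.sub_re, Complex.add_re, Complex.re_ofReal_mul] at h1
  have h2 : (inner ℂ b (UE.map μ (ind ℂ W) b)).re = ‖UE.map μ (ind ℂ W) b‖ ^ 2 := by
    have e1 : UE.map μ (ind ℂ W) b = UE.map μ (ind ℂ W) (UE.map μ (ind ℂ W) b) := by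
      rw [xind_ind, Set.inter_self]
    have e2 : inner ℂ b (UE.map μ (ind ℂ W) b) =
        inner ℂ (UE.map μ (ind ℂ W) b) (UE.map μ (ind ℂ W) b) := by
      rw [xinner_ind, ← e1]
    rw [e2]
    exact (norm_sq_eq_re_inner (𝕜 := ℂ) _).symm
  have h3 : (inner ℂ b b : ℂ).re = ‖b‖ ^ 2 := (norm_sq_eq_re_inner (𝕜 := ℂ) _).symm
  rw [h2, h3] at h1
  linarith

private theorem bnd67 {R : Reg G} (Γ : Coc R L) (γ : G) : ‖(inner ℂ (Γ.vX γ) Γ.v : ℂ)‖ ≤ 1 := by
  refine (norm_inner_le_norm _ _).trans ?_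
  rw [Γ.nvX, Γ.nv, mul_one]

/-- The fixed vectors for the closure. -/
private theorem fix67 {C K : Type} [Group C] [TopologicalSpace C] [IsTopologicalGroup C]
    [NormedAddCommGroup K] [InnerProductSpace ℂ K] (σ : CRep C K) {η : K}
    (hη : Tendsto (fun h : C => σ.U h η) (𝓝 1) (𝓝 η)) {s : Set C} (hs : ∀ g ∈ s, σ.U g η = η) :
    ∀ g ∈ closure s, σ.U g η = η := by
  intro g hg
  have hne : (𝓝[s] g).NeBot := mem_closure_iff_nhdsWithin_neBot.1 hg
  have h1 : Tendsto (fun x : C => g⁻¹ * x) (𝓝[s] g) (𝓝 1) := by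
    have h2 : Tendsto (fun x : C => g⁻¹ * x) (𝓝 g) (𝓝 (g⁻¹ * g)) :=
      (continuous_const.mul continuous_id).tendsto g
    rw [inv_mul_cancel] at h2
    exact h2.mono_left nhdsWithin_le_nhds
  have h2 : Tendsto (fun x : C => σ.U g (σ.U (g⁻¹ * x) η)) (𝓝[s] g) (𝓝 (σ.U g η)) :=
    ((σ.U g).continuous.tendsto η).comp (hη.comp h1)
  have h3 : Tendsto (fun x : C => σ.U g (σ.U (g⁻¹ * x) η)) (𝓝[s] g) (𝓝 η) := by
    refine tendsto_const_nhds.congr' ?_
    filter_upwards [self_mem_nhdsWithin] with x hx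
    rw [← σ.mul, mul_inv_cancel_left, hs x hx]
  exact tendsto_nhds_unique h2 h3

theorem ph_lower (Γ : Coc R L) (n : ℕ) : ∃ c : ℝ, 0 < c ∧ ∀ g : ℕ → G1, c * mR μ a E R (R.W n) g ≤ ph μ a E Γ g := by
  obtain ⟨c, hc, hpos⟩ := Γ.pos n
  refine ⟨c, hc, fun g => ?_⟩
  unfold ph mR
  rw [inner_XTL_XTR]
  exact xlower (W := R.W n) (c := c) (bnd67 Γ) (fun γ => Γ.nonneg γ) (fun γ hγ => hpos γ hγ) _

theorem ph_nonneg (Γ : Coc R L) (g : ℕ → G1) : 0 ≤ ph μ a E Γ g := by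
  have h := xlower (μ := μ) (W := (∅ : Set G)) (c := 0) (bnd67 Γ) (fun γ => Γ.nonneg γ)
    (fun γ hγ => absurd hγ (Set.notMem_empty γ))
    ((XPpr R (vec μ a E g) : XUa μ R) : UE μ (L2 G))
  rw [zero_mul] at h
  unfold ph
  rw [inner_XTL_XTR]
  exact h

theorem ph_upper (Γ : Coc R L) {W' : Set G} {ε : ℝ} (hε : 0 ≤ ε) (h : ∀ γ ∉ W', (inner ℂ (Γ.vX γ) Γ.v : ℂ).re ≤ ε)
    (g : ℕ → G1) : ph μ a E Γ g ≤ mR μ a E R W' g + ε := by
  unfold ph mR
  rw [inner_XTL_XTR]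
  refine (upper67 (bnd67 Γ) hε h _).trans ?_
  have h1 : ‖((XPpr R (vec μ a E g) : XUa μ R) : UE μ (L2 G))‖ ≤ 1 := by
    have h2 := norm_XPpr_le (R := R) (vec μ a E g)
    rw [norm_vec] at h2
    exact h2
  have h3 : ‖((XPpr R (vec μ a E g) : XUa μ R) : UE μ (L2 G))‖ ^ 2 ≤ 1 := pow_le_one₀ (norm_nonneg _) h1
  have h4 := mul_le_mul_of_nonneg_left h3 hε
  linarith

theorem tight [T2Space G1] (Γ : Coc R L) (h3 : Tendsto (fun g : G1 => μ {x | a.a g x ≠ 1}) (𝓝 1) (𝓝 0))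
    (b : ℕ → G1) {a0 : G1} (ha : ∀ n, b n * a0 = a0 * b n) :
    ∃ κ : ℝ, 0 ≤ κ ∧ ∀ ε : ℝ, 0 < ε → ∃ K0 : ℕ, ∀ K : ℕ, K0 ≤ K → ∀ h ∈ Mt (Set.range b) a0,
      |av (fun k => ph μ a E Γ (ltr (a0 ^ k * h) b)) K - κ| ≤ ε := by
  have hbA : Bdd (XAU R) 1 (XPpr R (vec μ a E b)) :=
    (Bdd.map (A := AE μ G) (T := XPpr R) (XPpr_A R) (bdd_A_vec b)).mono (by
      simpa using norm_XPpr (μ := μ) R)
  have hbB : BddX (xmUa μ b R) μ (XBU R) (XPpr R (vec μ a E b)) := by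
    intro D hDm
    have h1 := (hom_XPpr (μ := μ) (R := R) b).y D hDm (vec μ a E b)
    rw [← h1]
    refine (Bdd.map (A := BE μ G) (T := XPpr R) (XPpr_B R) (bddX_vec (b := b) (a := a) (E := E) hDm)).mono ?_
    have := mul_le_mul_of_nonneg_right (norm_XPpr (μ := μ) R) (Real.sqrt_nonneg (μ D).toReal)
    linarith
  have hcen : ∀ v : cen b, opL (xmUa μ b R) (cres a (cen b)) (CRep.ext (XAU R) E) v⁻¹ (XPpr R (vec μ a E b)) =
      opR (xmUa μ b R) (cres a (cen b)) (CRep.ext (XBU R) E.conj) v (XPpr R (vec μ a E b)) := by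
    intro v
    rw [← XPpr_opL, ← XPpr_opR, vec_central]
  have hν : ∀ D : Set X, MeasurableSet D → ‖(xmUa μ b R).px.p D (XPpr R (vec μ a E b))‖ ^ 2 ≤ (μ D).toReal := by
    intro D hDm
    have h1 := (hom_XPpr (μ := μ) (R := R) b).x D hDm (vec μ a E b)
    rw [← h1]
    exact (pow_le_pow_left₀ (norm_nonneg _) (norm_XPpr_le _) 2).trans (norm_px_vec hDm)
  have h3' : Tendsto (fun h : cen b => μ {x | (cres a (cen b)).a h x ≠ 1}) (𝓝 1) (𝓝 0) := by
    have h4 : Tendsto (fun h : cen b => (h : G1)) (𝓝 1) (𝓝 1) := continuous_subtype_val.tendsto (1 : cen b)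
    exact h3.comp h4
  have ha0 : a0 ∈ cen b := mem_cen.2 ha
  obtain ⟨η, -, hcont, hfix0, hmean⟩ := meanX (cres a (cen b)) E (mrep_XU b) (mrep_XV b Γ) (XTL μ Γ) (XTR μ Γ)
    (XTR_A μ Γ) (XTL_B μ Γ) (hom_XTR b Γ) (hom_XTL b Γ) (ν := μ) hbA.mem_VB hbB hcen hν h3' (⟨a0, ha0⟩ : cen b)
  have hU : UHom (xmVp μ b R L) (CRep.ext (XAV μ Γ) E) := uhom_ext E (mrep_XV b Γ).hA
  have hU' : UHom (xmVp μ b R L) (CRep.ext (XBV μ Γ) E.conj) := uhom_ext E.conj (mrep_XV b Γ).hB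
  have hUU := ucom_ext (mrep_XV (μ := μ) (R := R) b Γ).comm2 E E.conj
  let σ : CRep (cen b) (XVp μ R L) :=
    { U := sgm (xmVp μ b R L) (cres a (cen b)) (CRep.ext (XAV μ Γ) E) (CRep.ext (XBV μ Γ) E.conj)
      mul := sgm_mul (xmVp μ b R L) (cres a (cen b)) hU hU' hUU
      norm_le := norm_sgm_le (xmVp μ b R L) (cres a (cen b)) hU hU'
      adj := sgm_adj (xmVp μ b R L) (cres a (cen b)) hU hU' hUU }
  -- the contracted elements in the centraliser
  have hsub : Ctr (Set.range b) a0 ⊆ (cen b : Set G1) := by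
    intro u hu
    exact mem_cen.2 fun n => hu.1 (b n) ⟨n, rfl⟩
  have hsub2 : (Subgroup.closure (Ctr (Set.range b) a0) : Set G1) ⊆ (cen b : Set G1) := by
    have h1 : Subgroup.closure (Ctr (Set.range b) a0) ≤ cen b := (Subgroup.closure_le _).2 hsub
    exact h1
  have hfixS : ∀ g ∈ Subgroup.closure {u : cen b | (u : G1) ∈ Ctr (Set.range b) a0}, σ.U g η = η := by
    refine mautnerX (σ := σ) hcont (a0 := (⟨a0, ha0⟩ : cen b)) hfix0 ?_
    intro u hu
    rcases hu.2 with h | h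
    · refine Or.inl ?_
      rw [tendsto_subtype_rng]
      exact h
    · refine Or.inr ?_
      rw [tendsto_subtype_rng]
      exact h
  have hfixG : ∀ g : cen b, (g : G1) ∈ Subgroup.closure (Ctr (Set.range b) a0) → σ.U g η = η := by
    intro g hg
    refine hfixS g ?_
    have h1 : Subgroup.closure (Ctr (Set.range b) a0) =
        (Subgroup.closure {u : cen b | (u : G1) ∈ Ctr (Set.range b) a0}).map (cen b).subtype := by
      rw [MonoidHom.map_closure]
      congr 1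
      ext u
      constructor
      · intro hu
        exact ⟨⟨u, hsub hu⟩, hu, rfl⟩
      · rintro ⟨v, hv, rfl⟩
        exact hv
    rw [h1] at hg
    obtain ⟨v, hv, hvg⟩ := hg
    have h2 : v = g := Subtype.ext hvg
    rw [← h2]
    exact hv
  have hclosed : IsClosed (cen b : Set G1) := Set.isClosed_centralizer _
  have hMt : Mt (Set.range b) a0 ⊆ (cen b : Set G1) := closure_minimal hsub2 hclosed
  have hfixM : ∀ g : cen b, (g : G1) ∈ Mt (Set.range b) a0 → σ.U g η = η := by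
    intro g hg
    refine fix67 σ hcont (s := {g : cen b | (g : G1) ∈ Subgroup.closure (Ctr (Set.range b) a0)}) hfixG g ?_
    rw [closure_subtype]
    refine closure_mono ?_ hg
    intro x hx
    exact ⟨⟨x, hsub2 hx⟩, hx, rfl⟩
  have hph : ∀ v : cen b, ph μ a E Γ (ltr (v : G1) b) =
      (inner ℂ (XTL μ Γ (opL (xmUa μ b R) (cres a (cen b)) (CRep.ext (XAU R) E) v (XPpr R (vec μ a E b))))
        (XTR μ Γ (opL (xmUa μ b R) (cres a (cen b)) (CRep.ext (XAU R) E) v (XPpr R (vec μ a E b)))) : ℂ).re := by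
    intro v
    rw [← XPpr_opL, opL_vec]
    rfl
  have key : ∀ ε : ℝ, 0 < ε → ∃ K0 : ℕ, ∀ K : ℕ, K0 ≤ K → ∀ h ∈ Mt (Set.range b) a0,
      |av (fun k => ph μ a E Γ (ltr (a0 ^ k * h) b)) K -
        (inner ℂ η (XTR μ Γ (XPpr R (vec μ a E b))) : ℂ).re| ≤ ε := by
    intro ε hε
    obtain ⟨K0, hK0⟩ := hmean ε hε
    refine ⟨K0, fun K hK h hh => ?_⟩
    have h1 := hK0 K hK (⟨h, hMt hh⟩ : cen b)
    have h2 : σ.U (⟨h, hMt hh⟩ : cen b)⁻¹ η = η := by
      have h3 : σ.U (⟨h, hMt hh⟩ : cen b) η = η := hfixM _ hh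
      have h4 : σ.U 1 η = η := by
        refine hfixM 1 ?_
        exact subset_closure (Subgroup.one_mem _)
      conv_lhs => rw [← h3]
      rw [← σ.mul, inv_mul_cancel, h4]
    have h5 : sgm (xmVp μ b R L) (cres a (cen b)) (CRep.ext (XAV μ Γ) E) (CRep.ext (XBV μ Γ) E.conj)
        (⟨h, hMt hh⟩ : cen b)⁻¹ η = η := h2
    rw [h5] at h1
    have h6 : av (fun k => ph μ a E Γ (ltr (a0 ^ k * h) b)) K =
        (∑ k ∈ Finset.range K, (inner ℂ (XTL μ Γ (opL (xmUa μ b R) (cres a (cen b)) (CRep.ext (XAU R) E)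
            ((⟨a0, ha0⟩ : cen b) ^ k * ⟨h, hMt hh⟩) (XPpr R (vec μ a E b))))
            (XTR μ Γ (opL (xmUa μ b R) (cres a (cen b)) (CRep.ext (XAU R) E)
            ((⟨a0, ha0⟩ : cen b) ^ k * ⟨h, hMt hh⟩) (XPpr R (vec μ a E b)))) : ℂ).re) / K := by
      unfold av
      congr 1
      refine Finset.sum_congr rfl fun k _ => ?_
      have h8 := hph ((⟨a0, ha0⟩ : cen b) ^ k * ⟨h, hMt hh⟩)
      have h9 : (((⟨a0, ha0⟩ : cen b) ^ k * ⟨h, hMt hh⟩ : cen b) : G1) = a0 ^ k * h := rfl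
      rw [h9] at h8
      exact h8
    rw [h6]
    exact h1
  refine ⟨(inner ℂ η (XTR μ Γ (XPpr R (vec μ a E b))) : ℂ).re, ?_, key⟩
  refine le_of_forall_pos_le_add fun ε hε => ?_
  obtain ⟨K0, hK0⟩ := key ε hε
  have h1 := hK0 K0 le_rfl 1 (subset_closure (Subgroup.one_mem _))
  have h2 : 0 ≤ av (fun k => ph μ a E Γ (ltr (a0 ^ k * 1) b)) K0 := by
    unfold av
    exact div_nonneg (Finset.sum_nonneg fun k _ => ph_nonneg Γ _) (Nat.cast_nonneg _)
  have h3 := (abs_le.1 h1).2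
  linarith

end Pool.Agent.Helper43.TA
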