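import Pool.Agent.Helper43.TA.Rgl
import Pool.Agent.Helper43.TA.Tight
import Pool.Agent.Helper43.TA.Blk

/-!
# Block TYA-SIDE: no block is tight

PROOF of `side_mean`. `J := univ.erase q`, `β := bJ J i`, `K1 := KB J β` (contains `i`), `a0 := D.e i0`. Take `Γ : Coc (blkReg S J [] β) L` of `exists_blk` and `κ` of `tight Γ D.h3 b`. Note `Mt (F : Set G1) a0 ⊆ Mt (Set.range b) a0` (`Ctr` is antitone in the set; `Subgroup.closure_mono`, `closure_mono`), and `HS D r ⊆ Mt (F : Set G1) a0`: the closure of a subgroup is a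
subgroup (`Subgroup.topologicalClosure`) and contains the generators by `D.mt i0`.
Claim `κ = 0`. Suppose `κ > 0`. Let `n'` be the number of `exists_blk` for `ε = κ / 4`: `ph Γ g ≤ mR (blkReg S J [] β) (WC S K1 n') g + κ / 4 ≤ ms (WC S K1 n') g + κ / 4` (`ph_upper`, `mR_le_ms`). `tight` with `ε = κ / 4`: for `K ≥ K0`, `h ∈ HS D r`: `av (ph (ltr (a0 ^ k * h) b)) K ≥ 3 κ / 4`, so `av (ms (WC S K1 n') ..) K ≥ κ / 2` (for `K ≥ 1`).
`diag` with `j = r` (`1 ≤ r` as `i0 : Fin r`), `H = HS D r`, `hQ = reg_ind`, `Z = WC S K1 n'`, `δ = κ / 2`, `m = n' + 1`: but `Z ⊆ (TJ S (r + 1) (n' + 1))ᶜ`, by `TJ_gap` (`N ≤ (r + 1) + 1`) for the index `i`: `n' + 1 ≤ lg γ i` for `γ ∈ TJ S (r+1) (n'+1)`, and `lg γ i ≤ n'` for `γ ∈ Z`. Contradiction. (`hc`, `hE` of `diag`: `HS_comm` with `i = i0`, `D.cF`, `esc_dat`.)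
So `κ = 0`, the means of `ph (ltr (a0 ^ k) b)` tend to `0` (`h = 1 ∈ Mt`), and `c mR (blkReg S J [] β) (WC S K1 n) g ≤ ph g` (`ph_lower`; `(blkReg S J [] β).W n = WC S K1 n`), and `mR (blkReg S J [] β) = mR (toReg (chStr S J []))` (`mR_blk`: the space `XUa` depends only on the filters).
-/

set_option autoImplicit false
set_option linter.unusedSectionVars false

open MeasureTheory Filter Topology

namespace Pool.Agent.Helper43.TA

open Pool.Agent.Helper84.NI Pool.Agent.Helper84.GVN Pool.Agent.Helper90.RK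
open Pool.Agent.Helper84.GN hiding toReg
open Pool.Agent.Helper96.RK Pool.Agent.Helper66.FR Pool.Agent.Helper84.FR Pool.Agent.Helper96.FR Pool.Agent.Helper55.FR

variable {G1 X G Λ : Type} [Group G1] [TopologicalSpace G1] [IsTopologicalGroup G1] [T2Space G1] [MeasurableSpace X]
  {μ : Measure X} [MulAction G1 X] [MeasurableConstSMul G1 X] [SMulInvariantMeasure G1 X μ] [IsProbabilityMeasure μ]
  [Group G] [Group Λ] [Countable Λ] {a : Cocy G1 X Λ} {E : Emb Λ G} {N : ℕ} {P : PH G N} {S : Sv P}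
  {F : Subgroup G1} {r : ℕ}

theorem mR_blk (J : Finset (Fin N)) (c : List (Finset (Fin N))) (β : ℕ) (t : Set G) (g : ℕ → G1) :
    mR μ a E (blkReg S J c β) t g = mR μ a E (toReg (chStr S J c)) t g := rfl

private theorem av_mono23 {f g : ℕ → ℝ} (h : ∀ k, f k ≤ g k) (K : ℕ) : av f K ≤ av g K := by
  unfold av
  exact div_le_div_of_nonneg_right (Finset.sum_le_sum fun k _ => h k) (Nat.cast_nonneg K)

private theorem av_add23 (f : ℕ → ℝ) (c : ℝ) {K : ℕ} (hK : 1 ≤ K) :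
    av (fun k => f k + c) K = av f K + c := by
  unfold av
  have h : (K : ℝ) ≠ 0 := by exact_mod_cast (by omega : K ≠ 0)
  rw [Finset.sum_add_distrib, Finset.sum_const, Finset.card_range, nsmul_eq_mul, add_div,
    mul_div_cancel_left₀ _ h]

private theorem av_mul23 (c : ℝ) (f : ℕ → ℝ) (K : ℕ) : av (fun k => c * f k) K = c * av f K := by
  unfold av
  rw [← Finset.mul_sum, mul_div_assoc]

private theorem av_nonneg23 {f : ℕ → ℝ} (h : ∀ k, 0 ≤ f k) (K : ℕ) : 0 ≤ av f K :=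
  div_nonneg (Finset.sum_nonneg fun k _ => h k) (Nat.cast_nonneg K)

omit [TopologicalSpace G1] [IsTopologicalGroup G1] [T2Space G1] [MeasurableSpace X] [MulAction G1 X]
  [MeasurableConstSMul G1 X] [SMulInvariantMeasure G1 X μ] [IsProbabilityMeasure μ] [Group G] [Group Λ]
  [Countable Λ] in
private theorem Mt_anti23 [TopologicalSpace G1] {A B : Set G1} (h : A ⊆ B) (a0 : G1) : Mt B a0 ⊆ Mt A a0 := by
  unfold Mt
  refine closure_mono ?_
  refine SetLike.coe_subset_coe.2 (Subgroup.closure_mono fun u hu => ?_)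
  exact ⟨fun f hf => hu.1 f (h hf), hu.2⟩

theorem side_mean (D : Dat μ a F r) (hr : r + 2 = N) {b : ℕ → G1} (hbF : ∀ n, b n ∈ F)
    (hb : Tendsto b atTop (cocompact G1)) {q i : Fin N} (hi : (i : ℕ) + 1 < N) (hiq : i ≠ q) (n : ℕ)
    {i0 : Fin r} (hi0 : (i0 : ℕ) = 0) :
    Tendsto (av fun k => mR μ a E (toReg (chStr S (Finset.univ.erase q) []))
      (WC S (KB (Finset.univ.erase q) (bJ (Finset.univ.erase q) i)) n) (ltr (D.e i0 ^ k) b)) atTop (𝓝 0) := by
  classical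
  obtain ⟨J, hJ⟩ : ∃ J : Finset (Fin N), J = Finset.univ.erase q := ⟨_, rfl⟩
  rw [← hJ]
  have hiK : i ∈ KB J (bJ J i) := mem_KB.2 ⟨by rw [hJ]; exact Finset.mem_erase.2 ⟨hiq, Finset.mem_univ i⟩, rfl⟩
  obtain ⟨β, hβ⟩ : ∃ β : ℕ, β = bJ J i := ⟨_, rfl⟩
  rw [← hβ] at hiK ⊢
  obtain ⟨L, _, _, _, Γ, hΓ⟩ := exists_blk S J [] β
  have hcomm : ∀ n, b n * D.e i0 = D.e i0 * b n := fun n => (D.cF i0 (b n) (hbF n)).1
  obtain ⟨κ, hκ0, hκ⟩ := tight (μ := μ) (a := a) (E := E) Γ D.h3 b hcomm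
  have hr1 : 1 ≤ r := lt_of_le_of_lt (Nat.zero_le _) i0.2
  have hsub : Mt (F : Set G1) (D.e i0) ⊆ Mt (Set.range b) (D.e i0) :=
    Mt_anti23 (Set.range_subset_iff.2 hbF) _
  have hHS : ∀ h ∈ HS D r, h ∈ Mt (Set.range b) (D.e i0) := by
    intro h hh
    have h1 : HS D r ≤ (Subgroup.closure (Ctr (F : Set G1) (D.e i0))).topologicalClosure := by
      unfold HS
      rw [Subgroup.closure_le]
      rintro g ⟨j, _, _, rfl⟩
      exact D.mt i0 j hi0
    exact hsub (h1 hh)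
  -- the number is zero
  have hκz : κ = 0 := by
    by_contra hne
    have hκp : 0 < κ := lt_of_le_of_ne hκ0 (Ne.symm hne)
    obtain ⟨n', hn'⟩ := hΓ (κ / 4) (by positivity)
    obtain ⟨K0, hK0⟩ := hκ (κ / 4) (by positivity)
    refine diag (μ := μ) (a := a) (E := E) (S := S) hr1 b (HS D r : Set G1) (a0 := D.e i0) ?_ ?_ ?_
      (WC S (KB J β) n') (δ := κ / 2) (by positivity) (max K0 1) ?_ (n' + 1) ?_
    · intro h hh n
      rw [mul_assoc, hcomm n, ← mul_assoc, (HS_comm D hh (Or.inl hi0)).1, mul_assoc]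
    · intro g hg J' c m
      refine esc_dat D i0 g (fun k => ?_) J' c m
      obtain ⟨h, hh, l, hl⟩ := hg k
      obtain ⟨c1, c2, c3⟩ := HS_comm D hh (Or.inl hi0)
      obtain ⟨d1, d2, d3⟩ := D.cF i0 (b l) (hbF l)
      rw [hl]
      refine ⟨?_, ?_, ?_⟩
      · rw [mul_assoc, d1, ← mul_assoc, c1, mul_assoc]
      · rw [mul_assoc, d2, ← mul_assoc, c2, mul_assoc]
      · rw [mul_assoc, d3, ← mul_assoc, c3, mul_assoc]
    · intro m ε hε
      exact reg_ind D hbF hb hr1 le_rfl m hε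
    · intro h hh K hK
      have hKK : K0 ≤ K := le_trans (le_max_left _ _) hK
      have hK1 : 1 ≤ K := le_trans (le_max_right _ _) hK
      have h1 := abs_le.1 (hK0 K hKK h (hHS h hh))
      have h2 : av (fun k => ph μ a E Γ (ltr (D.e i0 ^ k * h) b)) K ≤
          av (fun k => ms μ a E (WC S (KB J β) n') (ltr (D.e i0 ^ k * h) b) + κ / 4) K := by
        refine av_mono23 (fun k => ?_) K
        refine (ph_upper Γ (by positivity) hn' _).trans ?_
        have h3 := mR_le_ms (μ := μ) (a := a) (E := E) (blkReg S J [] β) (WC S (KB J β) n')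
          (ltr (D.e i0 ^ k * h) b)
        linarith
      rw [av_add23 _ _ hK1] at h2
      linarith [h1.1]
    · intro γ hγ hγ'
      have h1 := TJ_gap S (j := r + 1) (m := n') (by omega) hγ' hi
      have h2 : lg S γ i ≤ (n' : ℝ) := hγ i hiK
      linarith
  subst hκz
  obtain ⟨c, hc, hlow⟩ := ph_lower (μ := μ) (a := a) (E := E) Γ n
  rw [Metric.tendsto_atTop]
  intro ε hε
  obtain ⟨K0, hK0⟩ := hκ (c * ε / 2) (by positivity)
  refine ⟨K0, fun K hK => ?_⟩
  have h1 : |av (fun k => ph μ a E Γ (ltr (D.e i0 ^ k * 1) b)) K - 0| ≤ c * ε / 2 :=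
    hK0 K hK 1 (subset_closure (Subgroup.one_mem _))
  have h2 : av (fun k => c * mR μ a E (toReg (chStr S J [])) (WC S (KB J β) n) (ltr (D.e i0 ^ k) b)) K ≤
      av (fun k => ph μ a E Γ (ltr (D.e i0 ^ k * 1) b)) K := by
    refine av_mono23 (fun k => ?_) K
    rw [mul_one]
    exact hlow _
  rw [av_mul23] at h2
  have h3 : 0 ≤ av (fun k => mR μ a E (toReg (chStr S J [])) (WC S (KB J β) n) (ltr (D.e i0 ^ k) b)) K :=
    av_nonneg23 (fun k => mR_nonneg _ _ _) K
  rw [Real.dist_eq, sub_zero, abs_of_nonneg h3]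
  rw [sub_zero] at h1
  have h4 := (abs_le.1 h1).2
  have h5 : c * av (fun k => mR μ a E (toReg (chStr S J [])) (WC S (KB J β) n) (ltr (D.e i0 ^ k) b)) K
      < c * ε := by
    have : c * ε / 2 < c * ε := by
      have : 0 < c * ε := mul_pos hc hε
      linarith
    linarith
  exact lt_of_mul_lt_mul_left h5 hc.le

end Pool.Agent.Helper43.TA
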