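import Pool.Agent.Helper43.TA.Cpt

/-!
# Block TYB-TRL: left translates

PROOF of `cf_left`. `u : LG G`-unitary of the form `E.U l`. `cf (E.U l) ∈ ℓ²(G)`: there is a finite `Q` with `‖ind ℂ Qᶜ (cf (E.U l))‖ ≤ ε`. For every unitary `w` (`w = E.U l'`): `cf (E.U l * w) = ∑_{q ∈ Q} (cf (E.U l) q) λ_q cf w + (rest)`, where `λ_q` is the left translation by `q` and the rest is the image of `ind ℂ Qᶜ (cf (E.U l))` under the right multiplication by the unitary `w`,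
so its norm is `≤ ε`. `|cf (E.U l) q| ≤ 1` and `‖ind ℂ s (λ_q cf w)‖ = ‖ind ℂ (q⁻¹ s) (cf w)‖ ≤ ‖ind ℂ {γ | ∃ q ∈ Q, q * γ ∈ s} (cf w)‖`. So the claim holds with `C = Q.card`. (For the commutation of left and right multiplications see `Helper84/GVN` and `zx`-lemmas: `cf (u * w)` as the image of `cf u` under the right multiplication; lemmas used in `Helper66/FR/Zt3.lean`, `opL_vec`, `opR`.)
PROOF of `trl`. `cpt_fin` with `ε ^ 2 / 4`: `T`; take `Q`, `C` of `cf_left` for all `l ∈ T` with `ε / 2` (a common `Q`: enlarge). `zx (k * g) x = cf (E.U (a.a (k * g) ((k * g)⁻¹ • x)))` and `a.a (k * g) ((k * g)⁻¹ • x) = a.a k (k⁻¹ • x) * a.a g (g⁻¹ • (k⁻¹ • x))`. Let `B := {x | a.a k (k⁻¹ • x) ∉ T}`, `μ.real B ≤ ε ^ 2 / 4`. On `B` the norm of `ind ℂ s (zx (k g) x)` is `≤ 1`; on the complement it is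
`≤ C ‖ind ℂ s' (zx g (k⁻¹ • x))‖ + ε / 2`. In `L²(μ)`: `‖cl μ (ind ℂ s) (zx (k g))‖ ≤ (μ.real B) ^ (1/2) + C ‖cl μ (ind ℂ s') (zx g)‖ + ε / 2` (Minkowski: compare with the sum of three real functions, or square and use `(x + y) ^ 2 ≤ 2 x ^ 2 + 2 y ^ 2` with other constants; the measure is invariant under `k⁻¹`).
-/

set_option autoImplicit false
set_option linter.unusedSectionVars false

open MeasureTheory Filter Topology

namespace Pool.Agent.Helper43.TA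

open Pool.Agent.Helper84.NI Pool.Agent.Helper84.GVN Pool.Agent.Helper90.RK
open Pool.Agent.Helper84.GN hiding toReg
open Pool.Agent.Helper96.RK Pool.Agent.Helper66.FR Pool.Agent.Helper84.FR Pool.Agent.Helper96.FR Pool.Agent.Helper55.FR

variable {G1 X G Λ : Type} [Group G1] [TopologicalSpace G1] [IsTopologicalGroup G1] [MeasurableSpace X] {μ : Measure X}
  [MulAction G1 X] [MeasurableConstSMul G1 X] [SMulInvariantMeasure G1 X μ] [IsProbabilityMeasure μ]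
  [Group G] [Group Λ] [Countable Λ] {a : Cocy G1 X Λ} {E : Emb Λ G}

omit [Group G] in
private theorem ind_mono52 {s t : Set G} (h : s ⊆ t) (f : L2 G) : ‖ind ℂ s f‖ ≤ ‖ind ℂ t f‖ := by
  classical
  have e : ind ℂ s f = ind ℂ s (ind ℂ t f) := by
    apply l2_ext
    intro i
    rw [ind_apply, ind_apply, ind_apply]
    by_cases hi : i ∈ s
    · rw [if_pos hi, if_pos hi, if_pos (h hi)]
    · rw [if_neg hi, if_neg hi]
  rw [e]
  exact norm_ind_le' _ _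

private theorem ind_lam52 (q : G) (s : Set G) (f : L2 G) :
    ‖ind ℂ s (lamU q f)‖ = ‖ind ℂ {z | q * z ∈ s} f‖ := by
  classical
  have e : ind ℂ s (lamU q f) = lamU q (ind ℂ {z | q * z ∈ s} f) := by
    apply l2_ext
    intro y
    rw [ind_apply, lamU_apply, lamU_apply, ind_apply]
    simp only [Set.mem_ofPred_eq, mul_inv_cancel_left]
  rw [e, LinearIsometryEquiv.norm_map]

omit [Group G] in
private theorem fin52 (f : L2 G) {ε : ℝ} (hε : 0 < ε) : ∃ Q : Finset G, ‖ind ℂ (Q : Set G)ᶜ f‖ ≤ ε := by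
  classical
  have h := hasSum_sq f
  have hlt : ‖f‖ ^ 2 - ε ^ 2 < ‖f‖ ^ 2 := by
    have : 0 < ε ^ 2 := by positivity
    linarith
  obtain ⟨Q, hQ⟩ := (h.eventually (lt_mem_nhds hlt)).exists
  refine ⟨Q, ?_⟩
  have h2 : HasSum (fun γ => ‖ind ℂ (Q : Set G) f γ‖ ^ 2) (∑ γ ∈ Q, ‖f γ‖ ^ 2) := by
    have h2' : ∑ γ ∈ Q, ‖f γ‖ ^ 2 = ∑ γ ∈ Q, ‖ind ℂ (Q : Set G) f γ‖ ^ 2 := by
      refine Finset.sum_congr rfl fun γ hγ => ?_
      rw [ind_apply, if_pos (Finset.mem_coe.2 hγ)]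
    rw [h2']
    refine hasSum_sum_of_ne_finset_zero fun γ hγ => ?_
    rw [ind_apply, if_neg (fun h => hγ (Finset.mem_coe.1 h)), norm_zero, zero_pow two_ne_zero]
  have h3 : HasSum (fun γ => ‖ind ℂ (Q : Set G)ᶜ f γ‖ ^ 2) (‖ind ℂ (Q : Set G)ᶜ f‖ ^ 2) :=
    hasSum_sq _
  have h4 : ∑ γ ∈ Q, ‖f γ‖ ^ 2 + ‖ind ℂ (Q : Set G)ᶜ f‖ ^ 2 = ‖f‖ ^ 2 := by
    refine (h2.add h3).unique (h.congr_fun fun γ => ?_)
    rw [ind_apply, ind_apply]
    by_cases hγ : γ ∈ (Q : Set G)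
    · rw [if_pos hγ, if_neg (fun h => h hγ), norm_zero, zero_pow two_ne_zero, add_zero]
    · have hγ' : γ ∈ (Q : Set G)ᶜ := hγ
      rw [if_neg hγ, if_pos hγ', norm_zero, zero_pow two_ne_zero, zero_add]
  have h5 : ‖ind ℂ (Q : Set G)ᶜ f‖ ^ 2 ≤ ε ^ 2 := by linarith
  exact le_of_sq_le_sq h5 hε.le

theorem cf_left (l : Λ) {ε : ℝ} (hε : 0 < ε) : ∃ Q : Finset G, ∀ (l' : Λ) (s : Set G),
    ‖ind ℂ s (cf (E.U (l * l')))‖ ≤ Q.card * ‖ind ℂ {γ | ∃ q ∈ Q, q * γ ∈ s} (cf (E.U l'))‖ + ε := by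
  classical
  obtain ⟨Q, hQ⟩ := fin52 (cf (E.U l)) hε
  refine ⟨Q, fun l' s => ?_⟩
  obtain ⟨S, hS⟩ : ∃ S : L2 G ≃ₗᵢ[ℂ] L2 G, S = jjU (E.U l')⁻¹ := ⟨_, rfl⟩
  have e1 : cf (E.U (l * l')) = S (cf (E.U l)) := by
    rw [map_mul, hS]
    change E.U l (cf (E.U l')) = jjU (E.U l')⁻¹ (E.U l (dl 1))
    rw [jj_comm (E.comm l) (commR_inv (E.comm _)), jj_dl (E.comm _), lamU_one]
    rfl
  have hSq : ∀ q : G, S (dl q) = lamU q (cf (E.U l')) := fun q => by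
    rw [hS]
    exact jj_dl (E.comm l') q
  have e2 : cf (E.U l) = ∑ q ∈ Q, cf (E.U l) q • (dl q : L2 G) + ind ℂ (Q : Set G)ᶜ (cf (E.U l)) := by
    apply l2_ext
    intro i
    rw [lp.coeFn_add, Pi.add_apply, ind_apply, lp.coeFn_sum, Finset.sum_apply]
    have e3 : ∀ q ∈ Q, (cf (E.U l) q • (dl q : L2 G)) i = if i = q then cf (E.U l) i else 0 := by
      intro q _
      rw [lp.coeFn_smul, Pi.smul_apply, dl_apply, smul_eq_mul]
      split_ifs with h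
      · rw [h, mul_one]
      · rw [mul_zero]
    rw [Finset.sum_congr rfl e3, Finset.sum_ite_eq]
    by_cases hi : i ∈ Q
    · rw [if_pos hi, if_neg (fun h => h (Finset.mem_coe.2 hi)), add_zero]
    · have hi' : i ∈ (Q : Set G)ᶜ := fun h => hi (Finset.mem_coe.1 h)
      rw [if_neg hi, if_pos hi', zero_add]
  have e4 : ind ℂ s (cf (E.U (l * l'))) = ∑ q ∈ Q, cf (E.U l) q • ind ℂ s (lamU q (cf (E.U l'))) +
      ind ℂ s (S (ind ℂ (Q : Set G)ᶜ (cf (E.U l)))) := by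
    rw [e1]
    conv_lhs => rw [e2]
    rw [map_add, map_sum, map_add, map_sum]
    congr 1
    refine Finset.sum_congr rfl fun q _ => ?_
    rw [map_smul, map_smul, hSq]
  rw [e4]
  refine (norm_add_le _ _).trans (add_le_add ?_ ?_)
  · refine (norm_sum_le _ _).trans ?_
    have h1 : ∀ q ∈ Q, ‖cf (E.U l) q • ind ℂ s (lamU q (cf (E.U l')))‖ ≤
        ‖ind ℂ {γ | ∃ q ∈ Q, q * γ ∈ s} (cf (E.U l'))‖ := by
      intro q hq
      rw [norm_smul, ind_lam52]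
      have h2 : ‖cf (E.U l) q‖ ≤ 1 := by
        have := norm_apply_le (cf (E.U l)) q
        rwa [norm_cf] at this
      have h3 : ‖ind ℂ {z | q * z ∈ s} (cf (E.U l'))‖ ≤
          ‖ind ℂ {γ | ∃ q ∈ Q, q * γ ∈ s} (cf (E.U l'))‖ :=
        ind_mono52 (fun z hz => (⟨q, hq, hz⟩ : ∃ q ∈ Q, q * z ∈ s)) _
      exact (mul_le_of_le_one_left (norm_nonneg _) h2).trans h3
    refine (Finset.sum_le_sum h1).trans ?_
    rw [Finset.sum_const, nsmul_eq_mul]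
  · refine (norm_ind_le' _ _).trans ?_
    rw [LinearIsometryEquiv.norm_map]
    exact hQ

theorem trl (h3 : Tendsto (fun g : G1 => μ {x | a.a g x ≠ 1}) (𝓝 1) (𝓝 0)) {K : Set G1} (hK : IsCompact K)
    {ε : ℝ} (hε : 0 < ε) : ∃ (Q : Finset G) (C : ℝ), 0 ≤ C ∧ ∀ k ∈ K, ∀ (g : G1) (s : Set G),
      ‖cl μ (ind ℂ s) (zx μ a E (k * g))‖ ≤ C * ‖cl μ (ind ℂ {γ | ∃ q ∈ Q, q * γ ∈ s}) (zx μ a E g)‖ + ε := by
  classical
  obtain ⟨T, hT⟩ := cpt_fin (a := a) h3 hK (ε := ε ^ 2 / 6) (by positivity)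
  have hε3 : 0 < ε / 3 := by positivity
  choose Ql hQl using fun l : Λ => cf_left (E := E) l hε3
  obtain ⟨Q, hQ⟩ : ∃ Q : Finset G, Q = T.biUnion Ql := ⟨_, rfl⟩
  obtain ⟨C, hC⟩ : ∃ C : ℝ, C = ∑ l ∈ T, ((Ql l).card : ℝ) := ⟨_, rfl⟩
  have hC0 : 0 ≤ C := by
    rw [hC]
    exact Finset.sum_nonneg fun _ _ => Nat.cast_nonneg _
  refine ⟨Q, 2 * C, by positivity, fun k hk g s => ?_⟩
  obtain ⟨s', hs'⟩ : ∃ s' : Set G, s' = {γ | ∃ q ∈ Q, q * γ ∈ s} := ⟨_, rfl⟩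
  rw [← hs']
  -- the bound for the elements of `T`
  have hb : ∀ l ∈ T, ∀ l' : Λ, ‖ind ℂ s (cf (E.U (l * l')))‖ ≤ C * ‖ind ℂ s' (cf (E.U l'))‖ + ε / 3 := by
    intro l hl l'
    refine (hQl l l' s).trans (add_le_add_left ?_ _)
    have h1 : ((Ql l).card : ℝ) ≤ C := by
      rw [hC]
      exact Finset.single_le_sum (f := fun l => ((Ql l).card : ℝ)) (fun _ _ => Nat.cast_nonneg _) hl
    have h2 : ‖ind ℂ {γ | ∃ q ∈ Ql l, q * γ ∈ s} (cf (E.U l'))‖ ≤ ‖ind ℂ s' (cf (E.U l'))‖ := by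
      refine ind_mono52 (fun z hz => ?_) _
      obtain ⟨q, hq, hz⟩ := hz
      rw [hs', hQ]
      exact ⟨q, Finset.mem_biUnion.2 ⟨l, hl, hq⟩, hz⟩
    exact mul_le_mul h1 h2 (norm_nonneg _) hC0
  obtain ⟨f, hf⟩ : ∃ f, f = cl μ (ind ℂ s) (zx μ a E (k * g)) := ⟨_, rfl⟩
  obtain ⟨h, hh⟩ : ∃ h, h = cl μ (ind ℂ s') (zx μ a E g) := ⟨_, rfl⟩
  rw [← hf, ← hh]
  obtain ⟨B0, hB0⟩ : ∃ B0 : Set X, B0 = {x | a.a k x ∉ T} := ⟨_, rfl⟩
  have hB0m : MeasurableSet B0 := by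
    have e : B0 = (⋃ l ∈ T, (a.a k) ⁻¹' {l})ᶜ := by
      ext x
      rw [hB0]
      simp only [Set.mem_ofPred_eq, Set.mem_compl_iff, Set.mem_iUnion, Set.mem_preimage,
        Set.mem_singleton_iff, exists_prop, not_exists, not_and]
      exact ⟨fun h1 l hl h2 => h1 (h2 ▸ hl), fun h1 h2 => h1 _ h2 rfl⟩
    rw [e]
    exact (Finset.measurableSet_biUnion _ fun l _ => a.meas k l).compl
  obtain ⟨B, hB⟩ : ∃ B : Set X, B = (fun x => k⁻¹ • x) ⁻¹' B0 := ⟨_, rfl⟩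
  have hBm : MeasurableSet B := by
    rw [hB]
    exact (measurable_const_smul k⁻¹) hB0m
  have hBμ : μ.real B ≤ ε ^ 2 / 6 := by
    have h1 : μ B = μ B0 := by
      rw [hB]
      exact measure_preimage_smul μ k⁻¹ B0
    rw [measureReal_def, h1, ← measureReal_def, hB0]
    exact hT k hk
  have ae1 : ∀ᵐ x ∂μ, f x = ind ℂ s (cf (E.U (a.a (k * g) ((k * g)⁻¹ • x)))) := by
    rw [hf]
    filter_upwards [cl_apply (ind ℂ s) (zx μ a E (k * g)),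
      zv_apply (μ := μ) (E := E) (mea_a (a := a) (k * g) (k * g)⁻¹)] with x h1 h2
    rw [h1, zx_eq, h2]
  have ae2 : ∀ᵐ y ∂μ, h y = ind ℂ s' (cf (E.U (a.a g (g⁻¹ • y)))) := by
    rw [hh]
    filter_upwards [cl_apply (ind ℂ s') (zx μ a E g),
      zv_apply (μ := μ) (E := E) (mea_a (a := a) g g⁻¹)] with x h1 h2
    rw [h1, zx_eq, h2]
  have ae3 := (measurePreserving_smul k⁻¹ μ).quasiMeasurePreserving.ae ae2
  have hi2 : Integrable (fun x => ‖h (k⁻¹ • x)‖ ^ 2) μ := by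
    have h1 := xl_int h
    exact (measurePreserving_smul k⁻¹ μ).integrable_comp_of_integrable h1
  have hi3 : Integrable (B.indicator fun _ => (1 : ℝ)) μ := (integrable_const 1).indicator hBm
  have key : ∀ᵐ x ∂μ, ‖f x‖ ^ 2 ≤
      3 * (B.indicator (fun _ => (1 : ℝ)) x + C ^ 2 * ‖h (k⁻¹ • x)‖ ^ 2 + ε ^ 2 / 9) := by
    filter_upwards [ae1, ae3] with x h1 h2
    have h2' : h (k⁻¹ • x) = ind ℂ s' (cf (E.U (a.a g (g⁻¹ • (k⁻¹ • x))))) := h2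
    have e1 : a.a (k * g) ((k * g)⁻¹ • x) = a.a k (k⁻¹ • x) * a.a g (g⁻¹ • (k⁻¹ • x)) := by
      rw [a.mul, mul_inv_rev, mul_smul, smul_inv_smul]
    rw [h1, e1, h2']
    by_cases hx : x ∈ B
    · rw [Set.indicator_of_mem hx]
      have h4 : ‖ind ℂ s (cf (E.U (a.a k (k⁻¹ • x) * a.a g (g⁻¹ • (k⁻¹ • x)))))‖ ≤ 1 := by
        refine (norm_ind_le' _ _).trans ?_
        rw [norm_cf]
      have h5 := pow_le_pow_left₀ (norm_nonneg _) h4 2
      have h6 : 0 ≤ C ^ 2 * ‖ind ℂ s' (cf (E.U (a.a g (g⁻¹ • (k⁻¹ • x)))))‖ ^ 2 := by positivity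
      have h7 : 0 ≤ ε ^ 2 := by positivity
      linarith
    · rw [Set.indicator_of_notMem hx]
      have hx' : a.a k (k⁻¹ • x) ∈ T := by
        by_contra h4
        apply hx
        rw [hB, hB0]
        exact h4
      have h4 := hb _ hx' (a.a g (g⁻¹ • (k⁻¹ • x)))
      have h5 := pow_le_pow_left₀ (norm_nonneg _) h4 2
      refine h5.trans ?_
      nlinarith [sq_nonneg (C * ‖ind ℂ s' (cf (E.U (a.a g (g⁻¹ • (k⁻¹ • x)))))‖ - ε / 3), sq_nonneg (C * ‖ind ℂ s' (cf (E.U (a.a g (g⁻¹ • (k⁻¹ • x)))))‖), sq_nonneg ε]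
  have h5 : ‖f‖ ^ 2 ≤ ∫ x, 3 * (B.indicator (fun _ => (1 : ℝ)) x + C ^ 2 * ‖h (k⁻¹ • x)‖ ^ 2 + ε ^ 2 / 9) ∂μ := by
    rw [xl_norm_sq]
    exact integral_mono_ae (xl_int f)
      (((hi3.add (hi2.const_mul _)).add (integrable_const _)).const_mul 3) key
  have h6 : ∫ x, 3 * (B.indicator (fun _ => (1 : ℝ)) x + C ^ 2 * ‖h (k⁻¹ • x)‖ ^ 2 + ε ^ 2 / 9) ∂μ =
      3 * (μ.real B + C ^ 2 * ‖h‖ ^ 2 + ε ^ 2 / 9) := by
    have i1 : Integrable (fun x => C ^ 2 * ‖h (k⁻¹ • x)‖ ^ 2) μ := hi2.const_mul _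
    have i2 : Integrable (fun x => B.indicator (fun _ => (1 : ℝ)) x + C ^ 2 * ‖h (k⁻¹ • x)‖ ^ 2) μ :=
      hi3.add i1
    rw [integral_const_mul, integral_add i2 (integrable_const _), integral_add hi3 i1,
      integral_const_mul, integral_indicator_const _ hBm, xl_norm_sq, integral_const,
      integral_smul_eq_self (μ := μ) (g := k⁻¹) (fun y => ‖h y‖ ^ 2)]
    simp
  rw [h6] at h5
  have h7 : ‖f‖ ^ 2 ≤ (2 * C * ‖h‖ + ε) ^ 2 := by
    have h8 : 0 ≤ C * ‖h‖ := by positivity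
    nlinarith [sq_nonneg (C * ‖h‖), mul_nonneg h8 hε.le]
  exact le_of_sq_le_sq h7 (by positivity)

end Pool.Agent.Helper43.TA
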